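import Mathlib

/-!
# Decomposable arrays: definitions
-/

set_option autoImplicit false

open Module Polynomial Filter Topology

namespace Pool.Agent.H45.DQ

/-- decomposable alternating arrays: zero on non-injective index tuples, and the Plücker relations
`x e0 ^ (p - 1) * x e = det (x (update e0 i (e j)))` (multiplied by `x e0`) -/
def Dec {p : ℕ} {J A : Type} [DecidableEq J] [CommRing A] (x : (Fin p → J) → A) : Prop :=
  (∀ e, ¬ Function.Injective e → x e = 0) ∧
    ∀ e0 e, x e0 * (x e0 ^ (p - 1) * x e -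
      (Matrix.of fun i j => x (Function.update e0 i (e j))).det) = 0

/-- the pairing of `p` rows with an array -/
def pr {p : ℕ} {J A : Type} [Fintype J] [CommRing A] (R : Fin p → J → A)
    (x : (Fin p → J) → A) : A :=
  ∑ e : Fin p → J, (∏ i, R i (e i)) * x e

/-- the array of the maximal minors -/
def mn {p : ℕ} {J A : Type} [CommRing A] (M : Fin p → J → A) (e : Fin p → J) : A :=
  (Matrix.of fun i j => M i (e j)).det

/-- the coordinates of a compensator -/
def XX {A : Type} [CommRing A] {p m : ℕ} (P : Matrix (Fin m) (Fin p ⊕ Fin m) A)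
    (e : Fin p → Fin p ⊕ Fin m) : A :=
  (Matrix.fromRows (Matrix.of fun i => Pi.single (e i) (1 : A)) P).det

/-- the subspace of a decomposable array -/
def Vs {p : ℕ} {J : Type} (y : (Fin p → J) → ℝ) : Submodule ℝ (J → ℝ) :=
  Submodule.span ℝ (Set.range fun z : (Fin p → J) × Fin p =>
    fun j => y (Function.update z.1 z.2 j))

/-- the array of the coefficients of degree `d` -/
def cf {p : ℕ} {J : Type} (x : (Fin p → J) → ℝ[X]) (d : ℕ) (e : Fin p → J) : ℝ :=
  (x e).coeff d

/-- `d` is the lowest degree of `x` -/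
def IsLo {p : ℕ} {J : Type} (x : (Fin p → J) → ℝ[X]) (d : ℕ) : Prop :=
  cf x d ≠ 0 ∧ ∀ d' < d, cf x d' = 0

/-- `d` is the highest degree of `x` -/
def IsHi {p : ℕ} {J : Type} (x : (Fin p → J) → ℝ[X]) (d : ℕ) : Prop :=
  cf x d ≠ 0 ∧ ∀ d', d < d' → cf x d' = 0

/-- `X` is a limit of the arrays `x N` at the scale `σ`, along the hyperfilter -/
def IsLim {p : ℕ} {J : Type} (x : ℕ → (Fin p → J) → ℝ[X]) (σ : ℕ → ℝ)
    (X : (Fin p → J) → ℝ[X]) : Prop :=
  X ≠ 0 ∧ ∃ M : ℕ → ℝ, (∀ N, 0 < M N) ∧ ∀ d e,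
    Tendsto (fun N => σ N ^ d * (x N e).coeff d / M N) (hyperfilter ℕ) (𝓝 ((X e).coeff d))

end Pool.Agent.H45.DQ
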