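import Pool.Agent.H45.DQ.DecB
import Pool.Agent.H30.PD.Lead

/-!
# Module ArrD: the distance between the lowest and the highest subspace

PROOF of `Dec.lo`, `Dec.hi`: compare the coefficients of lowest (highest) degree in the relations.
(`x e0 = X^lo * x'`, coefficient of degree `(p+1) lo`; if all is a multiple of `cf x lo e0 = 0` nothing to
show. Or evaluate: `cf x lo` is the limit of `t^(-lo) x(t)`, `t → 0`, and `Dec` is a closed condition.)
PROOF of `ord_pr`. `V = Vs (cf x lo)`. Let `R` be rows with `finrank (V ⊓ ker R) ≥ r`. Then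
`X ^ (lo + r) ∣ pr (C R) x`. Choose `e0` with `cf x lo e0 ≠ 0`; `x e0 = X^lo g`, `g.eval 0 ≠ 0`,
`x (update e0 i j) = X^lo N i j`. The relations give `(x e0)^(p-1) * x e = det (x (update e0 i (e j)))`
(`ℝ[X]` is a domain), so with linearity and `pr_mn`
`g^(p-1) * X^(lo (p-1)) * pr (C R) x = X^(lo p) * det (∑ j, N i j * C (R k j))_{ik}`. At `X = 0` the rows
`N i · (0) = (j ↦ cf x lo (update e0 i j))` span `V` (`exists_mn` or its proof) and are independent, so the
matrix `∑ j, N i j (0) R k j` has rank `p - finrank (V ⊓ ker R)`: there is a constant invertible matrix `G`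
such that `r` rows of `G * (∑ j, N i j C (R k j))` vanish at `0`, so they are divisible by `X` and the
determinant by `X^r`. Cancel `X^(lo (p-1))`; `g` is coprime to `X`.
PROOF of `dist_le`. `A = V_lo ⊓ V_hi`, `j' = p - finrank A`. Choose rows `R : Fin p → J → ℝ` whose common
kernel contains a complement of `A` in `V_lo` (dimension `j'`) and meets `V_hi` only in `0` (the complement
`C` satisfies `C ⊓ V_hi = ⊥`; extend `C` to a complement `K` of `V_hi` in `J → ℝ`; `R` = the coordinates of the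
projection along `K`, `finrank = p`). `pr R (cf x hi) ≠ 0` (`pr_eq_zero_iff`), it is the coefficient of degree
`hi` of `pr (C R) x`; and `X^(lo + j')` divides this polynomial: `lo + j' ≤ hi`.
-/

set_option autoImplicit false

open Module Polynomial

namespace Pool.Agent.H45.DQ

/-- division by the lowest power -/
private theorem exists_low {p : ℕ} {J : Type} {x : (Fin p → J) → ℝ[X]} {l : ℕ}
    (hl : ∀ d' < l, cf x d' = 0) :
    ∃ y : (Fin p → J) → ℝ[X], (x = fun e => X ^ l * y e) ∧ ∀ e, (y e).eval 0 = cf x l e := by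
  have h1 : ∀ e, ∃ y : ℝ[X], x e = X ^ l * y := by
    intro e
    have h2 : (X : ℝ[X]) ^ l ∣ x e := by
      rw [X_pow_dvd_iff]
      intro d hd
      exact congrFun (hl d hd) e
    exact h2
  choose y hy using h1
  refine ⟨y, funext hy, fun e => ?_⟩
  have h3 : (x e).coeff (0 + l) = (y e).coeff 0 := by
    rw [hy e]
    exact coeff_X_pow_mul (y e) l 0
  rw [← coeff_zero_eq_eval_zero, ← h3, zero_add]
  rfl

theorem Dec.lo {p : ℕ} {J : Type} [Fintype J] [DecidableEq J] {x : (Fin p → J) → ℝ[X]}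
    (hp : 1 ≤ p) (hx : Dec x) {l : ℕ} (hl : IsLo x l) : Dec (cf x l) := by
  obtain ⟨y, hxy, hy⟩ := exists_low hl.2
  rw [hxy] at hx
  have h1 : Dec y := hx.of_mul hp (pow_ne_zero _ X_ne_zero)
  have h2 := h1.map (evalRingHom 0)
  have h3 : (fun e => (evalRingHom (0 : ℝ)) (y e)) = cf x l := funext hy
  rwa [h3] at h2

theorem Dec.hi {p : ℕ} {J : Type} [Fintype J] [DecidableEq J] {x : (Fin p → J) → ℝ[X]}
    (hp : 1 ≤ p) (hx : Dec x) {h : ℕ} (hh : IsHi x h) : Dec (cf x h) := by
  have hdeg : ∀ e, (x e).natDegree ≤ h := by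
    intro e
    rw [natDegree_le_iff_coeff_eq_zero]
    intro d hd
    exact congrFun (hh.2 d hd) e
  constructor
  · intro e he
    show (x e).coeff h = 0
    rw [hx.1 e he, coeff_zero]
  · intro e0 e
    have h1 := hx.2 e0 e
    obtain ⟨hd1, hd2⟩ := Pool.H30.PD.det_lead
      (Matrix.of fun i j => x (Function.update e0 i (e j)) : Matrix (Fin p) (Fin p) ℝ[X])
      (fun _ => h) (fun i j => hdeg _)
    have hsum : ∑ _i : Fin p, h = (p - 1) * h + h := by
      rw [Finset.sum_const, Finset.card_univ, Fintype.card_fin, smul_eq_mul]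
      obtain ⟨q, rfl⟩ : ∃ q, p = q + 1 := ⟨p - 1, by omega⟩
      rw [Nat.add_sub_cancel]
      ring
    rw [hsum] at hd1 hd2
    have hpw : (x e0 ^ (p - 1)).natDegree ≤ (p - 1) * h :=
      natDegree_pow_le.trans (Nat.mul_le_mul_left _ (hdeg e0))
    have h2 : (x e0 ^ (p - 1) * x e).natDegree ≤ (p - 1) * h + h :=
      natDegree_mul_le.trans (add_le_add hpw (hdeg e))
    have h3 : (x e0 ^ (p - 1) * x e).coeff ((p - 1) * h + h) =
        (x e0).coeff h ^ (p - 1) * (x e).coeff h := by
      rw [coeff_mul_add_eq_of_natDegree_le hpw (hdeg e), coeff_pow_of_natDegree_le (hdeg e0)]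
    have h4 := congrArg (fun f : ℝ[X] => f.coeff (h + ((p - 1) * h + h))) h1
    simp only [coeff_zero] at h4
    have h5 : (x e0 ^ (p - 1) * x e -
        (Matrix.of fun i j => x (Function.update e0 i (e j))).det).natDegree ≤
        (p - 1) * h + h := (natDegree_sub_le _ _).trans (max_le h2 hd1)
    rw [coeff_mul_add_eq_of_natDegree_le (hdeg e0) h5, coeff_sub, h3, hd2] at h4
    exact h4

/-- a determinant whose value at `0` has a left kernel of dimension at least `r` -/
private theorem dvd_det {p r : ℕ} (M : Matrix (Fin p) (Fin p) ℝ[X])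
    (L : Submodule ℝ (Fin p → ℝ))
    (hL : ∀ g ∈ L, ∀ k, (∑ i, C (g i) * M i k).eval 0 = 0) (hr : r ≤ finrank ℝ L) :
    X ^ r ∣ M.det := by
  classical
  obtain ⟨L', hLL'⟩ := Submodule.exists_isCompl L
  have hsum := Submodule.finrank_add_eq_of_isCompl hLL'
  rw [Module.finrank_pi, Fintype.card_fin] at hsum
  let b₁ := finBasis ℝ L
  let b₂ := finBasis ℝ L'
  let g : Fin (finrank ℝ L) ⊕ Fin (finrank ℝ L') → (Fin p → ℝ) :=
    Sum.elim (fun i => (b₁ i : Fin p → ℝ)) (fun i => (b₂ i : Fin p → ℝ))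
  have hg : LinearIndependent ℝ g := by
    refine LinearIndependent.sum_type ?_ ?_ ?_
    · exact b₁.linearIndependent.map' L.subtype (Submodule.ker_subtype L)
    · exact b₂.linearIndependent.map' L'.subtype (Submodule.ker_subtype L')
    · refine hLL'.disjoint.mono ?_ ?_
      · rw [Submodule.span_le]
        rintro _ ⟨i, rfl⟩
        exact (b₁ i).2
      · rw [Submodule.span_le]
        rintro _ ⟨i, rfl⟩
        exact (b₂ i).2
  have hcard : Fintype.card (Fin p) =
      Fintype.card (Fin (finrank ℝ L) ⊕ Fin (finrank ℝ L')) := by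
    rw [Fintype.card_sum, Fintype.card_fin, Fintype.card_fin, Fintype.card_fin, hsum]
  let ε : Fin p ≃ Fin (finrank ℝ L) ⊕ Fin (finrank ℝ L') := Fintype.equivOfCardEq hcard
  let G : Matrix (Fin p) (Fin p) ℝ := Matrix.of fun i => g (ε i)
  have hG : IsUnit G := Matrix.linearIndependent_rows_iff_isUnit.1 (hg.comp ε ε.injective)
  have hGdet : G.det ≠ 0 := ((Matrix.isUnit_iff_isUnit_det G).1 hG).ne_zero
  let v : Fin p → ℝ[X] := fun i => if (ε i).isLeft then X else 1
  let N : Matrix (Fin p) (Fin p) ℝ[X] := G.map C * M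
  have hN : ∀ i k, v i ∣ N i k := by
    intro i k
    show (if (ε i).isLeft then X else 1) ∣ N i k
    by_cases hi : (ε i).isLeft = true
    · rw [if_pos hi, X_dvd_iff, coeff_zero_eq_eval_zero]
      have h1 : N i k = ∑ l, C (G i l) * M l k := by
        show (G.map C * M) i k = _
        rw [Matrix.mul_apply]
        rfl
      rw [h1]
      refine hL (G i) ?_ k
      obtain ⟨t, ht⟩ := Sum.isLeft_iff.1 hi
      have h2 : G i = (b₁ t : Fin p → ℝ) := by
        show g (ε i) = _
        rw [ht]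
        rfl
      rw [h2]
      exact (b₁ t).2
    · rw [if_neg hi]
      exact one_dvd _
  choose A hA using hN
  have hdetN : N.det = (∏ i, v i) * (Matrix.of A).det := by
    rw [← Matrix.det_mul_column]
    congr 1
    ext1 i k
    exact hA i k
  have hprod : ∏ i, v i = X ^ finrank ℝ L := by
    have h1 : ∏ i, v i = ∏ s : Fin (finrank ℝ L) ⊕ Fin (finrank ℝ L'),
        (if s.isLeft then (X : ℝ[X]) else 1) :=
      Equiv.prod_comp ε fun s => if s.isLeft then (X : ℝ[X]) else 1
    rw [h1, Fintype.prod_sum_type]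
    simp
  have hdet2 : N.det = C G.det * M.det := by
    show (G.map C * M).det = _
    rw [Matrix.det_mul]
    congr 1
    exact ((C : ℝ →+* ℝ[X]).map_det G).symm
  have h3 : X ^ r ∣ C G.det * M.det := by
    rw [← hdet2, hdetN, hprod]
    exact (pow_dvd_pow X hr).mul_right _
  have hunit : IsUnit (C G.det) := isUnit_C.2 (isUnit_iff_ne_zero.2 hGdet)
  exact (hunit.dvd_mul_left).1 h3

theorem ord_pr {p : ℕ} {J : Type} [Fintype J] [DecidableEq J] {x : (Fin p → J) → ℝ[X]}
    (hp : 1 ≤ p) (hx : Dec x) {l : ℕ} (hl : IsLo x l) (R : Fin p → J → ℝ) {r : ℕ}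
    {K : Submodule ℝ (J → ℝ)} (hK : ∀ w ∈ K, ∀ i, ∑ j, R i j * w j = 0)
    (hr : r ≤ finrank ℝ (Vs (cf x l) ⊓ K : Submodule ℝ (J → ℝ))) :
    X ^ (l + r) ∣ pr (fun i j => C (R i j)) x := by
  have hlo := hx.lo hp hl
  obtain ⟨y, hxy, hy⟩ := exists_low hl.2
  obtain ⟨e0, he0⟩ : ∃ e0, cf x l e0 ≠ 0 := by
    by_contra hcon
    push Not at hcon
    exact hl.1 (funext hcon)
  have hdy : Dec y := by
    rw [hxy] at hx
    exact hx.of_mul hp (pow_ne_zero _ X_ne_zero)
  have hy0 : (y e0).eval 0 ≠ 0 := by rwa [hy e0]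
  have hye0 : y e0 ≠ 0 := fun h => hy0 (by rw [h, eval_zero])
  let N : Fin p → J → ℝ[X] := fun i j => y (Function.update e0 i j)
  have hmn : ∀ e, mn N e = y e0 ^ (p - 1) * y e := fun e => hdy.rel hye0 e
  have hpr : y e0 ^ (p - 1) * pr (fun i j => C (R i j)) y =
      (Matrix.of fun i k => ∑ j, N i j * C (R k j)).det := by
    rw [← pr_mn]
    unfold pr
    rw [Finset.mul_sum]
    refine Finset.sum_congr rfl fun e _ => ?_
    rw [hmn]
    ring
  -- the linear map given by the rows at `0`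
  let T : (Fin p → ℝ) →ₗ[ℝ] (J → ℝ) :=
    Fintype.linearCombination ℝ (fun i => fun j => cf x l (Function.update e0 i j))
  have hTapp : ∀ g j, T g j = ∑ i, g i * cf x l (Function.update e0 i j) := by
    intro g j
    show (∑ i, g i • fun j => cf x l (Function.update e0 i j)) j = _
    rw [Finset.sum_apply]
    rfl
  have hTe : ∀ g k, T g (e0 k) = g k * cf x l e0 := by
    intro g k
    rw [hTapp, Finset.sum_eq_single k]
    · rw [Function.update_eq_self]
    · intro i _ hik
      rw [hlo.1 _ fun hinj => hik ?_, mul_zero]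
      refine (hinj ?_).symm
      rw [Function.update_self, Function.update_of_ne (Ne.symm hik)]
    · intro h
      exact absurd (Finset.mem_univ k) h
  have hTinj : Function.Injective T := by
    intro g g' h
    funext k
    have h1 := congrFun h (e0 k)
    rw [hTe, hTe] at h1
    exact mul_right_cancel₀ he0 h1
  have hTrange : LinearMap.range T = Vs (cf x l) := by
    apply Submodule.eq_of_le_of_finrank_eq
    · rintro _ ⟨g, rfl⟩
      show (∑ i, g i • fun j => cf x l (Function.update e0 i j)) ∈ Vs (cf x l)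
      exact Submodule.sum_mem _ fun i _ => Submodule.smul_mem _ _
        (Submodule.subset_span ⟨(e0, i), rfl⟩)
    · rw [LinearMap.finrank_range_of_inj hTinj, Module.finrank_pi, Fintype.card_fin,
        finrank_Vs hp hlo hl.1]
  let L : Submodule ℝ (Fin p → ℝ) := (Vs (cf x l) ⊓ K).comap T
  have hLdim : r ≤ finrank ℝ L := by
    have h1 : L.map T = Vs (cf x l) ⊓ K := by
      rw [Submodule.map_comap_eq, hTrange]
      exact inf_eq_right.2 inf_le_left
    have h2 := (Submodule.equivMapOfInjective T hTinj L).finrank_eq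
    rw [h1] at h2
    rwa [h2]
  have hdvd := dvd_det (Matrix.of fun i k => ∑ j, N i j * C (R k j)) L (fun g hg k => by
    have h1 : T g ∈ K := hg.2
    have h2 := hK _ h1 k
    have h3 : (∑ i, C (g i) * ∑ j, N i j * C (R k j)).eval 0 = ∑ j, R k j * T g j := by
      rw [eval_finset_sum]
      simp only [hTapp, Finset.mul_sum]
      rw [Finset.sum_comm]
      refine Finset.sum_congr rfl fun i _ => ?_
      rw [eval_finset_sum]
      refine Finset.sum_congr rfl fun j _ => ?_
      rw [eval_mul, eval_mul, eval_C, eval_C, hy]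
      ring
    exact h3.trans h2) hLdim
  rw [← hpr] at hdvd
  have hX : ¬ (X : ℝ[X]) ∣ y e0 ^ (p - 1) := by
    intro h
    have h1 := prime_X.dvd_of_dvd_pow h
    rw [X_dvd_iff, coeff_zero_eq_eval_zero] at h1
    exact hy0 h1
  have h4 : X ^ r ∣ pr (fun i j => C (R i j)) y := prime_X.pow_dvd_of_dvd_mul_left r hX hdvd
  have h5 : pr (fun i j => C (R i j)) x = X ^ l * pr (fun i j => C (R i j)) y := by
    rw [hxy]
    unfold pr
    rw [Finset.mul_sum]
    refine Finset.sum_congr rfl fun e _ => ?_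
    ring
  rw [h5, pow_add]
  exact mul_dvd_mul_left _ h4

theorem dist_le {p : ℕ} {J : Type} [Fintype J] [DecidableEq J] {x : (Fin p → J) → ℝ[X]}
    (hp : 1 ≤ p) (hx : Dec x) {l h : ℕ} (hl : IsLo x l) (hh : IsHi x h) :
    p ≤ finrank ℝ (Vs (cf x l) ⊓ Vs (cf x h) : Submodule ℝ (J → ℝ)) + (h - l) := by
  classical
  set V := Vs (cf x l) with hV
  set W := Vs (cf x h) with hW
  have hVdim : finrank ℝ V = p := finrank_Vs hp (hx.lo hp hl) hl.1
  have hWdim : finrank ℝ W = p := finrank_Vs hp (hx.hi hp hh) hh.1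
  -- a complement of `V ⊓ W` in `V`
  obtain ⟨C₀, hC₀⟩ := Submodule.exists_isCompl (V ⊓ W)
  let D := C₀ ⊓ V
  have hD1 : (V ⊓ W) ⊔ D = V := by
    rw [← sup_inf_assoc_of_le C₀ (inf_le_left : V ⊓ W ≤ V), hC₀.sup_eq_top, top_inf_eq]
  have hD2 : (V ⊓ W) ⊓ D = ⊥ := by
    rw [← inf_assoc, hC₀.inf_eq_bot, bot_inf_eq]
  have hDdim : finrank ℝ (V ⊓ W : Submodule ℝ (J → ℝ)) + finrank ℝ D = p := by
    have h1 := Submodule.finrank_sup_add_finrank_inf_eq (V ⊓ W) D
    rw [hD1, hD2, finrank_bot, hVdim] at h1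
    omega
  have hDW : Disjoint D W := by
    rw [disjoint_iff, eq_bot_iff]
    intro w hw
    have h1 : w ∈ (V ⊓ W) ⊓ D := ⟨⟨hw.1.2, hw.2⟩, hw.1⟩
    rwa [hD2] at h1
  obtain ⟨K, hDK, hKW⟩ := hDW.exists_isCompl
  -- coordinates of the projection along `K`
  let π : (J → ℝ) →ₗ[ℝ] W := Submodule.linearProjOfIsCompl W K hKW.symm
  let b : Basis (Fin p) ℝ W := finBasisOfFinrankEq ℝ W hWdim
  let R : Fin p → J → ℝ := fun i j => b.repr (π (Pi.single j 1)) i
  have hR : ∀ (w : J → ℝ) (i : Fin p), ∑ j, R i j * w j = b.repr (π w) i := by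
    intro w i
    have h1 : w = ∑ j, w j • (Pi.single j (1 : ℝ) : J → ℝ) := by
      funext k
      rw [Finset.sum_apply, Finset.sum_eq_single k]
      · simp
      · intro j _ hjk
        simp [Pi.single_apply, Ne.symm hjk]
      · intro hk
        exact absurd (Finset.mem_univ k) hk
    conv_rhs => rw [h1]
    rw [map_sum, map_sum, Finsupp.finset_sum_apply]
    refine Finset.sum_congr rfl fun j _ => ?_
    rw [map_smul, map_smul, Finsupp.smul_apply, smul_eq_mul, mul_comm]
  have hKker : ∀ w ∈ K, ∀ i, ∑ j, R i j * w j = 0 := by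
    intro w hw i
    rw [hR]
    have h1 : π w = 0 := (Submodule.linearProjOfIsCompl_apply_eq_zero_iff hKW.symm).2 hw
    rw [h1, map_zero, Finsupp.zero_apply]
  have hne : pr R (cf x h) ≠ 0 := by
    intro h0
    obtain ⟨w, hw, hw0, hwR⟩ := (pr_eq_zero_iff hp (hx.hi hp hh) hh.1 R).1 h0
    have h1 : π w = 0 := by
      apply b.repr.injective
      rw [map_zero]
      ext i
      rw [← hR, hwR i, Finsupp.zero_apply]
    have h2 : w ∈ K := (Submodule.linearProjOfIsCompl_apply_eq_zero_iff hKW.symm).1 h1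
    have h3 : w ∈ K ⊓ W := ⟨h2, hw⟩
    rw [hKW.inf_eq_bot, Submodule.mem_bot] at h3
    exact hw0 h3
  have hcoef : (pr (fun i j => C (R i j)) x).coeff h = pr R (cf x h) := by
    unfold pr
    rw [finset_sum_coeff]
    refine Finset.sum_congr rfl fun e _ => ?_
    rw [← map_prod, coeff_C_mul]
    rfl
  have hdvd := ord_pr hp hx hl R hKker (r := finrank ℝ D)
    (Submodule.finrank_mono (le_inf inf_le_right hDK))
  rw [X_pow_dvd_iff] at hdvd
  have h4 : l + finrank ℝ D ≤ h := by
    by_contra hcon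
    exact hne (by rw [← hcoef, hdvd h (by omega)])
  omega

end Pool.Agent.H45.DQ
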