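import Pool.Agent.H45.DQ.ArrV

/-!
# Module ArrLine: two arrays whose subspaces are at distance one

PROOF. `A = Vs y0 ⊓ Vs y1` has dimension `p - 1` (`finrank_Vs`, the subspaces are different). Choose a basis
`α` of `A` (`p - 1` vectors), `u ∈ Vs y0`, `w ∈ Vs y1` outside `A`. `y0 = κ0 mn (α, u)`, `y1 = κ1 mn (α, w)`
(`dec_unique` and `vs_mn` with the same span; `(α, u)` as `Fin.snoc` or `Function.update`-like family
`Fin p → (J → ℝ)`). Replace `u` by `κ0 u` and `w` by `κ1 w`: `y0 = mn (α, u)`, `y1 = mn (α, w)`, and by linearity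
of the determinant in the last row `y0 + t y1 = mn (α, u + t w)`, with independent rows (`u, w` are
independent modulo `A`, as `Vs y0 ≠ Vs y1`). `vs_mn`, `dec_mn`.
-/

set_option autoImplicit false

open Module Polynomial

namespace Pool.Agent.H45.DQ

/-- linearity in the first row -/
private theorem mn_cons {q : ℕ} {J : Type} (α : Fin q → J → ℝ) (u w : J → ℝ) (r t : ℝ)
    (e : Fin (q + 1) → J) :
    mn (Fin.cons (r • u + t • w) α : Fin (q + 1) → J → ℝ) e =
      r * mn (Fin.cons u α : Fin (q + 1) → J → ℝ) e +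
        t * mn (Fin.cons w α : Fin (q + 1) → J → ℝ) e := by
  have hup : ∀ v : J → ℝ, (Matrix.of fun i j => (Fin.cons v α : Fin (q + 1) → J → ℝ) i (e j)) =
      (Matrix.of fun i j => (Fin.cons 0 α : Fin (q + 1) → J → ℝ) i (e j)).updateRow 0
        (fun j => v (e j)) := by
    intro v
    ext i j
    refine Fin.cases ?_ (fun i => ?_) i
    · rw [Matrix.updateRow_self]
      rfl
    · rw [Matrix.updateRow_ne (Fin.succ_ne_zero i)]
      rfl
  unfold mn
  rw [hup, hup u, hup w]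
  have h1 : (fun j => (r • u + t • w) (e j)) =
      r • (fun j => u (e j)) + t • (fun j => w (e j)) := rfl
  rw [h1, Matrix.det_updateRow_add, Matrix.det_updateRow_smul, Matrix.det_updateRow_smul]

theorem line_struct {p : ℕ} {J : Type} [Fintype J] [DecidableEq J] {y0 y1 : (Fin p → J) → ℝ}
    (hp : 1 ≤ p) (h0 : Dec y0) (h00 : y0 ≠ 0) (h1 : Dec y1) (h10 : y1 ≠ 0)
    (hne : Vs y0 ≠ Vs y1)
    (hd : p ≤ finrank ℝ (Vs y0 ⊓ Vs y1 : Submodule ℝ (J → ℝ)) + 1) :
    ∃ u w : J → ℝ, Vs y0 = (Vs y0 ⊓ Vs y1) ⊔ Submodule.span ℝ {u} ∧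
      Vs y1 = (Vs y0 ⊓ Vs y1) ⊔ Submodule.span ℝ {w} ∧
      ∀ t : ℝ, Dec (y0 + t • y1) ∧ y0 + t • y1 ≠ 0 ∧
        Vs (y0 + t • y1) = (Vs y0 ⊓ Vs y1) ⊔ Submodule.span ℝ {u + t • w} := by
  obtain ⟨q, rfl⟩ : ∃ q, p = q + 1 := ⟨p - 1, by omega⟩
  set V0 := Vs y0 with hV0
  set V1 := Vs y1 with hV1
  have d0 : finrank ℝ V0 = q + 1 := finrank_Vs hp h0 h00
  have d1 : finrank ℝ V1 = q + 1 := finrank_Vs hp h1 h10
  have dA : finrank ℝ (V0 ⊓ V1 : Submodule ℝ (J → ℝ)) = q := by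
    have e1 : finrank ℝ (V0 ⊓ V1 : Submodule ℝ (J → ℝ)) ≤ q + 1 := by
      rw [← d0]
      exact Submodule.finrank_mono inf_le_left
    have e2 : finrank ℝ (V0 ⊓ V1 : Submodule ℝ (J → ℝ)) ≠ q + 1 := by
      intro h
      have e3 : V0 ⊓ V1 = V0 := Submodule.eq_of_le_of_finrank_eq inf_le_left (by rw [h, d0])
      have e4 : V0 ⊓ V1 = V1 := Submodule.eq_of_le_of_finrank_eq inf_le_right (by rw [h, d1])
      exact hne (e3.symm.trans e4)
    omega
  let b : Basis (Fin q) ℝ (V0 ⊓ V1 : Submodule ℝ (J → ℝ)) := finBasisOfFinrankEq ℝ _ dA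
  let α : Fin q → J → ℝ := fun i => (b i : J → ℝ)
  have hα : LinearIndependent ℝ α :=
    b.linearIndependent.map' (V0 ⊓ V1).subtype (Submodule.ker_subtype _)
  have hαs : Submodule.span ℝ (Set.range α) = V0 ⊓ V1 := by
    have e1 : Set.range α = (V0 ⊓ V1).subtype '' Set.range b := by
      rw [← Set.range_comp]
      rfl
    rw [e1, Submodule.span_image, b.span_eq, Submodule.map_subtype_top]
  have hspan : ∀ v : J → ℝ, Submodule.span ℝ (Set.range (Fin.cons v α : Fin (q + 1) → J → ℝ)) =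
      (V0 ⊓ V1) ⊔ Submodule.span ℝ {v} := by
    intro v
    rw [Fin.range_cons, Submodule.span_insert, hαs, sup_comm]
  have hind : ∀ v : J → ℝ, v ∉ V0 ⊓ V1 →
      LinearIndependent ℝ (Fin.cons v α : Fin (q + 1) → J → ℝ) := by
    intro v hv
    rw [linearIndependent_finCons]
    exact ⟨hα, by rwa [hαs]⟩
  -- one subspace
  have hone : ∀ (V : Submodule ℝ (J → ℝ)) (y : (Fin (q + 1) → J) → ℝ), Dec y → y ≠ 0 →
      Vs y = V → V0 ⊓ V1 ≤ V → finrank ℝ V = q + 1 →
      ∃ u ∈ V, u ∉ V0 ⊓ V1 ∧ V = (V0 ⊓ V1) ⊔ Submodule.span ℝ {u} ∧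
        ∀ e, y e = mn (Fin.cons u α : Fin (q + 1) → J → ℝ) e := by
    intro V y hy hy0 hVy hAV hVd
    have hlt : V0 ⊓ V1 < V := by
      refine lt_of_le_of_ne hAV fun h => ?_
      rw [h, hVd] at dA
      omega
    obtain ⟨u', hu', hu'A⟩ := SetLike.exists_of_lt hlt
    have hVu : V = (V0 ⊓ V1) ⊔ Submodule.span ℝ {u'} := by
      symm
      apply Submodule.eq_of_le_of_finrank_le
      · exact sup_le hAV ((Submodule.span_singleton_le_iff_mem _ _).2 hu')
      · rw [← hspan, finrank_span_eq_card (hind u' hu'A), Fintype.card_fin, hVd]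
    obtain ⟨n1, n2⟩ := vs_mn hp (hind u' hu'A) one_ne_zero
    have hdec : Dec (fun e => 1 * mn (Fin.cons u' α : Fin (q + 1) → J → ℝ) e) :=
      (dec_mn _).smul hp 1
    obtain ⟨r, hr, hyr⟩ := dec_unique hp hdec n1 hy hy0 (by rw [n2, hspan, ← hVu, hVy])
    refine ⟨r • u', V.smul_mem r hu', ?_, ?_, ?_⟩
    · intro h
      apply hu'A
      have h2 := (V0 ⊓ V1).smul_mem r⁻¹ h
      rwa [smul_smul, inv_mul_cancel₀ hr, one_smul] at h2
    · rw [Submodule.span_singleton_smul_eq (isUnit_iff_ne_zero.2 hr)]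
      exact hVu
    · intro e
      have h2 := mn_cons α u' 0 r 0 e
      rw [smul_zero, add_zero, zero_mul, add_zero] at h2
      rw [h2, hyr]
      show r * (1 * _) = _
      rw [one_mul]
  obtain ⟨u, hu, huA, hVu, hyu⟩ := hone V0 y0 h0 h00 rfl inf_le_left d0
  obtain ⟨w, hw, hwA, hVw, hyw⟩ := hone V1 y1 h1 h10 rfl inf_le_right d1
  refine ⟨u, w, hVu, hVw, fun t => ?_⟩
  have hline : y0 + t • y1 = fun e =>
      1 * mn (Fin.cons (u + t • w) α : Fin (q + 1) → J → ℝ) e := by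
    funext e
    have h2 := mn_cons α u w 1 t e
    rw [one_smul] at h2
    rw [h2, Pi.add_apply, Pi.smul_apply, hyu, hyw, smul_eq_mul]
    ring
  have hnot : u + t • w ∉ V0 ⊓ V1 := by
    intro h
    by_cases ht : t = 0
    · rw [ht, zero_smul, add_zero] at h
      exact huA h
    · have h2 : t • w ∈ V0 := by
        have h3 := V0.sub_mem h.1 hu
        rwa [add_sub_cancel_left] at h3
      have h4 : w ∈ V0 := by
        have h3 := V0.smul_mem t⁻¹ h2
        rwa [smul_smul, inv_mul_cancel₀ ht, one_smul] at h3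
      exact hwA ⟨h4, hw⟩
  obtain ⟨n1, n2⟩ := vs_mn hp (hind _ hnot) one_ne_zero
  rw [hline]
  refine ⟨(dec_mn _).smul hp 1, n1, ?_⟩
  rw [n2, hspan]

end Pool.Agent.H45.DQ
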