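import Pool.Agent.H45.DQ.Arr

/-!
# Module ArrV: decomposable arrays over the reals and subspaces

PROOF of `dec_mn`. Not injective: two equal columns. `M e` = the square matrix of the columns `e`:
`(adjugate (M e0) * M e) i j` is the determinant of `M e0` with the column `i` replaced by the column
`e j` (Cramer, `Matrix.cramer_apply`, `Matrix.cramer_eq_adjugate_mulVec`), i.e. `mn M (update e0 i (e j))`;
`Matrix.det_mul`, `Matrix.det_adjugate`.
PROOF of `pr_mn`: `det (M R^T) = ∑ over e` by multilinearity in the columns (`Matrix.det_mul`-like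
expansion: `MultilinearMap.map_sum` for `Matrix.detRowAlternating` on the transposed matrix whose row `k` is
`∑ j, R k j • (column j of M)`).
PROOF of `exists_mn`. `y e0 ≠ 0`; `M i j = y (update e0 i j) / y e0`. `M i (e0 k) = δ_ik` (for `k ≠ i` the tuple
`update e0 i (e0 k)` is not injective), so the rows of `M` are linearly independent, and the relation gives
`y e = y e0 * mn M e`. `Vs y = span (range M)`: `≥`: the rows of `M` are multiples of members of `Vs y`; `≤`:
`j ↦ mn M (update e i j)` is the expansion of a determinant along the column `i`, a linear combination of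
the rows `j ↦ M k j` (`Matrix.det_updateCol`-linearity or `Matrix.det_succ_column`; cleanest: Cramer as
above with the adjugate of `M e`).
PROOF of `vs_mn`: the same; `mn M ≠ 0` for independent rows (`Matrix` of rank `p` has a nonzero maximal
minor; or: by `exists_mn`-type argument; e.g. `LinearIndependent.exists_submatrix_det_ne_zero`-type lemma or
`Matrix.rank`; alternatively extend to a basis).
PROOF of `dec_unique`: `y = κ mn M`, `y' = κ' mn M'` with the rows of `M'` in the row space of `M`:
`M' = G M`, `mn M' = det G * mn M` (`Matrix.det_mul`).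
PROOF of `pr_eq_zero_iff`: `pr R y = κ det (M R^T)`; it is zero iff there is `g ≠ 0` with `g ᵥ* (M R^T) = 0`
(`Matrix.exists_vecMul_eq_zero_iff`), i.e. `w = ∑ g_i M_i ∈ Vs y`, `w ≠ 0` (independence), is orthogonal to
all rows of `R`.
-/

set_option autoImplicit false

open Module Polynomial

namespace Pool.Agent.H45.DQ

private theorem av_upd {p : ℕ} {J A : Type} [DecidableEq J] [CommRing A] (M : Fin p → J → A)
    (e : Fin p → J) (i : Fin p) (j : J) :
    mn M (Function.update e i j) =
      ∑ r, (Matrix.of fun i j => M i (e j)).adjugate i r * M r j := by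
  have h1 : (Matrix.of fun i' j' => M i' (Function.update e i j j')) =
      (Matrix.of fun i j => M i (e j)).updateCol i (fun r => M r j) := by
    ext a b
    by_cases hb : b = i
    · subst hb
      simp [Matrix.updateCol_apply]
    · simp [Matrix.updateCol_apply, hb]
  unfold mn
  rw [h1, ← Matrix.cramer_apply, Matrix.cramer_eq_adjugate_mulVec]
  rfl

private theorem av_det {p : ℕ} {J A : Type} [DecidableEq J] [CommRing A] (M : Fin p → J → A)
    (e0 e : Fin p → J) :
    (Matrix.of fun i j => mn M (Function.update e0 i (e j))).det =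
      mn M e0 ^ (p - 1) * mn M e := by
  have h1 : (Matrix.of fun i j => mn M (Function.update e0 i (e j))) =
      (Matrix.of fun i j => M i (e0 j)).adjugate * (Matrix.of fun i j => M i (e j)) := by
    ext i j
    rw [Matrix.of_apply, av_upd, Matrix.mul_apply]
    rfl
  rw [h1, Matrix.det_mul, Matrix.det_adjugate, Fintype.card_fin]
  rfl

theorem dec_mn {p : ℕ} {J A : Type} [DecidableEq J] [CommRing A] (M : Fin p → J → A) :
    Dec (mn M) := by
  refine ⟨fun e he => ?_, fun e0 e => ?_⟩
  · rw [Function.not_injective_iff] at he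
    obtain ⟨a, b, hab, hne⟩ := he
    unfold mn
    exact Matrix.det_zero_of_column_eq hne fun i => by
      show M i (e a) = M i (e b)
      rw [hab]
  · rw [av_det, sub_self, mul_zero]

theorem Dec.smul {p : ℕ} {J A : Type} [DecidableEq J] [CommRing A] {x : (Fin p → J) → A}
    (hp : 1 ≤ p) (h : Dec x) (r : A) : Dec (fun e => r * x e) := by
  refine ⟨fun e he => by
    show r * x e = 0
    rw [h.1 e he, mul_zero], fun e0 e => ?_⟩
  have h1 : (Matrix.of fun i j => r * x (Function.update e0 i (e j))) =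
      r • (Matrix.of fun i j => x (Function.update e0 i (e j)) : Matrix (Fin p) (Fin p) A) := by
    ext i j
    rfl
  show r * x e0 * ((r * x e0) ^ (p - 1) * (r * x e) - (Matrix.of fun i j => r * x _).det) = 0
  rw [h1, Matrix.det_smul, Fintype.card_fin]
  have h2 := h.2 e0 e
  obtain ⟨q, rfl⟩ : ∃ q, p = q + 1 := ⟨p - 1, by omega⟩
  have h3 : q + 1 - 1 = q := rfl
  rw [h3] at h2 ⊢
  have h4 : r * x e0 * ((r * x e0) ^ q * (r * x e) - r ^ (q + 1) *
      (Matrix.of fun i j => x (Function.update e0 i (e j))).det) =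
      r ^ (q + 2) * (x e0 * (x e0 ^ q * x e -
        (Matrix.of fun i j => x (Function.update e0 i (e j))).det)) := by
    ring
  rw [h4, h2, mul_zero]

theorem pr_mn {p : ℕ} {J A : Type} [Fintype J] [CommRing A] (R M : Fin p → J → A) :
    pr R (mn M) = (Matrix.of fun i k => ∑ j, M i j * R k j).det := by
  classical
  have h1 : (Matrix.of fun i k => ∑ j, M i j * R k j).det =
      Matrix.detRowAlternating (R := A) (n := Fin p)
        (fun k => ∑ j, R k j • (fun i => M i j : Fin p → A)) := by
    rw [← Matrix.det_transpose]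
    show Matrix.detRowAlternating _ = _
    congr 1
    funext k
    funext i
    rw [Finset.sum_apply]
    show ∑ j, M i j * R k j = _
    refine Finset.sum_congr rfl fun j _ => ?_
    show _ = R k j * M i j
    rw [mul_comm]
  rw [h1]
  have h2 := (Matrix.detRowAlternating (R := A) (n := Fin p)).toMultilinearMap.map_sum
    (fun k (j : J) => R k j • (fun i => M i j : Fin p → A))
  refine Eq.trans ?_ h2.symm
  unfold pr
  refine Finset.sum_congr rfl fun e _ => ?_
  rw [MultilinearMap.map_smul_univ]
  show _ = (∏ i, R i (e i)) * _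
  congr 1
  unfold mn
  rw [← Matrix.det_transpose]
  rfl

private theorem av_sing {p : ℕ} {J : Type} [Fintype J] (R : Fin p → J → ℝ) {M : Fin p → J → ℝ} :
    pr R (mn M) = 0 ↔ ∃ g : Fin p → ℝ, g ≠ 0 ∧ ∀ k, ∑ j, R k j * (∑ i, g i • M i) j = 0 := by
  rw [pr_mn, ← Matrix.exists_vecMul_eq_zero_iff]
  refine exists_congr fun g => and_congr_right fun _ => ?_
  rw [funext_iff]
  refine forall_congr' fun k => ?_
  have h1 : (Matrix.vecMul g (Matrix.of fun i k => ∑ j, M i j * R k j)) k =
      ∑ j, R k j * (∑ i, g i • M i) j := by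
    show ∑ i, g i * ∑ j, M i j * R k j = _
    simp only [Finset.mul_sum, Finset.sum_apply, Pi.smul_apply, smul_eq_mul]
    rw [Finset.sum_comm]
    refine Finset.sum_congr rfl fun j _ => Finset.sum_congr rfl fun i _ => ?_
    ring
  rw [h1]
  rfl

private theorem av_minor {p : ℕ} {J : Type} [Fintype J] {M : Fin p → J → ℝ}
    (hM : LinearIndependent ℝ M) : ∃ e, mn M e ≠ 0 := by
  by_contra hcon
  push Not at hcon
  have h1 : pr M (mn M) = 0 := by
    unfold pr
    exact Finset.sum_eq_zero fun e _ => by rw [hcon e, mul_zero]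
  obtain ⟨g, hg, hgk⟩ := (av_sing M).1 h1
  have h2 : ∑ j, (∑ i, g i • M i) j * (∑ i, g i • M i) j = 0 := by
    have h3 : ∑ j, (∑ i, g i • M i) j * (∑ i, g i • M i) j =
        ∑ k, g k * ∑ j, M k j * (∑ i, g i • M i) j := by
      simp only [Finset.mul_sum]
      rw [Finset.sum_comm]
      refine Finset.sum_congr rfl fun j _ => ?_
      nth_rewrite 1 [Finset.sum_apply]
      rw [Finset.sum_mul]
      refine Finset.sum_congr rfl fun k _ => ?_
      rw [Pi.smul_apply, smul_eq_mul, mul_assoc]
    rw [h3]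
    exact Finset.sum_eq_zero fun k _ => by rw [hgk k, mul_zero]
  have h4 : ∑ i, g i • M i = 0 := by
    funext j
    have h5 := (Finset.sum_eq_zero_iff_of_nonneg fun j _ => mul_self_nonneg _).1 h2 j
      (Finset.mem_univ j)
    exact mul_self_eq_zero.1 h5
  apply hg
  funext i
  exact Fintype.linearIndependent_iff.1 hM g h4 i

theorem vs_mn {p : ℕ} {J : Type} [Fintype J] [DecidableEq J] (hp : 1 ≤ p) {M : Fin p → J → ℝ}
    (hM : LinearIndependent ℝ M) {κ : ℝ} (hκ : κ ≠ 0) :
    (fun e => κ * mn M e) ≠ 0 ∧ Vs (fun e => κ * mn M e) = Submodule.span ℝ (Set.range M) := by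
  obtain ⟨e0, he0⟩ := av_minor hM
  refine ⟨fun h => mul_ne_zero hκ he0 (congrFun h e0), ?_⟩
  have hrow : ∀ (e : Fin p → J) (i : Fin p),
      (fun j => κ * mn M (Function.update e i j)) =
        κ • ∑ r, (Matrix.of fun i j => M i (e j)).adjugate i r • M r := by
    intro e i
    funext j
    rw [av_upd, Pi.smul_apply, Finset.sum_apply, smul_eq_mul]
    rfl
  apply le_antisymm
  · unfold Vs
    rw [Submodule.span_le]
    rintro _ ⟨⟨e, i⟩, rfl⟩
    show (fun j => κ * mn M (Function.update e i j)) ∈ _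
    rw [hrow e i]
    exact Submodule.smul_mem _ _ (Submodule.sum_mem _ fun r _ =>
      Submodule.smul_mem _ _ (Submodule.subset_span ⟨r, rfl⟩))
  · rw [Submodule.span_le]
    rintro _ ⟨r, rfl⟩
    have h1 : M r = (κ * mn M e0)⁻¹ • ∑ i, M r (e0 i) •
        (fun j => κ * mn M (Function.update e0 i j)) := by
      have h2 : ∑ i, M r (e0 i) • (fun j => κ * mn M (Function.update e0 i j)) =
          (κ * mn M e0) • M r := by
        simp only [hrow]
        have h3 : ∀ s, ∑ i, M r (e0 i) * (Matrix.of fun i j => M i (e0 j)).adjugate i s =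
            if r = s then mn M e0 else 0 := by
          intro s
          have h4 := congrFun (congrFun (Matrix.mul_adjugate
            (Matrix.of fun i j => M i (e0 j) : Matrix (Fin p) (Fin p) ℝ)) r) s
          rw [Matrix.mul_apply] at h4
          refine h4.trans ?_
          rw [Matrix.smul_apply, Matrix.one_apply, smul_eq_mul]
          by_cases hrs : r = s
          · rw [if_pos hrs, if_pos hrs, mul_one]
            rfl
          · rw [if_neg hrs, if_neg hrs, mul_zero]
        have h5 : ∑ i, M r (e0 i) • κ • ∑ s,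
            (Matrix.of fun i j => M i (e0 j)).adjugate i s • M s =
            κ • ∑ s, (∑ i, M r (e0 i) * (Matrix.of fun i j => M i (e0 j)).adjugate i s) • M s := by
          simp only [Finset.smul_sum, Finset.sum_smul, smul_smul]
          rw [Finset.sum_comm]
          refine Finset.sum_congr rfl fun s _ => Finset.sum_congr rfl fun i _ => ?_
          congr 1
          ring
        rw [h5]
        simp only [h3, ite_smul, zero_smul, Finset.sum_ite_eq, Finset.mem_univ, if_true, smul_smul]
      rw [h2, smul_smul, inv_mul_cancel₀ (mul_ne_zero hκ he0), one_smul]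
    rw [SetLike.mem_coe, h1]
    refine Submodule.smul_mem _ _ (Submodule.sum_mem _ fun i _ => Submodule.smul_mem _ _ ?_)
    exact Submodule.subset_span ⟨(e0, i), rfl⟩

theorem exists_mn {p : ℕ} {J : Type} [Fintype J] [DecidableEq J] {y : (Fin p → J) → ℝ}
    (hp : 1 ≤ p) (hy : Dec y) (h0 : y ≠ 0) :
    ∃ (M : Fin p → J → ℝ) (κ : ℝ), κ ≠ 0 ∧ LinearIndependent ℝ M ∧ (y = fun e => κ * mn M e) ∧
      Vs y = Submodule.span ℝ (Set.range M) := by
  obtain ⟨e0, he0⟩ : ∃ e0, y e0 ≠ 0 := by
    by_contra h
    push Not at h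
    exact h0 (funext h)
  obtain ⟨M, hMdef⟩ : ∃ M : Fin p → J → ℝ, M = fun i j => y (Function.update e0 i j) / y e0 :=
    ⟨_, rfl⟩
  have hδ : ∀ i k, M i (e0 k) = if k = i then 1 else 0 := by
    intro i k
    rw [hMdef]
    show y (Function.update e0 i (e0 k)) / y e0 = _
    by_cases hk : k = i
    · subst hk
      rw [Function.update_eq_self, div_self he0, if_pos rfl]
    · rw [if_neg hk, hy.1 _ (fun hinj => hk ?_), zero_div]
      apply hinj
      rw [Function.update_of_ne hk, Function.update_self]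
  have hM : LinearIndependent ℝ M := by
    rw [Fintype.linearIndependent_iff]
    intro g hg k
    have h1 := congrFun hg (e0 k)
    rw [Finset.sum_apply] at h1
    simp only [Pi.smul_apply, hδ, smul_eq_mul, mul_ite, mul_one, mul_zero, Finset.sum_ite_eq,
      Finset.mem_univ, if_true, Pi.zero_apply] at h1
    exact h1
  have hyM : y = fun e => y e0 * mn M e := by
    funext e
    have h1 := (mul_eq_zero.1 (hy.2 e0 e)).resolve_left he0
    have h2 : (Matrix.of fun i j => y (Function.update e0 i (e j))) =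
        y e0 • (Matrix.of fun i j => M i (e j) : Matrix (Fin p) (Fin p) ℝ) := by
      ext i j
      rw [hMdef]
      show y (Function.update e0 i (e j)) = y e0 * (y (Function.update e0 i (e j)) / y e0)
      rw [mul_div_cancel₀ _ he0]
    rw [h2, Matrix.det_smul, Fintype.card_fin] at h1
    have h3 : y e0 ^ p = y e0 ^ (p - 1) * y e0 := by
      rw [← pow_succ]
      congr 1
      omega
    rw [h3, sub_eq_zero, mul_assoc] at h1
    exact mul_left_cancel₀ (pow_ne_zero _ he0) h1
  obtain ⟨-, h5⟩ := vs_mn hp hM he0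
  refine ⟨M, y e0, he0, hM, hyM, ?_⟩
  rw [← hyM] at h5
  exact h5

theorem finrank_Vs {p : ℕ} {J : Type} [Fintype J] [DecidableEq J] {y : (Fin p → J) → ℝ}
    (hp : 1 ≤ p) (hy : Dec y) (h0 : y ≠ 0) : finrank ℝ (Vs y) = p := by
  obtain ⟨M, κ, -, hM, -, hV⟩ := exists_mn hp hy h0
  rw [hV, finrank_span_eq_card hM, Fintype.card_fin]

private theorem av_smul_le {p : ℕ} {J : Type} (y : (Fin p → J) → ℝ) (r : ℝ) :
    Vs (r • y) ≤ Vs y := by
  unfold Vs
  rw [Submodule.span_le]
  rintro _ ⟨z, rfl⟩
  exact Submodule.smul_mem _ r (Submodule.subset_span ⟨z, rfl⟩)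

theorem Vs_smul {p : ℕ} {J : Type} {y : (Fin p → J) → ℝ} {r : ℝ} (hr : r ≠ 0) :
    Vs (r • y) = Vs y := by
  refine le_antisymm (av_smul_le y r) ?_
  have h := av_smul_le (r • y) r⁻¹
  rwa [smul_smul, inv_mul_cancel₀ hr, one_smul] at h

theorem dec_unique {p : ℕ} {J : Type} [Fintype J] [DecidableEq J] {y y' : (Fin p → J) → ℝ}
    (hp : 1 ≤ p) (hy : Dec y) (h0 : y ≠ 0) (hy' : Dec y') (h0' : y' ≠ 0) (h : Vs y = Vs y') :
    ∃ r : ℝ, r ≠ 0 ∧ y' = r • y := by
  obtain ⟨M, κ, hκ, -, hyM, hV⟩ := exists_mn hp hy h0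
  obtain ⟨M', κ', -, -, hyM', hV'⟩ := exists_mn hp hy' h0'
  have h1 : ∀ i, ∃ c : Fin p → ℝ, ∑ r, c r • M r = M' i := by
    intro i
    have h2 : M' i ∈ Submodule.span ℝ (Set.range M) := by
      rw [← hV, h, hV']
      exact Submodule.subset_span ⟨i, rfl⟩
    exact (Submodule.mem_span_range_iff_exists_fun ℝ).1 h2
  choose G hG using h1
  have h3 : ∀ e, mn M' e = (Matrix.of G : Matrix (Fin p) (Fin p) ℝ).det * mn M e := by
    intro e
    unfold mn
    rw [← Matrix.det_mul]
    congr 1
    ext i j
    rw [Matrix.mul_apply]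
    show M' i (e j) = ∑ r, G i r * M r (e j)
    rw [← hG i, Finset.sum_apply]
    rfl
  have h4 : y' = (κ' * (Matrix.of G : Matrix (Fin p) (Fin p) ℝ).det / κ) • y := by
    funext e
    rw [Pi.smul_apply, smul_eq_mul]
    have h5 := congrFun hyM e
    have h6 := congrFun hyM' e
    rw [h5, h6, h3 e]
    field_simp
  refine ⟨_, fun h5 => h0' ?_, h4⟩
  rw [h4, h5, zero_smul]

theorem pr_eq_zero_iff {p : ℕ} {J : Type} [Fintype J] [DecidableEq J] {y : (Fin p → J) → ℝ}
    (hp : 1 ≤ p) (hy : Dec y) (h0 : y ≠ 0) (R : Fin p → J → ℝ) :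
    pr R y = 0 ↔ ∃ w ∈ Vs y, w ≠ 0 ∧ ∀ i, ∑ j, R i j * w j = 0 := by
  obtain ⟨M, κ, hκ, hM, hyM, hV⟩ := exists_mn hp hy h0
  have h1 : pr R y = κ * pr R (mn M) := by
    rw [hyM]
    unfold pr
    rw [Finset.mul_sum]
    refine Finset.sum_congr rfl fun e _ => ?_
    ring
  rw [h1, mul_eq_zero, or_iff_right hκ, av_sing, hV]
  constructor
  · rintro ⟨g, hg, hgk⟩
    refine ⟨∑ i, g i • M i, Submodule.sum_mem _ fun i _ =>
      Submodule.smul_mem _ _ (Submodule.subset_span ⟨i, rfl⟩), fun hw => hg ?_, hgk⟩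
    funext i
    exact Fintype.linearIndependent_iff.1 hM g hw i
  · rintro ⟨w, hw, hw0, hwk⟩
    obtain ⟨g, rfl⟩ := (Submodule.mem_span_range_iff_exists_fun ℝ).1 hw
    refine ⟨g, fun hg => hw0 ?_, hwk⟩
    rw [hg]
    simp

end Pool.Agent.H45.DQ
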