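import Pool.Agent.H45.DQ.Arr
import Pool.Agent.H30.PD.Pair

/-!
# Module ArrX: the coordinates of a compensator

PROOF of `det_fromRows_pr`. The determinant of `fromRows P1 P` is multilinear in the `p` first rows, and
`P1 i = ∑ j, P1 i j • Pi.single j 1`: expand (`MultilinearMap.map_sum`, `MultilinearMap.map_smul_univ` for the
multilinear map `R ↦ (Matrix.fromRows (Matrix.of R) P).det` in `R : Fin p → (Fin p ⊕ Fin m → A)`, which is
obtained from `Matrix.detRowAlternating`, e.g. `MultilinearMap.mk'`-style with `Matrix.det_updateRow_add`,
`Matrix.det_updateRow_smul`; see `Pool/Agent/H53/DP/DetX.lean` for `p = 2`).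
PROOF of `dec_XX` (`A` a domain). Not injective: two equal rows (`Matrix.det_zero_of_row_eq`). Let
`N = fromRows (of fun i => Pi.single (e0 i) 1) P`, `d = N.det = XX P e0 ≠ 0` (otherwise trivial), and
`N' = fromRows (of fun i => Pi.single (e i) 1) P`. `N' * N.adjugate` has the lower rows
`P * N.adjugate = d • (0 | 1)` (the lower rows of `N * N.adjugate = d • 1`, `Matrix.mul_adjugate`) and
the upper left block `Q j i = N.adjugate (e j) (inl i) = XX P (update e0 i (e j))` (Cramer:
`Matrix.adjugate_apply`/`Matrix.cramer`: the determinant of `N` with the row `inl i` replaced by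
`Pi.single (e j) 1`, `Matrix.adjugate_apply` is `(N.updateRow j (Pi.single i 1)).det`). So
(`Matrix.det_fromBlocks_zero₂₁`, `Matrix.det_mul`, `Matrix.det_adjugate`)
`det Q * d ^ m = XX P e * d ^ (p + m - 1)`, and one cancels `d ^ m` (`p ≥ 1`). The transposed matrix has the same determinant (`Matrix.det_transpose`).
PROOF of `natDegree_XX`. As `Pool/Agent/H53/DP/DegX.lean`: if `e` is injective there is a permutation `τ` of
`Fin p ⊕ Fin m` with `τ (inl i) = e i` (`Equiv.Perm` extending an injection: e.g.
`Function.Embedding.exists_extend`-type lemma, `Equiv.extendSubtype`, `Fintype.card` of the complements),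
and `fromRows E P` with the columns permuted by `τ` is block triangular with the blocks `1` and
`P.submatrix id (τ ∘ inr)`.
-/

set_option autoImplicit false

open Module Polynomial

namespace Pool.Agent.H45.DQ

theorem XX_eq {A : Type} [CommRing A] {p m : ℕ} (P : Matrix (Fin m) (Fin p ⊕ Fin m) A)
    (e : Fin p → Fin p ⊕ Fin m) : XX P e = Pool.H30.PD.xx P e := by
  have h : (Matrix.of fun i => Pi.single (e i) (1 : A)) =
      (Pool.H30.PD.sel e : Matrix (Fin p) (Fin p ⊕ Fin m) A) := by
    ext i j
    show (Pi.single (e i) (1 : A) : (Fin p ⊕ Fin m) → A) j = if j = e i then 1 else 0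
    rw [Pi.single_apply]
  unfold XX Pool.H30.PD.xx
  rw [h]

theorem det_fromRows_pr {A : Type} [CommRing A] {p m : ℕ}
    (P1 : Matrix (Fin p) (Fin p ⊕ Fin m) A) (P : Matrix (Fin m) (Fin p ⊕ Fin m) A) :
    (Matrix.fromRows P1 P).det = pr P1 (XX P) := by
  have h : XX P = Pool.H30.PD.xx P := funext fun e => XX_eq P e
  rw [h]
  exact Pool.H30.PD.det_fromRows_pr P1 P

theorem dec_XX {A : Type} [CommRing A] [IsDomain A] {p m : ℕ} (hp : 1 ≤ p)
    (P : Matrix (Fin m) (Fin p ⊕ Fin m) A) : Dec (XX P) := by
  classical
  constructor
  · intro e he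
    have h1 : ∃ i j, e i = e j ∧ i ≠ j := by
      by_contra hcon
      push Not at hcon
      exact he fun i j hij => hcon i j hij
    obtain ⟨i, j, hij, hne⟩ := h1
    unfold XX
    refine Matrix.det_zero_of_row_eq (i := Sum.inl i) (j := Sum.inl j)
      (fun h => hne (Sum.inl.inj h)) ?_
    show (Pi.single (e i) (1 : A) : (Fin p ⊕ Fin m) → A) = Pi.single (e j) 1
    rw [hij]
  · intro e0 e
    by_cases hd : XX P e0 = 0
    · rw [hd, zero_mul]
    · have key : (Matrix.of fun i j => XX P (Function.update e0 i (e j))).det =
          XX P e0 ^ (p - 1) * XX P e := by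
        set d := XX P e0 with hdd
        let N : Matrix (Fin p ⊕ Fin m) (Fin p ⊕ Fin m) A :=
          Matrix.fromRows (Matrix.of fun i => Pi.single (e0 i) (1 : A)) P
        let N' : Matrix (Fin p ⊕ Fin m) (Fin p ⊕ Fin m) A :=
          Matrix.fromRows (Matrix.of fun i => Pi.single (e i) (1 : A)) P
        have hN : N.det = d := rfl
        have hN' : N'.det = XX P e := rfl
        let Q : Matrix (Fin p) (Fin p) A := Matrix.of fun j i => XX P (Function.update e0 i (e j))
        let B : Matrix (Fin p) (Fin m) A := Matrix.of fun j k => N.adjugate (e j) (Sum.inr k)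
        have hprod : N' * N.adjugate =
            Matrix.fromBlocks Q B 0 (d • (1 : Matrix (Fin m) (Fin m) A)) := by
          have hup : ∀ (j : Fin p) (c : Fin p ⊕ Fin m),
              (N' * N.adjugate) (Sum.inl j) c = N.adjugate (e j) c := by
            intro j c
            rw [Matrix.mul_apply]
            have h1 : ∀ l, N' (Sum.inl j) l = if l = e j then 1 else 0 := by
              intro l
              show (Pi.single (e j) (1 : A) : (Fin p ⊕ Fin m) → A) l = _
              rw [Pi.single_apply]
            simp only [h1, ite_mul, one_mul, zero_mul]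
            rw [Finset.sum_ite_eq' Finset.univ (e j) fun l => N.adjugate l c,
              if_pos (Finset.mem_univ _)]
          have hlo : ∀ (k : Fin m) (c : Fin p ⊕ Fin m),
              (N' * N.adjugate) (Sum.inr k) c =
                (d • (1 : Matrix (Fin p ⊕ Fin m) (Fin p ⊕ Fin m) A)) (Sum.inr k) c := by
            intro k c
            rw [← hN, ← Matrix.mul_adjugate, Matrix.mul_apply, Matrix.mul_apply]
            rfl
          ext1 (j | k) (i | k')
          · rw [hup, Matrix.adjugate_apply]
            show _ = XX P (Function.update e0 i (e j))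
            unfold XX
            congr 1
            ext1 (r | k) c
            · by_cases hr : r = i
              · subst hr
                rw [Matrix.updateRow_self]
                show (Pi.single (e j) (1 : A) : (Fin p ⊕ Fin m) → A) c =
                  (Pi.single (Function.update e0 r (e j) r) (1 : A) : (Fin p ⊕ Fin m) → A) c
                rw [Function.update_self]
              · rw [Matrix.updateRow_ne (fun h => hr (Sum.inl.inj h))]
                show (Pi.single (e0 r) (1 : A) : (Fin p ⊕ Fin m) → A) c =
                  (Pi.single (Function.update e0 i (e j) r) (1 : A) : (Fin p ⊕ Fin m) → A) c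
                rw [Function.update_of_ne hr]
            · rw [Matrix.updateRow_ne (fun h => Sum.inr_ne_inl h)]
              rfl
          · rw [hup]
            rfl
          · rw [hlo, Matrix.smul_apply, Matrix.one_apply_ne Sum.inr_ne_inl, smul_zero]
            rfl
          · rw [hlo, Matrix.smul_apply]
            show _ = (d • (1 : Matrix (Fin m) (Fin m) A)) k k'
            rw [Matrix.smul_apply]
            congr 1
            by_cases hk : k = k'
            · rw [hk, Matrix.one_apply_eq, Matrix.one_apply_eq]
            · rw [Matrix.one_apply_ne hk, Matrix.one_apply_ne fun h => hk (Sum.inr.inj h)]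
        have hdet := congrArg Matrix.det hprod
        rw [Matrix.det_mul, Matrix.det_adjugate, Matrix.det_fromBlocks_zero₂₁, Matrix.det_smul,
          Matrix.det_one, mul_one, hN, hN', Fintype.card_sum, Fintype.card_fin,
          Fintype.card_fin] at hdet
        have hQ : (Matrix.of fun i j => XX P (Function.update e0 i (e j))).det = Q.det := by
          rw [← Matrix.det_transpose]
          rfl
        have hpow : d ^ (p + m - 1) = d ^ (p - 1) * d ^ m := by
          rw [← pow_add]
          congr 1
          omega
        rw [hpow] at hdet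
        rw [hQ]
        have hdm : d ^ m ≠ 0 := pow_ne_zero _ hd
        apply mul_right_cancel₀ hdm
        linear_combination -hdet
      rw [key, sub_self, mul_zero]

theorem natDegree_XX {p m q : ℕ} {P : Matrix (Fin m) (Fin p ⊕ Fin m) ℝ[X]}
    (h : ∀ e : Fin m → Fin p ⊕ Fin m, (P.submatrix id e).det.natDegree ≤ q)
    (e : Fin p → Fin p ⊕ Fin m) : (XX P e).natDegree ≤ q := by
  rw [XX_eq]
  exact Pool.H30.PD.xx_natDegree h e

end Pool.Agent.H45.DQ
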