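import Pool.Agent.H45.DQ.FFacts

/-!
# Module St: facts about the state `Df`

PROOF. `Df.lt_bot`: `FF_mono`, `i ≤ κ - 1`. `Df.min`: contrapositive. `Df.two_le`-type facts are fields.
`finrank_Y_le`: `finrank (perp V) = 2 b` (`finrank_perp`), `finrank_FF_le`, subadditivity.
`Df.Y`: `Submodule.finrank_sup_add_finrank_inf_eq` with the intersection `⊥` and `finrank_FF`.
`exists_Df`: the bad vector `w` is orthogonal to `perp V` (as `perp V ∋ u ↦ Re (u · w) = 0`, `w ∈ V`) and to
`FF lam a k a` (`mem_perp_FF`), so `w ∈ perp (perp V ⊔ FF lam a k a)`, `w ≠ 0`, so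
`finrank (perp V ⊔ FF) < 2 (a + b) = finrank (perp V) + finrank FF` and the intersection is not `⊥`
(`finrank_FF` with `i = a`). Take `κ` minimal (`Nat.find`) with `perp V ⊓ FF lam a k κ ≠ ⊥`; `κ ≥ 1` by
`FF_zero`. `ρ := finrank`. `1 ≤ ρ` since it is not `⊥`. `ρ ≤ 2`: `perp V ⊓ FF κ` meets `FF (κ - 1)` in `⊥`
inside `FF κ`, whose real dimension is `2 κ` (`finrank_FF`), `finrank (FF (κ - 1)) = 2 (κ - 1)`.
`inter_pred`, `inter_all`: `V ⊓ perp F = perp (perp V ⊔ F)` (`perp_sup`, `perp_perp`), `finrank_perp` and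
the dimension formula for `perp V ⊔ F` (`perp V ⊓ FF (a - 1) = ⊥`, `finrank (perp V ⊓ FF a) = ρ`).
-/

set_option autoImplicit false

open Module

namespace Pool.Agent.H45.DQ

theorem Df.lt_bot {c : ℕ} {lam : ℕ → E c} {a k : ℕ} {V : Submodule ℝ (E c)} {κ ρ : ℕ}
    (h : Df lam a k V κ ρ) {i : ℕ} (hi : i < κ) : perp V ⊓ FF lam a k i = ⊥ :=
  eq_bot_mono (inf_le_inf_left _ (FF_mono lam a k (by omega))) h.bot

theorem Df.min {c : ℕ} {lam : ℕ → E c} {a k : ℕ} {V : Submodule ℝ (E c)} {κ ρ : ℕ}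
    (h : Df lam a k V κ ρ) {i : ℕ} (hi : perp V ⊓ FF lam a k i ≠ ⊥) : κ ≤ i := by
  by_contra hcon
  exact hi (h.lt_bot (by omega))

theorem finrank_Y_le {a b : ℕ} (lam : ℕ → E (a + b)) (k i : ℕ) {V : Submodule ℝ (E (a + b))}
    (hV : finrank ℝ V = 2 * a) :
    finrank ℝ (perp V ⊔ FF lam a k i : Submodule ℝ (E (a + b))) ≤ 2 * b + 2 * i := by
  have h1 := Submodule.finrank_add_le_finrank_add_finrank (perp V) (FF lam a k i)
  have h2 := finrank_perp V
  have h3 := finrank_FF_le lam a k i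
  omega

/-- dimension of the common zeros of a flag -/
private theorem inter_gen {a b : ℕ} {V : Submodule ℝ (E (a + b))} (hV : finrank ℝ V = 2 * a)
    (F : Submodule ℝ (E (a + b))) :
    finrank ℝ (V ⊓ perp F : Submodule ℝ (E (a + b))) + finrank ℝ F =
      2 * a + finrank ℝ (perp V ⊓ F : Submodule ℝ (E (a + b))) := by
  have h1 : V ⊓ perp F = perp (perp V ⊔ F) := by rw [perp_sup, perp_perp]
  have h2 := finrank_perp (perp V ⊔ F)
  have h3 := Submodule.finrank_sup_add_finrank_inf_eq (perp V) F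
  have h4 := finrank_perp V
  rw [h1]
  omega

theorem exists_Df {a b : ℕ} {lam : ℕ → E (a + b)} {k : ℕ}
    (hlin : LinearIndependent ℂ (fun i : Fin a => lam (k + i))) {V : Submodule ℝ (E (a + b))}
    (hV : finrank ℝ V = 2 * a) (hb : Bad lam a k V) : ∃ κ ρ, Df lam a k V κ ρ := by
  classical
  obtain ⟨w, hw, hw0, hz⟩ := hb
  have hex : perp V ⊓ FF lam a k a ≠ ⊥ := by
    intro hbot
    have h1 := inter_gen hV (FF lam a k a)
    rw [hbot, finrank_bot, finrank_FF hlin le_rfl] at h1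
    have h2 : finrank ℝ (V ⊓ perp (FF lam a k a) : Submodule ℝ (E (a + b))) = 0 := by omega
    have h3 : w ∈ V ⊓ perp (FF lam a k a) :=
      ⟨hw, mem_perp_FF.2 fun m h1 h2 => hz m (by omega) h2⟩
    rw [Submodule.finrank_eq_zero] at h2
    rw [h2, Submodule.mem_bot] at h3
    exact hw0 h3
  have hex' : ∃ i, perp V ⊓ FF lam a k i ≠ ⊥ := ⟨a, hex⟩
  set κ := Nat.find hex' with hκ
  have hκa : κ ≤ a := Nat.find_min' hex' hex
  have hκne : perp V ⊓ FF lam a k κ ≠ ⊥ := Nat.find_spec hex'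
  have hκ1 : 1 ≤ κ := by
    by_contra hcon
    have h0 : κ = 0 := by omega
    rw [h0, FF_zero, inf_bot_eq] at hκne
    exact hκne rfl
  have hbot : perp V ⊓ FF lam a k (κ - 1) = ⊥ := by
    by_contra hcon
    have := Nat.find_min' hex' hcon
    omega
  refine ⟨κ, finrank ℝ (perp V ⊓ FF lam a k κ : Submodule ℝ (E (a + b))),
    ⟨hκ1, hκa, hbot, rfl, ?_, ?_⟩⟩
  · exact Submodule.one_le_finrank_iff.2 hκne
  · have h1 := Submodule.finrank_sup_add_finrank_inf_eq (perp V ⊓ FF lam a k κ)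
      (FF lam a k (κ - 1))
    have h2 : (perp V ⊓ FF lam a k κ) ⊓ FF lam a k (κ - 1) = ⊥ :=
      eq_bot_mono (inf_le_inf_right _ inf_le_left) hbot
    have h3 : (perp V ⊓ FF lam a k κ) ⊔ FF lam a k (κ - 1) ≤ FF lam a k κ :=
      sup_le inf_le_right (FF_mono lam a k (by omega))
    have h4 := Submodule.finrank_mono h3
    rw [h2, finrank_bot] at h1
    have h5 := finrank_FF hlin (i := κ - 1) (by omega)
    have h6 := finrank_FF hlin hκa
    omega

/-- for `κ = a`: the common zeros in `V` of all rows but the oldest form a plane -/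
theorem inter_pred {a b : ℕ} {lam : ℕ → E (a + b)} {k : ℕ}
    (hlin : LinearIndependent ℂ (fun i : Fin a => lam (k + i))) {V : Submodule ℝ (E (a + b))}
    (hV : finrank ℝ V = 2 * a) {ρ : ℕ} (h : Df lam a k V a ρ) :
    finrank ℝ (V ⊓ perp (FF lam a k (a - 1)) : Submodule ℝ (E (a + b))) = 2 := by
  have h1 := inter_gen hV (FF lam a k (a - 1))
  rw [h.bot, finrank_bot, finrank_FF hlin (by omega)] at h1
  have := h.one_le
  omega

/-- for `κ = a`: the common zeros in `V` of all rows have dimension `ρ` -/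
theorem inter_all {a b : ℕ} {lam : ℕ → E (a + b)} {k : ℕ}
    (hlin : LinearIndependent ℂ (fun i : Fin a => lam (k + i))) {V : Submodule ℝ (E (a + b))}
    (hV : finrank ℝ V = 2 * a) {ρ : ℕ} (h : Df lam a k V a ρ) :
    finrank ℝ (V ⊓ perp (FF lam a k a) : Submodule ℝ (E (a + b))) = ρ := by
  have h1 := inter_gen hV (FF lam a k a)
  rw [h.rank, finrank_FF hlin le_rfl] at h1
  omega

/-- lower bound for the common zeros of the `i` newest rows -/
theorem le_inter {a b : ℕ} (lam : ℕ → E (a + b)) (k i : ℕ) {V : Submodule ℝ (E (a + b))}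
    (hV : finrank ℝ V = 2 * a) :
    2 * a ≤ finrank ℝ (V ⊓ perp (FF lam a k i) : Submodule ℝ (E (a + b))) + 2 * i := by
  have h1 := inter_gen hV (FF lam a k i)
  have h2 := finrank_FF_le lam a k i
  omega

/-- upper bound for the common zeros of the `i` newest rows, `i < κ` -/
theorem inter_le {a b : ℕ} {lam : ℕ → E (a + b)} {k i : ℕ}
    (hlin : LinearIndependent ℂ (fun i : Fin a => lam (k + i))) {V : Submodule ℝ (E (a + b))}
    (hV : finrank ℝ V = 2 * a) {κ ρ : ℕ} (h : Df lam a k V κ ρ) (hi : i < κ) :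
    finrank ℝ (V ⊓ perp (FF lam a k i) : Submodule ℝ (E (a + b))) + 2 * i = 2 * a := by
  have h1 := inter_gen hV (FF lam a k i)
  have h2 := h.le
  rw [h.lt_bot hi, finrank_bot, finrank_FF hlin (by omega)] at h1
  omega

end Pool.Agent.H45.DQ
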