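import Pool.Agent.H45.DQ.Sub3
import Pool.Agent.H45.DQ.St

/-!
# Module Bub: the bubble step

The rows do not change; `V'` is another bad subspace at distance at most `j`.

PROOF. Let `j' = 2a - finrank (V ⊓ V') ≤ j` (`c = a + b`), `N' = perp V' ⊓ FF lam a k κ'`.
Case A: `N' ≤ perp V`. Then `perp V ⊓ FF κ' ⊇ N' ≠ ⊥`, so `κ ≤ κ'` (`Df.min`); if `κ = κ'` then
`ρ ≥ ρ'` (`Submodule.finrank_mono`); if `κ < κ'` then `2(a-κ) ≥ 2(a-κ') + 2 > 2(a-κ') + (ρ'-1)`. So the
defect of `V'` is at most that of `V`, and `cost_dist` gives the cost `2cj' - j'^2 ≤ j'(2c-1) ≤ j(2c-1)`.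
Case B: there is `ξ ∈ N'`, `ξ ∉ perp V`. `cost_dist_xi` with `F = FF lam a k κ'` (preserved: `pres_FF`;
dimension `≤ 2κ'`: `finrank_FF_le`): cost `≤ 2cj' - j'^2 + 2κ' - 2a - 1`, so cost plus the new defect
`2(a-κ') + (ρ'-1) ≤ 2(a-κ') + 1` is at most `2cj' - j'^2 ≤ j(2c-1)`.
(The case `V' = V`, `j' = 0` is in Case A.)
-/

set_option autoImplicit false

open Module

namespace Pool.Agent.H45.DQ

theorem bubble {a b j : ℕ} {lam : ℕ → E (a + b)} {k : ℕ} {H : Submodule ℝ Der}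
    {V V' : Submodule ℝ (E (a + b))} (h : Ctx lam k H V) {κ ρ κ' ρ' : ℕ}
    (hd : Df lam a k V κ ρ) (hd' : Df lam a k V' κ' ρ') (hV' : finrank ℝ V' = 2 * a)
    (hj : 2 * a ≤ finrank ℝ (V ⊓ V' : Submodule ℝ (E (a + b))) + j) :
    Ctx lam k (HV H V') V' ∧
      finrank ℝ H + 2 * (a - κ') + (ρ' - 1) ≤
        finrank ℝ (HV H V') + 2 * (a - κ) + (ρ - 1) + j * (2 * (a + b) - 1) := by
  haveI := h.fin
  have hfin : FiniteDimensional ℝ (HV H V') :=
    Submodule.finiteDimensional_of_le (HV_le H V')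
  refine ⟨⟨hfin, h.posa, h.posb, h.lin, hV', pres_HV H V',
    fun m hm => (h.kil m hm).mono (HV_le H V')⟩, ?_⟩
  -- the distance
  have hle : finrank ℝ (V ⊓ V' : Submodule ℝ (E (a + b))) ≤ 2 * a := by
    rw [← h.rk]
    exact Submodule.finrank_mono inf_le_left
  obtain ⟨j', hj'⟩ : ∃ j', finrank ℝ (V ⊓ V' : Submodule ℝ (E (a + b))) + j' = 2 * a :=
    ⟨2 * a - finrank ℝ (V ⊓ V' : Submodule ℝ (E (a + b))), by omega⟩
  have hjj : j' ≤ j := by omega
  -- the numbers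
  obtain ⟨m, hm⟩ : ∃ m, 2 * (a + b) = m + 1 := by
    have := h.posa
    exact ⟨2 * (a + b) - 1, by omega⟩
  have e1 : 2 * (a + b) - 1 = m := by omega
  have e2 : 2 * (a + b) * j' = m * j' + j' := by rw [hm]; ring
  have e3 : j' * m ≤ j * m := Nat.mul_le_mul_right m hjj
  have e4 : j' ≤ j' * j' := by
    rcases Nat.eq_zero_or_pos j' with h0 | h0
    · rw [h0]
    · exact Nat.le_mul_of_pos_left j' h0
  have e5 : m * j' = j' * m := Nat.mul_comm m j'
  have hκ := hd.le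
  have hκ' := hd'.le
  have hρ' := hd'.two
  have hρ := hd.pos
  have hρ1' := hd'.pos
  rw [e1]
  by_cases hA : perp V' ⊓ FF lam a k κ' ≤ perp V
  · have hne : perp V' ⊓ FF lam a k κ' ≠ ⊥ := by
      intro hbot
      have hr := hd'.rank
      rw [hbot, finrank_bot] at hr
      omega
    have hsub : perp V' ⊓ FF lam a k κ' ≤ perp V ⊓ FF lam a k κ' := le_inf hA inf_le_right
    have hκκ : κ ≤ κ' := hd.min fun hbot => hne (eq_bot_mono hsub hbot)
    have hdef : 2 * (a - κ') + (ρ' - 1) ≤ 2 * (a - κ) + (ρ - 1) := by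
      rcases Nat.lt_or_ge κ κ' with hlt | hge
      · omega
      · have heq : κ = κ' := le_antisymm hκκ hge
        have hrr : ρ' ≤ ρ := by
          rw [← hd.rank, ← hd'.rank, heq]
          exact Submodule.finrank_mono hsub
        omega
    have hc := cost_dist h.fin h.pres h.rk hV' hj'
    rw [e2] at hc
    omega
  · obtain ⟨ξ, hξ, hξV⟩ := SetLike.not_le_iff_exists.1 hA
    have hc := cost_dist_xi h.fin h.pres h.rk hV' hj' (pres_FF h.kil κ') hξ.2 hξ.1 hξV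
    have hF := finrank_FF_le lam a k κ'
    rw [e2] at hc
    omega

end Pool.Agent.H45.DQ
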