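import Pool.Agent.H45.DQ.Pres

/-!
# Module Cost: the cost of killing a row

PROOF. `cost_of_map`: rank-nullity (`LinearMap.finrank_range_add_finrank_ker`) for `φ : H → W`; the range
is contained in `R`, the kernel maps injectively into `K` (inclusion `H → Der`), `K` is finite
dimensional because `K ≤ H`.
All other statements: `φ D = v • dE D l` (linear in `D`: `dEL`), kernel = the members of `H` which kill
`l` (as `v ≠ 0`), `K = HK H l ≤ H`.
`kill_free`: `v = 1`, `R = ⊤`, `finrank_E`.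
`kill_line`: `v • dE D l = dE D (v • l) - dC D v • l = dE D (v • l) - r • (v • l) ∈ Y` (`dE_smul`).
`kill_phase`: with `ζ = dC D v / v = x + i y`: `v • dE D l = dE D (v • l) - x • (v • l) - y • (I • v • l)`,
which is in `R = Y ⊔ span ℝ {I • v • l}`, of dimension at most `finrank Y + 1`
(`Submodule.finrank_add_le_finrank_add_finrank`, `finrank_span_singleton` or `finrank_span_le_card`).
`kill_phase_inf`: `kill_phase` for `Y ⊓ Z`, a proper subspace of `Y` (`Submodule.finrank_lt_finrank_of_lt`).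
`kill_cplx`: `kill_line` with `v = 1` for `Y ⊓ iS Y`, a proper subspace of `Y`.
-/

set_option autoImplicit false

open Module

namespace Pool.Agent.H45.DQ

theorem cost_of_map {W : Type} [AddCommGroup W] [Module ℝ W] {H K : Submodule ℝ Der}
    (hH : FiniteDimensional ℝ H) (hK : K ≤ H) (φ : H →ₗ[ℝ] W) (R : Submodule ℝ W)
    (hfR : FiniteDimensional ℝ R) (hR : ∀ D, φ D ∈ R) (h0 : ∀ D : H, φ D = 0 → (D : Der) ∈ K) :
    finrank ℝ H ≤ finrank ℝ K + finrank ℝ R := by
  have h1 := LinearMap.finrank_range_add_finrank_ker φ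
  have h2 : finrank ℝ (LinearMap.range φ) ≤ finrank ℝ R := by
    apply Submodule.finrank_mono
    rintro _ ⟨D, rfl⟩
    exact hR D
  have h3 : finrank ℝ (LinearMap.ker φ) ≤ finrank ℝ K := by
    haveI : FiniteDimensional ℝ K := Submodule.finiteDimensional_of_le hK
    let ψ : LinearMap.ker φ →ₗ[ℝ] K :=
      LinearMap.codRestrict K (H.subtype.comp (LinearMap.ker φ).subtype)
        (fun x => h0 x.1 (LinearMap.mem_ker.1 x.2))
    refine LinearMap.finrank_le_finrank_of_injective (f := ψ) ?_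
    intro x y hxy
    have h4 : ((ψ x : K) : Der) = ((ψ y : K) : Der) := by rw [hxy]
    exact Subtype.ext (Subtype.ext h4)
  omega

/-- the general form: the image of `D ↦ v • dE D l` -/
private theorem kill_gen {c : ℕ} {H : Submodule ℝ Der} (hH : FiniteDimensional ℝ H) {l : E c}
    {v : ℂ} (hv : v ≠ 0) (R : Submodule ℝ (E c)) (hR : ∀ D ∈ H, v • dE D l ∈ R) :
    finrank ℝ H ≤ finrank ℝ (HK H l) + finrank ℝ R := by
  let φ : H →ₗ[ℝ] E c :=
    { toFun := fun D => v • dE (D : Der) l
      map_add' := fun D D' => by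
        rw [← smul_add]
        exact congrArg (fun w => v • w) ((dEL l).map_add (D : Der) (D' : Der))
      map_smul' := fun r D => by
        rw [RingHom.id_apply, smul_comm r v]
        exact congrArg (fun w => v • w) ((dEL l).map_smul r (D : Der)) }
  refine cost_of_map hH (HK_le H l) φ R inferInstance (fun D => hR D D.2) fun D hD => ?_
  refine ⟨D.2, ?_⟩
  have h1 : v • dE (D : Der) l = 0 := hD
  rcases smul_eq_zero.1 h1 with h2 | h2
  · exact absurd h2 hv
  · exact h2

theorem kill_free {c : ℕ} {H : Submodule ℝ Der} (hH : FiniteDimensional ℝ H) (l : E c) :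
    finrank ℝ H ≤ finrank ℝ (HK H l) + 2 * c := by
  have h := kill_gen hH (l := l) one_ne_zero ⊤ fun D _ => Submodule.mem_top
  rwa [finrank_top, finrank_E] at h

theorem kill_line {c : ℕ} {H : Submodule ℝ Der} (hH : FiniteDimensional ℝ H) {l : E c}
    {Y : Submodule ℝ (E c)} (hY : Pres H Y) {v : ℂ} (hv : v ≠ 0)
    (hline : ∀ D ∈ H, ∃ r : ℝ, dC D v = r * v) (hl : v • l ∈ Y) :
    finrank ℝ H ≤ finrank ℝ (HK H l) + finrank ℝ Y := by
  refine kill_gen hH hv Y fun D hD => ?_
  obtain ⟨r, hr⟩ := hline D hD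
  have h1 : v • dE D l = dE D (v • l) - r • (v • l) := by
    rw [dE_smul, hr, mul_smul]
    have h2 : (r : ℂ) • (v • l) = r • (v • l) := Complex.coe_smul r (v • l)
    rw [h2]
    abel
  rw [h1]
  exact Y.sub_mem (hY D hD _ hl) (Y.smul_mem _ hl)

theorem kill_mem {c : ℕ} {H : Submodule ℝ Der} (hH : FiniteDimensional ℝ H) {l : E c}
    {Y : Submodule ℝ (E c)} (hY : Pres H Y) (hl : l ∈ Y) :
    finrank ℝ H ≤ finrank ℝ (HK H l) + finrank ℝ Y := by
  refine kill_line hH hY one_ne_zero (fun D _ => ⟨0, ?_⟩) (by rwa [one_smul])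
  rw [dC_one, Complex.ofReal_zero, zero_mul]

private theorem span_finrank_le {c : ℕ} (Y : Submodule ℝ (E c)) (u : E c) :
    finrank ℝ (Y ⊔ Submodule.span ℝ {u} : Submodule ℝ (E c)) ≤ finrank ℝ Y + 1 := by
  have h1 := Submodule.finrank_add_le_finrank_add_finrank Y (Submodule.span ℝ {u})
  have h2 : finrank ℝ (Submodule.span ℝ ({u} : Set (E c))) ≤ 1 := by
    have h3 := finrank_span_le_card (R := ℝ) ({u} : Set (E c))
    simpa using h3
  omega

theorem kill_phase {c : ℕ} {H : Submodule ℝ Der} (hH : FiniteDimensional ℝ H) {l : E c}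
    {Y : Submodule ℝ (E c)} (hY : Pres H Y) {v : ℂ} (hv : v ≠ 0) (hl : v • l ∈ Y) :
    finrank ℝ H ≤ finrank ℝ (HK H l) + finrank ℝ Y + 1 := by
  have h := kill_gen hH (l := l) hv (Y ⊔ Submodule.span ℝ {Complex.I • v • l}) fun D hD => ?_
  · have h2 := span_finrank_le Y (Complex.I • v • l)
    omega
  · have h1 : v • dE D l = dE D (v • l) - (dC D v / v).re • (v • l) -
        (dC D v / v).im • (Complex.I • v • l) := by
      rw [dE_smul]
      have h2 : dC D v • l = (dC D v / v).re • (v • l) +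
          (dC D v / v).im • (Complex.I • v • l) := by
        funext j
        show dC D v * l j = (dC D v / v).re • (v * l j) + (dC D v / v).im • (Complex.I * (v * l j))
        rw [Complex.real_smul, Complex.real_smul, ← mul_assoc _ Complex.I, ← add_mul,
          Complex.re_add_im, ← mul_assoc, div_mul_cancel₀ _ hv]
      rw [h2]
      abel
    rw [h1]
    refine Submodule.sub_mem _ (Submodule.sub_mem _ ?_ ?_) ?_
    · exact Submodule.mem_sup_left (hY D hD _ hl)
    · exact Submodule.mem_sup_left (Y.smul_mem _ hl)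
    · exact Submodule.mem_sup_right
        (Submodule.smul_mem _ _ (Submodule.mem_span_singleton_self _))

theorem kill_phase_inf {c : ℕ} {H : Submodule ℝ Der} (hH : FiniteDimensional ℝ H) {l : E c}
    {Y Z : Submodule ℝ (E c)} (hY : Pres H Y) (hZ : Pres H Z) (hYZ : ¬ Y ≤ Z) {v : ℂ}
    (hv : v ≠ 0) (hl : v • l ∈ Y) (hl' : v • l ∈ Z) :
    finrank ℝ H ≤ finrank ℝ (HK H l) + finrank ℝ Y := by
  have h1 := kill_phase hH (hY.inf hZ) hv (show v • l ∈ Y ⊓ Z from ⟨hl, hl'⟩)
  have h2 : finrank ℝ (Y ⊓ Z : Submodule ℝ (E c)) < finrank ℝ Y := by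
    apply Submodule.finrank_lt_finrank_of_lt
    refine lt_of_le_of_ne inf_le_left fun h => hYZ ?_
    exact inf_eq_left.1 h
  omega

theorem kill_cplx {c : ℕ} {H : Submodule ℝ Der} (hH : FiniteDimensional ℝ H) {l : E c}
    {Y : Submodule ℝ (E c)} (hY : Pres H Y) (hYI : ∃ y ∈ Y, Complex.I • y ∉ Y) (hl : l ∈ Y)
    (hl' : Complex.I • l ∈ Y) :
    finrank ℝ H + 1 ≤ finrank ℝ (HK H l) + finrank ℝ Y := by
  have h1 := kill_mem hH (hY.inf hY.iS) (show l ∈ Y ⊓ iS Y from ⟨hl, hl'⟩)
  have h2 : finrank ℝ (Y ⊓ iS Y : Submodule ℝ (E c)) < finrank ℝ Y := by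
    apply Submodule.finrank_lt_finrank_of_lt
    refine lt_of_le_of_ne inf_le_left fun h => ?_
    obtain ⟨y, hy, hy'⟩ := hYI
    exact hy' ((inf_eq_left.1 h) hy)
  omega

end Pool.Agent.H45.DQ
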