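import Mathlib

/-!
# Module Cub: two lemmas on complex numbers

PROOF of `cub`. Real dependence of `p0 + t p1` and `t r1 + t ^ 2 r2` gives
`Im (conj (p0 + t p1) * (t r1 + t ^ 2 r2)) = 0` for every real `t`. Write `P = p1 / p0`, `A = r1 / p0`,
`B = r2 / p0` (`p0 ≠ 0`): `Im (conj (1 + t P) (t A + t ^ 2 B)) = 0`, a real polynomial in `t` which
vanishes identically (use `t = 1, -1, 2`, or divide by `t`), so
`Im A = 0`, `Im B + Im (conj P * A) = 0`, `Im (conj P * B) = 0`. With `A` real: `Im (conj P A) = - A Im P`,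
so `Im B = A Im P`; with `P = x + i y`, `B = S + i A y`: `Im (conj P B) = x A y - y S = y (x A - S) = 0`.
If `y = 0`: `P`, `A`, `B` are real (second case). If `y ≠ 0`: `S = A x`, so `B = A P`: `r2 = A p1`,
`r1 = A p0` (first case), and `p1` is not a real multiple of `p0`.
PROOF of `quad`. The same with `r2 = 0`, only for `t ≠ 0`: `Im (conj (p0 + t p1) g) = 0` for all
`t ≠ 0`, so `Im (conj p0 g) = 0 = Im (conj p1 g)`; if `g ≠ 0`, `p0 ≠ 0`: `g` is a nonzero real multiple
of `p0` and `p1` is a real multiple of `g`.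
-/

set_option autoImplicit false

namespace Pool.Agent.H45.DQ

private theorem cb_dep {z w : ℂ}
    (h : ∃ s r : ℝ, (s ≠ 0 ∨ r ≠ 0) ∧ (s : ℂ) * z + (r : ℂ) * w = 0) :
    z.re * w.im - z.im * w.re = 0 := by
  obtain ⟨s, r, h1, h2⟩ := h
  have e1 := congrArg Complex.re h2
  have e2 := congrArg Complex.im h2
  simp only [Complex.add_re, Complex.add_im, Complex.re_ofReal_mul, Complex.im_ofReal_mul,
    Complex.zero_re, Complex.zero_im] at e1 e2
  rcases h1 with h1 | h1
  · have h3 : s * (z.re * w.im - z.im * w.re) = 0 := by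
      linear_combination w.im * e1 - w.re * e2
    exact (mul_eq_zero.1 h3).resolve_left h1
  · have h3 : r * (z.re * w.im - z.im * w.re) = 0 := by
      linear_combination z.re * e2 - z.im * e1
    exact (mul_eq_zero.1 h3).resolve_left h1

private theorem cb_real {z w : ℂ} (hz : z ≠ 0) (h : z.re * w.im - z.im * w.re = 0) :
    ∃ x : ℝ, w = x * z := by
  have h1 : 0 < z.re * z.re + z.im * z.im := by
    rw [← Complex.normSq_apply]
    exact Complex.normSq_pos.2 hz
  refine ⟨(z.re * w.re + z.im * w.im) / (z.re * z.re + z.im * z.im), ?_⟩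
  apply Complex.ext
  · rw [Complex.re_ofReal_mul, div_mul_eq_mul_div, eq_div_iff h1.ne']
    linear_combination (-z.im) * h
  · rw [Complex.im_ofReal_mul, div_mul_eq_mul_div, eq_div_iff h1.ne']
    linear_combination z.re * h

private theorem cb_ind {z w : ℂ}
    (h : ∀ s r : ℝ, (s : ℂ) * z + (r : ℂ) * w = 0 → s = 0 ∧ r = 0) :
    z.re * w.im - z.im * w.re ≠ 0 := by
  intro h1
  by_cases hz : z = 0
  · have h2 := h 1 0 (by rw [hz]; simp)
    exact one_ne_zero h2.1
  · obtain ⟨x, hx⟩ := cb_real hz h1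
    have h2 := h x (-1) (by rw [hx]; push_cast; ring)
    have h3 := h2.2
    norm_num at h3

theorem cub {p0 p1 r1 r2 : ℂ} (hp : p0 ≠ 0)
    (h : ∀ t : ℝ, ∃ s r : ℝ, (s ≠ 0 ∨ r ≠ 0) ∧
      (s : ℂ) * (p0 + t * p1) + (r : ℂ) * (t * r1 + t ^ 2 * r2) = 0) :
    (∃ A : ℝ, r1 = A * p0 ∧ r2 = A * p1 ∧ ¬ ∃ x : ℝ, p1 = x * p0) ∨
      ∃ x y z : ℝ, p1 = x * p0 ∧ r1 = y * p0 ∧ r2 = z * p0 := by
  have key : ∀ t : ℝ, t * (p0.re * r1.im - p0.im * r1.re) +
      t ^ 2 * ((p0.re * r2.im - p0.im * r2.re) + (p1.re * r1.im - p1.im * r1.re)) +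
      t ^ 3 * (p1.re * r2.im - p1.im * r2.re) = 0 := by
    intro t
    have h1 := cb_dep (h t)
    have e1 : (p0 + t * p1).re = p0.re + t * p1.re := by simp
    have e2 : (p0 + t * p1).im = p0.im + t * p1.im := by simp
    have e3 : ((t : ℂ) * r1 + (t : ℂ) ^ 2 * r2).re = t * r1.re + t ^ 2 * r2.re := by
      rw [← Complex.ofReal_pow, Complex.add_re, Complex.re_ofReal_mul, Complex.re_ofReal_mul]
    have e4 : ((t : ℂ) * r1 + (t : ℂ) ^ 2 * r2).im = t * r1.im + t ^ 2 * r2.im := by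
      rw [← Complex.ofReal_pow, Complex.add_im, Complex.im_ofReal_mul, Complex.im_ofReal_mul]
    rw [e1, e2, e3, e4] at h1
    linear_combination h1
  have k1 := key 1
  have k2 := key (-1)
  have k3 := key 2
  have c1 : p0.re * r1.im - p0.im * r1.re = 0 := by linarith
  have c3 : p1.re * r2.im - p1.im * r2.re = 0 := by linarith
  have c2 : (p0.re * r2.im - p0.im * r2.re) + (p1.re * r1.im - p1.im * r1.re) = 0 := by linarith
  obtain ⟨A, hA⟩ := cb_real hp c1
  obtain ⟨S, hS⟩ : ∃ S : ℝ, r2 - A * p1 = S * p0 := by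
    refine cb_real hp ?_
    rw [hA, Complex.re_ofReal_mul, Complex.im_ofReal_mul] at c2
    rw [Complex.sub_re, Complex.sub_im, Complex.re_ofReal_mul, Complex.im_ofReal_mul]
    linear_combination c2
  have hr2 : r2 = A * p1 + S * p0 := by linear_combination hS
  have h3 : S * (p0.re * p1.im - p0.im * p1.re) = 0 := by
    rw [hr2, Complex.add_re, Complex.add_im, Complex.re_ofReal_mul, Complex.im_ofReal_mul,
      Complex.re_ofReal_mul, Complex.im_ofReal_mul] at c3
    linear_combination -c3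
  by_cases hd : p0.re * p1.im - p0.im * p1.re = 0
  · obtain ⟨x, hx⟩ := cb_real hp hd
    refine Or.inr ⟨x, A, A * x + S, hx, hA, ?_⟩
    rw [hr2, hx]
    push_cast
    ring
  · have hS0 : S = 0 := (mul_eq_zero.1 h3).resolve_right hd
    refine Or.inl ⟨A, hA, ?_, ?_⟩
    · rw [hr2, hS0]
      simp
    · rintro ⟨x, hx⟩
      apply hd
      rw [hx, Complex.re_ofReal_mul, Complex.im_ofReal_mul]
      ring

theorem quad {p0 p1 g : ℂ} (hp : p0 ≠ 0)
    (h : ∀ t : ℝ, ∃ s r : ℝ, (s ≠ 0 ∨ r ≠ 0) ∧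
      (s : ℂ) * (p0 + t * p1) + (r : ℂ) * (t * g) = 0) :
    g = 0 ∨ ((∃ x : ℝ, x ≠ 0 ∧ g = x * p0) ∧ ∃ y : ℝ, p1 = y * p0) := by
  have key : ∀ t : ℝ, t * (p0.re * g.im - p0.im * g.re) +
      t ^ 2 * (p1.re * g.im - p1.im * g.re) = 0 := by
    intro t
    have h1 := cb_dep (h t)
    have e1 : (p0 + t * p1).re = p0.re + t * p1.re := by simp
    have e2 : (p0 + t * p1).im = p0.im + t * p1.im := by simp
    rw [e1, e2, Complex.re_ofReal_mul, Complex.im_ofReal_mul] at h1
    linear_combination h1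
  have k1 := key 1
  have k2 := key (-1)
  have c1 : p0.re * g.im - p0.im * g.re = 0 := by linarith
  have c2 : p1.re * g.im - p1.im * g.re = 0 := by linarith
  obtain ⟨x, hx⟩ := cb_real hp c1
  by_cases hx0 : x = 0
  · left
    rw [hx, hx0]
    simp
  · right
    refine ⟨⟨x, hx0, hx⟩, cb_real hp ?_⟩
    rw [hx, Complex.re_ofReal_mul, Complex.im_ofReal_mul] at c2
    have h3 : x * (p0.re * p1.im - p0.im * p1.re) = 0 := by linear_combination -c2
    exact (mul_eq_zero.1 h3).resolve_left hx0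

/-- used for the last transition: no singular value except `0`, not even infinity -/
theorem quad_last {p0 p1 g : ℂ} (hp : p0 ≠ 0)
    (h : ∀ t : ℝ, t ≠ 0 → ∀ s r : ℝ,
      (s : ℂ) * (p0 + t * p1) + (r : ℂ) * (t * g) = 0 → s = 0 ∧ r = 0)
    (hinf : ∀ s r : ℝ, (s : ℂ) * p1 + (r : ℂ) * g = 0 → s = 0 ∧ r = 0) :
    ∃ x : ℝ, g = x * p0 := by
  have h1 := cb_ind hinf
  apply cb_real hp
  by_contra hd
  have ht : -(p0.re * g.im - p0.im * g.re) / (p1.re * g.im - p1.im * g.re) ≠ 0 :=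
    div_ne_zero (neg_ne_zero.2 hd) h1
  obtain ⟨t, htd⟩ : ∃ t, t = -(p0.re * g.im - p0.im * g.re) / (p1.re * g.im - p1.im * g.re) :=
    ⟨_, rfl⟩
  rw [← htd] at ht
  apply cb_ind (h t ht)
  have e1 : (p0 + t * p1).re = p0.re + t * p1.re := by simp
  have e2 : (p0 + t * p1).im = p0.im + t * p1.im := by simp
  rw [e1, e2, Complex.re_ofReal_mul, Complex.im_ofReal_mul]
  have e3 : t * (p1.re * g.im - p1.im * g.re) = -(p0.re * g.im - p0.im * g.re) := by
    rw [htd, div_mul_cancel₀ _ h1]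
  linear_combination t * e3

end Pool.Agent.H45.DQ
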