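import Pool.Agent.H45.DQ.ArrV

/-!
# Decomposable arrays: ring homomorphisms, cancellation, limits
-/

set_option autoImplicit false

open Module Polynomial Filter Topology

namespace Pool.Agent.H45.DQ

theorem Dec.map {p : ℕ} {J A B : Type} [DecidableEq J] [CommRing A] [CommRing B] (f : A →+* B)
    {x : (Fin p → J) → A} (h : Dec x) : Dec (fun e => f (x e)) := by
  constructor
  · intro e he
    show f (x e) = 0
    rw [h.1 e he, map_zero]
  · intro e0 e
    have h1 := congrArg f (h.2 e0 e)
    rw [map_mul, map_sub, map_mul, map_pow, map_zero, RingHom.map_det] at h1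
    exact h1

/-- cancellation of a common factor -/
theorem Dec.of_mul {p : ℕ} {J A : Type} [DecidableEq J] [CommRing A] [IsDomain A] (hp : 1 ≤ p)
    {x : (Fin p → J) → A} {r : A} (hr : r ≠ 0) (h : Dec fun e => r * x e) : Dec x := by
  refine ⟨fun e he => (mul_eq_zero.1 (h.1 e he)).resolve_left hr, fun e0 e => ?_⟩
  have h1 : (Matrix.of fun i j => r * x (Function.update e0 i (e j))) =
      r • (Matrix.of fun i j => x (Function.update e0 i (e j)) : Matrix (Fin p) (Fin p) A) := by
    ext i j
    rfl
  have h2 : r * x e0 * ((r * x e0) ^ (p - 1) * (r * x e) -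
      (Matrix.of fun i j => r * x (Function.update e0 i (e j))).det) = 0 := h.2 e0 e
  rw [h1, Matrix.det_smul, Fintype.card_fin] at h2
  obtain ⟨q, rfl⟩ : ∃ q, p = q + 1 := ⟨p - 1, by omega⟩
  have h3 : q + 1 - 1 = q := rfl
  rw [h3] at h2 ⊢
  have h4 : r * x e0 * ((r * x e0) ^ q * (r * x e) - r ^ (q + 1) *
      (Matrix.of fun i j => x (Function.update e0 i (e j))).det) =
      r ^ (q + 2) * (x e0 * (x e0 ^ q * x e -
        (Matrix.of fun i j => x (Function.update e0 i (e j))).det)) := by
    ring
  rw [h4] at h2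
  exact (mul_eq_zero.1 h2).resolve_left (pow_ne_zero _ hr)

/-- the relation without the factor, in a domain -/
theorem Dec.rel {p : ℕ} {J A : Type} [DecidableEq J] [CommRing A] [IsDomain A]
    {x : (Fin p → J) → A} (h : Dec x) {e0 : Fin p → J} (h0 : x e0 ≠ 0) (e : Fin p → J) :
    (Matrix.of fun i j => x (Function.update e0 i (e j))).det = x e0 ^ (p - 1) * x e :=
  (sub_eq_zero.1 ((mul_eq_zero.1 (h.2 e0 e)).resolve_left h0)).symm

/-- decomposable arrays are closed under limits -/
theorem dec_of_tendsto {p : ℕ} {J ι : Type} [DecidableEq J] {F : Filter ι} [F.NeBot]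
    {z : ι → (Fin p → J) → ℝ} {y : (Fin p → J) → ℝ}
    (hz : ∀ e, Tendsto (fun N => z N e) F (𝓝 (y e))) (hd : ∀ᶠ N in F, Dec (z N)) : Dec y := by
  constructor
  · intro e he
    have h1 : Tendsto (fun N => z N e) F (𝓝 0) :=
      tendsto_const_nhds.congr' (hd.mono fun N hN => (hN.1 e he).symm)
    exact tendsto_nhds_unique (hz e) h1
  · intro e0 e
    have hdet : Tendsto (fun N => (Matrix.of fun i j => z N (Function.update e0 i (e j)) :
        Matrix (Fin p) (Fin p) ℝ).det) F
        (𝓝 (Matrix.of fun i j => y (Function.update e0 i (e j)) :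
          Matrix (Fin p) (Fin p) ℝ).det) := by
      have h1 : Continuous fun A : Matrix (Fin p) (Fin p) ℝ => A.det :=
        Continuous.matrix_det continuous_id
      refine (h1.tendsto _).comp ?_
      exact tendsto_pi_nhds.2 fun i => tendsto_pi_nhds.2 fun j => hz _
    have h1 := (hz e0).mul ((((hz e0).pow (p - 1)).mul (hz e)).sub hdet)
    exact tendsto_nhds_unique h1
      (tendsto_const_nhds.congr' (hd.mono fun N hN => (hN.2 e0 e).symm))

end Pool.Agent.H45.DQ
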