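import Mathlib

/-!
# Chain method for real pole placement: definitions

`E c = ℂ ^ c` carries the complex bilinear pairing `dotProduct` and the real bilinear form
`Re (dotProduct u v)`; `perp` is the orthogonal space of a real subspace. `Der` is the real vector
space of the derivations of the field `ℝ` over `ℤ`; they act on complex numbers (`dC`) and on vectors
(`dE`) coordinatewise. `HV H V` and `HK H l` are the members of `H` which preserve the real subspace
`V`, respectively kill the vector `l`.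
-/

set_option autoImplicit false

open Module

namespace Pool.Agent.H45.DQ

/-- vectors (and rows) -/
abbrev E (c : ℕ) : Type := Fin c → ℂ

/-- derivations of the field of real numbers -/
abbrev Der : Type := Derivation ℤ ℝ ℝ

/-- a derivation of `ℝ` applied to a complex number -/
noncomputable def dC (D : Der) (z : ℂ) : ℂ := ⟨D z.re, D z.im⟩

/-- a derivation of `ℝ` applied to a vector -/
noncomputable def dE {c : ℕ} (D : Der) (v : E c) : E c := fun j => dC D (v j)

/-- orthogonal space for the real form `Re (dotProduct u v)` -/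
noncomputable def perp {c : ℕ} (V : Submodule ℝ (E c)) : Submodule ℝ (E c) where
  carrier := {u | ∀ v ∈ V, (dotProduct u v).re = 0}
  add_mem' := by
    intro u u' h h' v hv
    rw [add_dotProduct, Complex.add_re, h v hv, h' v hv, add_zero]
  zero_mem' := by
    intro v _
    rw [zero_dotProduct, Complex.zero_re]
  smul_mem' := by
    intro r u h v hv
    rw [smul_dotProduct, Complex.smul_re, h v hv, smul_zero]

/-- the real subspace `i V` (all `v` with `i v ∈ V`) -/
noncomputable def iS {c : ℕ} (V : Submodule ℝ (E c)) : Submodule ℝ (E c) where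
  carrier := {v | Complex.I • v ∈ V}
  add_mem' := by
    intro u u' h h'
    show Complex.I • (u + u') ∈ V
    rw [smul_add]
    exact V.add_mem h h'
  zero_mem' := by
    show Complex.I • (0 : E c) ∈ V
    rw [smul_zero]
    exact V.zero_mem
  smul_mem' := by
    intro r u h
    show Complex.I • (r • u) ∈ V
    rw [smul_comm]
    exact V.smul_mem r h

theorem dC_add (D : Der) (z w : ℂ) : dC D (z + w) = dC D z + dC D w := by
  apply Complex.ext <;> simp [dC]

theorem dC_mul (D : Der) (z w : ℂ) : dC D (z * w) = dC D z * w + z * dC D w := by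
  apply Complex.ext
  · simp [dC]
    ring
  · simp [dC]
    ring

theorem dC_zero (D : Der) : dC D 0 = 0 := by
  apply Complex.ext <;> simp [dC]

theorem dC_one (D : Der) : dC D 1 = 0 := by
  apply Complex.ext <;> simp [dC]

theorem dC_neg (D : Der) (z : ℂ) : dC D (-z) = -dC D z := by
  apply Complex.ext <;> simp [dC]

theorem dC_I (D : Der) : dC D Complex.I = 0 := by
  apply Complex.ext <;> simp [dC]

theorem dC_real (D : Der) (r : ℝ) : dC D (r : ℂ) = ((D r : ℝ) : ℂ) := by
  apply Complex.ext <;> simp [dC]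

theorem dC_re (D : Der) (z : ℂ) : (dC D z).re = D z.re := rfl

theorem dC_im (D : Der) (z : ℂ) : (dC D z).im = D z.im := rfl

theorem dC_sum (D : Der) {ι : Type} (s : Finset ι) (f : ι → ℂ) :
    dC D (∑ i ∈ s, f i) = ∑ i ∈ s, dC D (f i) := by
  classical
  induction s using Finset.induction_on with
  | empty => simp [dC_zero]
  | insert a s ha ih => rw [Finset.sum_insert ha, Finset.sum_insert ha, dC_add, ih]

/-- `dC D` as a linear map in `D` -/
noncomputable def dCL (z : ℂ) : Der →ₗ[ℝ] ℂ where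
  toFun D := dC D z
  map_add' D D' := by apply Complex.ext <;> simp [dC]
  map_smul' r D := by apply Complex.ext <;> simp [dC]

theorem dCL_apply (z : ℂ) (D : Der) : dCL z D = dC D z := rfl

theorem dE_add {c : ℕ} (D : Der) (u v : E c) : dE D (u + v) = dE D u + dE D v := by
  funext j
  exact dC_add D _ _

theorem dE_zero {c : ℕ} (D : Der) : dE D (0 : E c) = 0 := by
  funext j
  exact dC_zero D

theorem dE_neg {c : ℕ} (D : Der) (u : E c) : dE D (-u) = -dE D u := by
  funext j
  exact dC_neg D _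

theorem dE_sub {c : ℕ} (D : Der) (u v : E c) : dE D (u - v) = dE D u - dE D v := by
  rw [sub_eq_add_neg, dE_add, dE_neg, ← sub_eq_add_neg]

/-- Leibniz rule for a complex scalar -/
theorem dE_smul {c : ℕ} (D : Der) (z : ℂ) (v : E c) : dE D (z • v) = dC D z • v + z • dE D v := by
  funext j
  exact dC_mul D _ _

/-- Leibniz rule for a real scalar -/
theorem dE_rsmul {c : ℕ} (D : Der) (r : ℝ) (v : E c) : dE D (r • v) = D r • v + r • dE D v := by
  have h := dE_smul D (r : ℂ) v
  rw [dC_real] at h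
  simpa only [Complex.coe_smul] using h

theorem dE_I {c : ℕ} (D : Der) (v : E c) : dE D (Complex.I • v) = Complex.I • dE D v := by
  rw [dE_smul, dC_I, zero_smul, zero_add]

theorem dE_sum {c : ℕ} (D : Der) {ι : Type} (s : Finset ι) (f : ι → E c) :
    dE D (∑ i ∈ s, f i) = ∑ i ∈ s, dE D (f i) := by
  classical
  induction s using Finset.induction_on with
  | empty => simp [dE_zero]
  | insert a s ha ih => rw [Finset.sum_insert ha, Finset.sum_insert ha, dE_add, ih]

/-- Leibniz rule for the pairing -/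
theorem dC_dot {c : ℕ} (D : Der) (u v : E c) :
    dC D (dotProduct u v) = dotProduct (dE D u) v + dotProduct u (dE D v) := by
  unfold dotProduct
  rw [dC_sum, ← Finset.sum_add_distrib]
  exact Finset.sum_congr rfl fun j _ => dC_mul D _ _

/-- Leibniz rule for the real pairing which vanishes -/
theorem dot_re {c : ℕ} (D : Der) (u v : E c) (h : (dotProduct u v).re = 0) :
    (dotProduct (dE D u) v).re = -(dotProduct u (dE D v)).re := by
  have h1 := congrArg Complex.re (dC_dot D u v)
  rw [dC_re, h, map_zero, Complex.add_re] at h1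
  linarith

/-- Leibniz rule for the complex pairing which vanishes -/
theorem dot_zero {c : ℕ} (D : Der) (u v : E c) (h : dotProduct u v = 0) :
    dotProduct (dE D u) v = -dotProduct u (dE D v) := by
  have h1 := dC_dot D u v
  rw [h, dC_zero] at h1
  linear_combination -h1

/-- `dE D v` as a linear map in `D` -/
noncomputable def dEL {c : ℕ} (v : E c) : Der →ₗ[ℝ] E c where
  toFun D := dE D v
  map_add' D D' := by
    funext j
    exact (dCL (v j)).map_add D D'
  map_smul' r D := by
    funext j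
    exact (dCL (v j)).map_smul r D

theorem dEL_apply {c : ℕ} (v : E c) (D : Der) : dEL v D = dE D v := rfl

/-- the members of `H` which preserve `V` -/
noncomputable def HV {c : ℕ} (H : Submodule ℝ Der) (V : Submodule ℝ (E c)) : Submodule ℝ Der where
  carrier := {D | D ∈ H ∧ ∀ v ∈ V, dE D v ∈ V}
  add_mem' := by
    intro D D' h h'
    refine ⟨H.add_mem h.1 h'.1, fun v hv => ?_⟩
    rw [← dEL_apply, map_add]
    exact V.add_mem (h.2 v hv) (h'.2 v hv)
  zero_mem' := by
    refine ⟨H.zero_mem, fun v _ => ?_⟩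
    rw [← dEL_apply, map_zero]
    exact V.zero_mem
  smul_mem' := by
    intro r D h
    refine ⟨H.smul_mem r h.1, fun v hv => ?_⟩
    rw [← dEL_apply, map_smul]
    exact V.smul_mem r (h.2 v hv)

/-- the members of `H` which kill the vector `l` -/
noncomputable def HK {c : ℕ} (H : Submodule ℝ Der) (l : E c) : Submodule ℝ Der where
  carrier := {D | D ∈ H ∧ dE D l = 0}
  add_mem' := by
    intro D D' h h'
    refine ⟨H.add_mem h.1 h'.1, ?_⟩
    rw [← dEL_apply, map_add, dEL_apply, dEL_apply, h.2, h'.2, add_zero]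
  zero_mem' := by
    refine ⟨H.zero_mem, ?_⟩
    rw [← dEL_apply, map_zero]
  smul_mem' := by
    intro r D h
    refine ⟨H.smul_mem r h.1, ?_⟩
    rw [← dEL_apply, map_smul, dEL_apply, h.2, smul_zero]

theorem mem_HV {c : ℕ} {H : Submodule ℝ Der} {V : Submodule ℝ (E c)} {D : Der} :
    D ∈ HV H V ↔ D ∈ H ∧ ∀ v ∈ V, dE D v ∈ V := Iff.rfl

theorem mem_HK {c : ℕ} {H : Submodule ℝ Der} {l : E c} {D : Der} :
    D ∈ HK H l ↔ D ∈ H ∧ dE D l = 0 := Iff.rfl

theorem HV_le {c : ℕ} (H : Submodule ℝ Der) (V : Submodule ℝ (E c)) : HV H V ≤ H := fun _ h => h.1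

theorem HK_le {c : ℕ} (H : Submodule ℝ Der) (l : E c) : HK H l ≤ H := fun _ h => h.1

/-- all members of `H` preserve `V` -/
def Pres {c : ℕ} (H : Submodule ℝ Der) (V : Submodule ℝ (E c)) : Prop :=
  ∀ D ∈ H, ∀ v ∈ V, dE D v ∈ V

/-- all members of `H` kill `l` -/
def Kil {c : ℕ} (H : Submodule ℝ Der) (l : E c) : Prop := ∀ D ∈ H, dE D l = 0

/-- complex span of the `i` newest rows of the window `lam k, …, lam (k + a - 1)`, as a real
subspace -/
noncomputable def FF {c : ℕ} (lam : ℕ → E c) (a k i : ℕ) : Submodule ℝ (E c) :=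
  (Submodule.span ℂ (lam '' {m | k + a ≤ m + i ∧ m < k + a})).restrictScalars ℝ

/-- the state of `V` at the window `k`: `κ` is the least number of newest rows whose complex span
meets `perp V`, and `ρ` is the real dimension of this intersection -/
structure Df {c : ℕ} (lam : ℕ → E c) (a k : ℕ) (V : Submodule ℝ (E c)) (κ ρ : ℕ) : Prop where
  one_le : 1 ≤ κ
  le : κ ≤ a
  bot : perp V ⊓ FF lam a k (κ - 1) = ⊥
  rank : finrank ℝ (perp V ⊓ FF lam a k κ : Submodule ℝ (E c)) = ρ
  pos : 1 ≤ ρ
  two : ρ ≤ 2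

/-- the rows `lam (k+1), …, lam (k+a-1)` and `lam k + t lam (k+a)` have a common zero in `V` -/
def Sing {c : ℕ} (lam : ℕ → E c) (a k : ℕ) (t : ℝ) (V : Submodule ℝ (E c)) : Prop :=
  ∃ w ∈ V, w ≠ 0 ∧ (∀ m, k < m → m < k + a → dotProduct (lam m) w = 0) ∧
    dotProduct (lam k + (t : ℂ) • lam (k + a)) w = 0

/-- the rows `lam k, …, lam (k+a-1)` have a common zero in `V` -/
def Bad {c : ℕ} (lam : ℕ → E c) (a k : ℕ) (V : Submodule ℝ (E c)) : Prop :=
  ∃ w ∈ V, w ≠ 0 ∧ ∀ m, k ≤ m → m < k + a → dotProduct (lam m) w = 0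

/-- transition from `V` to `V'` at the replacement of the row `lam k` by `lam (k+a)`, with a
compensator of degree `j` at this scale -/
structure Tr {c : ℕ} (lam : ℕ → E c) (a k j : ℕ) (V V' : Submodule ℝ (E c)) : Prop where
  dist : finrank ℝ V ≤ finrank ℝ (V ⊓ V' : Submodule ℝ (E c)) + j
  zero : j = 0 → V' = V ∧ ∀ t : ℝ, Sing lam a k t V
  one : j = 1 → V ≠ V' → ∃ x y : E c, V = (V ⊓ V') ⊔ Submodule.span ℝ {x} ∧
    V' = (V ⊓ V') ⊔ Submodule.span ℝ {y} ∧
    ∀ t : ℝ, Sing lam a k t ((V ⊓ V') ⊔ Submodule.span ℝ {x + t • y})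

/-- context: `H` preserves `V` and kills the rows `lam m`, `m < k + a` -/
structure Ctx {a b : ℕ} (lam : ℕ → E (a + b)) (k : ℕ) (H : Submodule ℝ Der)
    (V : Submodule ℝ (E (a + b))) : Prop where
  fin : FiniteDimensional ℝ H
  posa : 1 ≤ a
  posb : 1 ≤ b
  lin : LinearIndependent ℂ (fun i : Fin a => lam (k + i))
  rk : finrank ℝ V = 2 * a
  pres : Pres H V
  kil : ∀ m < k + a, Kil H (lam m)

/-- a chain with `D` transitions, of total degree `lo D ≤ q` -/
structure Chain {c : ℕ} (lam : ℕ → E c) (a D q : ℕ) (Vm Vp : ℕ → Submodule ℝ (E c))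
    (lo hi : ℕ → ℕ) : Prop where
  rkm : ∀ k ≤ D, finrank ℝ (Vm k) = 2 * a
  rkp : ∀ k < D, finrank ℝ (Vp k) = 2 * a
  le : ∀ k < D, lo k ≤ hi k
  le' : ∀ k < D, hi k ≤ lo (k + 1)
  top : lo D ≤ q
  badm : ∀ k ≤ D, Bad lam a k (Vm k)
  badp : ∀ k < D, Bad lam a (k + 1) (Vp k)
  bub : ∀ k < D, 2 * a ≤ finrank ℝ (Vp k ⊓ Vm (k + 1) : Submodule ℝ (E c)) + (lo (k + 1) - hi k)
  tr : ∀ k < D, Tr lam a k (hi k - lo k) (Vm k) (Vp k)

/-- the rows `lam m`, `m < M`, are generic: `H` is a space of derivations for which they are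
independent coordinates -/
structure Gen {c : ℕ} (lam : ℕ → E c) (M : ℕ) (H : Submodule ℝ Der) : Prop where
  fin : FiniteDimensional ℝ H
  dim : finrank ℝ H = 2 * c * M
  inj : ∀ D ∈ H, (∀ m < M, dE D (lam m) = 0) → D = 0
  surj : ∀ m < M, ∀ u : E c, ∃ D ∈ H, dE D (lam m) = u ∧ ∀ m' < M, m' ≠ m → dE D (lam m') = 0

end Pool.Agent.H45.DQ
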