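import Pool.Agent.H45.DQ.Lim
import Pool.Agent.H45.DQ.ArrD

/-!
# Module Next: the distance between two scales

PROOF. Strong induction on `l - h`. `h ≤ l` is `comp_lim`. If `h = l`: `cf X' h` is a nonzero multiple of
`cf X h`, so `Vs` is the same (`Vs_smul`), of dimension `p` (`finrank_Vs`, `Dec.hi`, `Dec.lo`, `dec_lim`).
Let `h < l`. Write `ν_d(N) = ∑ e, |(x N e).coeff d|`. At the scale `σ`: `ν_h σ^h / M → n > 0`,
`ν_e σ^e / M → 0` for `e > h` (as `cf X e = 0`), at `σ'`: `ν_l σ'^l / M' → n' > 0`, `ν_h σ'^h / M' → 0`. So along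
the hyperfilter eventually `ν_h > 0`, `ν_l > 0`. Define `τ N` = the minimum over `e ∈ {h+1, …, q}` with
`ν_e(N) > 0` of `(ν_h / ν_e)^(1/(e-h))` (`Real.rpow`), (for the finitely many exceptional `N`, or where
`ν_h = 0` or all `ν_e = 0`: `τ N = 1`; one may also define `τ N` by `1 / τ = max_e (ν_e/ν_h)^(1/(e-h))`).
(i) `τ/σ → ∞`: for each `e > h`: `(ν_e / ν_h) σ^(e-h) = (ν_e σ^e/M) / (ν_h σ^h/M) → 0`, and
`(σ/τ)^(e-h) = (ν_e/ν_h) σ^(e-h)` for the `e = e(N)` where the minimum is attained (finitely many `e`, so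
along the ultrafilter `e(N)` is constant).
(ii) `σ'/τ → ∞`: `(τ/σ')^(l-h) ≤ (ν_h/ν_l) / σ'^(l-h) = (ν_h σ'^h/M') / (ν_l σ'^l/M') → 0`.
Let `Y` be a limit at the scale `τ` (`exists_lim`). By `comp_lim` for `σ, τ`: every `d` with `cf Y d ≠ 0` has
`d ≥ h`. For `e > h`: `ν_e τ^e ≤ ν_h τ^h`, with equality for `e = e(N)`. With `M_τ` the normalisation of `Y`:
`ν_h τ^h / M_τ → ∑ |cf Y h|`; if this were `0`, then all `cf Y e`, `e > h`, would vanish too, so `Y = 0`: so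
`cf Y h ≠ 0`, `IsLo Y h`, and `cf Y e₀ ≠ 0` for the `e₀ > h` which is attained along the ultrafilter. Let `h₁` be
the highest degree of `Y`: `h₁ ≥ e₀ > h`. `Vs (cf Y h) = Vs (cf X h)` (`comp_lim`, `Vs_smul`). By `dist_le` for
`Y` and the induction hypothesis for `(Y, h₁)` and `(X', l)` (`h₁ ≤ l` by `comp_lim`, `l - h₁ < l - h`), and
`finrank (U ⊓ W) + p ≥ finrank (U ⊓ V) + finrank (V ⊓ W)` for `finrank V = p`
(`Submodule.finrank_sup_add_finrank_inf_eq`, `(U ⊓ V) ⊔ (V ⊓ W) ≤ V`), the claim follows.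
-/

set_option autoImplicit false

open Module Polynomial Filter Topology

namespace Pool.Agent.H45.DQ

/-- the sum of the absolute values of the coefficients of degree `d` -/
private noncomputable def nu {p : ℕ} {J : Type} [Fintype J] (x : (Fin p → J) → ℝ[X]) (d : ℕ) : ℝ :=
  ∑ e, |(x e).coeff d|

private theorem nu_nonneg {p : ℕ} {J : Type} [Fintype J] (x : (Fin p → J) → ℝ[X]) (d : ℕ) :
    0 ≤ nu x d := Finset.sum_nonneg fun _ _ => abs_nonneg _

private theorem nu_zero {p : ℕ} {J : Type} [Fintype J] (x : (Fin p → J) → ℝ[X]) (d : ℕ) :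
    nu x d = 0 ↔ cf x d = 0 := by
  unfold nu
  rw [Finset.sum_eq_zero_iff_of_nonneg fun _ _ => abs_nonneg _]
  constructor
  · intro h
    funext e
    exact abs_eq_zero.1 (h e (Finset.mem_univ e))
  · intro h e _
    exact abs_eq_zero.2 (congrFun h e)

private theorem nu_pos {p : ℕ} {J : Type} [Fintype J] {x : (Fin p → J) → ℝ[X]} {d : ℕ}
    (h : cf x d ≠ 0) : 0 < nu x d :=
  lt_of_le_of_ne (nu_nonneg x d) fun h1 => h ((nu_zero x d).1 h1.symm)

private theorem nu_lim {p : ℕ} {J : Type} [Fintype J] {x : ℕ → (Fin p → J) → ℝ[X]} {σ M : ℕ → ℝ}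
    {X : (Fin p → J) → ℝ[X]} (hσ : ∀ N, 0 < σ N) (hM : ∀ N, 0 < M N)
    (h : ∀ d e, Tendsto (fun N => σ N ^ d * (x N e).coeff d / M N) (hyperfilter ℕ)
      (𝓝 ((X e).coeff d))) (d : ℕ) :
    Tendsto (fun N => σ N ^ d * nu (x N) d / M N) (hyperfilter ℕ) (𝓝 (nu X d)) := by
  have h1 : ∀ N, ∑ e, |σ N ^ d * (x N e).coeff d / M N| = σ N ^ d * nu (x N) d / M N := by
    intro N
    unfold nu
    rw [Finset.mul_sum, Finset.sum_div]
    refine Finset.sum_congr rfl fun e _ => ?_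
    rw [abs_div, abs_mul, abs_of_pos (pow_pos (hσ N) d), abs_of_pos (hM N)]
  refine Tendsto.congr h1 ?_
  unfold nu
  exact tendsto_finset_sum _ fun e _ => (h d e).abs

private theorem nu_ev {p : ℕ} {J : Type} [Fintype J] {x : ℕ → (Fin p → J) → ℝ[X]} {σ M : ℕ → ℝ}
    {X : (Fin p → J) → ℝ[X]} (hσ : ∀ N, 0 < σ N) (hM : ∀ N, 0 < M N)
    (h : ∀ d e, Tendsto (fun N => σ N ^ d * (x N e).coeff d / M N) (hyperfilter ℕ)
      (𝓝 ((X e).coeff d))) {d : ℕ} (hd : cf X d ≠ 0) :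
    ∀ᶠ N in hyperfilter ℕ, 0 < nu (x N) d := by
  filter_upwards [(nu_lim hσ hM h d).eventually (lt_mem_nhds (nu_pos hd))] with N hN
  refine lt_of_le_of_ne (nu_nonneg _ _) fun h1 => ?_
  rw [← h1, mul_zero, zero_div] at hN
  exact lt_irrefl _ hN

private theorem at_top_of_pow {t : ℕ → ℝ} {F : Filter ℕ} {k : ℕ} (hk : k ≠ 0)
    (ht : ∀ N, 0 ≤ t N) (h : Tendsto (fun N => t N ^ k) F atTop) : Tendsto t F atTop := by
  rw [tendsto_atTop] at h ⊢
  intro B
  filter_upwards [h (|B| ^ k)] with N h1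
  exact (le_abs_self B).trans ((pow_le_pow_iff_left₀ (abs_nonneg B) (ht N) hk).1 h1)

private theorem ratio_eq {a b s M : ℝ} (hs : s ≠ 0) (hM : M ≠ 0) {h e : ℕ} (he : h ≤ e) :
    s ^ e * a / M / (s ^ h * b / M) = s ^ (e - h) * a / b := by
  rw [div_div_div_cancel_right₀ hM]
  obtain ⟨k, rfl⟩ := Nat.exists_eq_add_of_le he
  rw [Nat.add_sub_cancel_left, pow_add, mul_assoc, mul_div_mul_left _ _ (pow_ne_zero h hs)]

/-- the intermediate scale -/
private theorem exists_tau {p q : ℕ} {J : Type} [Fintype J] [DecidableEq J]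
    {x : ℕ → (Fin p → J) → ℝ[X]} {σ σ' : ℕ → ℝ} (hσ : ∀ N, 0 < σ N)
    (hσ' : ∀ N, 0 < σ' N) {X X' : (Fin p → J) → ℝ[X]} (hX : IsLim x σ X) (hX' : IsLim x σ' X')
    {h l : ℕ} (hh : IsHi X h) (hl : IsLo X' l) (hhl : h < l) (hlq : l ≤ q) :
    ∃ (τ : ℕ → ℝ) (e₀ : ℕ), h < e₀ ∧ (∀ N, 0 < τ N) ∧
      Tendsto (fun N => τ N / σ N) (hyperfilter ℕ) atTop ∧
      Tendsto (fun N => σ' N / τ N) (hyperfilter ℕ) atTop ∧
      (∀ᶠ N in hyperfilter ℕ, ∀ e, h < e → e ≤ q → τ N ^ e * nu (x N) e ≤ τ N ^ h * nu (x N) h) ∧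
      ∀ᶠ N in hyperfilter ℕ, τ N ^ e₀ * nu (x N) e₀ = τ N ^ h * nu (x N) h := by
  classical
  obtain ⟨-, M, hM, hlim⟩ := hX
  obtain ⟨-, M', hM', hlim'⟩ := hX'
  have hev := nu_ev hσ hM hlim hh.1
  have hev' := nu_ev hσ' hM' hlim' hl.1
  obtain ⟨g, hg⟩ : ∃ g : ℕ → ℕ → ℝ, g = fun N e => (nu (x N) e / nu (x N) h) ^ (((e - h : ℕ) : ℝ)⁻¹) :=
    ⟨_, rfl⟩
  have hg0 : ∀ N e, 0 ≤ g N e := by
    intro N e
    rw [hg]
    exact Real.rpow_nonneg (div_nonneg (nu_nonneg _ _) (nu_nonneg _ _)) _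
  have hgp : ∀ N e, h < e → g N e ^ (e - h) = nu (x N) e / nu (x N) h := by
    intro N e he
    rw [hg]
    exact Real.rpow_inv_natCast_pow (div_nonneg (nu_nonneg _ _) (nu_nonneg _ _)) (by omega)
  have hne : (Finset.Ioc h q).Nonempty := ⟨l, Finset.mem_Ioc.2 ⟨hhl, hlq⟩⟩
  have hex : ∀ᶠ N in (hyperfilter ℕ : Filter ℕ), ∃ a ∈ (Finset.Ioc h q : Set ℕ), ∀ e ∈ Finset.Ioc h q, g N e ≤ g N a := by
    refine Eventually.of_forall fun N => ?_
    obtain ⟨a, ha, h1⟩ := Finset.exists_max_image (Finset.Ioc h q) (g N) hne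
    exact ⟨a, Finset.mem_coe.2 ha, h1⟩
  rw [Ultrafilter.eventually_exists_mem_iff (Finset.finite_toSet _)] at hex
  obtain ⟨e₀, he₀, hmax⟩ := hex
  rw [Finset.mem_coe, Finset.mem_Ioc] at he₀
  obtain ⟨τ, hτ⟩ : ∃ τ : ℕ → ℝ, τ = fun N => if 0 < g N e₀ then (g N e₀)⁻¹ else 1 := ⟨_, rfl⟩
  have hτ0 : ∀ N, 0 < τ N := by
    intro N
    rw [hτ]
    change 0 < ite _ _ _
    split_ifs with h1
    · exact inv_pos.2 h1
    · exact one_pos
  have hgpos : ∀ᶠ N in hyperfilter ℕ, 0 < g N e₀ ∧ τ N * g N e₀ = 1 ∧ ∀ e, h < e → e ≤ q → τ N * g N e ≤ 1 := by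
    filter_upwards [hev, hev', hmax] with N h1 h2 h3
    have h4 : 0 < g N e₀ := by
      refine lt_of_lt_of_le ?_ (h3 l (Finset.mem_Ioc.2 ⟨hhl, hlq⟩))
      refine lt_of_le_of_ne (hg0 N l) fun h5 => ?_
      have h6 := hgp N l hhl
      rw [← h5, zero_pow (by omega)] at h6
      exact (div_pos h2 h1).ne h6
    have h5 : τ N = (g N e₀)⁻¹ := by
      rw [hτ]
      exact if_pos h4
    refine ⟨h4, by rw [h5, inv_mul_cancel₀ h4.ne'], fun e he heq => ?_⟩
    rw [h5, inv_mul_le_iff₀ h4, mul_one]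
    exact h3 e (Finset.mem_Ioc.2 ⟨he, heq⟩)
  have hpw : ∀ N e, h < e → τ N ^ e * nu (x N) e / nu (x N) h = τ N ^ h * (τ N * g N e) ^ (e - h) := by
    intro N e he
    rw [mul_pow, hgp N e he, mul_div_assoc, ← mul_assoc, ← pow_add]
    congr 2
    omega
  refine ⟨τ, e₀, he₀.1, hτ0, ?_, ?_, ?_, ?_⟩
  · -- `τ / σ` tends to infinity
    have h1 : Tendsto (fun N => σ N ^ (e₀ - h) * nu (x N) e₀ / nu (x N) h) (hyperfilter ℕ) (𝓝 0) := by
      have h2 := (nu_lim hσ hM hlim e₀).div (nu_lim hσ hM hlim h) (nu_pos hh.1).ne'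
      rw [(nu_zero X e₀).2 (hh.2 e₀ he₀.1), zero_div] at h2
      exact h2.congr fun N => ratio_eq (hσ N).ne' (hM N).ne' he₀.1.le
    have h2 : Tendsto (fun N => σ N ^ (e₀ - h) * nu (x N) e₀ / nu (x N) h) (hyperfilter ℕ) (𝓝[>] 0) := by
      refine tendsto_nhdsWithin_iff.2 ⟨h1, ?_⟩
      filter_upwards [hgpos] with N h3
      have h4 : nu (x N) e₀ / nu (x N) h = g N e₀ ^ (e₀ - h) := (hgp N e₀ he₀.1).symm
      rw [Set.mem_Ioi, mul_div_assoc, h4]
      exact mul_pos (pow_pos (hσ N) _) (pow_pos h3.1 _)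
    have h3 := h2.inv_tendsto_nhdsGT_zero
    refine at_top_of_pow (k := e₀ - h) (by omega) (fun N => (div_pos (hτ0 N) (hσ N)).le) ?_
    refine h3.congr' ?_
    filter_upwards [hgpos] with N h4
    have h5 : τ N = (g N e₀)⁻¹ := eq_inv_of_mul_eq_one_left h4.2.1
    have h6 : nu (x N) e₀ / nu (x N) h = g N e₀ ^ (e₀ - h) := (hgp N e₀ he₀.1).symm
    change (σ N ^ (e₀ - h) * nu (x N) e₀ / nu (x N) h)⁻¹ = (τ N / σ N) ^ (e₀ - h)
    rw [mul_div_assoc, h6, h5, ← mul_pow, ← inv_pow, mul_inv, div_eq_mul_inv, mul_comm]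
  · -- `σ' / τ` tends to infinity
    refine at_top_of_pow (k := l - h) (by omega) (fun N => (div_pos (hσ' N) (hτ0 N)).le) ?_
    have h1 : Tendsto (fun N => σ' N ^ (l - h) * nu (x N) l / nu (x N) h) (hyperfilter ℕ) atTop := by
      have h2 := nu_lim hσ' hM' hlim' h
      rw [(nu_zero X' h).2 (hl.2 h hhl)] at h2
      have h3 : Tendsto (fun N => σ' N ^ h * nu (x N) h / M' N) (hyperfilter ℕ) (𝓝[>] 0) := by
        refine tendsto_nhdsWithin_iff.2 ⟨h2, ?_⟩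
        filter_upwards [hev] with N h4
        exact div_pos (mul_pos (pow_pos (hσ' N) _) h4) (hM' N)
      have h4 := (nu_lim hσ' hM' hlim' l).pos_mul_atTop (nu_pos hl.1) h3.inv_tendsto_nhdsGT_zero
      refine h4.congr fun N => ?_
      change σ' N ^ l * nu (x N) l / M' N * (σ' N ^ h * nu (x N) h / M' N)⁻¹ = _
      rw [← div_eq_mul_inv]
      exact ratio_eq (hσ' N).ne' (hM' N).ne' hhl.le
    refine tendsto_atTop_mono' _ ?_ h1
    filter_upwards [hgpos] with N h2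
    have h3 : nu (x N) l / nu (x N) h = g N l ^ (l - h) := (hgp N l hhl).symm
    have h4 := h2.2.2 l hhl hlq
    rw [mul_div_assoc, h3, ← mul_pow]
    refine pow_le_pow_left₀ (mul_nonneg (hσ' N).le (hg0 N l)) ?_ _
    rw [div_eq_mul_inv]
    refine mul_le_mul_of_nonneg_left ?_ (hσ' N).le
    rw [← one_div, le_div_iff₀ (hτ0 N), mul_comm]
    exact h4
  · filter_upwards [hgpos, hev] with N h1 h2 e he heq
    have h3 := hpw N e he
    have h4 : (τ N * g N e) ^ (e - h) ≤ 1 :=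
      pow_le_one₀ (mul_nonneg (hτ0 N).le (hg0 N e)) (h1.2.2 e he heq)
    have h5 : τ N ^ e * nu (x N) e / nu (x N) h ≤ τ N ^ h := by
      rw [h3]
      exact mul_le_of_le_one_right (pow_pos (hτ0 N) h).le h4
    exact (div_le_iff₀ h2).1 h5
  · filter_upwards [hgpos, hev] with N h1 h2
    have h3 := hpw N e₀ he₀.1
    rw [h1.2.1, one_pow, mul_one] at h3
    exact (div_eq_iff h2.ne').1 h3

private theorem finrank_tri {V : Type} [AddCommGroup V] [Module ℝ V] [FiniteDimensional ℝ V]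
    (A B C : Submodule ℝ V) :
    finrank ℝ (A ⊓ B : Submodule ℝ V) + finrank ℝ (B ⊓ C : Submodule ℝ V) ≤
      finrank ℝ (A ⊓ C : Submodule ℝ V) + finrank ℝ B := by
  have h1 := Submodule.finrank_sup_add_finrank_inf_eq (A ⊓ B) (B ⊓ C)
  have h2 : finrank ℝ ((A ⊓ B) ⊔ (B ⊓ C) : Submodule ℝ V) ≤ finrank ℝ B :=
    Submodule.finrank_mono (sup_le inf_le_right inf_le_left)
  have h3 : finrank ℝ ((A ⊓ B) ⊓ (B ⊓ C) : Submodule ℝ V) ≤ finrank ℝ (A ⊓ C : Submodule ℝ V) :=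
    Submodule.finrank_mono (le_inf (inf_le_left.trans inf_le_left) (inf_le_right.trans inf_le_right))
  omega

private theorem next_aux {p q : ℕ} {J : Type} [Fintype J] [DecidableEq J] (hp : 1 ≤ p)
    {x : ℕ → (Fin p → J) → ℝ[X]} (hx : ∀ N, Dec (x N)) (hx0 : ∀ N, x N ≠ 0)
    (hq : ∀ N e, (x N e).natDegree ≤ q) {σ' : ℕ → ℝ} (hσ' : ∀ N, 0 < σ' N)
    {X' : (Fin p → J) → ℝ[X]} (hX' : IsLim x σ' X') {l : ℕ} (hl : IsLo X' l) (n : ℕ) :
    ∀ (σ : ℕ → ℝ) (X : (Fin p → J) → ℝ[X]) (h : ℕ), (∀ N, 0 < σ N) →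
      Tendsto (fun N => σ' N / σ N) (hyperfilter ℕ) atTop → IsLim x σ X → IsHi X h →
      l - h < n →
      h ≤ l ∧ p ≤ finrank ℝ (Vs (cf X h) ⊓ Vs (cf X' l) : Submodule ℝ (J → ℝ)) + (l - h) := by
  induction n with
  | zero => intro σ X h _ _ _ _ h1; exact absurd h1 (Nat.not_lt_zero _)
  | succ n ih =>
    intro σ X h hσ hs hX hh hn
    have hDX := dec_lim hp hx hq hX
    obtain ⟨hle, heq⟩ := comp_lim hσ hσ' hs hX hX' hh.1 hl.1
    refine ⟨hle, ?_⟩
    rcases hle.eq_or_lt with rfl | hlt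
    · obtain ⟨r, hr, h1⟩ := heq rfl
      rw [h1, Vs_smul hr, inf_idem, finrank_Vs hp (hDX.hi hp hh) hh.1]
      omega
    · obtain ⟨e, he⟩ : ∃ e, cf X' l e ≠ 0 := by
        by_contra hcon
        push Not at hcon
        exact hl.1 (funext hcon)
      have hlq : l ≤ q := (le_natDegree_of_ne_zero he).trans (lim_natDegree hq hX' e)
      obtain ⟨τ, e₀, he₀, hτ, hs1, hs2, hev1, hev2⟩ := exists_tau hσ hσ' hX hX' hh hl hlt hlq
      obtain ⟨Y, hY⟩ := exists_lim hx0 hq hτ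
      have hcomp := fun (d : ℕ) (hd : cf Y d ≠ 0) => comp_lim hσ hτ hs1 hX hY hh.1 hd
      obtain ⟨hY0, M, hM, hlim⟩ := id hY
      have hYh : cf Y h ≠ 0 := by
        intro h0
        apply hY0
        have h1 : ∀ d, cf Y d = 0 := by
          intro d
          rcases lt_trichotomy d h with hd | hd | hd
          · by_contra h2
            exact absurd (hcomp d h2).1 (not_le.2 hd)
          · rw [hd]
            exact h0
          · by_cases hdq : d ≤ q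
            · rw [← nu_zero]
              have h2 := nu_lim hτ hM hlim d
              have h3 := nu_lim hτ hM hlim h
              rw [(nu_zero Y h).2 h0] at h3
              refine le_antisymm (le_of_tendsto_of_tendsto h2 h3 ?_) (nu_nonneg _ _)
              filter_upwards [hev1] with N hN
              exact div_le_div_of_nonneg_right (hN d hd hdq) (hM N).le
            · funext e'
              exact coeff_eq_zero_of_natDegree_lt (lt_of_le_of_lt (lim_natDegree hq hY e') (not_le.1 hdq))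
        funext e'
        ext d
        exact congrFun (h1 d) e'
      have hlo : IsLo Y h := ⟨hYh, fun d hd => by
        by_contra h2
        exact absurd (hcomp d h2).1 (not_le.2 hd)⟩
      have hYe : cf Y e₀ ≠ 0 := by
        rw [Ne, ← nu_zero]
        have h2 := nu_lim hτ hM hlim e₀
        have h3 := nu_lim hτ hM hlim h
        have h4 : nu Y e₀ = nu Y h := by
          refine tendsto_nhds_unique (h2.congr' ?_) h3
          filter_upwards [hev2] with N hN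
          rw [hN]
        rw [h4]
        exact (nu_pos hYh).ne'
      obtain ⟨-, h₁, -, hhi, -⟩ := exists_lo_hi hY0
      have hlt1 : h < h₁ := by
        by_contra hcon
        exact hYe (hhi.2 e₀ (by omega))
      have hDY := dec_lim hp hx hq hY
      obtain ⟨h2, h3⟩ := ih τ Y h₁ hτ hs2 hY hhi (by omega)
      have h4 := dist_le hp hDY hlo hhi
      obtain ⟨r, hr, h5⟩ := (hcomp h hYh).2 rfl
      rw [h5, Vs_smul hr] at h4
      have h6 := finrank_tri (Vs (cf X h)) (Vs (cf Y h₁)) (Vs (cf X' l))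
      rw [finrank_Vs hp (hDY.hi hp hhi) hhi.1] at h6
      omega

theorem next_dist {p q : ℕ} {J : Type} [Fintype J] [DecidableEq J] (hp : 1 ≤ p)
    {x : ℕ → (Fin p → J) → ℝ[X]} (hx : ∀ N, Dec (x N)) (hx0 : ∀ N, x N ≠ 0)
    (hq : ∀ N e, (x N e).natDegree ≤ q) {σ σ' : ℕ → ℝ} (hσ : ∀ N, 0 < σ N)
    (hσ' : ∀ N, 0 < σ' N) (hs : Tendsto (fun N => σ' N / σ N) (hyperfilter ℕ) atTop)
    {X X' : (Fin p → J) → ℝ[X]} (hX : IsLim x σ X) (hX' : IsLim x σ' X') {h l : ℕ}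
    (hh : IsHi X h) (hl : IsLo X' l) :
    h ≤ l ∧ p ≤ finrank ℝ (Vs (cf X h) ⊓ Vs (cf X' l) : Submodule ℝ (J → ℝ)) + (l - h) :=
  next_aux hp hx hx0 hq hσ' hX' hl (l - h + 1) σ X h hσ hs hX hh (Nat.lt_succ_self _)

end Pool.Agent.H45.DQ
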