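import Pool.Agent.H45.DQ.Plant

/-!
# Module PlantL: the limit of the special plants at the scale `N ^ (k+1)`

PROOF. Fix `r`, `i = r/2 < a`, `s = sq a k i`, `m = ix a k i = i + s a ∈ [k, k+a)`,
`μ N = (N^(k+1))^s * rho a N i s` (positive for `N ≥ 1`). The coefficient `d` of `PL` is
`rho a N i d * cov e (mu r • lam (i + d a)) j` if `i + d a < a + D`, else `0`. Write
`T d = (N^(k+1))^d * rho a N i d = ∏ s' < d, N^(k+1) / N^(i + s' a + 1)`. For `d < s`:
`T d / T s = ∏ (d ≤ s' < s) N^(i + s' a + 1) / N^(k+1) → 0` since `i + s' a < k` there (`s' ≤ s - 1`,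
`i + s' a ≤ m - a < k`). For `d = s`: `1` (and `m < a + D` as `m < k + a`, `k < D`). For `d > s`:
`T d / T s = ∏ (s ≤ s' < d) N^(k+1) / N^(i + s' a + 1)`: the factor `s' = s` is `N^(k - m)`, equal to `1` if
`m = k` and tending to `0` if `m > k`; the factors `s' > s` tend to `0` (`i + s' a ≥ m + a > k`). So for
`d = s + 1` the limit is `1` if `m = k` (then `i + d a = k + a < a + D`) and `0` otherwise; for `d ≥ s + 2` it is
`0`. The limits are the coefficients of `X ^ s * LP e lam a k r j`.
-/

set_option autoImplicit false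

open Module Polynomial Filter Topology

namespace Pool.Agent.H45.DQ

/-- scaled factors -/
private noncomputable def pT (a k i N d : ℕ) : ℝ := ((N : ℝ) ^ (k + 1)) ^ d * rho a N i d

private theorem pT_succ (a k i N d : ℕ) : pT a k i N (d + 1) =
    pT a k i N d * ((N : ℝ) ^ (k + 1) * ((N : ℝ) ^ (i + d * a + 1))⁻¹) := by
  unfold pT rho
  rw [Finset.prod_range_succ, pow_succ]
  ring

private theorem pT_pos (a k i : ℕ) {N : ℕ} (hN : 1 ≤ N) (d : ℕ) : 0 < pT a k i N d := by
  have h : (0 : ℝ) < N := by exact_mod_cast hN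
  unfold pT rho
  exact mul_pos (pow_pos (pow_pos h _) _) (Finset.prod_pos fun s _ => inv_pos.2 (pow_pos h _))

private theorem pF_lim {k m : ℕ} (h : k < m) :
    Tendsto (fun N : ℕ => (N : ℝ) ^ (k + 1) * ((N : ℝ) ^ (m + 1))⁻¹) atTop (𝓝 0) := by
  have h1 := (tendsto_pow_div_pow_atTop_zero (𝕜 := ℝ) (show k + 1 < m + 1 by omega)).comp
    tendsto_natCast_atTop_atTop
  refine h1.congr fun N => ?_
  rw [Function.comp_apply, div_eq_mul_inv]

private theorem p_self (a k i s : ℕ) :
    Tendsto (fun N : ℕ => pT a k i N s / pT a k i N s) atTop (𝓝 1) := by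
  refine (tendsto_const_nhds (x := (1 : ℝ))).congr' ?_
  filter_upwards [eventually_ge_atTop 1] with N hN
  rw [div_self (pT_pos a k i hN s).ne']

private theorem p_back {a k i s : ℕ} (hs : i + s * a < k + a) : ∀ n d : ℕ, d + n = s →
    Tendsto (fun N : ℕ => pT a k i N d / pT a k i N s) atTop (𝓝 (if n = 0 then 1 else 0)) := by
  intro n
  induction n with
  | zero =>
    intro d hd
    rw [if_pos rfl]
    obtain rfl : d = s := hd
    exact p_self a k i d
  | succ n ih =>
    intro d hd
    rw [if_neg (Nat.succ_ne_zero n)]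
    have h1 := ih (d + 1) (by omega)
    have hlt : i + d * a < k := by
      have h2 : (d + 1) * a ≤ s * a := Nat.mul_le_mul_right a (by omega)
      rw [add_mul, one_mul] at h2
      omega
    have h2 := h1.mul (pF_lim hlt)
    rw [mul_zero] at h2
    refine h2.congr' ?_
    filter_upwards [eventually_ge_atTop 1] with N hN
    have h3 : (0 : ℝ) < N := by exact_mod_cast hN
    rw [pT_succ]
    have h4 := (pow_pos h3 (k + 1)).ne'
    have h5 := (pow_pos h3 (i + d * a + 1)).ne'
    have h6 := (pT_pos a k i hN s).ne'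
    field_simp

private theorem p_one {a k i s : ℕ} (hs : k ≤ i + s * a) :
    Tendsto (fun N : ℕ => pT a k i N (s + 1) / pT a k i N s) atTop
      (𝓝 (if i + s * a = k then 1 else 0)) := by
  have h0 : Tendsto (fun N : ℕ => (N : ℝ) ^ (k + 1) * ((N : ℝ) ^ (i + s * a + 1))⁻¹) atTop
      (𝓝 (if i + s * a = k then 1 else 0)) := by
    by_cases h : i + s * a = k
    · rw [if_pos h, h]
      refine (tendsto_const_nhds (x := (1 : ℝ))).congr' ?_
      filter_upwards [eventually_ge_atTop 1] with N hN
      have h3 : (0 : ℝ) < N := by exact_mod_cast hN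
      rw [mul_inv_cancel₀ (pow_pos h3 _).ne']
    · rw [if_neg h]
      exact pF_lim (lt_of_le_of_ne hs (Ne.symm h))
  have h2 := (p_self a k i s).mul h0
  rw [one_mul] at h2
  refine h2.congr fun N => ?_
  rw [pT_succ]
  ring

private theorem p_two {a k i s : ℕ} (ha : 1 ≤ a) (hs : k ≤ i + s * a) (n : ℕ) :
    Tendsto (fun N : ℕ => pT a k i N (s + (n + 2)) / pT a k i N s) atTop (𝓝 0) := by
  have hgt : ∀ n : ℕ, k < i + (s + (n + 1)) * a := by
    intro n
    have h2 : (s + 1) * a ≤ (s + (n + 1)) * a := Nat.mul_le_mul_right a (by omega)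
    rw [add_mul s 1, one_mul] at h2
    omega
  induction n with
  | zero =>
    have h2 := (p_one hs).mul (pF_lim (hgt 0))
    rw [mul_zero] at h2
    refine h2.congr fun N => ?_
    rw [show s + (0 + 2) = s + (0 + 1) + 1 by omega, pT_succ a k i N (s + (0 + 1))]
    ring
  | succ n ih =>
    have h2 := ih.mul (pF_lim (hgt (n + 1)))
    rw [mul_zero] at h2
    refine h2.congr fun N => ?_
    rw [show s + (n + 1 + 2) = s + (n + 2) + 1 by omega, pT_succ a k i N (s + (n + 2))]
    ring

private theorem PL_coeff {c : ℕ} {J : Type} (e : J ≃ Fin c × Bool) (lam : ℕ → E c) {a D : ℕ}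
    (ha : 1 ≤ a) (N : ℕ) (r : Fin (2 * a)) (j : J) (d : ℕ) :
    (PL e lam a D N r j).coeff d = if (r : ℕ) / 2 + d * a < a + D then
      rho a N ((r : ℕ) / 2) d * cov e (mu r • lam ((r : ℕ) / 2 + d * a)) j else 0 := by
  unfold PL
  rw [finsetSum_coeff]
  have h1 : ∀ d' ∈ Finset.range (D + 1), (if (r : ℕ) / 2 + d' * a < a + D then
      monomial d' (rho a N ((r : ℕ) / 2) d' * cov e (mu r • lam ((r : ℕ) / 2 + d' * a)) j)
        else 0 : ℝ[X]).coeff d = if d' = d then (if (r : ℕ) / 2 + d * a < a + D then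
      rho a N ((r : ℕ) / 2) d * cov e (mu r • lam ((r : ℕ) / 2 + d * a)) j else 0) else 0 := by
    intro d' _
    by_cases hd : d' = d
    · rw [if_pos hd, hd]
      by_cases h : (r : ℕ) / 2 + d * a < a + D
      · rw [if_pos h, if_pos h, coeff_monomial, if_pos rfl]
      · rw [if_neg h, if_neg h, coeff_zero]
    · rw [if_neg hd]
      by_cases h : (r : ℕ) / 2 + d' * a < a + D
      · rw [if_pos h, coeff_monomial, if_neg hd]
      · rw [if_neg h, coeff_zero]
  rw [Finset.sum_congr rfl h1, Finset.sum_ite_eq']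
  by_cases h : (r : ℕ) / 2 + d * a < a + D
  · have hd : d ∈ Finset.range (D + 1) := by
      rw [Finset.mem_range]
      by_contra hc
      have h2 : (D + 1) * a ≤ d * a := Nat.mul_le_mul_right a (by omega)
      have h3 : D * 1 ≤ D * a := Nat.mul_le_mul_left D ha
      rw [add_mul, one_mul] at h2
      omega
    rw [if_pos hd]
  · rw [if_neg h, ite_self]

private theorem LP_coeff {c : ℕ} {J : Type} (e : J ≃ Fin c × Bool) (lam : ℕ → E c) (a k : ℕ)
    (r : Fin (2 * a)) (j : J) :
    (LP e lam a k r j).coeff 0 = cov e (mu r • lam (ix a k ((r : ℕ) / 2))) j ∧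
    (LP e lam a k r j).coeff 1 = (if ix a k ((r : ℕ) / 2) = k then
      cov e (mu r • lam (k + a)) j else 0) ∧
    ∀ n, (LP e lam a k r j).coeff (n + 2) = 0 := by
  unfold LP
  by_cases h : ix a k ((r : ℕ) / 2) = k
  · rw [if_pos h, if_pos h, X_mul_C]
    refine ⟨?_, ?_, fun n => ?_⟩
    · rw [coeff_add, coeff_C_zero, coeff_C_mul, coeff_X_zero, mul_zero, add_zero]
    · rw [coeff_add, coeff_C, if_neg one_ne_zero, zero_add, coeff_C_mul, coeff_X_one, mul_one]
    · rw [coeff_add, coeff_C, if_neg (by omega), zero_add, coeff_C_mul, coeff_X, if_neg (by omega),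
        mul_zero]
  · rw [if_neg h, if_neg h, add_zero]
    refine ⟨coeff_C_zero, ?_, fun n => ?_⟩
    · rw [coeff_C, if_neg one_ne_zero]
    · rw [coeff_C, if_neg (by omega)]

theorem row_limit {c : ℕ} {J : Type} (e : J ≃ Fin c × Bool) (lam : ℕ → E c) {a D k : ℕ}
    (ha : 1 ≤ a) (hk : k < D) (r : Fin (2 * a)) :
    ∃ μ : ℕ → ℝ, (∀ N, 1 ≤ N → 0 < μ N) ∧ ∀ (d : ℕ) (j : J),
      Tendsto (fun N : ℕ => ((N : ℝ) ^ (k + 1)) ^ d * (PL e lam a D N r j).coeff d / μ N) atTop
        (𝓝 ((X ^ sq a k ((r : ℕ) / 2) * LP e lam a k r j).coeff d)) := by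
  have hi : (r : ℕ) / 2 < a := by
    have := r.2
    omega
  obtain ⟨hm1, hm2⟩ := ix_mem (k := k) hi
  generalize hidef : (r : ℕ) / 2 = i at hi hm1 hm2
  generalize hsdef : sq a k i = s
  have hix : ix a k i = i + s * a := by
    rw [← hsdef]
    rfl
  rw [hix] at hm1 hm2
  refine ⟨fun N => pT a k i N s, fun N hN => pT_pos a k i hN s, fun d j => ?_⟩
  have hLP := LP_coeff e lam a k r j
  rw [hidef, hix] at hLP
  have hform : ∀ N : ℕ, ((N : ℝ) ^ (k + 1)) ^ d * (PL e lam a D N r j).coeff d / pT a k i N s =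
      if i + d * a < a + D then pT a k i N d / pT a k i N s *
        cov e (mu r • lam (i + d * a)) j else 0 := by
    intro N
    rw [PL_coeff e lam ha, hidef]
    by_cases h : i + d * a < a + D
    · rw [if_pos h, if_pos h]
      unfold pT
      ring
    · rw [if_neg h, if_neg h, mul_zero, zero_div]
  simp only [hform]
  have hlim : ∀ L : ℝ, Tendsto (fun N : ℕ => pT a k i N d / pT a k i N s) atTop (𝓝 L) →
      (X ^ s * LP e lam a k r j).coeff d = (if i + d * a < a + D then
        L * cov e (mu r • lam (i + d * a)) j else 0) →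
      Tendsto (fun N : ℕ => if i + d * a < a + D then pT a k i N d / pT a k i N s *
        cov e (mu r • lam (i + d * a)) j else 0) atTop
          (𝓝 ((X ^ s * LP e lam a k r j).coeff d)) := by
    intro L hL hc
    rw [hc]
    by_cases h : i + d * a < a + D
    · simp only [if_pos h]
      exact hL.mul_const _
    · simp only [if_neg h]
      exact tendsto_const_nhds
  rcases Nat.lt_or_ge d s with hd | hd
  · have h1 := p_back hm2 (s - d) d (by omega)
    rw [if_neg (show s - d ≠ 0 by omega)] at h1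
    refine hlim 0 h1 ?_
    rw [coeff_X_pow_mul', if_neg (not_le.2 hd), zero_mul, ite_self]
  · obtain ⟨n, rfl⟩ : ∃ n, d = n + s := ⟨d - s, by omega⟩
    have hco : (X ^ s * LP e lam a k r j).coeff (n + s) = (LP e lam a k r j).coeff n := by
      rw [coeff_X_pow_mul]
    rcases n with _ | _ | n
    · refine hlim 1 ?_ ?_
      · rw [zero_add]
        exact p_self a k i s
      · rw [hco, hLP.1, zero_add, if_pos (by omega), one_mul]
    · refine hlim _ (by rw [zero_add, add_comm 1 s]; exact p_one hm1) ?_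
      rw [hco, zero_add, hLP.2.1]
      by_cases h : i + s * a = k
      · have h2 : i + (1 + s) * a = k + a := by
          rw [add_mul, one_mul]
          omega
        rw [if_pos h, if_pos h, one_mul, h2, if_pos (by omega)]
      · rw [if_neg h, if_neg h, zero_mul, ite_self]
    · refine hlim 0 (by rw [add_comm _ s]; exact p_two ha hm1 n) ?_
      rw [hco, hLP.2.2 n, zero_mul, ite_self]

end Pool.Agent.H45.DQ
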