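import Pool.Agent.H45.DQ.Link
import Pool.Agent.H45.DQ.PlantL
import Pool.Agent.H45.DQ.Next

/-!
# Module Ext: bad compensators for large `N` give a chain

PROOF of `lim_link`. `pr_limit` with `R N = PL e lam a D (φ N)`, `σ N = (φ N)^(k+1)`, `μ` from `row_limit`
(composed with `φ → ∞` along the hyperfilter: `Filter.hyperfilter_le_cofinite`, `Nat.cofinite_eq_atTop`,
`hφ : Tendsto φ atTop atTop`), limit rows `X ^ sq * LP`; `pr_mul` takes out `∏ r, X ^ sq a k (r/2) = X ^ (2 k)`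
(`sum_sq`, `Finset.prod_pow_eq_pow_sum`), `Polynomial.coeff_X_pow_mul`.
PROOF of `exists_chain`. From the frequently many bad `N` take `φ` strictly increasing, `φ N ≥ 1`, and
`x N` (`Filter.extraction_of_frequently_atTop`, `choose`). For every `k < D` let `X k` be a limit at
`σ_k N = (φ N)^(k+1)` (`exists_lim`), `lo k`, `hi k` its degrees (`exists_lo_hi`). `lim_link` (all coefficients)
gives `pr LP (X k) = 0`; `link`. `Vm k = VE e (cf (X k) (lo k))`, `Vp k = VE e (cf (X k) (hi k))` for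
`k < D`, `Vm D = Vp (D-1)`, `lo D = hi (D-1)` (`≤ q` by `lim_natDegree`). `le'`, `bub`: `next_dist` for `σ_k`,
`σ_{k+1}` (`σ_{k+1} / σ_k = φ N → ∞`), for `k = D - 1` trivial. Ranks: `finrank_VE`, `Dec.lo`, `Dec.hi`,
`dec_lim`; `finrank_VE_inf`.
PROOF of `exists_chain_last` (`D + 1` transitions in the plant): the same with limits for `k ≤ D`;
`lim_link`: `(pr LP (X k)).coeff d = 0` for `d + 2 k ≠ 2 (D+1) + q`. For `k < D` this is zero for all `d`
because `natDegree (pr LP (X k)) ≤ q + 2 < 2 (D+1) + q - 2 k` (`coeff_hi` with `h = hi k ≤ q`). For `k = D`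
use `link_last`. `Vm D = VE e (cf (X D) (lo D))`.
-/

set_option autoImplicit false

open Module Polynomial Filter Topology

namespace Pool.Agent.H45.DQ

theorem lim_link {c : ℕ} {J : Type} [Fintype J] [DecidableEq J] (e : J ≃ Fin c × Bool)
    (lam : ℕ → E c) {a D k : ℕ} (ha : 1 ≤ a) (hk : k < D) {φ : ℕ → ℕ} (hφ : ∀ N, 1 ≤ φ N)
    (hφ' : Tendsto φ atTop atTop) {x : ℕ → (Fin (2 * a) → J) → ℝ[X]}
    {Y : (Fin (2 * a) → J) → ℝ[X]} (hY : IsLim x (fun N => (φ N : ℝ) ^ (k + 1)) Y) {d : ℕ}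
    (h : ∀ N, (pr (PL e lam a D (φ N)) (x N)).coeff (d + 2 * k) = 0) :
    (pr (LP e lam a k) Y).coeff d = 0 := by
  choose μ hμ1 hμ2 using fun r : Fin (2 * a) => row_limit e lam ha hk r
  have h1 := pr_limit hY (R := fun N => PL e lam a D (φ N))
    (R' := fun r j => X ^ sq a k ((r : ℕ) / 2) * LP e lam a k r j)
    (μ := fun N r => μ r (φ N)) (Filter.Eventually.of_forall fun N r => hμ1 r (φ N) (hφ N))
    (fun r j d => (hμ2 r d j).comp (hφ'.mono_left Nat.hyperfilter_le_atTop))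
    (d := d + 2 * k) (Filter.Eventually.of_forall fun N => h N)
  rw [pr_mul (fun r : Fin (2 * a) => (X : ℝ[X]) ^ sq a k ((r : ℕ) / 2)) (LP e lam a k) Y,
    Finset.prod_pow_eq_pow_sum, sum_sq ha, coeff_X_pow_mul] at h1
  exact h1

/-- The data of a sequence of bad compensators. -/
private theorem setup {a b D' q : ℕ} (ha : 1 ≤ a) {J : Type} [Fintype J]
    [DecidableEq J] (e : J ≃ Fin (a + b) × Bool) (lam : ℕ → E (a + b))
    {Q : ℝ[X] → Prop}
    (hbad : ∃ᶠ N in atTop, ∃ x : (Fin (2 * a) → J) → ℝ[X], Dec x ∧ x ≠ 0 ∧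
      (∀ i, (x i).natDegree ≤ q) ∧ Q (pr (PL e lam a D' N) x)) :
    ∃ (φ : ℕ → ℕ) (x : ℕ → (Fin (2 * a) → J) → ℝ[X]) (Y : ℕ → (Fin (2 * a) → J) → ℝ[X])
      (lo hi : ℕ → ℕ), (∀ N, 1 ≤ φ N) ∧ Tendsto φ atTop atTop ∧
      (∀ N, Q (pr (PL e lam a D' (φ N)) (x N))) ∧
      (∀ k, IsLim x (fun N => (φ N : ℝ) ^ (k + 1)) (Y k)) ∧ (∀ k, Dec (Y k)) ∧
      (∀ k i, (Y k i).natDegree ≤ q) ∧ (∀ k, IsLo (Y k) (lo k)) ∧ (∀ k, IsHi (Y k) (hi k)) ∧
      (∀ k, lo k ≤ hi k) ∧ (∀ k, hi k ≤ q) ∧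
      ∀ k, hi k ≤ lo (k + 1) ∧ 2 * a ≤ finrank ℝ (VE e (cf (Y k) (hi k)) ⊓
        VE e (cf (Y (k + 1)) (lo (k + 1))) : Submodule ℝ (E (a + b))) + (lo (k + 1) - hi k) := by
  obtain ⟨φ, hφm, hφ⟩ := extraction_of_frequently_atTop
    (hbad.and_eventually (eventually_ge_atTop 1))
  choose hx hφ1 using hφ
  choose x hx1 hx2 hx3 hx4 using hx
  have hpos : ∀ N, (0 : ℝ) < φ N := fun N => by exact_mod_cast hφ1 N
  have hσ : ∀ (k N : ℕ), (0 : ℝ) < (φ N : ℝ) ^ (k + 1) := fun k N => pow_pos (hpos N) _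
  choose Y hY using fun k => exists_lim (p := 2 * a) hx2 hx3 (σ := fun N => (φ N : ℝ) ^ (k + 1))
    (hσ k)
  have hYd : ∀ k, Dec (Y k) := fun k => dec_lim (by omega) hx1 hx3 (hY k)
  have hYq : ∀ k i, (Y k i).natDegree ≤ q := fun k i => lim_natDegree hx3 (hY k) i
  choose lo hi hlo hhi hle using fun k => exists_lo_hi (hY k).1
  have hhq : ∀ k, hi k ≤ q := by
    intro k
    by_contra hcon
    apply (hhi k).1
    funext i
    exact coeff_eq_zero_of_natDegree_lt (lt_of_le_of_lt (hYq k i) (not_le.1 hcon))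
  refine ⟨φ, x, Y, lo, hi, hφ1, hφm.tendsto_atTop, hx4, hY, hYd, hYq, hlo, hhi, hle, hhq,
    fun k => ?_⟩
  have hs : Tendsto (fun N => (φ N : ℝ) ^ (k + 1 + 1) / (φ N : ℝ) ^ (k + 1)) (hyperfilter ℕ)
      atTop := by
    have h1 : Tendsto (fun N => (φ N : ℝ)) (hyperfilter ℕ) atTop :=
      (tendsto_natCast_atTop_atTop.comp hφm.tendsto_atTop).mono_left Nat.hyperfilter_le_atTop
    refine h1.congr fun N => ?_
    rw [pow_succ (φ N : ℝ) (k + 1), mul_div_cancel_left₀ _ (hσ k N).ne']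
  have h1 := next_dist (by omega : 1 ≤ 2 * a) hx1 hx2 hx3 (hσ k) (hσ (k + 1)) hs (hY k)
    (hY (k + 1)) (hhi k) (hlo (k + 1))
  refine ⟨h1.1, ?_⟩
  rw [finrank_VE_inf]
  exact h1.2

theorem exists_chain {a b D q : ℕ} (ha : 1 ≤ a) (hD : 1 ≤ D) {J : Type} [Fintype J]
    [DecidableEq J] (e : J ≃ Fin (a + b) × Bool) (lam : ℕ → E (a + b))
    (hbad : ∃ᶠ N in atTop, ∃ x : (Fin (2 * a) → J) → ℝ[X], Dec x ∧ x ≠ 0 ∧
      (∀ i, (x i).natDegree ≤ q) ∧ pr (PL e lam a D N) x = 0) :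
    ∃ (Vm Vp : ℕ → Submodule ℝ (E (a + b))) (lo hi : ℕ → ℕ), Chain lam a D q Vm Vp lo hi := by
  obtain ⟨φ, x, Y, lo, hi, hφ1, hφ, hQ, hY, hYd, hYq, hlo, hhi, hle, hhq, hnext⟩ :=
    setup ha e lam (Q := fun f => f = 0) hbad
  have hlink : ∀ k < D, Bad lam a k (VE e (cf (Y k) (lo k))) ∧
      Bad lam a (k + 1) (VE e (cf (Y k) (hi k))) ∧
      Tr lam a k (hi k - lo k) (VE e (cf (Y k) (lo k))) (VE e (cf (Y k) (hi k))) := by
    intro k hk
    refine link e lam ha (hYd k) (hlo k) (hhi k) ?_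
    ext d
    rw [coeff_zero]
    exact lim_link e lam ha hk hφ1 hφ (hY k) fun N => by rw [hQ N, coeff_zero]
  have hdlo : ∀ k, finrank ℝ (VE e (cf (Y k) (lo k))) = 2 * a := fun k =>
    finrank_VE e (by omega) ((hYd k).lo (by omega) (hlo k)) (hlo k).1
  have hdhi : ∀ k, finrank ℝ (VE e (cf (Y k) (hi k))) = 2 * a := fun k =>
    finrank_VE e (by omega) ((hYd k).hi (by omega) (hhi k)) (hhi k).1
  obtain ⟨D', rfl⟩ : ∃ D', D = D' + 1 := ⟨D - 1, by omega⟩
  refine ⟨fun k => if k ≤ D' then VE e (cf (Y k) (lo k)) else VE e (cf (Y D') (hi D')),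
    fun k => VE e (cf (Y k) (hi k)), fun k => if k ≤ D' then lo k else hi D', hi, ?_⟩
  have hbub : ∀ k ≤ D', hi k ≤ (if k + 1 ≤ D' then lo (k + 1) else hi D') ∧
      2 * a ≤ finrank ℝ (VE e (cf (Y k) (hi k)) ⊓ (if k + 1 ≤ D' then
        VE e (cf (Y (k + 1)) (lo (k + 1))) else VE e (cf (Y D') (hi D'))) :
          Submodule ℝ (E (a + b))) + ((if k + 1 ≤ D' then lo (k + 1) else hi D') - hi k) := by
    intro k hk
    by_cases h : k + 1 ≤ D'
    · rw [if_pos h, if_pos h]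
      exact hnext k
    · have hk' : k = D' := by omega
      subst hk'
      rw [if_neg h, if_neg h, inf_idem, hdhi]
      exact ⟨le_rfl, by omega⟩
  exact
    { rkm := fun k _ => by
        show finrank ℝ (if k ≤ D' then VE e (cf (Y k) (lo k)) else VE e (cf (Y D') (hi D')) :
          Submodule ℝ (E (a + b))) = 2 * a
        by_cases h : k ≤ D'
        · rw [if_pos h]
          exact hdlo k
        · rw [if_neg h]
          exact hdhi D'
      rkp := fun k _ => hdhi k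
      le := fun k hk => by
        show (if k ≤ D' then lo k else hi D') ≤ hi k
        rw [if_pos (by omega)]
        exact hle k
      le' := fun k hk => (hbub k (by omega)).1
      top := by
        show (if D' + 1 ≤ D' then lo (D' + 1) else hi D') ≤ q
        rw [if_neg (by omega)]
        exact hhq D'
      badm := fun k hk => by
        show Bad lam a k (if k ≤ D' then VE e (cf (Y k) (lo k)) else VE e (cf (Y D') (hi D')))
        by_cases h : k ≤ D'
        · rw [if_pos h]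
          exact (hlink k (by omega)).1
        · rw [if_neg h]
          have hk' : k = D' + 1 := by omega
          rw [hk']
          exact (hlink D' (by omega)).2.1
      badp := fun k hk => (hlink k hk).2.1
      bub := fun k hk => (hbub k (by omega)).2
      tr := fun k hk => by
        show Tr lam a k (hi k - (if k ≤ D' then lo k else hi D'))
          (if k ≤ D' then VE e (cf (Y k) (lo k)) else VE e (cf (Y D') (hi D'))) _
        rw [if_pos (by omega), if_pos (by omega)]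
        exact (hlink k hk).2.2 }

theorem exists_chain_last {a b D q : ℕ} (ha : 1 ≤ a) {J : Type} [Fintype J]
    [DecidableEq J] (e : J ≃ Fin (a + b) × Bool) (lam : ℕ → E (a + b))
    (hbad : ∃ᶠ N in atTop, ∃ x : (Fin (2 * a) → J) → ℝ[X], Dec x ∧ x ≠ 0 ∧
      (∀ i, (x i).natDegree ≤ q) ∧
        ∃ r : ℝ, pr (PL e lam a (D + 1) N) x = C r * X ^ (2 * (D + 1) + q)) :
    ∃ (Vm Vp : ℕ → Submodule ℝ (E (a + b))) (lo hi : ℕ → ℕ), Chain lam a D q Vm Vp lo hi ∧
      (lo D = q → (∀ t : ℝ, Sing lam a D t (Vm D)) ∨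
        ((∀ t : ℝ, t ≠ 0 → ¬ Sing lam a D t (Vm D)) ∧ ¬ Bad lam a (D + 1) (Vm D))) := by
  obtain ⟨φ, x, Y, lo, hi, hφ1, hφ, hQ, hY, hYd, hYq, hlo, hhi, hle, hhq, hnext⟩ :=
    setup ha e lam (Q := fun f => ∃ r : ℝ, f = C r * X ^ (2 * (D + 1) + q)) hbad
  have hcoef : ∀ k ≤ D, ∀ d, d + 2 * k ≠ 2 * (D + 1) + q →
      (pr (LP e lam a k) (Y k)).coeff d = 0 := by
    intro k hk d hd
    refine lim_link e lam ha (by omega : k < D + 1) hφ1 hφ (hY k) fun N => ?_
    obtain ⟨r, hr⟩ := hQ N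
    rw [hr, coeff_C_mul, coeff_X_pow, if_neg hd, mul_zero]
  have hlink : ∀ k < D, Bad lam a k (VE e (cf (Y k) (lo k))) ∧
      Bad lam a (k + 1) (VE e (cf (Y k) (hi k))) ∧
      Tr lam a k (hi k - lo k) (VE e (cf (Y k) (lo k))) (VE e (cf (Y k) (hi k))) := by
    intro k hk
    refine link e lam ha (hYd k) (hlo k) (hhi k) ?_
    ext d
    rw [coeff_zero]
    by_cases hd : d + 2 * k = 2 * (D + 1) + q
    · have h1 := (coeff_hi e lam ha (k := k) (hhi k).2).2
      have h2 := hhq k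
      exact coeff_eq_zero_of_natDegree_lt (lt_of_le_of_lt h1 (by omega))
    · exact hcoef k hk.le d hd
  have hlast := link_last e lam ha (hYd D) (hYq D) (hlo D) (fun d hd =>
    hcoef D le_rfl d (by omega))
  have hdlo : ∀ k, finrank ℝ (VE e (cf (Y k) (lo k))) = 2 * a := fun k =>
    finrank_VE e (by omega) ((hYd k).lo (by omega) (hlo k)) (hlo k).1
  have hdhi : ∀ k, finrank ℝ (VE e (cf (Y k) (hi k))) = 2 * a := fun k =>
    finrank_VE e (by omega) ((hYd k).hi (by omega) (hhi k)) (hhi k).1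
  refine ⟨fun k => VE e (cf (Y k) (lo k)), fun k => VE e (cf (Y k) (hi k)), lo, hi, ?_, hlast.2⟩
  exact
    { rkm := fun k _ => hdlo k
      rkp := fun k _ => hdhi k
      le := fun k _ => hle k
      le' := fun k _ => (hnext k).1
      top := (hle D).trans (hhq D)
      badm := fun k hk => by
        rcases Nat.lt_or_ge k D with h | h
        · exact (hlink k h).1
        · have hk' : k = D := by omega
          rw [hk']
          exact hlast.1
      badp := fun k hk => (hlink k hk).2.1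
      bub := fun k _ => (hnext k).2
      tr := fun k hk => (hlink k hk).2.2 }

end Pool.Agent.H45.DQ
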