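import Pool.Agent.H45.DQ.Pres

/-!
# Module FFacts: the flags of rows

`FF lam a k i` = complex span of `lam (k+a-i), …, lam (k+a-1)`.

PROOF. Images of index sets and `Submodule.span_mono`, `Submodule.span_insert`,
`Submodule.mem_span_insert`: for `i + 1 ≤ a` (or `i + 1 ≤ k + a`)
`{m | k+a ≤ m+(i+1) ∧ m < k+a} = insert (k+a-(i+1)) {m | k+a ≤ m+i ∧ m < k+a}`, and
`{m | k+1+a ≤ m+(i+1) ∧ m < k+1+a} = insert (k+a) {m | k+a ≤ m+i ∧ m < k+a}`.
`finrank_FF_le`: the index set has `i` members (`i ≤ a`), `finrank_span_le_card` over `ℂ` and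
`finrank ℝ = 2 * finrank ℂ` (`finrank_real_of_complex`, for `Submodule.restrictScalars`).
`finrank_FF`: a subfamily of the independent family `lam (k + i)`, `i : Fin a`
(`finrank_span_eq_card` for the family `fun i' : Fin i => lam (k + a - 1 - i')`, or compare
`FF lam a k a`, of dimension `2 a`, which is generated by `FF lam a k i` and `a - i` further rows).
`mem_perp_FF`: `mem_perp_cplx` and linearity (`Submodule.span_induction`); note `dotProduct_comm`.
`cplx_of_two`: a basis `n₁, n₂` of `N` with `n_s = v_s • l + f_s`. If `x v₁ + y v₂ = 0` with real `x, y`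
then `x n₁ + y n₂ ∈ F ⊓ N = ⊥`, so `x = y = 0`: `v₁, v₂` is a real basis of `ℂ`, and `1 = x v₁ + y v₂`,
`I = x' v₁ + y' v₂` give `l = x n₁ + y n₂ - (x f₁ + y f₂)` and the same for `I • l`.
-/

set_option autoImplicit false

open Module

namespace Pool.Agent.H45.DQ

private theorem mem_FF {c : ℕ} {lam : ℕ → E c} {a k i : ℕ} {u : E c} :
    u ∈ FF lam a k i ↔
      u ∈ Submodule.span ℂ (lam '' {m | k + a ≤ m + i ∧ m < k + a}) := Iff.rfl

theorem FF_mono {c : ℕ} (lam : ℕ → E c) (a k : ℕ) {i i' : ℕ} (h : i ≤ i') :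
    FF lam a k i ≤ FF lam a k i' := by
  intro u hu
  rw [mem_FF] at hu ⊢
  refine Submodule.span_mono (Set.image_mono ?_) hu
  rintro m ⟨h1, h2⟩
  exact ⟨by omega, h2⟩

theorem FF_zero {c : ℕ} (lam : ℕ → E c) (a k : ℕ) : FF lam a k 0 = ⊥ := by
  have h : {m : ℕ | k + a ≤ m + 0 ∧ m < k + a} = ∅ := by
    ext m
    simp only [Set.mem_setOf_eq, Set.mem_empty_iff_false, iff_false]
    omega
  rw [eq_bot_iff]
  intro u hu
  rw [mem_FF, h, Set.image_empty, Submodule.span_empty] at hu
  exact hu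

theorem FF_cplx {c : ℕ} (lam : ℕ → E c) (a k i : ℕ) :
    ∀ v ∈ FF lam a k i, Complex.I • v ∈ FF lam a k i := by
  intro v hv
  rw [mem_FF] at hv ⊢
  exact Submodule.smul_mem _ _ hv

theorem row_mem_FF {c : ℕ} (lam : ℕ → E c) {a k i m : ℕ} (h1 : k + a ≤ m + i)
    (h2 : m < k + a) : lam m ∈ FF lam a k i := by
  rw [mem_FF]
  exact Submodule.subset_span ⟨m, ⟨h1, h2⟩, rfl⟩

theorem mem_perp_FF {c : ℕ} {lam : ℕ → E c} {a k i : ℕ} {w : E c} :
    w ∈ perp (FF lam a k i) ↔ ∀ m, k + a ≤ m + i → m < k + a → dotProduct (lam m) w = 0 := by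
  rw [mem_perp_cplx (FF_cplx lam a k i)]
  constructor
  · intro h m h1 h2
    rw [dotProduct_comm]
    exact h _ (row_mem_FF lam h1 h2)
  · intro h v hv
    rw [mem_FF] at hv
    induction hv using Submodule.span_induction with
    | mem x hx =>
      obtain ⟨m, hm, rfl⟩ := hx
      rw [dotProduct_comm]
      exact h m hm.1 hm.2
    | zero => rw [dotProduct_zero]
    | add x y _ _ hx hy => rw [dotProduct_add, hx, hy, add_zero]
    | smul z x _ hx => rw [dotProduct_smul, hx, smul_zero]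

/-- members of the flag of the next window: newest row plus the flag of this window -/
theorem FF_succ_mem {c : ℕ} {lam : ℕ → E c} {a k i : ℕ} {u : E c}
    (hu : u ∈ FF lam a (k + 1) (i + 1)) :
    ∃ v : ℂ, ∃ f ∈ FF lam a k i, u = v • lam (k + a) + f := by
  have h : {m : ℕ | k + 1 + a ≤ m + (i + 1) ∧ m < k + 1 + a} =
      insert (k + a) {m | k + a ≤ m + i ∧ m < k + a} := by
    ext m
    simp only [Set.mem_setOf_eq, Set.mem_insert_iff]
    omega
  rw [mem_FF, h, Set.image_insert_eq, Submodule.mem_span_insert] at hu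
  obtain ⟨v, f, hf, rfl⟩ := hu
  exact ⟨v, f, hf, rfl⟩

theorem FF_le_succ {c : ℕ} (lam : ℕ → E c) (a k i : ℕ) :
    FF lam a k i ≤ FF lam a (k + 1) (i + 1) := by
  intro u hu
  rw [mem_FF] at hu ⊢
  refine Submodule.span_mono (Set.image_mono ?_) hu
  rintro m ⟨h1, h2⟩
  exact ⟨by omega, by omega⟩

/-- members of the flag: the oldest row plus the smaller flag -/
theorem FF_old_mem {c : ℕ} {lam : ℕ → E c} {a k i : ℕ} (hi : i + 1 ≤ k + a) {u : E c}
    (hu : u ∈ FF lam a k (i + 1)) :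
    ∃ v : ℂ, ∃ f ∈ FF lam a k i, u = v • lam (k + a - (i + 1)) + f := by
  have h : {m : ℕ | k + a ≤ m + (i + 1) ∧ m < k + a} =
      insert (k + a - (i + 1)) {m | k + a ≤ m + i ∧ m < k + a} := by
    ext m
    simp only [Set.mem_setOf_eq, Set.mem_insert_iff]
    omega
  rw [mem_FF, h, Set.image_insert_eq, Submodule.mem_span_insert] at hu
  obtain ⟨v, f, hf, rfl⟩ := hu
  exact ⟨v, f, hf, rfl⟩

theorem finrank_FF_le {c : ℕ} (lam : ℕ → E c) (a k i : ℕ) : finrank ℝ (FF lam a k i) ≤ 2 * i := by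
  have h1 : finrank ℝ (FF lam a k i) =
      2 * finrank ℂ (Submodule.span ℂ (lam '' {m | k + a ≤ m + i ∧ m < k + a})) :=
    finrank_real_of_complex (Submodule.span ℂ (lam '' {m | k + a ≤ m + i ∧ m < k + a}))
  have h2 : lam '' {m | k + a ≤ m + i ∧ m < k + a} ⊆
      ((Finset.range i).image fun t => lam (k + a - (t + 1)) : Finset (E c)) := by
    rintro _ ⟨m, ⟨h3, h4⟩, rfl⟩
    rw [Finset.mem_coe, Finset.mem_image]
    refine ⟨k + a - (m + 1), Finset.mem_range.2 (by omega), ?_⟩
    congr 1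
    omega
  have h3 : finrank ℂ (Submodule.span ℂ (lam '' {m | k + a ≤ m + i ∧ m < k + a})) ≤ i := by
    refine (Submodule.finrank_mono (Submodule.span_mono h2)).trans ?_
    refine (finrank_span_finset_le_card _).trans ?_
    refine Finset.card_image_le.trans ?_
    rw [Finset.card_range]
  omega

theorem finrank_FF {c : ℕ} {lam : ℕ → E c} {a k : ℕ}
    (hlin : LinearIndependent ℂ (fun i : Fin a => lam (k + i))) {i : ℕ} (hi : i ≤ a) :
    finrank ℝ (FF lam a k i) = 2 * i := by
  refine le_antisymm (finrank_FF_le lam a k i) ?_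
  have h1 : finrank ℝ (FF lam a k i) =
      2 * finrank ℂ (Submodule.span ℂ (lam '' {m | k + a ≤ m + i ∧ m < k + a})) :=
    finrank_real_of_complex (Submodule.span ℂ (lam '' {m | k + a ≤ m + i ∧ m < k + a}))
  let g : Fin i → Fin a := fun t => ⟨a - (t + 1), by have := t.2; omega⟩
  have hg : Function.Injective g := by
    intro t t' h
    have h2 : a - ((t : ℕ) + 1) = a - ((t' : ℕ) + 1) := congrArg Fin.val h
    apply Fin.ext
    have := t.2
    have := t'.2
    omega
  have h2 : LinearIndependent ℂ (fun t : Fin i => lam (k + (g t : ℕ))) := hlin.comp g hg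
  have h3 := finrank_span_eq_card h2
  rw [Fintype.card_fin] at h3
  have h4 : i ≤ finrank ℂ (Submodule.span ℂ (lam '' {m | k + a ≤ m + i ∧ m < k + a})) := by
    rw [← h3]
    apply Submodule.finrank_mono
    apply Submodule.span_mono
    rintro _ ⟨t, rfl⟩
    refine ⟨k + (a - (t + 1)), ⟨?_, ?_⟩, rfl⟩
    · have := t.2
      omega
    · have := t.2
      omega
  omega

theorem cplx_of_two {c : ℕ} {N F : Submodule ℝ (E c)} {l : E c} (hN : finrank ℝ N = 2)
    (hNF : N ⊓ F = ⊥) (h : ∀ u ∈ N, ∃ v : ℂ, ∃ f ∈ F, u = v • l + f) :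
    l ∈ N ⊔ F ∧ Complex.I • l ∈ N ⊔ F := by
  let B : Basis (Fin 2) ℝ N := finBasisOfFinrankEq ℝ N hN
  obtain ⟨v₁, f₁, hf₁, h₁⟩ := h _ (B 0).2
  obtain ⟨v₂, f₂, hf₂, h₂⟩ := h _ (B 1).2
  -- independence of the coefficients
  have hind : LinearIndependent ℝ ![v₁, v₂] := by
    rw [LinearIndependent.pair_iff]
    intro x y hxy
    have e1 : x • ((B 0 : N) : E c) + y • ((B 1 : N) : E c) ∈ N ⊓ F := by
      refine ⟨N.add_mem (N.smul_mem _ (B 0).2) (N.smul_mem _ (B 1).2), ?_⟩
      rw [h₁, h₂]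
      have e2 : x • (v₁ • l + f₁) + y • (v₂ • l + f₂) = (x • v₁ + y • v₂) • l +
          (x • f₁ + y • f₂) := by
        rw [smul_add, smul_add, add_smul, smul_assoc, smul_assoc]
        abel
      rw [e2, hxy, zero_smul, zero_add]
      exact F.add_mem (F.smul_mem _ hf₁) (F.smul_mem _ hf₂)
    rw [hNF, Submodule.mem_bot] at e1
    have e3 : x • B 0 + y • B 1 = 0 := Subtype.ext e1
    have e4 := B.linearIndependent
    have e5 : LinearIndependent ℝ ![B 0, B 1] := by
      have e6 : ![B 0, B 1] = B := by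
        funext t
        fin_cases t <;> rfl
      rw [e6]
      exact e4
    exact LinearIndependent.pair_iff.1 e5 x y e3
  have hspan : Submodule.span ℝ (Set.range ![v₁, v₂]) = ⊤ := by
    apply hind.span_eq_top_of_card_eq_finrank'
    rw [Fintype.card_fin, Complex.finrank_real_complex]
  have hall : ∀ z : ℂ, z • l ∈ N ⊔ F := by
    intro z
    have e1 : z ∈ Submodule.span ℝ (Set.range ![v₁, v₂]) := by
      rw [hspan]
      exact Submodule.mem_top
    rw [Matrix.range_cons, Matrix.range_cons, Matrix.range_empty, Set.union_empty,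
      Set.singleton_union, Submodule.mem_span_pair] at e1
    obtain ⟨x, y, rfl⟩ := e1
    have e2 : (x • v₁ + y • v₂) • l = (x • ((B 0 : N) : E c) + y • ((B 1 : N) : E c)) -
        (x • f₁ + y • f₂) := by
      rw [h₁, h₂, add_smul, smul_assoc, smul_assoc, smul_add, smul_add]
      abel
    rw [e2]
    refine Submodule.sub_mem _ ?_ ?_
    · exact Submodule.mem_sup_left (N.add_mem (N.smul_mem _ (B 0).2) (N.smul_mem _ (B 1).2))
    · exact Submodule.mem_sup_right (F.add_mem (F.smul_mem _ hf₁) (F.smul_mem _ hf₂))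
  refine ⟨?_, hall _⟩
  have := hall 1
  rwa [one_smul] at this

end Pool.Agent.H45.DQ
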