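import Pool.Agent.H45.DQ.Def

/-!
# Module GenEx: existence of generic rows

PROOF. `exists_der`: for a finite type `ι` there are real numbers `x i` and derivations `D i` of `ℝ` with
`D i (x j) = δ_ij`.
`ℝ` has a transcendence basis over `ℚ` (`exists_isTranscendenceBasis ℚ ℝ`), which is infinite
(`ℝ` is uncountable: `IsTranscendenceBasis` and `Cardinal` lemmas in
`Mathlib/FieldTheory/IsAlgClosed/Classification.lean` or `Mathlib/RingTheory/AlgebraicIndependent/
RankAndCardinality.lean`); extend an injection of `ι` into it. Let `B` be the transcendence basis,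
`A = MvPolynomial B ℚ`. `ℝ` is formally étale over `A` (`aeval`): `A → adjoin → IntermediateField.adjoin`
(localization, `Algebra.FormallyEtale.of_isLocalization`) `→ ℝ` (algebraic, characteristic zero:
`Algebra.FormallyEtale.of_isSeparable`); see the proofs in `Mathlib/RingTheory/Smooth/Field.lean`. So
`Ω[ℝ⁄ℚ] = ℝ ⊗[A] Ω[A⁄ℚ]` (`KaehlerDifferential.isBaseChange_of_formallyEtale`,
`KaehlerDifferential.tensorKaehlerEquivOfFormallyEtale`), and `Ω[A⁄ℚ]` is free on the `D X_b`
(`KaehlerDifferential.mvPolynomialBasis`, `KaehlerDifferential.mvPolynomialBasis_apply`). The coordinate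
functions of the basis `D x_b` of `Ω[ℝ⁄ℚ]`, composed with `KaehlerDifferential.D`, are the derivations
(`Derivation.compAlgebraMap`, restrict scalars from `ℚ` to `ℤ`: `Derivation.restrictScalars`).
(Other way: a derivation `A → ℝ` with prescribed values (`MvPolynomial.mkDerivation`) extends to `ℝ` since
`A → ℝ` is formally étale (`Derivation.liftOfFormallyEtale`-type lemma or
`Algebra.FormallyEtale.comp_bijective` for the square-zero extension `TrivSqZeroExt ℝ ℝ → ℝ`: the ring
map `A → TrivSqZeroExt ℝ ℝ`, `f ↦ (f, δ f)` lifts to a ring map `ℝ → TrivSqZeroExt ℝ ℝ`.)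
`exists_gen`: `ι = Fin M × Fin c × Bool`, `lam m j = x (m, j, false) + I x (m, j, true)`,
`H = span ℝ (range D)`. The `D i` are linearly independent (evaluate at `x j`), so
`finrank H = 2 c M` and `H` is finite dimensional; `D = ∑ r_i D_i ∈ H` is determined by the values
`D (x j) = r_j`: `Gen.inj`, `Gen.surj`.
-/

set_option autoImplicit false

open Module

namespace Pool.Agent.H45.DQ

open scoped IntermediateField.algebraAdjoinAdjoin in
private theorem etale_adjoin {B : Type} {v : B → ℝ} (hv : IsTranscendenceBasis ℚ v) :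
    Algebra.FormallyEtale (Algebra.adjoin ℚ (Set.range v)) ℝ := by
  have h1 : Algebra.FormallyEtale (Algebra.adjoin ℚ (Set.range v))
      (IntermediateField.adjoin ℚ (Set.range v)) := .of_isLocalization (nonZeroDivisors _)
  have h2 : Algebra.IsAlgebraic (IntermediateField.adjoin ℚ (Set.range v)) ℝ := hv.isAlgebraic_field
  have h3 : Algebra.FormallyEtale (IntermediateField.adjoin ℚ (Set.range v)) ℝ :=
    Algebra.FormallyEtale.of_isSeparable _ _
  exact .comp _ (IntermediateField.adjoin ℚ (Set.range v)) _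

private theorem der_ex {B : Type} {v : B → ℝ} (hv : IsTranscendenceBasis ℚ v) (f : B → ℝ) :
    ∃ D : Derivation ℚ ℝ ℝ, ∀ b, D (v b) = f b := by
  let i1 : Algebra (MvPolynomial B ℚ) (Algebra.adjoin ℚ (Set.range v)) :=
    (hv.1.aevalEquiv : MvPolynomial B ℚ →+* Algebra.adjoin ℚ (Set.range v)).toAlgebra
  let i2 : Algebra (MvPolynomial B ℚ) ℝ :=
    ((MvPolynomial.aeval v : MvPolynomial B ℚ →ₐ[ℚ] ℝ) : MvPolynomial B ℚ →+* ℝ).toAlgebra
  have i3 : IsScalarTower (MvPolynomial B ℚ) (Algebra.adjoin ℚ (Set.range v)) ℝ :=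
    IsScalarTower.of_algebraMap_eq fun x => (hv.1.algebraMap_aevalEquiv x).symm
  have i4 : IsScalarTower ℚ (MvPolynomial B ℚ) ℝ :=
    IsScalarTower.of_algebraMap_eq fun x => (MvPolynomial.aeval_C v x).symm
  have h0 : Function.Bijective (Algebra.ofId (MvPolynomial B ℚ) (Algebra.adjoin ℚ (Set.range v))) :=
    hv.1.aevalEquiv.bijective
  have h1 : Algebra.FormallyEtale (MvPolynomial B ℚ) (Algebra.adjoin ℚ (Set.range v)) :=
    .of_equiv (AlgEquiv.ofBijective (Algebra.ofId _ _) h0)
  have h2 := etale_adjoin hv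
  have h3 : Algebra.FormallyEtale (MvPolynomial B ℚ) ℝ := .comp _ (Algebra.adjoin ℚ (Set.range v)) _
  let δ : Derivation ℚ (MvPolynomial B ℚ) ℝ := MvPolynomial.mkDerivation ℚ f
  have hb := KaehlerDifferential.isBaseChange_of_formallyEtale ℚ (MvPolynomial B ℚ) ℝ
  refine ⟨(hb.lift δ.liftKaehlerDifferential).compDer (KaehlerDifferential.D ℚ ℝ), fun b => ?_⟩
  have h4 : algebraMap (MvPolynomial B ℚ) ℝ (MvPolynomial.X b) = v b := MvPolynomial.aeval_X v b
  have h5 : KaehlerDifferential.D ℚ ℝ (v b) =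
      KaehlerDifferential.map ℚ ℚ (MvPolynomial B ℚ) ℝ
        (KaehlerDifferential.D ℚ (MvPolynomial B ℚ) (MvPolynomial.X b)) := by
    rw [KaehlerDifferential.map_D, h4]
  have h6 : (hb.lift δ.liftKaehlerDifferential) (KaehlerDifferential.D ℚ ℝ (v b)) = f b := by
    rw [h5, hb.lift_eq, Derivation.liftKaehlerDifferential_comp_D]
    exact MvPolynomial.mkDerivation_X ℚ f b
  exact h6

private theorem basis_inf {B : Type} {v : B → ℝ} (hv : IsTranscendenceBasis ℚ v) : Infinite B := by
  by_contra h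
  rw [not_infinite_iff_finite] at h
  have h1 := hv.isAlgebraic
  have h2 := Algebra.IsAlgebraic.cardinalMk_le_max (Algebra.adjoin ℚ (Set.range v)) ℝ
  have h3 : Cardinal.mk (Algebra.adjoin ℚ (Set.range v)) = Cardinal.mk (MvPolynomial B ℚ) :=
    Cardinal.mk_congr hv.1.aevalEquiv.toEquiv.symm
  have h4 : Cardinal.mk (MvPolynomial B ℚ) ≤ Cardinal.aleph0 := by
    refine MvPolynomial.cardinalMk_le_max.trans ?_
    rw [max_le_iff, max_le_iff]
    exact ⟨⟨Cardinal.mk_le_aleph0, Cardinal.mk_le_aleph0⟩, le_rfl⟩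
  rw [h3, max_eq_right h4, Cardinal.mk_real] at h2
  exact absurd h2 (not_le.2 Cardinal.aleph0_lt_continuum)

theorem exists_der (ι : Type) [Finite ι] :
    ∃ (x : ι → ℝ) (D : ι → Der), (∀ i, D i (x i) = 1) ∧ ∀ i j, i ≠ j → D i (x j) = 0 := by
  classical
  obtain ⟨s, hs⟩ := exists_isTranscendenceBasis ℚ ℝ
  have hinf := basis_inf hs
  obtain ⟨g⟩ : Nonempty (ι ↪ s) := by
    have h1 : Cardinal.mk ι ≤ Cardinal.mk s :=
      (Cardinal.lt_aleph0_of_finite ι).le.trans (Cardinal.aleph0_le_mk s)
    exact h1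
  choose D hD using fun i : ι => der_ex hs (fun b => if b = g i then 1 else 0)
  refine ⟨fun i => (g i : ℝ), fun i => (D i).restrictScalars ℤ, fun i => ?_, fun i j hij => ?_⟩
  · rw [Derivation.restrictScalars_apply, hD i (g i), if_pos rfl]
  · rw [Derivation.restrictScalars_apply, hD i (g j), if_neg]
    intro h
    exact hij (g.injective h).symm

theorem exists_gen (c M : ℕ) : ∃ (lam : ℕ → E c) (H : Submodule ℝ Der), Gen lam M H := by
  classical
  obtain ⟨x, D, h1, h2⟩ := exists_der (Fin M × Fin c × Bool)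
  have hval : ∀ (r : Fin M × Fin c × Bool → ℝ) (j : Fin M × Fin c × Bool),
      (∑ i, r i • D i : Der) (x j) = r j := by
    intro r j
    have h0 : (∑ i, r i • D i : Der) (x j) = ∑ i, (r i • D i) (x j) := by
      rw [← Derivation.coeFnAddMonoidHom_apply, map_sum, Finset.sum_apply]
      rfl
    rw [h0, Finset.sum_eq_single j]
    · rw [Derivation.smul_apply, h1 j, smul_eq_mul, mul_one]
    · intro i _ hij
      rw [Derivation.smul_apply, h2 i j hij, smul_zero]
    · intro h
      exact absurd (Finset.mem_univ j) h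
  have hlin : LinearIndependent ℝ D := by
    rw [Fintype.linearIndependent_iff]
    intro r hr i
    rw [← hval r i, hr]
    rfl
  let lam : ℕ → E c := fun m j =>
    if h : m < M then ⟨x (⟨m, h⟩, j, false), x (⟨m, h⟩, j, true)⟩ else 0
  have hlam : ∀ (m : ℕ) (h : m < M) (j : Fin c), lam m j = ⟨x (⟨m, h⟩, j, false), x (⟨m, h⟩, j, true)⟩ :=
    fun m h j => dif_pos h
  refine ⟨lam, Submodule.span ℝ (Set.range D), ?_, ?_, ?_, ?_⟩
  · exact FiniteDimensional.span_of_finite ℝ (Set.finite_range D)
  · rw [finrank_span_eq_card hlin]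
    simp only [Fintype.card_prod, Fintype.card_fin, Fintype.card_bool]
    ring
  · intro D' hD' h3
    obtain ⟨r, rfl⟩ := (Submodule.mem_span_range_iff_exists_fun ℝ).1 hD'
    have h4 : ∀ i, r i = 0 := by
      rintro ⟨m, j, b⟩
      have h5 := congrFun (h3 m.1 m.2) j
      have h6 : dC (∑ i, r i • D i) (lam m.1 j) = 0 := h5
      rw [hlam m.1 m.2 j] at h6
      cases b with
      | false =>
        rw [← hval r (m, j, false)]
        exact congrArg Complex.re h6
      | true =>
        rw [← hval r (m, j, true)]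
        exact congrArg Complex.im h6
    refine Finset.sum_eq_zero fun i _ => ?_
    rw [h4 i, zero_smul]
  · intro m hm u
    let r : Fin M × Fin c × Bool → ℝ := fun i =>
      if i.1 = ⟨m, hm⟩ then (if i.2.2 then (u i.2.1).im else (u i.2.1).re) else 0
    refine ⟨∑ i, r i • D i, (Submodule.mem_span_range_iff_exists_fun ℝ).2 ⟨r, rfl⟩, ?_, ?_⟩
    · funext j
      change dC (∑ i, r i • D i) (lam m j) = u j
      rw [hlam m hm j]
      apply Complex.ext
      · rw [dC_re, hval]
        simp [r]
      · rw [dC_im, hval]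
        simp [r]
    · intro m' hm' hne
      funext j
      change dC (∑ i, r i • D i) (lam m' j) = 0
      rw [hlam m' hm' j]
      apply Complex.ext
      · rw [dC_re, hval]
        simp [r, hne]
      · rw [dC_im, hval]
        simp [r, hne]

end Pool.Agent.H45.DQ
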