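import Pool.Agent.H45.DQ.Def

/-!
# Module GenL: generic rows are independent

PROOF. Suppose a nontrivial complex relation `∑ i, v i • lam (k + i) = 0` (`Fin a`, `a < c`,
`k + a ≤ M`), `v i₀ ≠ 0`. For every `u : E c` choose `D ∈ H` with `dE D (lam (k+i₀)) = u` and
`dE D (lam m) = 0` for the other `m < M` (`Gen.surj`). Apply `dE D` to the relation (`dE_sum`, `dE_smul`):
`∑ i, dC D (v i) • lam (k+i) + v i₀ • u = 0`. So every `u` is in the complex span of the `a` rows
`lam (k+i)`: `c = finrank ℂ (E c) ≤ a`, a contradiction.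
-/

set_option autoImplicit false

open Module

namespace Pool.Agent.H45.DQ

theorem Gen.lin {c a k M : ℕ} {lam : ℕ → E c} {H : Submodule ℝ Der} (hG : Gen lam M H)
    (hk : k + a ≤ M) (hac : a < c) : LinearIndependent ℂ (fun i : Fin a => lam (k + i)) := by
  classical
  by_contra hli
  rw [Fintype.not_linearIndependent_iff] at hli
  obtain ⟨v, hv, i₀, hi₀⟩ := hli
  have hspan : ∀ u : E c, u ∈ Submodule.span ℂ (Set.range fun i : Fin a => lam (k + i)) := by
    intro u
    obtain ⟨D, -, hD1, hD2⟩ := hG.surj (k + i₀) (by have := i₀.2; omega) u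
    have h1 : ∑ i : Fin a, (dC D (v i) • lam (k + i) + v i • dE D (lam (k + i))) = 0 := by
      have h2 := congrArg (dE D) hv
      rw [dE_sum, dE_zero] at h2
      rw [← h2]
      exact Finset.sum_congr rfl fun i _ => (dE_smul D _ _).symm
    rw [Finset.sum_add_distrib] at h1
    have h3 : ∑ i : Fin a, v i • dE D (lam (k + i)) = v i₀ • u := by
      rw [Finset.sum_eq_single i₀]
      · rw [hD1]
      · intro i _ hi
        rw [hD2 (k + i) (by have := i.2; omega) (fun h => hi (Fin.ext (by omega))), smul_zero]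
      · intro h
        exact absurd (Finset.mem_univ _) h
    rw [h3] at h1
    have h4 : v i₀ • u ∈ Submodule.span ℂ (Set.range fun i : Fin a => lam (k + i)) := by
      rw [eq_neg_of_add_eq_zero_right h1]
      refine Submodule.neg_mem _ (Submodule.sum_mem _ fun i _ => Submodule.smul_mem _ _ ?_)
      exact Submodule.subset_span ⟨i, rfl⟩
    have h5 := Submodule.smul_mem _ (v i₀)⁻¹ h4
    rwa [smul_smul, inv_mul_cancel₀ hi₀, one_smul] at h5
  have htop : Submodule.span ℂ (Set.range fun i : Fin a => lam (k + i)) = ⊤ :=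
    eq_top_iff.2 fun u _ => hspan u
  have h6 := finrank_range_le_card (R := ℂ) (fun i : Fin a => lam (k + i))
  rw [Set.finrank, htop, finrank_top, Module.finrank_fin_fun, Fintype.card_fin] at h6
  omega

end Pool.Agent.H45.DQ
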