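import Pool.Agent.H45.DQ.Cost

/-!
# Module Many: killing several rows orthogonal to a vector

`Zu u = perp (span ℝ {u, I • u})` is the space of all rows `l` with `dotProduct l u = 0`.

PROOF. `mem_Zu`: `mem_perp_cplx` for the complex subspace `span ℝ {u, I • u}`, or directly real and
imaginary part. `finrank_Zu`: `finrank_perp`, `u, I • u` are independent for `u ≠ 0`. `pres_Zu`:
`Kil.pres`, `Kil.I`, `Pres.sup`, `Pres.perp` (`span {u, I u} = span {u} ⊔ span {I u}`).
`kill_many`: induction on the finite set `s`, `kill_mem` with `Y = Zu u` for each row.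
-/

set_option autoImplicit false

open Module

namespace Pool.Agent.H45.DQ

/-- the rows which kill `u` -/
noncomputable def Zu {c : ℕ} (u : E c) : Submodule ℝ (E c) :=
  perp (Submodule.span ℝ {u, Complex.I • u})

theorem mem_Zu {c : ℕ} {u l : E c} : l ∈ Zu u ↔ dotProduct l u = 0 := by
  unfold Zu
  constructor
  · intro h
    apply Complex.ext
    · exact h u (Submodule.subset_span (Set.mem_insert _ _))
    · have h1 := h (Complex.I • u) (Submodule.subset_span (Set.mem_insert_of_mem _ rfl))
      rw [dotProduct_smul, smul_eq_mul, Complex.I_mul_re] at h1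
      rw [Complex.zero_im]
      linarith
  · intro h v hv
    obtain ⟨s, t, rfl⟩ := Submodule.mem_span_pair.1 hv
    rw [dotProduct_add, dotProduct_smul, dotProduct_smul, dotProduct_smul, h, smul_zero, smul_zero,
      smul_zero, add_zero, Complex.zero_re]

theorem finrank_Zu {c : ℕ} {u : E c} (hu : u ≠ 0) : finrank ℝ (Zu u) + 2 = 2 * c := by
  have hind : LinearIndependent ℝ ![u, Complex.I • u] := by
    rw [LinearIndependent.pair_iff]
    intro s t h
    have h1 : ((s : ℂ) + (t : ℂ) * Complex.I) • u = 0 := by
      rw [← h, add_smul, mul_smul]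
      rfl
    rcases smul_eq_zero.1 h1 with h2 | h2
    · have h3 := congrArg Complex.re h2
      have h4 := congrArg Complex.im h2
      simp at h3 h4
      exact ⟨h3, h4⟩
    · exact absurd h2 hu
  have h1 := finrank_span_eq_card hind
  rw [Matrix.range_cons, Matrix.range_cons, Matrix.range_empty, Set.union_empty,
    Set.singleton_union, Fintype.card_fin] at h1
  have h2 := finrank_perp (Submodule.span ℝ {u, Complex.I • u})
  rw [h1] at h2
  exact h2

theorem pres_Zu {c : ℕ} {H : Submodule ℝ Der} {u : E c} (h : Kil H u) : Pres H (Zu u) := by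
  unfold Zu
  apply Pres.perp
  have h1 : Submodule.span ℝ {u, Complex.I • u} =
      Submodule.span ℝ {u} ⊔ Submodule.span ℝ {Complex.I • u} := by
    rw [← Submodule.span_union, Set.singleton_union]
  rw [h1]
  exact h.pres.sup h.I.pres

theorem kill_many {c : ℕ} {H : Submodule ℝ Der} (hH : FiniteDimensional ℝ H) {u : E c}
    (hu : u ≠ 0) (hk : Kil H u) (lam : ℕ → E c) (s : Finset ℕ)
    (hs : ∀ m ∈ s, dotProduct (lam m) u = 0) :
    ∃ K ≤ H, (∀ m ∈ s, Kil K (lam m)) ∧
      finrank ℝ H + 2 * s.card ≤ finrank ℝ K + 2 * c * s.card := by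
  classical
  induction s using Finset.induction_on with
  | empty => exact ⟨H, le_rfl, by simp, by simp⟩
  | insert m s hm ih =>
    obtain ⟨K, hKH, hK1, hK2⟩ := ih fun m' hm' => hs m' (Finset.mem_insert_of_mem hm')
    haveI : FiniteDimensional ℝ K := Submodule.finiteDimensional_of_le hKH
    have h1 := kill_mem (H := K) inferInstance (pres_Zu (hk.mono hKH))
      (mem_Zu.2 (hs m (Finset.mem_insert_self _ _)))
    refine ⟨HK K (lam m), (HK_le K _).trans hKH, ?_, ?_⟩
    · intro m' hm'
      rcases Finset.mem_insert.1 hm' with rfl | hm''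
      · exact kil_HK K _
      · exact (hK1 m' hm'').mono (HK_le K _)
    · have h2 := finrank_Zu hu
      rw [Finset.card_insert_of_notMem hm]
      have h3 : 2 * c * (s.card + 1) = 2 * c * s.card + 2 * c := by ring
      rw [h3]
      omega

end Pool.Agent.H45.DQ
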