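import Pool.Agent.H45.DQ.InitV
import Pool.Agent.H45.DQ.Many
import Pool.Agent.H45.DQ.St

/-!
# Module Init: the initial state

PROOF. (`c = a + b`.) Rows of the window `0`: newest `lam (a-1)`, oldest `lam 0`; `FF lam a 0 i` is the
complex span of `lam (a-i), …, lam (a-1)`.
1. `H₁ = HK H₀ u`: `finrank H₀ + 2 ≤ finrank H₁ + 2 c` (`kill_norm`).
2. `H₂ = HV H₁ V` (`cost_through`): cost `4ab - 2b`, and only `4ab - 4b` if `I • u ∈ V`.
3. `H₃`: kill the `κ - 1` newest rows `lam m`, `a - κ < m < a` (`kill_many`): cost `(2c - 2)(κ - 1)`.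
4. The row `l = lam (a - κ)`. Choose `ξ ≠ 0` in `perp V ⊓ FF lam a 0 κ`; by `FF_old_mem`
   `ξ = v • l + f`, `f ∈ FF lam a 0 (κ-1)`, and `v ≠ 0` because `perp V ⊓ FF (κ-1) = ⊥`. Let
   `Y = perp V ⊔ FF lam a 0 (κ-1)`, preserved by `H₃` (`Pres.perp`, and the rows of `FF (κ-1)` are killed:
   as in `pres_FF`; apply `pres_FF` to the sequence `lam' m = lam m` for `m > a - κ`, `0` otherwise, or
   prove the preservation directly by span induction), `finrank Y ≤ 2b + 2κ - 2` (`finrank_Y_le`),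
   `v • l ∈ Y`. `Z = Zu u` is preserved, `l ∈ Z`.
   (a) `I • u ∉ V`. Then `¬ Y ≤ Z`: otherwise `span {u, I u} ≤ perp Y ≤ V` (`perp_perp`). If `ρ = 1`:
       `kill_phase_inf`: cost `≤ 2b + 2κ - 2`. If `ρ = 2`: `cplx_of_two` with
       `N = perp V ⊓ FF lam a 0 κ`, `F = FF (κ-1)`: `l, I • l ∈ N ⊔ F ≤ Y`; `Y` is not closed under `I`
       (otherwise `perp Y` is closed under `I` (`perp_cplx`); `u ∈ perp Y` since `u ∈ V` and `u` is killed
       by the rows; so `I u ∈ perp Y ≤ V`): `kill_cplx`: cost `≤ 2b + 2κ - 3`.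
   (b) `I • u ∈ V`: `kill_phase`: cost `≤ 2b + 2κ - 1`.
5. `H`: kill the `a - κ` oldest rows `lam m`, `m < a - κ` (`kill_many`): cost `(2c - 2)(a - κ)`.
Sum in case (a): `2c - 2 + 4ab - 2b + (2c-2)(a-1) + 2b + 2κ - 2 - (ρ-1)
= 4ab + 2ca - 2 - 2(a-κ) - (ρ-1)`. In case (b) the sum is smaller by `2b - 1 - (ρ - 1) ≥ 0`.
-/

set_option autoImplicit false

open Module

namespace Pool.Agent.H45.DQ

theorem init {a b : ℕ} (ha : 1 ≤ a) (hb : 1 ≤ b) {lam : ℕ → E (a + b)} {H₀ : Submodule ℝ Der}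
    (hH : FiniteDimensional ℝ H₀) (hlin : LinearIndependent ℂ (fun i : Fin a => lam (0 + i)))
    {V : Submodule ℝ (E (a + b))} (hV : finrank ℝ V = 2 * a) {κ ρ : ℕ}
    (hd : Df lam a 0 V κ ρ) {u : E (a + b)} (hu : u ∈ V) {j : Fin (a + b)} (hj : u j = 1)
    (hk : ∀ m < a, dotProduct (lam m) u = 0) :
    ∃ H ≤ H₀, Ctx lam 0 H V ∧
      finrank ℝ H₀ + 2 * (a - κ) + (ρ - 1) + 2 ≤ finrank ℝ H + 4 * a * b + 2 * (a + b) * a := by
  classical
  have hκ1 := hd.one_le
  have hκa := hd.le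
  have hρ1 := hd.pos
  have hρ2 := hd.two
  have hu0 : u ≠ 0 := by
    rintro rfl
    simp at hj
  -- step 1
  have hH1 : HK H₀ u ≤ H₀ := HK_le H₀ u
  have hf1 : FiniteDimensional ℝ (HK H₀ u) := Submodule.finiteDimensional_of_le hH1
  have c1 := kill_norm hH hj
  have k1 : Kil (HK H₀ u) u := kil_HK H₀ u
  -- step 2
  have hH2 : HV (HK H₀ u) V ≤ HK H₀ u := HV_le _ V
  have hf2 : FiniteDimensional ℝ (HV (HK H₀ u) V) := Submodule.finiteDimensional_of_le hH2
  obtain ⟨c2, c2'⟩ := cost_through ha hf1 hV hu0 hu k1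
  have k2 : Kil (HV (HK H₀ u) V) u := k1.mono hH2
  have p2 : Pres (HV (HK H₀ u) V) V := pres_HV _ V
  -- step 3
  obtain ⟨H₃, hH3, k3', c3⟩ := kill_many hf2 hu0 k2 lam (Finset.Ioo (a - κ) a) (fun m hm =>
    hk m (Finset.mem_Ioo.1 hm).2)
  have hf3 : FiniteDimensional ℝ H₃ := Submodule.finiteDimensional_of_le hH3
  have k3 : Kil H₃ u := k2.mono hH3
  have p3 : Pres H₃ V := p2.mono hH3
  have hcard : (Finset.Ioo (a - κ) a).card = κ - 1 := by
    rw [Nat.card_Ioo]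
    omega
  rw [hcard] at c3
  -- step 4
  have pF : Pres H₃ (FF lam a 0 (κ - 1)) := by
    have h1 : ∀ m < 0 + a, Kil H₃ ((fun m => if a - κ < m then lam m else 0) m) := by
      intro m hm
      by_cases h : a - κ < m
      · simp only [if_pos h]
        exact k3' m (Finset.mem_Ioo.2 ⟨h, by omega⟩)
      · simp only [if_neg h]
        intro D _
        exact dE_zero D
    have h2 := pres_FF h1 (κ - 1)
    have h3 : FF (fun m => if a - κ < m then lam m else 0) a 0 (κ - 1) = FF lam a 0 (κ - 1) := by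
      unfold FF
      congr 2
      refine Set.image_congr ?_
      rintro m ⟨hm1, hm2⟩
      exact if_pos (by omega)
    rwa [h3] at h2
  have pY : Pres H₃ (perp V ⊔ FF lam a 0 (κ - 1)) := p3.perp.sup pF
  have hYle := finrank_Y_le lam 0 (κ - 1) hV
  have hold : ∀ ξ ∈ perp V ⊓ FF lam a 0 κ, ∃ v : ℂ, ∃ f ∈ FF lam a 0 (κ - 1),
      ξ = v • lam (a - κ) + f := by
    intro ξ hξ
    have h1 : ξ ∈ FF lam a 0 (κ - 1 + 1) := by
      have h2 : κ - 1 + 1 = κ := by omega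
      rw [h2]
      exact hξ.2
    obtain ⟨v, f, hf, he⟩ := FF_old_mem (by omega) h1
    refine ⟨v, f, hf, ?_⟩
    have h3 : 0 + a - (κ - 1 + 1) = a - κ := by omega
    rw [h3] at he
    exact he
  have hne : perp V ⊓ FF lam a 0 κ ≠ ⊥ := by
    intro h0
    have h1 := hd.rank
    rw [h0, finrank_bot] at h1
    omega
  obtain ⟨ξ, hξ, hξ0⟩ := Submodule.exists_mem_ne_zero_of_ne_bot hne
  obtain ⟨v, f, hf, hξe⟩ := hold ξ hξ
  have hv0 : v ≠ 0 := by
    rintro rfl
    rw [zero_smul, zero_add] at hξe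
    have h1 : ξ ∈ perp V ⊓ FF lam a 0 (κ - 1) := ⟨hξ.1, by rw [hξe]; exact hf⟩
    rw [hd.bot, Submodule.mem_bot] at h1
    exact hξ0 h1
  have hvl : v • lam (a - κ) ∈ perp V ⊔ FF lam a 0 (κ - 1) := by
    have h1 : v • lam (a - κ) = ξ - f := by rw [hξe, add_sub_cancel_right]
    rw [h1]
    exact Submodule.sub_mem _ (Submodule.mem_sup_left hξ.1) (Submodule.mem_sup_right hf)
  have hlu : dotProduct (lam (a - κ)) u = 0 := hk _ (by omega)
  have hvlZ : v • lam (a - κ) ∈ Zu u := by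
    rw [mem_Zu, smul_dotProduct, hlu, smul_zero]
  have pZ : Pres H₃ (Zu u) := pres_Zu k3
  have huPerp : u ∈ perp (perp V ⊔ FF lam a 0 (κ - 1)) := by
    rw [perp_sup, perp_perp]
    refine ⟨hu, ?_⟩
    exact mem_perp_FF.2 (fun m _ hm2 => hk m (by omega))
  have key : (Complex.I • u ∉ V → finrank ℝ H₃ + (ρ - 1) ≤ finrank ℝ (HK H₃ (lam (a - κ))) +
      finrank ℝ (perp V ⊔ FF lam a 0 (κ - 1) : Submodule ℝ (E (a + b)))) := by
    intro hI
    rcases Nat.lt_or_ge 1 ρ with hρ | hρ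
    · have hρe : ρ = 2 := by omega
      have hr : finrank ℝ (perp V ⊓ FF lam a 0 κ : Submodule ℝ (E (a + b))) = 2 := by
        rw [hd.rank, hρe]
      have hNF : (perp V ⊓ FF lam a 0 κ) ⊓ FF lam a 0 (κ - 1) = ⊥ :=
        eq_bot_mono (inf_le_inf_right _ inf_le_left) hd.bot
      obtain ⟨hl1, hl2⟩ := cplx_of_two hr hNF hold
      have hle : (perp V ⊓ FF lam a 0 κ) ⊔ FF lam a 0 (κ - 1) ≤ perp V ⊔ FF lam a 0 (κ - 1) :=
        sup_le_sup_right inf_le_left _
      have hYI : ∃ y ∈ perp V ⊔ FF lam a 0 (κ - 1), Complex.I • y ∉ perp V ⊔ FF lam a 0 (κ - 1) := by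
        by_contra hcon
        push Not at hcon
        have h1 := perp_cplx hcon u huPerp
        rw [perp_sup, perp_perp] at h1
        exact hI h1.1
      have h2 := kill_cplx hf3 pY hYI (hle hl1) (hle hl2)
      omega
    · have hYZ : ¬ (perp V ⊔ FF lam a 0 (κ - 1)) ≤ Zu u := by
        intro hle
        apply hI
        have h1 : perp V ≤ Zu u := le_sup_left.trans hle
        have h2 : perp (Zu u) ≤ perp (perp V) := perp_anti h1
        rw [perp_perp] at h2
        apply h2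
        unfold Zu
        rw [perp_perp]
        exact Submodule.subset_span (Set.mem_insert_of_mem _ rfl)
      have h2 := kill_phase_inf hf3 pY pZ hYZ hv0 hvl hvlZ
      omega
  have key2 := kill_phase hf3 pY hv0 hvl
  have hf4 : FiniteDimensional ℝ (HK H₃ (lam (a - κ))) :=
    Submodule.finiteDimensional_of_le (HK_le _ _)
  have hH4 : HK H₃ (lam (a - κ)) ≤ H₃ := HK_le _ _
  have k4 : Kil (HK H₃ (lam (a - κ))) u := k3.mono hH4
  -- step 5
  obtain ⟨H₅, hH5, k5', c5⟩ := kill_many hf4 hu0 k4 lam (Finset.range (a - κ)) (fun m hm =>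
    hk m (by have := Finset.mem_range.1 hm; omega))
  rw [Finset.card_range] at c5
  have hH5' : H₅ ≤ H₀ := hH5.trans (hH4.trans (hH3.trans (hH2.trans hH1)))
  refine ⟨H₅, hH5', ⟨Submodule.finiteDimensional_of_le hH5', ha, hb, hlin, hV,
    p3.mono (hH5.trans hH4), ?_⟩, ?_⟩
  · intro m hm
    rcases lt_trichotomy m (a - κ) with h | h | h
    · exact k5' m (Finset.mem_range.2 h)
    · rw [h]
      exact (kil_HK H₃ (lam (a - κ))).mono hH5
    · exact (k3' m (Finset.mem_Ioo.2 ⟨h, by omega⟩)).mono (hH5.trans hH4)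
  · have hid : 2 * (a + b) * a = 2 * (a + b) + 2 * (a + b) * (κ - 1) + 2 * (a + b) * (a - κ) := by
      have h1 : a = 1 + (κ - 1) + (a - κ) := by omega
      calc 2 * (a + b) * a = 2 * (a + b) * (1 + (κ - 1) + (a - κ)) := by rw [← h1]
        _ = _ := by ring
    by_cases hI : Complex.I • u ∈ V
    · have h1 := c2' hI
      omega
    · have h1 := key hI
      omega

end Pool.Agent.H45.DQ
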