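import Pool.Agent.H45.DQ.Sub2

/-!
# Module InitV: the first subspace, given a normalised kernel vector

PROOF. `kill_norm`: `dE D u` has the coordinate `j` equal to `dC D 1 = 0` (`u j = 1`), so
`D ↦ dE D u` (`dEL u`) maps `H` to `{v | v j = 0}`, of real dimension `2 (c - 1)` (the kernel of the
surjective real linear map `v ↦ v j` to `ℂ`); `cost_of_map` with `K = HK H u`.
`cost_through`: `V ∋ u`, `u` killed by `H`. A basis `ξ` of `perp V` (`2 b` vectors, `finrank_perp`); for
`D ∈ H`: `Re (dE D (ξ i) · u) = - Re (ξ i · dE D u) = 0`, and the same for `I • u` if it is in `V`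
(`dE_I`), so `rs V (dE D (ξ i)) ∈ ann V U` with `U = span ℝ {u}` (dimension 1), respectively
`U = span ℝ {u, I • u}` (dimension 2, as `u ≠ 0`): `finrank_ann`, `cost_subspace`.
-/

set_option autoImplicit false

open Module

namespace Pool.Agent.H45.DQ

theorem kill_norm {c : ℕ} {H : Submodule ℝ Der} (hH : FiniteDimensional ℝ H) {u : E c}
    {j : Fin c} (hj : u j = 1) : finrank ℝ H + 2 ≤ finrank ℝ (HK H u) + 2 * c := by
  let π : E c →ₗ[ℝ] ℂ := LinearMap.proj j
  have h1 := LinearMap.finrank_range_add_finrank_ker π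
  have h2 : LinearMap.range π = ⊤ := LinearMap.range_eq_top.2 fun z => ⟨fun _ => z, rfl⟩
  rw [h2, finrank_top, Complex.finrank_real_complex, finrank_E] at h1
  have h3 := cost_of_map hH (HK_le H u) ((dEL u).comp H.subtype) (LinearMap.ker π) inferInstance
    (fun D => by
      rw [LinearMap.mem_ker]
      show dC (D : Der) (u j) = 0
      rw [hj, dC_one])
    (fun D hD => ⟨D.2, hD⟩)
  omega

private theorem finrank_cspan {c : ℕ} {u : E c} (hu : u ≠ 0) :
    finrank ℝ (Submodule.span ℝ {u} ⊔ Submodule.span ℝ {Complex.I • u} : Submodule ℝ (E c)) = 2 := by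
  have hind : LinearIndependent ℝ ![u, Complex.I • u] := by
    rw [LinearIndependent.pair_iff]
    intro s t h
    have h1 : ((s : ℂ) + (t : ℂ) * Complex.I) • u = 0 := by
      rw [← h, add_smul, mul_smul]
      rfl
    rcases smul_eq_zero.1 h1 with h2 | h2
    · have h3 := congrArg Complex.re h2
      have h4 := congrArg Complex.im h2
      simp at h3 h4
      exact ⟨h3, h4⟩
    · exact absurd h2 hu
  have h1 := finrank_span_eq_card hind
  rw [Matrix.range_cons, Matrix.range_cons, Matrix.range_empty, Set.union_empty,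
    Submodule.span_union, Fintype.card_fin] at h1
  exact h1

theorem cost_through {a b : ℕ} (ha : 1 ≤ a) {H : Submodule ℝ Der} (hH : FiniteDimensional ℝ H)
    {V : Submodule ℝ (E (a + b))} (hV : finrank ℝ V = 2 * a) {u : E (a + b)} (hu0 : u ≠ 0)
    (hu : u ∈ V) (hk : Kil H u) :
    finrank ℝ H + 2 * b ≤ finrank ℝ (HV H V) + 4 * a * b ∧
      (Complex.I • u ∈ V → finrank ℝ H + 4 * b ≤ finrank ℝ (HV H V) + 4 * a * b) := by
  have hgen : ∀ (U : Submodule ℝ (E (a + b))), U ≤ V → Pres H U →
      finrank ℝ H ≤ finrank ℝ (HV H V) + 2 * b * finrank ℝ (ann V U) := by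
    intro U hUV hU
    have h := cost_fam hH V (fun i => ((finBasis ℝ (perp V) i : perp V) : E (a + b)))
      (fun i => (finBasis ℝ (perp V) i).2) (by rw [span_fin]) (fun _ => ann V U)
      (by
        intro D hD i
        apply rs_mem_ann
        · intro w _ hw
          exact ⟨hUV (hU D hD w hw), hU D hD w hw⟩
        · rw [inf_eq_right.2 hUV]
          exact perp_anti hUV (finBasis ℝ (perp V) i).2)
    rw [Finset.sum_const, Finset.card_univ, Fintype.card_fin, smul_eq_mul] at h
    have h4 := finrank_perp V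
    have h5 : finrank ℝ (perp V) = 2 * b := by omega
    rwa [h5] at h
  constructor
  · have hUV : Submodule.span ℝ {u} ≤ V := (Submodule.span_singleton_le_iff_mem _ _).2 hu
    have h1 := hgen _ hUV hk.pres
    have h2 := finrank_ann hUV
    rw [finrank_span_singleton hu0, hV] at h2
    have h3 : finrank ℝ (ann V (Submodule.span ℝ {u})) = 2 * a - 1 := by omega
    rw [h3] at h1
    obtain ⟨a', rfl⟩ : ∃ a', a = a' + 1 := ⟨a - 1, by omega⟩
    have h4 : 2 * b * (2 * (a' + 1) - 1) + 2 * b = 4 * (a' + 1) * b := by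
      have : 2 * (a' + 1) - 1 = 2 * a' + 1 := by omega
      rw [this]
      ring
    omega
  · intro huI
    have hUV : Submodule.span ℝ {u} ⊔ Submodule.span ℝ {Complex.I • u} ≤ V :=
      sup_le ((Submodule.span_singleton_le_iff_mem _ _).2 hu)
        ((Submodule.span_singleton_le_iff_mem _ _).2 huI)
    have h1 := hgen _ hUV (hk.pres.sup hk.I.pres)
    have h2 := finrank_ann hUV
    rw [finrank_cspan hu0, hV] at h2
    have h3 : finrank ℝ (ann V (Submodule.span ℝ {u} ⊔ Submodule.span ℝ {Complex.I • u})) =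
        2 * a - 2 := by omega
    rw [h3] at h1
    obtain ⟨a', rfl⟩ : ∃ a', a = a' + 1 := ⟨a - 1, by omega⟩
    have h4 : 2 * b * (2 * (a' + 1) - 2) + 4 * b = 4 * (a' + 1) * b := by
      have : 2 * (a' + 1) - 2 = 2 * a' := by omega
      rw [this]
      ring
    omega

end Pool.Agent.H45.DQ
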