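import Pool.Agent.H45.DQ.Run

/-!
# Module Last: the last transition for the polynomial `s ^ (2 D + q)`

`D + 1` transitions; the chain has the first `D`; the row `l = lam (D+a)` is the last one.

PROOF. `run` for the first `D` transitions (`a + (D+1)` rows are generic; `Gen.fin`). Let `H`, `κ`, `ρ` be the
result, `c = a + b`. A member of `HK H l` kills all rows, so `HK H l = ⊥` (`Gen.inj`).
If `lo D < q`: `kill_free`: `finrank H ≤ 2c`; then
`2c(a+D+1) + 2 + 2D ≤ 2c + 4ab + 2ca + 2cD + lo D (2c-1)`, so `2D + 2 ≤ 4ab + lo D (2c-1)`, and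
`lo D ≤ q - 1`, `2c - 1 ≥ 3`.
If `lo D = q`: the defect is `≥ 1`, then the same count gains one; or `κ = a`, `ρ = 1`: `pencil_last` gives
`u0, u1` and `l · u1 = x p0`, `x` real. `kill_line`-type count: let `v = I / p0`; the line `ℝ v` is preserved
(`line_p0` with `U = V ⊓ perp (FF lam a D (a-1))`, then differentiate `v p0 = I`), and
`v • l ∈ Y := perp (span ℝ {u1})` (`Re (v x p0) = Re (x I) = 0`), `Y` is preserved
(`span {u1} = V ⊓ perp (FF lam a D a)`), `finrank Y = 2c - 1`: `kill_line` gives `finrank H ≤ 2c - 1`.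
In both cases `2(D+1) + 1 ≤ 4ab + q (2c-1)`.
-/

set_option autoImplicit false

open Module

namespace Pool.Agent.H45.DQ

theorem run_last {a b D q : ℕ} (ha : 1 ≤ a) (hb : 1 ≤ b) {lam : ℕ → E (a + b)}
    {H₀ : Submodule ℝ Der} (hG : Gen lam (a + (D + 1)) H₀)
    (hlin : ∀ k ≤ D, LinearIndependent ℂ (fun i : Fin a => lam (k + i)))
    {Vm Vp : ℕ → Submodule ℝ (E (a + b))} {lo hi : ℕ → ℕ}
    (hC : Chain lam a D q Vm Vp lo hi) (hN : Norm1 lam a (Vm 0))
    (hlast : lo D = q → (∀ t : ℝ, Sing lam a D t (Vm D)) ∨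
      ((∀ t : ℝ, t ≠ 0 → ¬ Sing lam a D t (Vm D)) ∧ ¬ Bad lam a (D + 1) (Vm D))) :
    2 * (D + 1) + 1 ≤ 4 * a * b + q * (2 * (a + b) - 1) := by
  obtain ⟨H, hH1, hctx, κ, ρ, hd, h0⟩ := run ha hb hG.fin hlin hC hN
  have hbot : HK H (lam (D + a)) = ⊥ := by
    rw [eq_bot_iff]
    rintro d ⟨hd1, hd2⟩
    rw [Submodule.mem_bot]
    refine hG.inj d (hH1 hd1) fun m hm => ?_
    rcases Nat.lt_or_ge m (D + a) with h1 | h1
    · exact hctx.kil m h1 d hd1
    · have h2 : m = D + a := by omega
      rw [h2]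
      exact hd2
  have hdim := hG.dim
  have e1 : 2 * (a + b) * (a + (D + 1)) = 2 * (a + b) * a + 2 * (a + b) * D + 2 * (a + b) := by
    ring
  rw [e1] at hdim
  have hfree := kill_free hctx.fin (lam (D + a))
  rw [hbot, finrank_bot, zero_add] at hfree
  rcases Nat.lt_or_ge (lo D) q with hlt | hge
  · have h2 : (lo D + 1) * (2 * (a + b) - 1) ≤ q * (2 * (a + b) - 1) :=
      Nat.mul_le_mul_right _ hlt
    rw [Nat.add_mul, one_mul] at h2
    omega
  · have hq : lo D = q := le_antisymm hC.top hge
    rw [hq] at h0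
    by_cases hdef : κ = a ∧ ρ = 1
    · obtain ⟨rfl, rfl⟩ := hdef
      obtain ⟨u0, u1, h10, hL, hU, h11, h00, x, hx⟩ := pencil_last hctx hd (hlast hq)
      obtain ⟨p0, hp0⟩ : ∃ p0, p0 = dotProduct (lam D) u0 := ⟨_, rfl⟩
      rw [← hp0] at h00 hx
      have hv : Complex.I / p0 ≠ 0 := div_ne_zero Complex.I_ne_zero h00
      have hvp : Complex.I / p0 * p0 = Complex.I := div_mul_cancel₀ _ h00
      -- the line `ℝ p0` is preserved
      have hline0 : ∀ d ∈ H, ∃ r : ℝ, dC d p0 = r * p0 := by
        rw [hp0]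
        refine line_p0 (hctx.pres.inf (pres_FF hctx.kil (κ - 1)).perp)
          (hctx.kil D (by have := hctx.posa; omega)) (u0 := u0) ?_ ?_
        · rw [hU]
          exact Submodule.subset_span (Set.mem_insert _ _)
        · intro w hw
          rw [hU] at hw
          obtain ⟨s, t, rfl⟩ := Submodule.mem_span_pair.1 hw
          refine ⟨s, ?_⟩
          rw [dotProduct_add, dotProduct_smul, dotProduct_smul, h11, smul_zero, add_zero,
            Complex.real_smul]
      have hline : ∀ d ∈ H, ∃ r : ℝ, dC d (Complex.I / p0) = r * (Complex.I / p0) := by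
        intro d hd'
        obtain ⟨r, hr⟩ := hline0 d hd'
        refine ⟨-r, ?_⟩
        have h1 := dC_mul d (Complex.I / p0) p0
        rw [hvp, dC_I, hr] at h1
        apply mul_right_cancel₀ h00
        rw [Complex.ofReal_neg]
        linear_combination -h1
      have hpres : Pres H (Submodule.span ℝ {u1}) := by
        rw [← hL]
        exact hctx.pres.inf (pres_FF hctx.kil κ).perp
      have hl : (Complex.I / p0) • lam (D + κ) ∈ perp (Submodule.span ℝ {u1}) := by
        intro w hw
        obtain ⟨r, rfl⟩ := Submodule.mem_span_singleton.1 hw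
        rw [smul_dotProduct, dotProduct_smul, hx, Complex.real_smul, smul_eq_mul]
        have h1 : Complex.I / p0 * ((r : ℂ) * ((x : ℂ) * p0)) =
            ((r * x : ℝ) : ℂ) * (Complex.I / p0 * p0) := by
          push_cast
          ring
        rw [h1, hvp, Complex.re_ofReal_mul, Complex.I_re, mul_zero]
      have hkl := kill_line hctx.fin hpres.perp hv hline hl
      rw [hbot, finrank_bot, zero_add] at hkl
      have h1 := finrank_perp (Submodule.span ℝ {u1})
      rw [finrank_span_singleton h10] at h1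
      omega
    · have h1 := hd.le
      have h2 := hd.pos
      have h3 : 1 ≤ 2 * (a - κ) + (ρ - 1) := by
        by_contra hcon
        exact hdef ⟨by omega, by omega⟩
      omega

end Pool.Agent.H45.DQ
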