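import Pool.Agent.H45.DQ.DecB

/-!
# Module Lim: limits of arrays at a scale

PROOF of `exists_lim`. `M N = ∑ e, ∑ d ∈ range (q+1), |σ N ^ d * (x N e).coeff d|`, positive because
`x N ≠ 0` (some coefficient of degree `≤ q` is not zero, `σ N > 0`). The quotients are in `[-1, 1]`
(compact): the limit along the ultrafilter `hyperfilter ℕ` exists (`isCompact_Icc`,
`IsCompact.ultrafilter_le_nhds`, or `Ultrafilter.map` and compactness). Let `X e = ∑ d ∈ range (q+1),
monomial d (limit)`. The sum of the absolute values of the quotients is `1`, so the limit is not zero.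
PROOF of `dec_lim`. For a fixed real `t` let `z N e = (x N e).eval (σ N * t) / M N`; it tends to
`(X e).eval t` (a finite sum over `d ≤ q`: both polynomials have degree `≤ q`, for `X` since the coefficients
of degree `> q` are limits of `0`). `Dec` for the numbers `z N e` (evaluation is a ring homomorphism, and
scaling: `Dec.smul`), and `Dec` is a closed condition (continuity of products and determinants in finitely
many entries), so `Dec (fun e => (X e).eval t)` for all `t`; a polynomial which vanishes at all `t` is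
zero (`Polynomial.funext`).
PROOF of `comp_lim` (comparison of scales). `‖·‖` below is any entry. Choose `e`, `e'` with
`(X e).coeff d ≠ 0`, `(X' e').coeff d' ≠ 0`. Suppose `d' < d`. The quotients
`A = σ^d (x e).coeff d / M → α ≠ 0`, `B = σ^d' (x e').coeff d' / M → β`,
`A' = σ'^d (x e).coeff d / M' → α'`, `B' = σ'^d' (x e').coeff d' / M' → β' ≠ 0`; and
`A' B = A B' (σ'/σ)^(d - d')`. The left side converges, the right side tends to infinity in absolute value
(`A B' → α β' ≠ 0`). Contradiction. For `d = d'`: the entries of `σ^d x / M` converge to `cf X d`, those of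
`σ'^d x / M'` to `cf X' d`, with the ratio `ρ_N = (σ'/σ)^d M / M'` (positive, the same for all `e`); it
converges to `r = (cf X' d e) / (cf X d e)` for an `e` with `cf X d e ≠ 0`, so
`cf X' d = r • cf X d`, `r ≠ 0` since `cf X' d ≠ 0`.
-/

set_option autoImplicit false

open Module Polynomial Filter Topology

namespace Pool.Agent.H45.DQ

/-- a bounded sequence has a limit along the hyperfilter -/
private theorem exists_ulim {f : ℕ → ℝ} (hf : ∀ N, |f N| ≤ 1) :
    ∃ y : ℝ, Tendsto f (hyperfilter ℕ) (𝓝 y) := by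
  have h1 : ((hyperfilter ℕ).map f : Filter ℝ) ≤ 𝓟 (Set.Icc (-1) 1) := by
    rw [Filter.le_principal_iff]
    show f ⁻¹' (Set.Icc (-1) 1) ∈ (hyperfilter ℕ : Filter ℕ)
    have h2 : f ⁻¹' (Set.Icc (-1) 1) = Set.univ := by
      ext N
      simp only [Set.mem_preimage, Set.mem_Icc, Set.mem_univ, iff_true]
      exact abs_le.1 (hf N)
    rw [h2]
    exact Filter.univ_mem
  obtain ⟨y, _, hy⟩ := isCompact_Icc.ultrafilter_le_nhds _ h1
  exact ⟨y, hy⟩

theorem exists_lim {p q : ℕ} {J : Type} [Fintype J] [DecidableEq J]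
    {x : ℕ → (Fin p → J) → ℝ[X]} (h0 : ∀ N, x N ≠ 0) (hq : ∀ N e, (x N e).natDegree ≤ q)
    {σ : ℕ → ℝ} (hσ : ∀ N, 0 < σ N) :
    ∃ X : (Fin p → J) → ℝ[X], IsLim x σ X := by
  classical
  let M : ℕ → ℝ := fun N => ∑ e, ∑ d ∈ Finset.range (q + 1), |σ N ^ d * (x N e).coeff d|
  have hterm : ∀ N e, ∀ d ≤ q, |σ N ^ d * (x N e).coeff d| ≤ M N := by
    intro N e d hd
    have h1 : |σ N ^ d * (x N e).coeff d| ≤
        ∑ d ∈ Finset.range (q + 1), |σ N ^ d * (x N e).coeff d| :=
      Finset.single_le_sum (f := fun d => |σ N ^ d * (x N e).coeff d|)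
        (fun _ _ => abs_nonneg _) (Finset.mem_range.2 (by omega))
    have h2 : (∑ d ∈ Finset.range (q + 1), |σ N ^ d * (x N e).coeff d|) ≤ M N :=
      Finset.single_le_sum (f := fun e => ∑ d ∈ Finset.range (q + 1), |σ N ^ d * (x N e).coeff d|)
        (fun _ _ => Finset.sum_nonneg fun _ _ => abs_nonneg _) (Finset.mem_univ e)
    exact h1.trans h2
  have hM : ∀ N, 0 < M N := by
    intro N
    obtain ⟨e, he⟩ : ∃ e, x N e ≠ 0 := by
      by_contra hcon
      push Not at hcon
      exact h0 N (funext hcon)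
    refine lt_of_lt_of_le ?_ (hterm N e (x N e).natDegree (hq N e))
    exact abs_pos.2 (mul_ne_zero (pow_ne_zero _ (hσ N).ne') (leadingCoeff_ne_zero.2 he))
  have hlim : ∀ (e : Fin p → J) (d : ℕ), ∃ y : ℝ, d ≤ q →
      Tendsto (fun N => σ N ^ d * (x N e).coeff d / M N) (hyperfilter ℕ) (𝓝 y) := by
    intro e d
    by_cases hd : d ≤ q
    · obtain ⟨y, hy⟩ := exists_ulim (f := fun N => σ N ^ d * (x N e).coeff d / M N) (fun N => by
        rw [abs_div, abs_of_pos (hM N), div_le_one (hM N)]
        exact hterm N e d hd)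
      exact ⟨y, fun _ => hy⟩
    · exact ⟨0, fun h => absurd h hd⟩
  choose Y hY using hlim
  let X' : (Fin p → J) → ℝ[X] := fun e => ∑ d ∈ Finset.range (q + 1), monomial d (Y e d)
  have hcoef : ∀ e d, (X' e).coeff d = if d ≤ q then Y e d else 0 := by
    intro e d
    show (∑ d ∈ Finset.range (q + 1), monomial d (Y e d)).coeff d = _
    rw [finset_sum_coeff]
    simp only [coeff_monomial]
    rw [Finset.sum_ite_eq']
    simp only [Finset.mem_range, Nat.lt_succ_iff]
  refine ⟨X', ?_, M, hM, ?_⟩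
  · intro hX
    have h1 : ∀ N, ∑ e, ∑ d ∈ Finset.range (q + 1), |σ N ^ d * (x N e).coeff d / M N| = 1 := by
      intro N
      have h2 : ∀ e, ∑ d ∈ Finset.range (q + 1), |σ N ^ d * (x N e).coeff d / M N| =
          (∑ d ∈ Finset.range (q + 1), |σ N ^ d * (x N e).coeff d|) / M N := by
        intro e
        rw [Finset.sum_div]
        refine Finset.sum_congr rfl fun d _ => ?_
        rw [abs_div, abs_of_pos (hM N)]
      rw [Finset.sum_congr rfl fun e _ => h2 e, ← Finset.sum_div]
      exact div_self (hM N).ne'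
    have h2 : Tendsto (fun N => ∑ e, ∑ d ∈ Finset.range (q + 1),
        |σ N ^ d * (x N e).coeff d / M N|) (hyperfilter ℕ) (𝓝 0) := by
      have h3 : (0 : ℝ) = ∑ e : Fin p → J, ∑ d ∈ Finset.range (q + 1), |(0 : ℝ)| := by simp
      rw [h3]
      refine tendsto_finset_sum _ fun e _ => tendsto_finset_sum _ fun d hd => ?_
      have hd' : d ≤ q := Nat.lt_succ_iff.1 (Finset.mem_range.1 hd)
      have h4 : Y e d = 0 := by
        have h5 := hcoef e d
        rw [if_pos hd', hX] at h5
        exact h5.symm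
      have h5 := hY e d hd'
      rw [h4] at h5
      exact h5.abs
    have h3 := tendsto_nhds_unique h2 (tendsto_const_nhds.congr fun N => (h1 N).symm)
    exact zero_ne_one h3
  · intro d e
    rw [hcoef]
    by_cases hd : d ≤ q
    · rw [if_pos hd]
      exact hY e d hd
    · rw [if_neg hd]
      refine tendsto_const_nhds.congr fun N => ?_
      rw [coeff_eq_zero_of_natDegree_lt (lt_of_le_of_lt (hq N e) (by omega)), mul_zero, zero_div]

theorem lim_natDegree {p q : ℕ} {J : Type} [Fintype J] [DecidableEq J]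
    {x : ℕ → (Fin p → J) → ℝ[X]} (hq : ∀ N e, (x N e).natDegree ≤ q) {σ : ℕ → ℝ}
    {X : (Fin p → J) → ℝ[X]} (hX : IsLim x σ X) (e : Fin p → J) : (X e).natDegree ≤ q := by
  obtain ⟨-, M, hM, hlim⟩ := hX
  rw [natDegree_le_iff_coeff_eq_zero]
  intro d hd
  refine tendsto_nhds_unique (hlim d e) (tendsto_const_nhds.congr fun N => ?_)
  rw [coeff_eq_zero_of_natDegree_lt (lt_of_le_of_lt (hq N e) hd), mul_zero, zero_div]

theorem dec_lim {p q : ℕ} {J : Type} [Fintype J] [DecidableEq J] (hp : 1 ≤ p)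
    {x : ℕ → (Fin p → J) → ℝ[X]} (hx : ∀ N, Dec (x N)) (hq : ∀ N e, (x N e).natDegree ≤ q)
    {σ : ℕ → ℝ} {X : (Fin p → J) → ℝ[X]} (hX : IsLim x σ X) : Dec X := by
  have hdeg := lim_natDegree hq hX
  obtain ⟨-, M, hM, hlim⟩ := hX
  have key : ∀ t : ℝ, Dec fun e => (X e).eval t := by
    intro t
    refine dec_of_tendsto (F := (hyperfilter ℕ : Filter ℕ))
      (z := fun N e => (M N)⁻¹ * (x N e).eval (σ N * t)) (fun e => ?_)
      (Filter.Eventually.of_forall fun N => ?_)
    · have h1 : ∀ N, (M N)⁻¹ * (x N e).eval (σ N * t) =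
          ∑ d ∈ Finset.range (q + 1), (σ N ^ d * (x N e).coeff d / M N) * t ^ d := by
        intro N
        rw [eval_eq_sum_range' (Nat.lt_succ_of_le (hq N e)), Finset.mul_sum]
        refine Finset.sum_congr rfl fun d _ => ?_
        rw [mul_pow]
        ring
      have h2 : (X e).eval t = ∑ d ∈ Finset.range (q + 1), (X e).coeff d * t ^ d :=
        eval_eq_sum_range' (Nat.lt_succ_of_le (hdeg e)) t
      simp only [h1]
      rw [h2]
      exact tendsto_finset_sum _ fun d _ => (hlim d e).mul_const _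
    · exact ((hx N).map (evalRingHom (σ N * t))).smul hp _
  constructor
  · intro e he
    apply Polynomial.funext
    intro t
    rw [eval_zero]
    exact (key t).1 e he
  · intro e0 e
    apply Polynomial.funext
    intro t
    rw [eval_zero, eval_mul, eval_sub, eval_mul, eval_pow, ← coe_evalRingHom, RingHom.map_det]
    exact (key t).2 e0 e

theorem comp_lim {p : ℕ} {J : Type} [Fintype J] [DecidableEq J]
    {x : ℕ → (Fin p → J) → ℝ[X]} {σ σ' : ℕ → ℝ} (hσ : ∀ N, 0 < σ N) (hσ' : ∀ N, 0 < σ' N)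
    (hs : Tendsto (fun N => σ' N / σ N) (hyperfilter ℕ) atTop) {X X' : (Fin p → J) → ℝ[X]}
    (hX : IsLim x σ X) (hX' : IsLim x σ' X') {d d' : ℕ} (hd : cf X d ≠ 0) (hd' : cf X' d' ≠ 0) :
    d ≤ d' ∧ (d = d' → ∃ r : ℝ, r ≠ 0 ∧ cf X' d = r • cf X d) := by
  obtain ⟨-, M, hM, hlim⟩ := hX
  obtain ⟨-, M', hM', hlim'⟩ := hX'
  obtain ⟨e, he⟩ : ∃ e, cf X d e ≠ 0 := by
    by_contra hcon
    push Not at hcon
    exact hd (funext hcon)
  obtain ⟨e', he'⟩ : ∃ e', cf X' d' e' ≠ 0 := by
    by_contra hcon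
    push Not at hcon
    exact hd' (funext hcon)
  constructor
  · by_contra hcon
    have hlt : d' < d := not_le.1 hcon
    have h1 := ((hlim d e).mul (hlim' d' e')).abs
    have h2 : 0 < |(X e).coeff d * (X' e').coeff d'| := abs_pos.2 (mul_ne_zero he he')
    have h3 : Tendsto (fun N => (σ' N / σ N) ^ (d - d')) (hyperfilter ℕ) atTop :=
      (tendsto_pow_atTop (by omega)).comp hs
    have h4 := Filter.Tendsto.pos_mul_atTop h2 h1 h3
    have h5 := ((hlim' d e).mul (hlim d' e')).abs
    refine not_tendsto_nhds_of_tendsto_atTop h4 _ (h5.congr fun N => ?_)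
    have h6 : 0 ≤ (σ' N / σ N) ^ (d - d') := by
      have := hσ N
      have := hσ' N
      positivity
    rw [← abs_of_nonneg h6, ← abs_mul]
    congr 1
    obtain ⟨k, rfl⟩ : ∃ k, d = d' + k := ⟨d - d', by omega⟩
    rw [Nat.add_sub_cancel_left, div_pow, pow_add, pow_add]
    have h7 := (hσ N).ne'
    have h8 := (hM N).ne'
    have h9 := (hM' N).ne'
    field_simp
  · rintro rfl
    have hall : ∀ e₂, cf X' d e₂ = cf X' d e / cf X d e * cf X d e₂ := by
      intro e₂
      have h1 := (hlim' d e₂).mul (hlim d e)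
      have h2 := (hlim' d e).mul (hlim d e₂)
      have h3 : cf X' d e₂ * cf X d e = cf X' d e * cf X d e₂ :=
        tendsto_nhds_unique h1 (h2.congr fun N => by ring)
      rw [div_mul_eq_mul_div, eq_div_iff he]
      exact h3
    refine ⟨cf X' d e / cf X d e, fun h => he' ?_, funext fun e₂ => hall e₂⟩
    rw [hall e', h, zero_mul]

theorem exists_lo_hi {p : ℕ} {J : Type} [Fintype J] {X : (Fin p → J) → ℝ[X]}
    (h : X ≠ 0) : ∃ l h : ℕ, IsLo X l ∧ IsHi X h ∧ l ≤ h := by
  classical
  have hex : ∃ d, cf X d ≠ 0 := by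
    obtain ⟨e, he⟩ : ∃ e, X e ≠ 0 := by
      by_contra hcon
      push Not at hcon
      exact h (funext hcon)
    refine ⟨(X e).natDegree, fun h1 => ?_⟩
    have h2 : (X e).coeff (X e).natDegree = 0 := congrFun h1 e
    exact he (leadingCoeff_eq_zero.1 h2)
  let B : ℕ := Finset.univ.sup fun e => (X e).natDegree
  have hB : ∀ d, B < d → cf X d = 0 := by
    intro d hd
    funext e
    have h1 : (X e).natDegree ≤ B :=
      Finset.le_sup (f := fun e => (X e).natDegree) (Finset.mem_univ e)
    exact coeff_eq_zero_of_natDegree_lt (lt_of_le_of_lt h1 hd)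
  have hlB : Nat.find hex ≤ B := by
    by_contra hcon
    exact Nat.find_spec hex (hB _ (not_le.1 hcon))
  refine ⟨Nat.find hex, Nat.findGreatest (fun d => cf X d ≠ 0) B, ⟨Nat.find_spec hex, ?_⟩,
    ⟨?_, ?_⟩, ?_⟩
  · intro d hd
    by_contra hcon
    exact Nat.find_min hex hd hcon
  · exact Nat.findGreatest_spec (P := fun d => cf X d ≠ 0) hlB (Nat.find_spec hex)
  · intro d hd
    by_contra hcon
    by_cases hdB : d ≤ B
    · exact Nat.findGreatest_is_greatest hd hdB hcon
    · exact hcon (hB d (not_le.1 hdB))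
  · exact Nat.le_findGreatest hlB (Nat.find_spec hex)

end Pool.Agent.H45.DQ
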