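import Pool.Agent.H45.DQ.Arr

/-!
# Module PrLim: limits of pairings, coefficientwise

PROOF. Coefficientwise convergence of polynomials (`CT`) is preserved by finite sums and products
(`Polynomial.coeff_mul` is a finite sum). `pr (fun i j => R' N i j) (x' N)` converges coefficientwise to
`pr R X`, where `R' N i j = C (1 / μ N i) * (R N i j).comp (C (σ N) * X)` and
`x' N e = C (1 / M N) * (x N e).comp (C (σ N) * X)` (`Polynomial.comp_C_mul_X_coeff` or
`Polynomial.scale...`: the coefficient `d` is `σ^d * coeff d / μ`), and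
`pr (R' N) (x' N) = C (∏ 1/μ * 1/M) * (pr (R N) (x N)).comp (C σ * X)`, whose coefficient `d` is `0` if the
one of `pr (R N) (x N)` is. Uniqueness of limits (`hyperfilter ℕ` is `NeBot`).
`pr_mul`: take the factor out of the product.
-/

set_option autoImplicit false

open Module Polynomial Filter Topology

namespace Pool.Agent.H45.DQ

/-- coefficientwise convergence at the scale `σ`, with the normalisation `μ` -/
private def CTo (f : ℕ → ℝ[X]) (σ μ : ℕ → ℝ) (F : ℝ[X]) : Prop :=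
  ∀ d, Tendsto (fun N => σ N ^ d * (f N).coeff d / μ N) (hyperfilter ℕ) (𝓝 (F.coeff d))

private theorem CTo.mul {f g : ℕ → ℝ[X]} {σ μ ν : ℕ → ℝ} {F G : ℝ[X]} (hf : CTo f σ μ F)
    (hg : CTo g σ ν G) : CTo (fun N => f N * g N) σ (fun N => μ N * ν N) (F * G) := by
  intro d
  rw [coeff_mul]
  have h1 : ∀ N, σ N ^ d * (f N * g N).coeff d / (μ N * ν N) =
      ∑ z ∈ Finset.HasAntidiagonal.antidiagonal d, (σ N ^ z.1 * (f N).coeff z.1 / μ N) *
        (σ N ^ z.2 * (g N).coeff z.2 / ν N) := by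
    intro N
    rw [coeff_mul, Finset.mul_sum, Finset.sum_div]
    refine Finset.sum_congr rfl fun z hz => ?_
    rw [← Finset.HasAntidiagonal.mem_antidiagonal.1 hz, pow_add, div_mul_div_comm]
    ring_nf
  simp only [h1]
  exact tendsto_finsetSum _ fun z _ => (hf z.1).mul (hg z.2)

private theorem CTo.one {σ : ℕ → ℝ} : CTo (fun _ => 1) σ (fun _ => 1) 1 := by
  intro d
  rw [coeff_one]
  refine tendsto_const_nhds.congr fun N => ?_
  rw [coeff_one]
  split_ifs with h
  · rw [h, pow_zero, one_mul, div_one]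
  · rw [mul_zero, zero_div]

private theorem CTo.prod {ι : Type} (s : Finset ι) {f : ℕ → ι → ℝ[X]} {σ : ℕ → ℝ} {μ : ℕ → ι → ℝ}
    {F : ι → ℝ[X]} (h : ∀ i ∈ s, CTo (fun N => f N i) σ (fun N => μ N i) (F i)) :
    CTo (fun N => ∏ i ∈ s, f N i) σ (fun N => ∏ i ∈ s, μ N i) (∏ i ∈ s, F i) := by
  classical
  induction s using Finset.induction_on with
  | empty =>
    simp only [Finset.prod_empty]
    exact CTo.one
  | insert a s ha ih =>
    simp only [Finset.prod_insert ha]
    exact (h a (Finset.mem_insert_self _ _)).mul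
      (ih fun i hi => h i (Finset.mem_insert_of_mem hi))

private theorem CTo.sum {ι : Type} (s : Finset ι) {f : ℕ → ι → ℝ[X]} {σ μ : ℕ → ℝ}
    {F : ι → ℝ[X]} (h : ∀ i ∈ s, CTo (fun N => f N i) σ μ (F i)) :
    CTo (fun N => ∑ i ∈ s, f N i) σ μ (∑ i ∈ s, F i) := by
  intro d
  rw [finsetSum_coeff]
  have h1 : ∀ N, σ N ^ d * (∑ i ∈ s, f N i).coeff d / μ N =
      ∑ i ∈ s, σ N ^ d * (f N i).coeff d / μ N := by
    intro N
    rw [finsetSum_coeff, Finset.mul_sum, Finset.sum_div]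
  simp only [h1]
  exact tendsto_finsetSum _ fun i hi => h i hi d

theorem pr_limit {p : ℕ} {J : Type} [Fintype J] [DecidableEq J] {x : ℕ → (Fin p → J) → ℝ[X]}
    {σ : ℕ → ℝ} {X : (Fin p → J) → ℝ[X]} (hX : IsLim x σ X) {R : ℕ → Fin p → J → ℝ[X]}
    {R' : Fin p → J → ℝ[X]} {μ : ℕ → Fin p → ℝ}
    (hμ : ∀ᶠ N in (hyperfilter ℕ : Filter ℕ), ∀ i, 0 < μ N i)
    (hR : ∀ i j d, Tendsto (fun N => σ N ^ d * (R N i j).coeff d / μ N i) (hyperfilter ℕ)
      (𝓝 ((R' i j).coeff d))) {d : ℕ}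
    (h : ∀ᶠ N in (hyperfilter ℕ : Filter ℕ), (pr (R N) (x N)).coeff d = 0) :
    (pr R' X).coeff d = 0 := by
  obtain ⟨_, M, _, hM⟩ := hX
  have h1 : CTo (fun N => pr (R N) (x N)) σ (fun N => (∏ i, μ N i) * M N) (pr R' X) := by
    unfold pr
    refine CTo.sum Finset.univ fun e _ => ?_
    exact (CTo.prod Finset.univ fun i _ => fun d => hR i (e i) d).mul fun d => hM d e
  have h2 := h1 d
  have h3 : Tendsto (fun N => σ N ^ d * (pr (R N) (x N)).coeff d / ((∏ i, μ N i) * M N))
      (hyperfilter ℕ) (𝓝 0) := by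
    refine tendsto_const_nhds.congr' ?_
    filter_upwards [h] with N hN
    rw [hN, mul_zero, zero_div]
  exact tendsto_nhds_unique h2 h3

theorem pr_mul {p : ℕ} {J A : Type} [Fintype J] [CommRing A] (z : Fin p → A)
    (R : Fin p → J → A) (x : (Fin p → J) → A) :
    pr (fun i j => z i * R i j) x = (∏ i, z i) * pr R x := by
  unfold pr
  rw [Finset.mul_sum]
  refine Finset.sum_congr rfl fun e _ => ?_
  rw [Finset.prod_mul_distrib, mul_assoc]

theorem eval_pr {p : ℕ} {J : Type} [Fintype J] (t : ℝ) (R : Fin p → J → ℝ[X])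
    (x : (Fin p → J) → ℝ[X]) :
    (pr R x).eval t = pr (fun i j => (R i j).eval t) (fun e => (x e).eval t) := by
  unfold pr
  rw [eval_finsetSum]
  refine Finset.sum_congr rfl fun e _ => ?_
  rw [eval_mul, eval_prod]

end Pool.Agent.H45.DQ
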