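import Pool.Agent.H45.DQ.LinkA
import Pool.Agent.H45.DQ.ArrD
import Pool.Agent.H45.DQ.ArrLine
import Pool.Agent.H45.DQ.PrLim

/-!
# Module Link: one transition of the chain

PROOF. The product `∏ r, LP … r (i r)` has degree at most `2` (two rows `r` have `ix a k (r/2) = k`:
`r = 2 (k % a)` and `r = 2 (k % a) + 1`), constant term `∏ r, LR … 0 r (i r)` and coefficient of degree `2`
equal to `∏ r, LI … r (i r)`. Hence
(1) `coeff_lo`: if `X` has no coefficients below `l`: the coefficient `l` of `pr LP X` is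
`pr (LR … 0) (cf X l)`;
(2) `coeff_hi`: if `X` has no coefficients above `h`: the coefficient `h + 2` of `pr LP X` is
`pr LI (cf X h)`, and `natDegree (pr LP X) ≤ h + 2`.
`link`: `Bad` at `k` from (1), `pr_LR_iff`, `sing_zero_iff`, at `k + 1` from (2), `pr_LI_iff`; `Dec.lo`,
`Dec.hi`. `Tr.dist`: `dist_le`, `finrank_VE`, `finrank_VE_inf`. `Tr.zero`: `h = l`, `X i = X^l * C (cf X l i)`,
so `pr LP (fun i => C (cf X l i)) = 0`; evaluate at `t` (`eval_pr`, `LP_eval`), `pr_LR_iff`. `Tr.one`: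
`h = l + 1`, `X i = X^l * (C (y0 i) + X * C (y1 i))` with `y0 = cf X l`, `y1 = cf X (l+1)`; cancel `X^l`
and evaluate at `t`: `pr (LR … t) (y0 + t • y1) = 0`; `line_struct` (`Vs y0 ≠ Vs y1` since
`VE e y0 ≠ VE e y1`), and transport by `toE e` (`Submodule.map_inf` for an injective map,
`Submodule.map_sup`, `Submodule.map_span`).
`link_last`: the coefficient `l ≤ q` of `pr LP X` vanishes: `Bad`. If `l = q`: `X i = X^q * C (y i)`,
`pr LP (C ∘ y)` has degree `≤ 2` and no coefficients of degree `0`, `1`: it is `C ρ * X^2` with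
`ρ = pr LI y`, and `pr (LR … t) y = ρ t^2`. If `ρ = 0`: the first alternative, otherwise the second.
-/

set_option autoImplicit false

open Module Polynomial

namespace Pool.Agent.H45.DQ

private theorem lk_prod {ι : Type} [DecidableEq ι] (s : Finset ι) (f : ι → ℝ[X]) (n : ι → ℕ)
    (h : ∀ i ∈ s, (f i).natDegree ≤ n i) :
    (∏ i ∈ s, f i).natDegree ≤ ∑ i ∈ s, n i ∧
      (∏ i ∈ s, f i).coeff (∑ i ∈ s, n i) = ∏ i ∈ s, (f i).coeff (n i) := by
  induction s using Finset.induction_on with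
  | empty => simp
  | insert i s hi ih =>
    have h1 := ih fun j hj => h j (Finset.mem_insert_of_mem hj)
    have h2 := h i (Finset.mem_insert_self i s)
    rw [Finset.prod_insert hi, Finset.sum_insert hi, Finset.prod_insert hi]
    refine ⟨natDegree_mul_le_of_le h2 h1.1, ?_⟩
    rw [coeff_mul_add_eq_of_natDegree_le h2 h1.1, h1.2]

private theorem lk_card {a k : ℕ} (ha : 1 ≤ a) :
    ∑ r : Fin (2 * a), (if ix a k ((r : ℕ) / 2) = k then 1 else 0) = 2 := by
  obtain ⟨i0, hi0, hk⟩ := ix_surj (a := a) (le_refl k) (show k < k + a by omega)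
  have h1 : ∀ r : Fin (2 * a), (if ix a k ((r : ℕ) / 2) = k then 1 else 0) =
      (fun m : ℕ => if m / 2 = i0 then 1 else 0) (r : ℕ) := by
    intro r
    have hr : (r : ℕ) / 2 < a := by
      have := r.2
      omega
    show _ = if (r : ℕ) / 2 = i0 then 1 else 0
    by_cases h : (r : ℕ) / 2 = i0
    · rw [if_pos h, h, if_pos hk]
    · rw [if_neg h, if_neg]
      intro h2
      exact h (ix_inj hr hi0 (h2.trans hk.symm))
  rw [Finset.sum_congr rfl fun r _ => h1 r,
    Fin.sum_univ_eq_sum_range (fun m : ℕ => if m / 2 = i0 then 1 else 0) (2 * a),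
    ← Finset.card_filter]
  have h2 : (Finset.range (2 * a)).filter (fun m => m / 2 = i0) = {2 * i0, 2 * i0 + 1} := by
    ext m
    rw [Finset.mem_filter, Finset.mem_range, Finset.mem_insert, Finset.mem_singleton]
    omega
  rw [h2, Finset.card_pair (by omega)]

private theorem lk_deg {c : ℕ} {J : Type} (e : J ≃ Fin c × Bool) (lam : ℕ → E c) (a k : ℕ)
    (r : Fin (2 * a)) (j : J) :
    (LP e lam a k r j).natDegree ≤ (if ix a k ((r : ℕ) / 2) = k then 1 else 0) ∧
      (LP e lam a k r j).coeff (if ix a k ((r : ℕ) / 2) = k then 1 else 0) =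
        LI e lam a k r j := by
  unfold LP LI
  by_cases h : ix a k ((r : ℕ) / 2) = k
  · rw [if_pos h, if_pos h, if_pos h, X_mul_C, coeff_add, coeff_C, if_neg one_ne_zero, zero_add,
      coeff_C_mul, coeff_X_one, mul_one]
    refine ⟨natDegree_add_le_of_degree_le ?_ ?_, rfl⟩
    · rw [natDegree_C]
      exact Nat.zero_le _
    · exact (natDegree_C_mul_le _ _).trans natDegree_X_le
  · rw [if_neg h, if_neg h, if_neg h, add_zero, natDegree_C, coeff_C_zero]
    exact ⟨le_refl _, rfl⟩

private theorem lk_mul {p : ℕ} {J : Type} [Fintype J] (l : ℕ) (R : Fin p → J → ℝ[X])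
    (z : (Fin p → J) → ℝ[X]) : pr R (fun i => z i * X ^ l) = pr R z * X ^ l := by
  unfold pr
  rw [Finset.sum_mul]
  exact Finset.sum_congr rfl fun i _ => (mul_assoc _ _ _).symm

private theorem lk_eval {c : ℕ} {J : Type} [Fintype J] (e : J ≃ Fin c × Bool)
    (lam : ℕ → E c) (a k : ℕ) (t : ℝ) (z : (Fin (2 * a) → J) → ℝ[X]) :
    (pr (LP e lam a k) z).eval t = pr (LR e lam a k t) (fun i => (z i).eval t) := by
  rw [eval_pr]
  congr 1
  funext r j
  exact LP_eval e lam a k t r j

private theorem lk_le {p : ℕ} {J : Type} {x : (Fin p → J) → ℝ[X]} {l h : ℕ} (hl : IsLo x l)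
    (hh : IsHi x h) : l ≤ h := by
  by_contra hc
  exact hl.1 (hh.2 l (not_le.1 hc))

private theorem lk_inf {c p : ℕ} {J : Type} (e : J ≃ Fin c × Bool) (y y' : (Fin p → J) → ℝ) :
    VE e y ⊓ VE e y' = (Vs y ⊓ Vs y').map (toE e : (J → ℝ) →ₗ[ℝ] E c) := by
  unfold VE
  rw [Submodule.map_inf _ (toE e).injective]

private theorem lk_sup {c : ℕ} {J : Type} (e : J ≃ Fin c × Bool) (A : Submodule ℝ (J → ℝ))
    (u : J → ℝ) : (A ⊔ Submodule.span ℝ {u}).map (toE e : (J → ℝ) →ₗ[ℝ] E c) =
      A.map (toE e : (J → ℝ) →ₗ[ℝ] E c) ⊔ Submodule.span ℝ {toE e u} := by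
  rw [Submodule.map_sup, Submodule.map_span, Set.image_singleton]
  rfl

theorem coeff_lo {c : ℕ} {J : Type} [Fintype J] [DecidableEq J] (e : J ≃ Fin c × Bool)
    (lam : ℕ → E c) {a k : ℕ} (ha : 1 ≤ a) {x : (Fin (2 * a) → J) → ℝ[X]} {l : ℕ}
    (hl : ∀ d < l, cf x d = 0) :
    (pr (LP e lam a k) x).coeff l = pr (LR e lam a k 0) (cf x l) := by
  unfold pr
  rw [finsetSum_coeff]
  refine Finset.sum_congr rfl fun i _ => ?_
  obtain ⟨g, hg⟩ : X ^ l ∣ x i := X_pow_dvd_iff.2 fun d hd => congrFun (hl d hd) i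
  have h1 : (x i).coeff l = g.coeff 0 := by
    have := coeff_X_pow_mul g l 0
    rw [zero_add] at this
    rw [hg, this]
  have h2 : ((∏ r, LP e lam a k r (i r)) * x i).coeff l =
      ((∏ r, LP e lam a k r (i r)) * g).coeff 0 := by
    have := coeff_X_pow_mul ((∏ r, LP e lam a k r (i r)) * g) l 0
    rw [zero_add] at this
    rw [hg, ← this, mul_left_comm]
  rw [h2, mul_coeff_zero]
  show _ = (∏ r, LR e lam a k 0 r (i r)) * (x i).coeff l
  rw [h1, coeff_zero_prod]
  congr 1
  refine Finset.prod_congr rfl fun r _ => ?_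
  rw [coeff_zero_eq_eval_zero, LP_eval]

theorem coeff_hi {c : ℕ} {J : Type} [Fintype J] [DecidableEq J] (e : J ≃ Fin c × Bool)
    (lam : ℕ → E c) {a k : ℕ} (ha : 1 ≤ a) {x : (Fin (2 * a) → J) → ℝ[X]} {h : ℕ}
    (hh : ∀ d, h < d → cf x d = 0) :
    (pr (LP e lam a k) x).coeff (h + 2) = pr (LI e lam a k) (cf x h) ∧
      (pr (LP e lam a k) x).natDegree ≤ h + 2 := by
  have hP : ∀ i : Fin (2 * a) → J, (∏ r, LP e lam a k r (i r)).natDegree ≤ 2 ∧
      (∏ r, LP e lam a k r (i r)).coeff 2 = ∏ r, LI e lam a k r (i r) := by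
    intro i
    have h1 := lk_prod Finset.univ (fun r => LP e lam a k r (i r))
      (fun r => if ix a k ((r : ℕ) / 2) = k then 1 else 0) fun r _ => (lk_deg e lam a k r (i r)).1
    rw [lk_card ha] at h1
    refine ⟨h1.1, h1.2.trans (Finset.prod_congr rfl fun r _ => (lk_deg e lam a k r (i r)).2)⟩
  have hx : ∀ i, (x i).natDegree ≤ h := by
    intro i
    rw [natDegree_le_iff_coeff_eq_zero]
    intro d hd
    exact congrFun (hh d hd) i
  constructor
  · unfold pr
    rw [finsetSum_coeff]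
    refine Finset.sum_congr rfl fun i _ => ?_
    rw [add_comm h 2, coeff_mul_add_eq_of_natDegree_le (hP i).1 (hx i), (hP i).2]
    rfl
  · unfold pr
    refine natDegree_sum_le_of_forall_le _ _ fun i _ => ?_
    rw [add_comm h 2]
    exact natDegree_mul_le_of_le (hP i).1 (hx i)

theorem link {c : ℕ} {J : Type} [Fintype J] [DecidableEq J] (e : J ≃ Fin c × Bool)
    (lam : ℕ → E c) {a k : ℕ} (ha : 1 ≤ a) {x : (Fin (2 * a) → J) → ℝ[X]} (hx : Dec x)
    {l h : ℕ} (hl : IsLo x l) (hh : IsHi x h) (hP : pr (LP e lam a k) x = 0) :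
    Bad lam a k (VE e (cf x l)) ∧ Bad lam a (k + 1) (VE e (cf x h)) ∧
      Tr lam a k (h - l) (VE e (cf x l)) (VE e (cf x h)) := by
  have hp : 1 ≤ 2 * a := by omega
  have hD0 := hx.lo hp hl
  have hD1 := hx.hi hp hh
  have hlh := lk_le hl hh
  have hdist := dist_le hp hx hl hh
  refine ⟨?_, ?_, ?_, ?_, ?_⟩
  · rw [← sing_zero_iff ha, ← pr_LR_iff e lam ha 0 hD0 hl.1, ← coeff_lo e lam ha hl.2, hP, coeff_zero]
  · rw [← pr_LI_iff e lam ha hD1 hh.1, ← (coeff_hi e lam ha hh.2).1, hP, coeff_zero]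
  · rw [finrank_VE e hp hD0 hl.1, finrank_VE_inf]
    exact hdist
  · intro h0
    obtain rfl : h = l := by omega
    refine ⟨rfl, fun t => ?_⟩
    have hxe : x = fun i => C (cf x h i) * X ^ h := by
      funext i
      ext d
      rw [coeff_C_mul_X_pow]
      rcases lt_trichotomy d h with hd | hd | hd
      · rw [if_neg hd.ne]
        exact congrFun (hl.2 d hd) i
      · rw [if_pos hd, hd]
        rfl
      · rw [if_neg hd.ne']
        exact congrFun (hh.2 d hd) i
    rw [hxe, lk_mul] at hP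
    have hP0 : pr (LP e lam a k) (fun i => C (cf x h i)) = 0 :=
      (mul_eq_zero.1 hP).resolve_right (pow_ne_zero _ X_ne_zero)
    have h1 := lk_eval e lam a k t (fun i => C (cf x h i))
    rw [hP0, eval_zero] at h1
    simp only [eval_C] at h1
    exact (pr_LR_iff e lam ha t hD0 hl.1).1 h1.symm
  · intro h1 hne
    obtain rfl : h = l + 1 := by omega
    have hxe : x = fun i => (C (cf x l i) + C (cf x (l + 1) i) * X) * X ^ l := by
      funext i
      ext d
      rw [coeff_mul_X_pow']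
      rcases lt_trichotomy d l with hd | hd | hd
      · rw [if_neg (not_le.2 hd)]
        exact congrFun (hl.2 d hd) i
      · rw [if_pos hd.ge, hd, Nat.sub_self, coeff_add, coeff_C_zero, mul_coeff_zero, coeff_X_zero,
          mul_zero, add_zero]
        rfl
      · rw [if_pos hd.le]
        rcases Nat.lt_or_ge (l + 1) d with hd1 | hd1
        · obtain ⟨n, rfl⟩ : ∃ n, d = l + 1 + (n + 1) := ⟨d - l - 2, by omega⟩
          rw [show l + 1 + (n + 1) - l = n + 1 + 1 by omega, coeff_add, coeff_C_succ, coeff_C_mul,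
            coeff_X, if_neg (by omega), mul_zero, add_zero]
          exact congrFun (hh.2 _ hd1) i
        · obtain rfl : d = l + 1 := by omega
          rw [show l + 1 - l = 0 + 1 by omega, coeff_add, coeff_C_succ, zero_add, coeff_C_mul,
            zero_add, coeff_X_one, mul_one]
          rfl
    rw [hxe, lk_mul] at hP
    have hP0 : pr (LP e lam a k) (fun i => C (cf x l i) + C (cf x (l + 1) i) * X) = 0 :=
      (mul_eq_zero.1 hP).resolve_right (pow_ne_zero _ X_ne_zero)
    have hne' : Vs (cf x l) ≠ Vs (cf x (l + 1)) := by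
      intro h2
      apply hne
      unfold VE
      rw [h2]
    rw [h1] at hdist
    obtain ⟨u, w, hu, hw, huw⟩ := line_struct hp hD0 hl.1 hD1 hh.1 hne' hdist
    refine ⟨toE e u, toE e w, ?_, ?_, fun t => ?_⟩
    · rw [lk_inf, ← lk_sup, ← hu]
      rfl
    · rw [lk_inf, ← lk_sup, ← hw]
      rfl
    · obtain ⟨hD, hn0, hV⟩ := huw t
      have h2 : toE e u + t • toE e w = toE e (u + t • w) := by
        rw [map_add, map_smul]
      rw [lk_inf, h2, ← lk_sup, ← hV]
      refine (pr_LR_iff e lam ha t hD hn0).1 ?_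
      have h3 := lk_eval e lam a k t (fun i => C (cf x l i) + C (cf x (l + 1) i) * X)
      rw [hP0, eval_zero] at h3
      rw [h3]
      congr 1
      funext i
      rw [eval_add, eval_C, eval_mul, eval_C, eval_X]
      show cf x l i + t * cf x (l + 1) i = _
      rw [mul_comm t]

theorem link_last {c q : ℕ} {J : Type} [Fintype J] [DecidableEq J] (e : J ≃ Fin c × Bool)
    (lam : ℕ → E c) {a k : ℕ} (ha : 1 ≤ a) {x : (Fin (2 * a) → J) → ℝ[X]} (hx : Dec x)
    (hq : ∀ i, (x i).natDegree ≤ q) {l : ℕ} (hl : IsLo x l)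
    (hP : ∀ d, d ≠ q + 2 → (pr (LP e lam a k) x).coeff d = 0) :
    Bad lam a k (VE e (cf x l)) ∧
      (l = q → (∀ t : ℝ, Sing lam a k t (VE e (cf x l))) ∨
        ((∀ t : ℝ, t ≠ 0 → ¬ Sing lam a k t (VE e (cf x l))) ∧
          ¬ Bad lam a (k + 1) (VE e (cf x l)))) := by
  have hp : 1 ≤ 2 * a := by omega
  have hD0 := hx.lo hp hl
  have hlq : l ≤ q := by
    by_contra hc
    apply hl.1
    funext i
    exact coeff_eq_zero_of_natDegree_lt (lt_of_le_of_lt (hq i) (not_le.1 hc))
  refine ⟨?_, ?_⟩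
  · rw [← sing_zero_iff ha, ← pr_LR_iff e lam ha 0 hD0 hl.1, ← coeff_lo e lam ha hl.2]
    exact hP l (by omega)
  · rintro rfl
    have hxe : x = fun i => C (cf x l i) * X ^ l := by
      funext i
      ext d
      rw [coeff_C_mul_X_pow]
      rcases lt_trichotomy d l with hd | hd | hd
      · rw [if_neg hd.ne]
        exact congrFun (hl.2 d hd) i
      · rw [if_pos hd, hd]
        rfl
      · rw [if_neg hd.ne']
        exact coeff_eq_zero_of_natDegree_lt (lt_of_le_of_lt (hq i) hd)
    have hP1 : ∀ d, d ≠ 2 → (pr (LP e lam a k) (fun i => C (cf x l i))).coeff d = 0 := by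
      intro d hd
      have h1 := hP (d + l) (by omega)
      rw [hxe, lk_mul, coeff_mul_X_pow] at h1
      exact h1
    have hcf : cf (fun i => C (cf x l i)) 0 = cf x l := by
      funext i
      exact coeff_C_zero
    have hP2 : (pr (LP e lam a k) (fun i => C (cf x l i))).coeff 2 =
        pr (LI e lam a k) (cf x l) := by
      have h1 := (coeff_hi (k := k) (h := 0) e lam ha (x := fun i => C (cf x l i)) fun d hd => by
        funext i
        exact coeff_C_of_ne_zero hd.ne').1
      rw [zero_add, hcf] at h1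
      exact h1
    have hP3 : pr (LP e lam a k) (fun i => C (cf x l i)) =
        C (pr (LI e lam a k) (cf x l)) * X ^ 2 := by
      ext d
      rw [coeff_C_mul_X_pow]
      by_cases hd : d = 2
      · rw [if_pos hd, hd, hP2]
      · rw [if_neg hd, hP1 d hd]
    have hev : ∀ t : ℝ, pr (LR e lam a k t) (cf x l) = pr (LI e lam a k) (cf x l) * t ^ 2 := by
      intro t
      have h1 := lk_eval e lam a k t (fun i => C (cf x l i))
      rw [hP3, eval_mul, eval_C, eval_pow, eval_X] at h1
      simp only [eval_C] at h1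
      exact h1.symm
    by_cases hρ : pr (LI e lam a k) (cf x l) = 0
    · left
      intro t
      refine (pr_LR_iff e lam ha t hD0 hl.1).1 ?_
      rw [hev, hρ, zero_mul]
    · right
      refine ⟨fun t ht hS => ?_, fun hB => hρ ((pr_LI_iff e lam ha hD0 hl.1).2 hB)⟩
      have h1 := (pr_LR_iff e lam ha t hD0 hl.1).2 hS
      rw [hev] at h1
      exact mul_ne_zero hρ (pow_ne_zero 2 ht) h1

end Pool.Agent.H45.DQ
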