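import Pool.Agent.H45.DQ.Plant
import Pool.Agent.H45.DQ.ArrV

/-!
# Module LinkA: pairing with the limit rows and common zeros

PROOF. `pr_eq_zero_iff`: the pairing vanishes iff some `w ≠ 0` in `Vs y` is orthogonal to all `2 a` rows. For
`w' = toE e w` and the row `r = 2 i + β`: `∑ j, LR … r j * w j = Re (mu r • l_i · w')` with
`l_i = lam (ix a k i) + [ix a k i = k] t lam (k+a)` (`cov_dot`, `cov_add`, `cov_rsmul`,
`smul_add`, `smul_comm`). For `β = 0, 1` together: real part and minus the imaginary part of `l_i · w'`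
vanish, so `dotProduct l_i w' = 0`. The `l_i`, `i < a`, are the rows `lam m`, `k < m < k + a`, and
`lam k + t lam (k+a)` (`ix_mem`, `ix_surj`). The same for `LI` with the rows `lam m`,
`k + 1 ≤ m < k + 1 + a`. `finrank_map`: `toE e` is a linear equivalence, `finrank_Vs`.
-/

set_option autoImplicit false

open Module Polynomial

namespace Pool.Agent.H45.DQ

/-- the complex version of the subspace of an array -/
noncomputable def VE {c p : ℕ} {J : Type} (e : J ≃ Fin c × Bool) (y : (Fin p → J) → ℝ) :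
    Submodule ℝ (E c) := (Vs y).map (toE e : (J → ℝ) →ₗ[ℝ] E c)

/-- rows in complex form -/
private theorem rows_iff {c : ℕ} {J : Type} [Fintype J] (e : J ≃ Fin c × Bool) {a : ℕ}
    (l : ℕ → E c) (w : J → ℝ) :
    (∀ r : Fin (2 * a), ∑ j, cov e (mu r • l ((r : ℕ) / 2)) j * w j = 0) ↔
      ∀ i < a, dotProduct (l i) (toE e w) = 0 := by
  constructor
  · intro h i hi
    have h1 := h ⟨2 * i, by omega⟩
    have h2 := h ⟨2 * i + 1, by omega⟩
    rw [cov_dot, smul_dotProduct] at h1 h2
    have e1 : mu (2 * i) = 1 := by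
      unfold mu
      rw [if_pos (by omega)]
    have e2 : mu (2 * i + 1) = Complex.I := by
      unfold mu
      rw [if_neg (by omega)]
    have e3 : 2 * i / 2 = i := by omega
    have e4 : (2 * i + 1) / 2 = i := by omega
    simp only [e1, e2, e3, e4, smul_eq_mul, one_mul, Complex.I_mul_re] at h1 h2
    apply Complex.ext
    · exact h1
    · rw [Complex.zero_im]
      linarith
  · intro h r
    rw [cov_dot, smul_dotProduct, h _ (by have := r.2; omega), smul_zero, Complex.zero_re]

/-- existence of a common zero in real and in complex form -/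
private theorem exists_iff {c p : ℕ} {J : Type} (e : J ≃ Fin c × Bool) (y : (Fin p → J) → ℝ)
    (P : E c → Prop) :
    (∃ w ∈ Vs y, w ≠ 0 ∧ P (toE e w)) ↔ ∃ w ∈ VE e y, w ≠ 0 ∧ P w := by
  constructor
  · rintro ⟨w, hw, hw0, hP⟩
    exact ⟨toE e w, Submodule.mem_map_of_mem hw, fun h => hw0 ((toE e).map_eq_zero_iff.1 h), hP⟩
  · rintro ⟨w', hw', hw0, hP⟩
    obtain ⟨w, hw, rfl⟩ := hw'
    refine ⟨w, hw, fun h => hw0 ?_, hP⟩
    rw [h]
    exact map_zero _

theorem pr_LR_iff {c : ℕ} {J : Type} [Fintype J] [DecidableEq J] (e : J ≃ Fin c × Bool)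
    (lam : ℕ → E c) {a k : ℕ} (ha : 1 ≤ a) (t : ℝ) {y : (Fin (2 * a) → J) → ℝ} (hy : Dec y)
    (h0 : y ≠ 0) : pr (LR e lam a k t) y = 0 ↔ Sing lam a k t (VE e y) := by
  rw [pr_eq_zero_iff (by omega) hy h0]
  let l : ℕ → E c := fun i => lam (ix a k i) + if ix a k i = k then (t : ℂ) • lam (k + a) else 0
  have hrow : ∀ (r : Fin (2 * a)) (j : J), LR e lam a k t r j =
      cov e (mu r • l ((r : ℕ) / 2)) j := by
    intro r j
    show _ = cov e (mu r • (lam (ix a k ((r : ℕ) / 2)) +
      if ix a k ((r : ℕ) / 2) = k then (t : ℂ) • lam (k + a) else 0)) j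
    unfold LR
    by_cases h : ix a k ((r : ℕ) / 2) = k
    · rw [if_pos h, if_pos h, smul_add, cov_add, smul_comm (mu r) (t : ℂ), cov_rsmul]
    · rw [if_neg h, if_neg h, add_zero, add_zero]
  simp only [hrow, rows_iff e l]
  rw [exists_iff e y fun w => ∀ i < a, dotProduct (l i) w = 0]
  unfold Sing
  refine exists_congr fun w => and_congr_right fun _ => and_congr_right fun _ => ?_
  constructor
  · intro h
    refine ⟨fun m h1 h2 => ?_, ?_⟩
    · obtain ⟨i, hi, him⟩ := ix_surj (a := a) (k := k) (m := m) (by omega) h2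
      have h3 := h i hi
      have h4 : l i = lam m := by
        show lam (ix a k i) + (if ix a k i = k then (t : ℂ) • lam (k + a) else 0) = _
        rw [him, if_neg (by omega), add_zero]
      rwa [h4] at h3
    · obtain ⟨i, hi, him⟩ := ix_surj (a := a) (k := k) (m := k) le_rfl (by omega)
      have h3 := h i hi
      have h4 : l i = lam k + (t : ℂ) • lam (k + a) := by
        show lam (ix a k i) + (if ix a k i = k then (t : ℂ) • lam (k + a) else 0) = _
        rw [him, if_pos rfl]
      rwa [h4] at h3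
  · rintro ⟨h1, h2⟩ i hi
    obtain ⟨h3, h4⟩ := ix_mem (a := a) (k := k) (i := i) hi
    by_cases h : ix a k i = k
    · have h5 : l i = lam k + (t : ℂ) • lam (k + a) := by
        show lam (ix a k i) + (if ix a k i = k then (t : ℂ) • lam (k + a) else 0) = _
        rw [h, if_pos rfl]
      rwa [h5]
    · have h5 : l i = lam (ix a k i) := by
        show lam (ix a k i) + (if ix a k i = k then (t : ℂ) • lam (k + a) else 0) = _
        rw [if_neg h, add_zero]
      rw [h5]
      exact h1 _ (by omega) h4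

theorem pr_LI_iff {c : ℕ} {J : Type} [Fintype J] [DecidableEq J] (e : J ≃ Fin c × Bool)
    (lam : ℕ → E c) {a k : ℕ} (ha : 1 ≤ a) {y : (Fin (2 * a) → J) → ℝ} (hy : Dec y)
    (h0 : y ≠ 0) : pr (LI e lam a k) y = 0 ↔ Bad lam a (k + 1) (VE e y) := by
  rw [pr_eq_zero_iff (by omega) hy h0]
  let l : ℕ → E c := fun i => if ix a k i = k then lam (k + a) else lam (ix a k i)
  have hrow : ∀ (r : Fin (2 * a)) (j : J), LI e lam a k r j =
      cov e (mu r • l ((r : ℕ) / 2)) j := by
    intro r j
    show _ = cov e (mu r • (if ix a k ((r : ℕ) / 2) = k then lam (k + a)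
      else lam (ix a k ((r : ℕ) / 2)))) j
    unfold LI
    by_cases h : ix a k ((r : ℕ) / 2) = k
    · rw [if_pos h, if_pos h]
    · rw [if_neg h, if_neg h]
  simp only [hrow, rows_iff e l]
  rw [exists_iff e y fun w => ∀ i < a, dotProduct (l i) w = 0]
  unfold Bad
  refine exists_congr fun w => and_congr_right fun _ => and_congr_right fun _ => ?_
  constructor
  · intro h m h1 h2
    by_cases hm : m = k + a
    · obtain ⟨i, hi, him⟩ := ix_surj (a := a) (k := k) (m := k) le_rfl (by omega)
      have h3 := h i hi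
      have h4 : l i = lam m := by
        show (if ix a k i = k then lam (k + a) else lam (ix a k i)) = _
        rw [if_pos him, hm]
      rwa [h4] at h3
    · obtain ⟨i, hi, him⟩ := ix_surj (a := a) (k := k) (m := m) (by omega) (by omega)
      have h3 := h i hi
      have h4 : l i = lam m := by
        show (if ix a k i = k then lam (k + a) else lam (ix a k i)) = _
        rw [if_neg (by omega), him]
      rwa [h4] at h3
  · intro h i hi
    obtain ⟨h3, h4⟩ := ix_mem (a := a) (k := k) (i := i) hi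
    show dotProduct (if ix a k i = k then lam (k + a) else lam (ix a k i)) w = 0
    by_cases h5 : ix a k i = k
    · rw [if_pos h5]
      exact h _ (by omega) (by omega)
    · rw [if_neg h5]
      exact h _ (by omega) (by omega)

theorem sing_zero_iff {c : ℕ} {lam : ℕ → E c} {a k : ℕ} (ha : 1 ≤ a)
    {V : Submodule ℝ (E c)} : Sing lam a k 0 V ↔ Bad lam a k V := by
  unfold Sing Bad
  refine exists_congr fun w => and_congr_right fun _ => and_congr_right fun _ => ?_
  rw [Complex.ofReal_zero, zero_smul, add_zero]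
  constructor
  · rintro ⟨h1, h2⟩ m h3 h4
    rcases Nat.eq_or_lt_of_le h3 with h5 | h5
    · rw [← h5]
      exact h2
    · exact h1 m h5 h4
  · intro h
    exact ⟨fun m h1 h2 => h m (by omega) h2, h k le_rfl (by omega)⟩

theorem finrank_VE {c p : ℕ} {J : Type} [Fintype J] [DecidableEq J] (e : J ≃ Fin c × Bool)
    {y : (Fin p → J) → ℝ} (hp : 1 ≤ p) (hy : Dec y) (h0 : y ≠ 0) : finrank ℝ (VE e y) = p := by
  have h1 : finrank ℝ (VE e y) = finrank ℝ (Vs y) := LinearEquiv.finrank_map_eq (toE e) (Vs y)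
  rw [h1, finrank_Vs hp hy h0]

theorem finrank_VE_inf {c p : ℕ} {J : Type} [Fintype J] (e : J ≃ Fin c × Bool)
    (y y' : (Fin p → J) → ℝ) :
    finrank ℝ (VE e y ⊓ VE e y' : Submodule ℝ (E c)) =
      finrank ℝ (Vs y ⊓ Vs y' : Submodule ℝ (J → ℝ)) := by
  have h1 : VE e y ⊓ VE e y' = (Vs y ⊓ Vs y').map (toE e : (J → ℝ) →ₗ[ℝ] E c) :=
    (Submodule.map_inf _ (toE e).injective).symm
  rw [h1]
  exact LinearEquiv.finrank_map_eq (toE e) _

end Pool.Agent.H45.DQ
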