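import Pool.Agent.H45.DQ.Special
import Pool.Agent.H45.DQ.ArrX
import Pool.Agent.H30.PD.Asm

/-!
# The theorem: generic real pole placement fails at the necessary bound for all even `m`, `p`

From the special plant (`special`) by `Pool.H30.PD.not_assignable` (helper30: robustness, genericity,
path), with `K` = the coefficient arrays whose polynomial arrays are decomposable (`Dec`).
-/

set_option autoImplicit false

open Module Polynomial

namespace Pool.Agent.H45.DQ

theorem xx_eq_XX {p m : ℕ} (P : Matrix (Fin m) (Fin p ⊕ Fin m) ℝ[X]) :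
    Pool.H30.PD.xx P = XX P := by
  funext e
  unfold Pool.H30.PD.xx XX
  congr 2
  ext i j
  simp only [Pool.H30.PD.sel, Matrix.of_apply, Pi.single_apply]

theorem toPol_injective {p q : ℕ} {J : Type} {x : Pool.H30.PD.Arr p J q}
    (h : Pool.H30.PD.toPol x = 0) : x = 0 := by
  funext e t
  have h1 := congrFun h e
  have h2 := Pool.H30.PD.pol_coeff (x e) t
  unfold Pool.H30.PD.toPol at h1
  rw [h1] at h2
  simpa using h2.symm

theorem pol_natDegree {N : ℕ} (u : Fin (N + 1) → ℝ) :
    (Pool.H30.PD.pol u).natDegree ≤ N := by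
  unfold Pool.H30.PD.pol
  refine natDegree_sum_le_of_forall_le _ _ fun t _ => ?_
  exact (natDegree_C_mul_X_pow_le _ _).trans (by omega)

theorem isClosed_dec {p q : ℕ} {J : Type} [Fintype J] [DecidableEq J] :
    IsClosed {x : Pool.H30.PD.Arr p J q | Dec (Pool.H30.PD.toPol x)} := by
  classical
  have hev : ∀ (e : Fin p → J) (s : ℝ),
      Continuous fun x : Pool.H30.PD.Arr p J q => (Pool.H30.PD.toPol x e).eval s := by
    intro e s
    have h1 : (fun x : Pool.H30.PD.Arr p J q => (Pool.H30.PD.toPol x e).eval s) =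
        fun x => ∑ t : Fin (q + 1), x e t * s ^ (t : ℕ) := by
      funext x
      exact Pool.H30.PD.eval_pol (x e) s
    rw [h1]
    fun_prop
  have hset : {x : Pool.H30.PD.Arr p J q | Dec (Pool.H30.PD.toPol x)} =
      (⋂ e : Fin p → J, ⋂ (_ : ¬ Function.Injective e), ⋂ s : ℝ,
        {x | (Pool.H30.PD.toPol x e).eval s = 0}) ∩
      ⋂ e0 : Fin p → J, ⋂ e : Fin p → J, ⋂ s : ℝ,
        {x | (Pool.H30.PD.toPol x e0).eval s * ((Pool.H30.PD.toPol x e0).eval s ^ (p - 1) *
          (Pool.H30.PD.toPol x e).eval s - (Matrix.of fun i j =>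
            (Pool.H30.PD.toPol x (Function.update e0 i (e j))).eval s).det) = 0} := by
    ext x
    simp only [Set.mem_ofPred_eq, Set.mem_inter_iff, Set.mem_iInter]
    constructor
    · intro h
      refine ⟨fun e he s => by rw [h.1 e he, eval_zero], fun e0 e s => ?_⟩
      have h2 := congrArg (eval s) (h.2 e0 e)
      rw [eval_mul, eval_sub, eval_mul, eval_pow, eval_zero] at h2
      rw [← h2]
      congr 2
      rw [← coe_evalRingHom, RingHom.map_det]
      rfl
    · intro h
      refine ⟨fun e he => ?_, fun e0 e => ?_⟩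
      · apply Polynomial.funext
        intro s
        rw [h.1 e he s, eval_zero]
      · apply Polynomial.funext
        intro s
        rw [eval_mul, eval_sub, eval_mul, eval_pow, eval_zero, ← h.2 e0 e s]
        congr 2
        rw [← coe_evalRingHom, RingHom.map_det]
        rfl
  rw [hset]
  refine IsClosed.inter ?_ ?_
  · refine isClosed_iInter fun e => isClosed_iInter fun _ => isClosed_iInter fun s => ?_
    exact isClosed_eq (hev e s) continuous_const
  · refine isClosed_iInter fun e0 => isClosed_iInter fun e => isClosed_iInter fun s => ?_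
    refine isClosed_eq ?_ continuous_const
    refine (hev e0 s).mul ((((hev e0 s).pow _).mul (hev e s)).sub ?_)
    refine Continuous.matrix_det ?_
    exact continuous_matrix fun i j => hev _ s

/-- **Theorem.** Real pole placement fails for all even `m = 2b`, `p = 2a` and all
`n ≥ q (m + p - 1) + m p`. -/
theorem main (a b q n : ℕ) (ha : 1 ≤ a) (hb : 1 ≤ b)
    (hn : q * (2 * b + 2 * a - 1) + 2 * b * (2 * a) ≤ n) :
    ¬ Pool.H30.PD.PoleAssignable (2 * b) (2 * a) n q := by
  classical
  have hp : 1 ≤ 2 * a := by omega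
  have hcard : Fintype.card (Fin (2 * a) ⊕ Fin (2 * b)) = Fintype.card (Fin (a + b) × Bool) := by
    simp
    ring
  let e : Fin (2 * a) ⊕ Fin (2 * b) ≃ Fin (a + b) × Bool := Fintype.equivOfCardEq hcard
  have hn' : 4 * a * b + q * (2 * (a + b) - 1) ≤ n := by
    refine le_trans (le_of_eq ?_) hn
    have h1 : 2 * (a + b) - 1 = 2 * b + 2 * a - 1 := by omega
    rw [h1]
    ring
  obtain ⟨φ, R, hφ, hR, hspec⟩ := special ha hb hn' e
  have hφ0 : φ ≠ 0 := by
    rintro rfl
    rw [natDegree_zero] at hφ
    have h1 : 1 ≤ 4 * a * b := by nlinarith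
    have h2 : 4 * a * b ≤ n := by omega
    omega
  refine Pool.H30.PD.not_assignable (m := 2 * b) (p := 2 * a) (n := n) (q := q) (by omega)
    (K := {x | Dec (Pool.H30.PD.toPol x)}) isClosed_dec ?_ ?_ hφ0 hφ (P₀ := Matrix.of R) ?_ ?_
  · intro r x hx
    show Dec (Pool.H30.PD.toPol (r • x))
    have h1 : Pool.H30.PD.toPol (r • x) = fun i => C r * Pool.H30.PD.toPol x i := by
      funext i
      exact Pool.H30.PD.toPol_smul r x i
    rw [h1]
    exact Dec.smul hp hx (C r)
  · intro P₂ hP₂
    show Dec (Pool.H30.PD.toPol (Pool.H30.PD.xc q P₂))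
    have h1 : Pool.H30.PD.toPol (Pool.H30.PD.xc q P₂) = XX P₂ := by
      rw [← xx_eq_XX]
      funext i
      exact Pool.H30.PD.toPol_xc hP₂ i
    rw [h1]
    exact dec_XX hp P₂
  · intro i j
    exact hR i j
  · intro x hx c hc
    apply toPol_injective
    exact hspec _ hx (fun i => pol_natDegree _) c hc

end Pool.Agent.H45.DQ
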