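import Pool.Agent.H45.DQ.St
import Pool.Agent.H45.DQ.Cub

/-!
# Module PenA: the pencil of a transition with a constant subspace

State `κ = a`, `ρ = 1`. `V ⊓ perp (FF lam a k a)` is a line `ℝ u1` (`inter_all`), contained in the plane
`U = V ⊓ perp (FF lam a k (a-1))` (`inter_pred`); `U = span {u0, u1}`.

PROOF of `plane`. `finrank_eq_one_iff'`, `FF_mono`. Membership in `perp (FF lam a k (a-1))` means: killed by
the rows `lam m`, `k < m < k + a` (`mem_perp_FF`, `dotProduct_comm` is built in there), membership in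
`perp (FF lam a k a)`: killed by `lam m`, `k ≤ m < k + a`. If `lam k · u0 = 0` then
`u0 ∈ V ⊓ perp (FF lam a k a) = ℝ u1`, contradiction to the independence of `u0, u1`.
PROOF of `pencil0`. For `t` real the common zero `w` of `Sing` is in `U`: `w = s u0 + r u1`, not both zero,
and `(lam k + t lam (k+a)) · w = s (p0 + t p1) + r t g` with `p0 = lam k · u0`, `p1 = lam (k+a) · u0`,
`g = lam (k+a) · u1` (`lam k · u1 = 0`). `quad`.
PROOF of `pencil_last`: `quad_last`; for `t ≠ 0` a real relation would give a common zero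
`s u0 + r u1` (nonzero if `(s, r) ≠ 0`), and at infinity the vector `s u0 + r u1` would be killed by
`lam m`, `k < m < k + a`, and by `lam (k+a)`: `Bad lam a (k+1) V`.
-/

set_option autoImplicit false

open Module

namespace Pool.Agent.H45.DQ

/-- a plane is spanned by a given nonzero vector and another one -/
private theorem pa_plane {M : Type} [AddCommGroup M] [Module ℝ M] {U : Submodule ℝ M}
    (hU : finrank ℝ U = 2) {u1 : M} (h1 : u1 ∈ U) (h0 : u1 ≠ 0) :
    ∃ u0 ∈ U, u0 ∉ Submodule.span ℝ {u1} ∧ U = Submodule.span ℝ {u0, u1} := by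
  have hfin : FiniteDimensional ℝ U := Module.finite_of_finrank_pos (by rw [hU]; norm_num)
  have hle : Submodule.span ℝ {u1} ≤ U := by
    rw [Submodule.span_singleton_le_iff_mem]
    exact h1
  have hlt : ¬ U ≤ Submodule.span ℝ {u1} := by
    intro h
    have h2 := Submodule.finrank_mono (R := ℝ) h
    rw [hU, finrank_span_singleton h0] at h2
    norm_num at h2
  obtain ⟨u0, hu0, hn⟩ := SetLike.not_le_iff_exists.1 hlt
  refine ⟨u0, hu0, hn, ?_⟩
  have hle2 : Submodule.span ℝ {u0, u1} ≤ U := by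
    rw [Submodule.span_le]
    intro x hx
    rcases hx with rfl | hx
    · exact hu0
    · rw [Set.mem_singleton_iff.1 hx]
      exact h1
  refine (Submodule.eq_of_le_of_finrank_le hle2 ?_).symm
  rw [hU]
  have hfin2 : FiniteDimensional ℝ (Submodule.span ℝ {u0, u1}) :=
    FiniteDimensional.span_of_finite ℝ (Set.toFinite _)
  have h3 : Submodule.span ℝ {u1} < Submodule.span ℝ {u0, u1} := by
    refine lt_of_le_of_ne (Submodule.span_mono (by simp)) ?_
    intro he
    apply hn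
    rw [he]
    exact Submodule.subset_span (by simp)
  have h4 := Submodule.finrank_lt_finrank_of_lt h3
  rw [finrank_span_singleton h0] at h4
  exact h4

private theorem pa_line {M : Type} [AddCommGroup M] [Module ℝ M] {L : Submodule ℝ M}
    (hL : finrank ℝ L = 1) : ∃ u1 ∈ L, u1 ≠ 0 ∧ L = Submodule.span ℝ {u1} := by
  obtain ⟨v, hv, h⟩ := finrank_eq_one_iff'.1 hL
  refine ⟨v, v.2, fun h0 => hv (Subtype.ext h0), ?_⟩
  apply le_antisymm
  · intro x hx
    obtain ⟨c, hc⟩ := h ⟨x, hx⟩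
    rw [Submodule.mem_span_singleton]
    exact ⟨c, congrArg Subtype.val hc⟩
  · rw [Submodule.span_singleton_le_iff_mem]
    exact v.2

private theorem pa_all {a b : ℕ} {lam : ℕ → E (a + b)} {k : ℕ} (ha : 1 ≤ a) {w : E (a + b)} :
    w ∈ perp (FF lam a k a) ↔
      w ∈ perp (FF lam a k (a - 1)) ∧ dotProduct (lam k) w = 0 := by
  rw [mem_perp_FF, mem_perp_FF]
  constructor
  · intro h
    exact ⟨fun m h1 h2 => h m (by omega) h2, h k (by omega) (by omega)⟩
  · rintro ⟨h1, h2⟩ m h3 h4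
    rcases Nat.lt_or_ge k m with h5 | h5
    · exact h1 m (by omega) h4
    · have h6 : m = k := by omega
      rw [h6]
      exact h2

private theorem pa_pred {a b : ℕ} {lam : ℕ → E (a + b)} {k : ℕ} (ha : 1 ≤ a) {w : E (a + b)} :
    w ∈ perp (FF lam a k (a - 1)) ↔
      ∀ m, k < m → m < k + a → dotProduct (lam m) w = 0 := by
  rw [mem_perp_FF]
  exact ⟨fun h m h1 h2 => h m (by omega) h2, fun h m h1 h2 => h m (by omega) h2⟩

private theorem pa_dot {c : ℕ} (l l' u0 u1 : E c) (s r t : ℝ) (h : dotProduct l u1 = 0) :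
    dotProduct (l + (t : ℂ) • l') (s • u0 + r • u1) =
      (s : ℂ) * (dotProduct l u0 + t * dotProduct l' u0) + (r : ℂ) * (t * dotProduct l' u1) := by
  rw [add_dotProduct, dotProduct_add, dotProduct_add, smul_dotProduct, smul_dotProduct,
    dotProduct_smul, dotProduct_smul, dotProduct_smul, dotProduct_smul, h]
  simp only [Complex.real_smul, smul_eq_mul]
  ring

theorem plane {a b : ℕ} {lam : ℕ → E (a + b)} {k : ℕ} {H : Submodule ℝ Der}
    {V : Submodule ℝ (E (a + b))} (h : Ctx lam k H V) (hd : Df lam a k V a 1) :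
    ∃ u0 u1 : E (a + b), u1 ≠ 0 ∧ V ⊓ perp (FF lam a k a) = Submodule.span ℝ {u1} ∧
      V ⊓ perp (FF lam a k (a - 1)) = Submodule.span ℝ {u0, u1} ∧
      dotProduct (lam k) u1 = 0 ∧ dotProduct (lam k) u0 ≠ 0 := by
  obtain ⟨u1, h1, h10, hL⟩ := pa_line (inter_all h.lin h.rk hd)
  have h11 := (pa_all h.posa).1 h1.2
  obtain ⟨u0, hu0, hn, hU⟩ := pa_plane (inter_pred h.lin h.rk hd)
    (u1 := u1) ⟨h1.1, h11.1⟩ h10
  refine ⟨u0, u1, h10, hL, hU, h11.2, fun h0 => hn ?_⟩
  rw [← hL]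
  exact ⟨hu0.1, (pa_all h.posa).2 ⟨hu0.2, h0⟩⟩

theorem pencil0 {a b : ℕ} {lam : ℕ → E (a + b)} {k : ℕ} {H : Submodule ℝ Der}
    {V : Submodule ℝ (E (a + b))} (h : Ctx lam k H V) (hd : Df lam a k V a 1)
    (hs : ∀ t : ℝ, Sing lam a k t V) :
    ∃ u0 u1 : E (a + b), u1 ≠ 0 ∧ V ⊓ perp (FF lam a k a) = Submodule.span ℝ {u1} ∧
      V ⊓ perp (FF lam a k (a - 1)) = Submodule.span ℝ {u0, u1} ∧
      dotProduct (lam k) u1 = 0 ∧ dotProduct (lam k) u0 ≠ 0 ∧
      (dotProduct (lam (k + a)) u1 = 0 ∨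
        ((∃ x : ℝ, x ≠ 0 ∧ dotProduct (lam (k + a)) u1 = x * dotProduct (lam k) u0) ∧
          ∃ y : ℝ, dotProduct (lam (k + a)) u0 = y * dotProduct (lam k) u0)) := by
  obtain ⟨u0, u1, h10, hL, hU, h11, h00⟩ := plane h hd
  refine ⟨u0, u1, h10, hL, hU, h11, h00, quad h00 fun t => ?_⟩
  obtain ⟨w, hwV, hw0, hw1, hw2⟩ := hs t
  have hwU : w ∈ V ⊓ perp (FF lam a k (a - 1)) := ⟨hwV, (pa_pred h.posa).2 hw1⟩
  rw [hU] at hwU
  obtain ⟨s, r, hsr⟩ := Submodule.mem_span_pair.1 hwU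
  refine ⟨s, r, ?_, ?_⟩
  · by_contra hcon
    push Not at hcon
    apply hw0
    rw [← hsr, hcon.1, hcon.2, zero_smul, zero_smul, add_zero]
  · rw [← hsr, pa_dot _ _ _ _ _ _ _ h11] at hw2
    exact hw2

theorem pencil_last {a b : ℕ} {lam : ℕ → E (a + b)} {k : ℕ} {H : Submodule ℝ Der}
    {V : Submodule ℝ (E (a + b))} (h : Ctx lam k H V) (hd : Df lam a k V a 1)
    (hs : (∀ t : ℝ, Sing lam a k t V) ∨
      ((∀ t : ℝ, t ≠ 0 → ¬ Sing lam a k t V) ∧ ¬ Bad lam a (k + 1) V)) :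
    ∃ u0 u1 : E (a + b), u1 ≠ 0 ∧ V ⊓ perp (FF lam a k a) = Submodule.span ℝ {u1} ∧
      V ⊓ perp (FF lam a k (a - 1)) = Submodule.span ℝ {u0, u1} ∧
      dotProduct (lam k) u1 = 0 ∧ dotProduct (lam k) u0 ≠ 0 ∧
      ∃ x : ℝ, dotProduct (lam (k + a)) u1 = x * dotProduct (lam k) u0 := by
  rcases hs with hs | ⟨hs, hb⟩
  · obtain ⟨u0, u1, h1, h2, h3, h4, h5, h6⟩ := pencil0 h hd hs
    refine ⟨u0, u1, h1, h2, h3, h4, h5, ?_⟩
    rcases h6 with h6 | ⟨⟨x, -, hx⟩, -⟩
    · exact ⟨0, by rw [h6]; simp⟩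
    · exact ⟨x, hx⟩
  obtain ⟨u0, u1, h10, hL, hU, h11, h00⟩ := plane h hd
  -- combinations
  have hcomb : ∀ s r : ℝ, s • u0 + r • u1 ∈ V ⊓ perp (FF lam a k (a - 1)) := by
    intro s r
    rw [hU]
    exact Submodule.mem_span_pair.2 ⟨s, r, rfl⟩
  have hind : ∀ s r : ℝ, s • u0 + r • u1 = 0 → s = 0 ∧ r = 0 := by
    intro s r hz
    have h1 := congrArg (dotProduct (lam k)) hz
    rw [dotProduct_add, dotProduct_smul, dotProduct_smul, h11, dotProduct_zero, smul_zero,
      add_zero, smul_eq_zero] at h1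
    have hs0 : s = 0 := h1.resolve_right h00
    rw [hs0, zero_smul, zero_add, smul_eq_zero] at hz
    exact ⟨hs0, hz.resolve_right h10⟩
  refine ⟨u0, u1, h10, hL, hU, h11, h00, quad_last (p1 := dotProduct (lam (k + a)) u0) h00
    (fun t ht s r hsr => ?_) fun s r hsr => ?_⟩
  · by_contra hcon
    refine hs t ht ⟨s • u0 + r • u1, (hcomb s r).1, fun hz => hcon (hind s r hz),
      (pa_pred h.posa).1 (hcomb s r).2, ?_⟩
    rw [pa_dot _ _ _ _ _ _ _ h11]
    exact hsr
  · by_contra hcon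
    refine hb ⟨s • u0 + r • u1, (hcomb s r).1, fun hz => hcon (hind s r hz), fun m hm1 hm2 => ?_⟩
    rcases Nat.lt_or_ge m (k + a) with h5 | h5
    · exact (pa_pred h.posa).1 (hcomb s r).2 m (by omega) h5
    · have h6 : m = k + a := by omega
      rw [h6, dotProduct_add, dotProduct_smul, dotProduct_smul, Complex.real_smul,
        Complex.real_smul]
      exact hsr

end Pool.Agent.H45.DQ
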