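import Pool.Agent.H45.DQ.PenA

/-!
# Module PenB: the pencil of a transition of width one

State `κ = a`, `ρ = 1`, `V = A + ℝ x`, `V' = A + ℝ y₀`, `A = V ⊓ V'`, `V ≠ V'`, `Sing` for
`A + ℝ (x + t y₀)`, all real `t`.

PROOF. `plane` gives `u0', u1` with `V ⊓ perp (FF lam a k a) = ℝ u1`. If `u1 ∈ V'`: first alternative. Let
`u1 ∉ V'`, so `u1 ∉ A`. `finrank A = 2a - 1` (`A < V`, `V = A + ℝ x`), `V = A + ℝ u1`. Write
`x = μ u1 + α`, `α ∈ A`, `μ ≠ 0`; with `y₁ = μ⁻¹ y₀`: `A + ℝ (x + t y₀) = A + ℝ (u1 + t y₁)`, `V' = A + ℝ y₁`.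
Let `K = perp (FF lam a k (a-1))` (complex). `A ⊓ K` is a line: it is contained in the plane `V ⊓ K ∋ u1`
(`inter_pred`), `u1 ∉ A`, and `finrank (A ⊓ K) ≥ (2a - 1) - 2(a-1) = 1` (`finrank_FF_le`,
`finrank_perp`, dimension formula). So `A ⊓ K = ℝ u0`, and `A ⊔ K = ⊤` (dimension:
`(2a-1) + (2c - 2(a-1)) - 1 = 2c`). Hence `y₁ = α' + y`, `α' ∈ A`, `y ∈ K`, and
`A + ℝ (u1 + t y₁) = A + ℝ (u1 + t y)`, `V' = A + ℝ y`. `y ∉ V`: otherwise `V' ≤ V`, so `V' = V`.
`V' ⊓ K = span {u0, y}`: an element `α + r y` in `K` has `α ∈ A ⊓ K`.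
`p0 = lam k · u0 ≠ 0`: otherwise `u0 ∈ V ⊓ perp (FF lam a k a) = ℝ u1`, but `u1 ∉ A`.
For real `t` the zero `w` of `Sing` is `α + r (u1 + t y) ∈ K`, so `α ∈ A ⊓ K`, `w = s u0 + r (u1 + t y)`,
`(s, r) ≠ 0`, and `(lam k + t l) · w = s (p0 + t p1) + r (t r1 + t² r2)` with `l = lam (k+a)`,
`p1 = l · u0`, `r1 = l · u1 + lam k · y`, `r2 = l · y`. `cub`: either real `A₀` with `r1 = A₀ p0`,
`r2 = A₀ p1`, `p1` not a real multiple of `p0`: replace `y` by `y - A₀ u0` (third alternative), or all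
three are real multiples of `p0` (second alternative).
-/

set_option autoImplicit false

open Module

namespace Pool.Agent.H45.DQ

/-- the common part of the second and third alternative -/
structure Lin {a b : ℕ} (lam : ℕ → E (a + b)) (k : ℕ) (V V' : Submodule ℝ (E (a + b)))
    (u0 u1 y : E (a + b)) : Prop where
  u1V : u1 ∈ V
  u1V' : u1 ∉ V'
  line1 : V ⊓ perp (FF lam a k a) = Submodule.span ℝ {u1}
  line0 : V ⊓ V' ⊓ perp (FF lam a k (a - 1)) = Submodule.span ℝ {u0}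
  p0 : dotProduct (lam k) u0 ≠ 0
  yV' : y ∈ V'
  yV : y ∉ V
  sup : V' = V ⊓ V' ⊔ Submodule.span ℝ {y}
  plane : V' ⊓ perp (FF lam a k (a - 1)) = Submodule.span ℝ {u0, y}
  rkA : finrank ℝ (V ⊓ V' : Submodule ℝ (E (a + b))) + 1 = 2 * a

private theorem pb_sup {M : Type} [AddCommGroup M] [Module ℝ M] {A : Submodule ℝ M} {α z : M}
    (hα : α ∈ A) {μ : ℝ} (hμ : μ ≠ 0) :
    A ⊔ Submodule.span ℝ {α + μ • z} = A ⊔ Submodule.span ℝ {z} := by
  apply le_antisymm
  · refine sup_le le_sup_left ?_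
    rw [Submodule.span_singleton_le_iff_mem]
    exact Submodule.add_mem _ (Submodule.mem_sup_left hα)
      (Submodule.mem_sup_right (Submodule.smul_mem _ _ (Submodule.mem_span_singleton_self z)))
  · refine sup_le le_sup_left ?_
    rw [Submodule.span_singleton_le_iff_mem]
    have h1 : μ⁻¹ • ((α + μ • z) - α) ∈ A ⊔ Submodule.span ℝ {α + μ • z} :=
      Submodule.smul_mem _ _ (Submodule.sub_mem _
        (Submodule.mem_sup_right (Submodule.mem_span_singleton_self _))
        (Submodule.mem_sup_left hα))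
    rw [add_sub_cancel_left, smul_smul, inv_mul_cancel₀ hμ, one_smul] at h1
    exact h1

private theorem pb_mem {M : Type} [AddCommGroup M] [Module ℝ M] {A : Submodule ℝ M} {z w : M}
    (h : w ∈ A ⊔ Submodule.span ℝ {z}) : ∃ α ∈ A, ∃ r : ℝ, w = α + r • z := by
  obtain ⟨α, hα, β, hβ, rfl⟩ := Submodule.mem_sup.1 h
  obtain ⟨r, rfl⟩ := Submodule.mem_span_singleton.1 hβ
  exact ⟨α, hα, r, rfl⟩

private theorem pb_line {M : Type} [AddCommGroup M] [Module ℝ M] {L : Submodule ℝ M}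
    (hL : finrank ℝ L = 1) : ∃ u1 ∈ L, u1 ≠ 0 ∧ L = Submodule.span ℝ {u1} := by
  obtain ⟨v, hv, h⟩ := finrank_eq_one_iff'.1 hL
  refine ⟨v, v.2, fun h0 => hv (Subtype.ext h0), ?_⟩
  apply le_antisymm
  · intro x hx
    obtain ⟨c, hc⟩ := h ⟨x, hx⟩
    rw [Submodule.mem_span_singleton]
    exact ⟨c, congrArg Subtype.val hc⟩
  · rw [Submodule.span_singleton_le_iff_mem]
    exact v.2

private theorem Lin.shift {a b : ℕ} {lam : ℕ → E (a + b)} {k : ℕ}
    {V V' : Submodule ℝ (E (a + b))} {u0 u1 y : E (a + b)} (h : Lin lam k V V' u0 u1 y)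
    (r : ℝ) : Lin lam k V V' u0 u1 (y - r • u0) := by
  have hu0 : u0 ∈ V ⊓ V' ⊓ perp (FF lam a k (a - 1)) := by
    rw [h.line0]
    exact Submodule.mem_span_singleton_self u0
  have e : y - r • u0 = (-r) • u0 + (1 : ℝ) • y := by
    rw [one_smul, neg_smul, sub_eq_neg_add]
  refine ⟨h.u1V, h.u1V', h.line1, h.line0, h.p0, ?_, ?_, ?_, ?_, h.rkA⟩
  · exact V'.sub_mem h.yV' (V'.smul_mem _ hu0.1.2)
  · intro h1
    apply h.yV
    have h2 := V.add_mem h1 (V.smul_mem r hu0.1.1)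
    rwa [sub_add_cancel] at h2
  · have h1 := pb_sup (z := y) (A := V ⊓ V') (Submodule.smul_mem _ (-r) hu0.1) (one_ne_zero (α := ℝ))
    rw [e, h1]
    exact h.sup
  · rw [h.plane]
    apply le_antisymm
    · rw [Submodule.span_le]
      intro x hx
      rcases hx with rfl | hx
      · exact Submodule.subset_span (by simp)
      · rw [Set.mem_singleton_iff.1 hx]
        exact Submodule.mem_span_pair.2 ⟨r, 1, by rw [one_smul, add_sub_cancel]⟩
    · rw [Submodule.span_le]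
      intro x hx
      rcases hx with rfl | hx
      · exact Submodule.subset_span (by simp)
      · rw [Set.mem_singleton_iff.1 hx]
        exact Submodule.mem_span_pair.2 ⟨-r, 1, e.symm⟩

/-- the common part -/
private theorem pb_core {a b : ℕ} {lam : ℕ → E (a + b)} {k : ℕ} {H : Submodule ℝ Der}
    {V V' : Submodule ℝ (E (a + b))} (h : Ctx lam k H V) (hd : Df lam a k V a 1)
    (hV' : finrank ℝ V' = 2 * a) (hne : V ≠ V') {x y₀ : E (a + b)}
    (hx : V = (V ⊓ V') ⊔ Submodule.span ℝ {x}) (hy : V' = (V ⊓ V') ⊔ Submodule.span ℝ {y₀})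
    {u1 : E (a + b)} (hL : V ⊓ perp (FF lam a k a) = Submodule.span ℝ {u1}) (hu1 : u1 ∉ V') :
    ∃ u0 y : E (a + b), Lin lam k V V' u0 u1 y ∧ ∀ t : ℝ,
      (V ⊓ V') ⊔ Submodule.span ℝ {x + t • y₀} =
        (V ⊓ V') ⊔ Submodule.span ℝ {u1 + t • y} := by
  have ha := h.posa
  have hu1m : u1 ∈ V ⊓ perp (FF lam a k a) := by
    rw [hL]
    exact Submodule.mem_span_singleton_self u1
  have hrk := h.rk
  obtain ⟨A, hA⟩ : ∃ A, A = V ⊓ V' := ⟨_, rfl⟩
  obtain ⟨K, hK⟩ : ∃ K, K = perp (FF lam a k (a - 1)) := ⟨_, rfl⟩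
  have hAV : A ≤ V := hA ▸ inf_le_left
  have hAV' : A ≤ V' := hA ▸ inf_le_right
  rw [← hA] at hx hy
  have hlt : A < V := by
    refine lt_of_le_of_ne hAV fun he => hne ?_
    have h1 : V ≤ V' := he ▸ hAV'
    exact Submodule.eq_of_le_of_finrank_eq h1 (by rw [hrk, hV'])
  have hrA1 := Submodule.finrank_lt_finrank_of_lt hlt
  have hrA2 : finrank ℝ V ≤ finrank ℝ A + 1 := by
    rw [hx]
    refine (Submodule.finrank_add_le_finrank_add_finrank _ _).trans ?_
    have := finrank_span_le_card (R := ℝ) ({x} : Set (E (a + b)))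
    simp only [Set.toFinset_singleton, Finset.card_singleton] at this
    omega
  have hrA : finrank ℝ A + 1 = 2 * a := by omega
  have hVsup : V = A ⊔ Submodule.span ℝ {u1} := by
    have h1 : A ⊔ Submodule.span ℝ {u1} ≤ V := by
      refine sup_le hAV ?_
      rw [Submodule.span_singleton_le_iff_mem]
      exact hu1m.1
    have h2 : A < A ⊔ Submodule.span ℝ {u1} := by
      refine lt_of_le_of_ne le_sup_left fun he => hu1 ?_
      refine hAV' ?_
      rw [he]
      exact Submodule.mem_sup_right (Submodule.mem_span_singleton_self u1)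
    have h3 := Submodule.finrank_lt_finrank_of_lt h2
    exact (Submodule.eq_of_le_of_finrank_le h1 (by omega)).symm
  have hxV : x ∈ V := by
    rw [hx]
    exact Submodule.mem_sup_right (Submodule.mem_span_singleton_self x)
  rw [hVsup] at hxV
  obtain ⟨α, hα, μ, hxe⟩ := pb_mem hxV
  have hμ : μ ≠ 0 := by
    rintro rfl
    rw [zero_smul, add_zero] at hxe
    have h1 : V = A := by
      rw [hx, sup_eq_left, Submodule.span_singleton_le_iff_mem, hxe]
      exact hα
    exact hlt.ne h1.symm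
  have hu1K : u1 ∈ K := by
    rw [hK]
    exact perp_anti (FF_mono lam a k (by omega)) hu1m.2
  -- the line `A ⊓ K`
  have hrK : 2 * (a + b) ≤ finrank ℝ K + 2 * (a - 1) := by
    have h1 := finrank_perp (FF lam a k (a - 1))
    have h2 := finrank_FF_le lam a k (a - 1)
    rw [← hK] at h1
    omega
  have hdim := Submodule.finrank_sup_add_finrank_inf_eq A K
  have htop : finrank ℝ (A ⊔ K : Submodule ℝ (E (a + b))) ≤ 2 * (a + b) := by
    rw [← finrank_E (a + b)]
    exact Submodule.finrank_le _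
  have hlt2 : A ⊓ K < V ⊓ K := by
    refine lt_of_le_of_ne (inf_le_inf_right K hAV) fun he => hu1 ?_
    have h1 : u1 ∈ A ⊓ K := by
      rw [he]
      exact ⟨hu1m.1, hu1K⟩
    exact hAV' h1.1
  have h3 := Submodule.finrank_lt_finrank_of_lt hlt2
  have h4 : finrank ℝ (V ⊓ K : Submodule ℝ (E (a + b))) = 2 := by
    rw [hK]
    exact inter_pred h.lin h.rk hd
  have hrAK : finrank ℝ (A ⊓ K : Submodule ℝ (E (a + b))) = 1 := by omega
  obtain ⟨u0, hu0, hu00, hline0⟩ := pb_line hrAK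
  have hAK : A ⊔ K = ⊤ := by
    refine Submodule.eq_top_of_finrank_eq ?_
    rw [finrank_E]
    omega
  obtain ⟨α', hα', y, hyK, hy1⟩ : ∃ α' ∈ A, ∃ y ∈ K, μ⁻¹ • y₀ = α' + y := by
    have h5 : μ⁻¹ • y₀ ∈ A ⊔ K := by
      rw [hAK]
      trivial
    obtain ⟨α', hα', y, hyK, he⟩ := Submodule.mem_sup.1 h5
    exact ⟨α', hα', y, hyK, he.symm⟩
  have hy0 : y₀ = μ • α' + μ • y := by
    rw [← smul_add, ← hy1, smul_smul, mul_inv_cancel₀ hμ, one_smul]
  have hV'sup : V' = A ⊔ Submodule.span ℝ {y} := by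
    refine hy.trans ?_
    rw [hy0]
    exact pb_sup (A.smul_mem μ hα') hμ
  have hyV' : y ∈ V' := by
    rw [hV'sup]
    exact Submodule.mem_sup_right (Submodule.mem_span_singleton_self y)
  have hyV : y ∉ V := by
    intro h5
    apply hne
    have h6 : V' ≤ V := by
      rw [hV'sup]
      refine sup_le hAV ?_
      rw [Submodule.span_singleton_le_iff_mem]
      exact h5
    exact (Submodule.eq_of_le_of_finrank_eq h6 (by rw [hrk, hV'])).symm
  have hp0 : dotProduct (lam k) u0 ≠ 0 := by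
    intro h5
    have h6 : u0 ∈ V ⊓ perp (FF lam a k a) := by
      refine ⟨hAV hu0.1, mem_perp_FF.2 fun m h7 h8 => ?_⟩
      rcases Nat.lt_or_ge k m with h9 | h9
      · have h10 : u0 ∈ K := hu0.2
        rw [hK] at h10
        exact mem_perp_FF.1 h10 m (by omega) h8
      · have h10 : m = k := by omega
        rw [h10]
        exact h5
    rw [hL, Submodule.mem_span_singleton] at h6
    obtain ⟨r, hr⟩ := h6
    have hr0 : r ≠ 0 := by
      rintro rfl
      rw [zero_smul] at hr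
      exact hu00 hr.symm
    apply hu1
    have h7 : u1 = r⁻¹ • u0 := by
      rw [← hr, smul_smul, inv_mul_cancel₀ hr0, one_smul]
    rw [h7]
    exact V'.smul_mem _ (hAV' hu0.1)
  refine ⟨u0, y, ⟨hu1m.1, hu1, hL, ?_, hp0, hyV', hyV, ?_, ?_, ?_⟩, fun t => ?_⟩
  · rw [← hA, ← hK]
    exact hline0
  · rw [← hA]
    exact hV'sup
  · rw [← hK]
    apply le_antisymm
    · rintro w ⟨hw1, hw2⟩
      rw [hV'sup] at hw1
      obtain ⟨β, hβ, r, rfl⟩ := pb_mem hw1
      have h5 : β ∈ A ⊓ K := by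
        refine ⟨hβ, ?_⟩
        have h6 := K.sub_mem hw2 (K.smul_mem r hyK)
        rwa [add_sub_cancel_right] at h6
      rw [hline0, Submodule.mem_span_singleton] at h5
      obtain ⟨s, rfl⟩ := h5
      exact Submodule.mem_span_pair.2 ⟨s, r, rfl⟩
    · rw [Submodule.span_le]
      intro w hw
      rcases hw with rfl | hw
      · exact ⟨hAV' hu0.1, hu0.2⟩
      · rw [Set.mem_singleton_iff.1 hw]
        exact ⟨hyV', hyK⟩
  · rw [← hA]
    exact hrA
  · rw [← hA]
    have e : x + t • y₀ = (α + (t * μ) • α') + μ • (u1 + t • y) := by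
      rw [hxe, hy0, smul_add, smul_add, smul_smul, smul_smul, smul_smul, mul_comm μ t]
      abel
    rw [e]
    exact pb_sup (A.add_mem hα (A.smul_mem _ hα')) hμ

theorem pencil1 {a b : ℕ} {lam : ℕ → E (a + b)} {k : ℕ} {H : Submodule ℝ Der}
    {V V' : Submodule ℝ (E (a + b))} (h : Ctx lam k H V) (hd : Df lam a k V a 1)
    (hV' : finrank ℝ V' = 2 * a) (hne : V ≠ V') {x y₀ : E (a + b)}
    (hx : V = (V ⊓ V') ⊔ Submodule.span ℝ {x}) (hy : V' = (V ⊓ V') ⊔ Submodule.span ℝ {y₀})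
    (hs : ∀ t : ℝ, Sing lam a k t ((V ⊓ V') ⊔ Submodule.span ℝ {x + t • y₀})) :
    (∃ u1 : E (a + b), u1 ≠ 0 ∧ u1 ∈ V' ∧ V ⊓ perp (FF lam a k a) = Submodule.span ℝ {u1}) ∨
    (∃ u0 u1 y : E (a + b), Lin lam k V V' u0 u1 y ∧
      (∃ r : ℝ, dotProduct (lam (k + a)) u0 = r * dotProduct (lam k) u0) ∧
      ∃ r : ℝ, dotProduct (lam (k + a)) y = r * dotProduct (lam k) u0) ∨
    (∃ u0 u1 y : E (a + b), Lin lam k V V' u0 u1 y ∧
      dotProduct (lam (k + a)) y = 0 ∧
      dotProduct (lam (k + a)) u1 = -dotProduct (lam k) y ∧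
      ¬ ∃ r : ℝ, dotProduct (lam (k + a)) u0 = r * dotProduct (lam k) u0) := by
  have ha := h.posa
  obtain ⟨-, u1, h10, hL, -, h11, -⟩ := plane h hd
  by_cases hu1 : u1 ∈ V'
  · exact Or.inl ⟨u1, h10, hu1, hL⟩
  right
  obtain ⟨u0, y, hLin, hspan⟩ := pb_core h hd hV' hne hx hy hL hu1
  have hu1m : u1 ∈ V ⊓ perp (FF lam a k a) := by
    rw [hL]
    exact Submodule.mem_span_singleton_self u1
  have hu1K : u1 ∈ perp (FF lam a k (a - 1)) :=
    perp_anti (FF_mono lam a k (by omega)) hu1m.2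
  have hyK : y ∈ perp (FF lam a k (a - 1)) := by
    have h1 : y ∈ V' ⊓ perp (FF lam a k (a - 1)) := by
      rw [hLin.plane]
      exact Submodule.subset_span (by simp)
    exact h1.2
  have hcub := cub (p0 := dotProduct (lam k) u0) (p1 := dotProduct (lam (k + a)) u0)
    (r1 := dotProduct (lam (k + a)) u1 + dotProduct (lam k) y)
    (r2 := dotProduct (lam (k + a)) y) hLin.p0 (fun t => by
      obtain ⟨w, hwV, hw0, hw1, hw2⟩ := hs t
      rw [hspan t] at hwV
      obtain ⟨α, hα, r, hwe⟩ := pb_mem hwV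
      have hwK : w ∈ perp (FF lam a k (a - 1)) := by
        rw [mem_perp_FF]
        exact fun m h1 h2 => hw1 m (by omega) h2
      have hαK : α ∈ V ⊓ V' ⊓ perp (FF lam a k (a - 1)) := by
        refine ⟨hα, ?_⟩
        have h1 : α = w - r • (u1 + t • y) := by rw [hwe, add_sub_cancel_right]
        rw [h1]
        exact Submodule.sub_mem _ hwK (Submodule.smul_mem _ _
          (Submodule.add_mem _ hu1K (Submodule.smul_mem _ _ hyK)))
      rw [hLin.line0, Submodule.mem_span_singleton] at hαK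
      obtain ⟨s, hs1⟩ := hαK
      refine ⟨s, r, ?_, ?_⟩
      · by_contra hcon
        push Not at hcon
        apply hw0
        rw [hwe, ← hs1, hcon.1, hcon.2, zero_smul, zero_smul, add_zero]
      · rw [hwe, ← hs1, add_dotProduct, dotProduct_add, dotProduct_add, smul_dotProduct,
          smul_dotProduct, dotProduct_smul, dotProduct_smul, dotProduct_smul, dotProduct_smul,
          dotProduct_add, dotProduct_add, dotProduct_smul, dotProduct_smul, h11] at hw2
        simp only [Complex.real_smul, smul_eq_mul] at hw2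
        linear_combination hw2)
  rcases hcub with ⟨A₀, hr1, hr2, hr3⟩ | ⟨x', y', z', hr1, -, hr3⟩
  · right
    refine ⟨u0, u1, y - A₀ • u0, hLin.shift A₀, ?_, ?_, hr3⟩
    · rw [dotProduct_sub, dotProduct_smul, Complex.real_smul, hr2, sub_self]
    · rw [dotProduct_sub, dotProduct_smul, Complex.real_smul]
      linear_combination hr1
  · exact Or.inl ⟨u0, u1, y, hLin, ⟨x', hr1⟩, ⟨z', hr3⟩⟩

end Pool.Agent.H45.DQ
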