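import Pool.Agent.H45.DQ.Def

/-!
# Module Perp: the orthogonal space for the real form `Re (dotProduct u v)`

PROOF. Let `B : LinearMap.BilinForm ℝ (E c)`, `B u v = (dotProduct u v).re` (`LinearMap.mk₂ ℝ`). It is
symmetric (`dotProduct_comm`), so reflexive, and nondegenerate: if `Re (u · v) = 0` for all `v`, take
`v = Pi.single j 1` and `v = Pi.single j I`: `Re (u j) = 0` and `Re (i u j) = - Im (u j) = 0`. `perp V` is
`B.orthogonal V` up to the symmetry of `B`. `finrank_E`: `Complex.finrank_real_complex` (or
`Complex.basisOneI`), `Module.finrank_pi_fintype`. Then `finrank_perp`, `perp_perp` are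
`LinearMap.BilinForm.finrank_orthogonal` and `LinearMap.BilinForm.orthogonal_orthogonal`; `perp_inf` from
`perp_sup` and `perp_perp`. `perp_iS`: `v ∈ iS V ↔ I • v ∈ V`; for `w = I • v ∈ V`, `v = - I • w` and
`u · v = - I (u · w) = -(I • u) · w`. `finrank_iS`: multiplication by `I` is a real linear
automorphism of `E c`. `mem_perp_cplx`: `Re (u · v) = 0` and `Re (u · (I v)) = - Im (u · v) = 0`.
`even_cplx`: `V` is (the carrier of) a complex submodule; `finrank ℝ = 2 * finrank ℂ`
(`finrank_real_of_complex` for modules over `ℂ`, or `Module.finrank_mul_finrank ℝ ℂ`).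
-/

set_option autoImplicit false

open Module

namespace Pool.Agent.H45.DQ

/-- the real form -/
private noncomputable def BF (c : ℕ) : LinearMap.BilinForm ℝ (E c) :=
  LinearMap.mk₂ ℝ (fun u v => (dotProduct u v).re)
    (fun u u' v => by rw [add_dotProduct, Complex.add_re])
    (fun r u v => by rw [smul_dotProduct, Complex.smul_re])
    (fun u v v' => by rw [dotProduct_add, Complex.add_re])
    (fun r u v => by rw [dotProduct_smul, Complex.smul_re])

private theorem BF_apply {c : ℕ} (u v : E c) : BF c u v = (dotProduct u v).re := rfl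

private theorem BF_refl (c : ℕ) : (BF c).IsRefl := by
  intro u v h
  rw [BF_apply] at h ⊢
  rw [dotProduct_comm]
  exact h

private theorem BF_sep {c : ℕ} (u : E c) (h : ∀ v, (dotProduct u v).re = 0) : u = 0 := by
  funext j
  apply Complex.ext
  · have h1 := h (Pi.single j 1)
    rw [dotProduct_single, mul_one] at h1
    exact h1
  · have h1 := h (Pi.single j Complex.I)
    rw [dotProduct_single] at h1
    simpa using h1

private theorem BF_nondeg (c : ℕ) : (BF c).Nondegenerate := by
  refine ⟨fun u h => BF_sep u h, fun u h => BF_sep u fun v => ?_⟩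
  rw [dotProduct_comm]
  exact h v

private theorem perp_eq {c : ℕ} (V : Submodule ℝ (E c)) : perp V = (BF c).orthogonal V := by
  ext u
  rw [LinearMap.BilinForm.mem_orthogonal_iff]
  refine forall₂_congr fun v _ => ?_
  show (dotProduct u v).re = 0 ↔ BF c v u = 0
  rw [BF_apply, dotProduct_comm]

theorem finrank_E (c : ℕ) : finrank ℝ (E c) = 2 * c := by
  show finrank ℝ (Fin c → ℂ) = 2 * c
  rw [Module.finrank_pi_fintype]
  simp only [Complex.finrank_real_complex, Finset.sum_const, Finset.card_univ, Fintype.card_fin,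
    smul_eq_mul]
  ring

theorem finrank_perp {c : ℕ} (V : Submodule ℝ (E c)) :
    finrank ℝ (perp V) + finrank ℝ V = 2 * c := by
  have h := LinearMap.BilinForm.finrank_orthogonal (BF_nondeg c) V
  rw [perp_eq, h, finrank_E]
  have h2 := Submodule.finrank_le V
  rw [finrank_E] at h2
  omega

theorem perp_perp {c : ℕ} (V : Submodule ℝ (E c)) : perp (perp V) = V := by
  rw [perp_eq, perp_eq]
  exact LinearMap.BilinForm.orthogonal_orthogonal (BF_nondeg c) (BF_refl c) V

theorem perp_anti {c : ℕ} {V W : Submodule ℝ (E c)} (h : V ≤ W) : perp W ≤ perp V :=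
  fun _ hu v hv => hu v (h hv)

theorem perp_sup {c : ℕ} (V W : Submodule ℝ (E c)) : perp (V ⊔ W) = perp V ⊓ perp W := by
  apply le_antisymm
  · exact le_inf (perp_anti le_sup_left) (perp_anti le_sup_right)
  · intro u hu v hv
    obtain ⟨x, hx, y, hy, rfl⟩ := Submodule.mem_sup.1 hv
    rw [dotProduct_add, Complex.add_re, hu.1 x hx, hu.2 y hy, add_zero]

theorem perp_inf {c : ℕ} (V W : Submodule ℝ (E c)) : perp (V ⊓ W) = perp V ⊔ perp W := by
  rw [← perp_perp (perp V ⊔ perp W), perp_sup, perp_perp, perp_perp]

theorem perp_iS {c : ℕ} (V : Submodule ℝ (E c)) : perp (iS V) = iS (perp V) := by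
  ext u
  constructor
  · intro hu v hv
    have h1 : (-Complex.I) • v ∈ iS V := by
      show Complex.I • ((-Complex.I) • v) ∈ V
      rw [smul_smul, mul_neg, Complex.I_mul_I, neg_neg, one_smul]
      exact hv
    have h2 := hu _ h1
    rw [dotProduct_smul, neg_smul, Complex.neg_re] at h2
    rw [smul_dotProduct]
    linarith
  · intro hu v hv
    have h2 := hu _ hv
    rw [smul_dotProduct, dotProduct_smul, smul_smul, Complex.I_mul_I, neg_smul, one_smul,
      Complex.neg_re] at h2
    linarith

theorem finrank_iS {c : ℕ} (V : Submodule ℝ (E c)) : finrank ℝ (iS V) = finrank ℝ V := by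
  let e : E c ≃ₗ[ℝ] E c :=
    { toFun := fun v => Complex.I • v
      invFun := fun v => (-Complex.I) • v
      map_add' := fun u v => smul_add _ _ _
      map_smul' := fun r v => by
        rw [RingHom.id_apply]
        exact smul_comm _ _ _
      left_inv := fun v => by
        show (-Complex.I) • (Complex.I • v) = v
        rw [smul_smul, neg_mul, Complex.I_mul_I, neg_neg, one_smul]
      right_inv := fun v => by
        show Complex.I • ((-Complex.I) • v) = v
        rw [smul_smul, mul_neg, Complex.I_mul_I, neg_neg, one_smul] }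
  have h : iS V = V.comap (e : E c →ₗ[ℝ] E c) := rfl
  have h2 : V.comap (e : E c →ₗ[ℝ] E c) = V.map (e.symm : E c →ₗ[ℝ] E c) :=
    (Submodule.map_equiv_eq_comap_symm e.symm V).symm
  rw [h, h2]
  exact LinearEquiv.finrank_map_eq e.symm V

/-- a real subspace closed under `I` is closed under complex scalars -/
theorem smul_cplx {c : ℕ} {V : Submodule ℝ (E c)} (hV : ∀ v ∈ V, Complex.I • v ∈ V) (z : ℂ)
    {v : E c} (hv : v ∈ V) : z • v ∈ V := by
  have h : z • v = z.re • v + z.im • (Complex.I • v) := by
    funext j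
    show z * v j = z.re • v j + z.im • (Complex.I * v j)
    rw [Complex.real_smul, Complex.real_smul, ← mul_assoc, ← add_mul, Complex.re_add_im]
  rw [h]
  exact V.add_mem (V.smul_mem _ hv) (V.smul_mem _ (hV v hv))

theorem mem_perp_cplx {c : ℕ} {V : Submodule ℝ (E c)} (hV : ∀ v ∈ V, Complex.I • v ∈ V)
    {u : E c} : u ∈ perp V ↔ ∀ v ∈ V, dotProduct u v = 0 := by
  constructor
  · intro hu v hv
    apply Complex.ext
    · exact hu v hv
    · have h := hu _ (hV v hv)
      rw [dotProduct_smul, smul_eq_mul, Complex.I_mul_re] at h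
      rw [Complex.zero_im]
      linarith
  · intro hu v hv
    rw [hu v hv, Complex.zero_re]

theorem perp_cplx {c : ℕ} {V : Submodule ℝ (E c)} (hV : ∀ v ∈ V, Complex.I • v ∈ V) :
    ∀ u ∈ perp V, Complex.I • u ∈ perp V := by
  intro u hu
  rw [mem_perp_cplx hV] at hu ⊢
  intro v hv
  rw [smul_dotProduct, hu v hv, smul_zero]

/-- a complex subspace has even real dimension -/
theorem even_cplx {c : ℕ} {V : Submodule ℝ (E c)} (hV : ∀ v ∈ V, Complex.I • v ∈ V) :
    Even (finrank ℝ V) := by
  let W : Submodule ℂ (E c) :=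
    { carrier := V
      add_mem' := fun h h' => V.add_mem h h'
      zero_mem' := V.zero_mem
      smul_mem' := fun z _ h => smul_cplx hV z h }
  have h : finrank ℝ W = 2 * finrank ℂ W := finrank_real_of_complex W
  have h2 : finrank ℝ V = finrank ℝ W := rfl
  rw [h2, h]
  exact even_two_mul _

end Pool.Agent.H45.DQ
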