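import Pool.Agent.H45.DQ.Real

/-!
# Module Plant: the special plants

Complex row `i < a` (real rows `2 i`, `2 i + 1`): `∑ d, rho (i, d) s ^ d * lam (i + d a)`, `i + d a < a + D`.
At the transition `k` (scale `N ^ (k+1)`) the current row of `i` is `lam (ix a k i)`,
`ix a k i = i + sq a k i * a ∈ [k, k + a)`.

PROOF. `ix_mem`: `(k + a - 1 - i) / a * a` is in `(k - 1 - i, k + a - 1 - i]` (`Nat.div_add_mod`).
`ix_surj`: `i = m % a`, then `sq a k i = m / a` because `m = i + (m/a) a ∈ [k, k + a)` (uniqueness: two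
numbers congruent mod `a` in an interval of length `a`). `ix_inj`: `ix a k i % a = i`.
`sum_sq`: induction on `k`: `sq a 0 i = 0` for `i < a`; `sq a (k+1) i = sq a k i + 1` if `i = k % a`
(`ix a k i = k`), and `sq a (k+1) i = sq a k i` otherwise (same current row).
`PL_natDegree`: the terms have `d a < a + D - r/2`; with `D = f a + r0`, `r0 < a`: `d ≤ f + 1` if
`r/2 < r0`, else `d ≤ f`.
-/

set_option autoImplicit false

open Module Polynomial

namespace Pool.Agent.H45.DQ

/-- number of replacements of the row `i` before the transition `k` -/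
def sq (a k i : ℕ) : ℕ := (k + a - 1 - i) / a

/-- current row of `i` at the transition `k` -/
def ix (a k i : ℕ) : ℕ := i + sq a k i * a

/-- the scaling factor of the coefficient `d` of the row `i` -/
noncomputable def rho (a N i d : ℕ) : ℝ := ∏ s ∈ Finset.range d, ((N : ℝ) ^ (i + s * a + 1))⁻¹

/-- `1` for even `r`, `I` for odd `r` -/
noncomputable def mu (r : ℕ) : ℂ := if r % 2 = 0 then 1 else Complex.I

/-- the special plant with the parameter `N` -/
noncomputable def PL {c : ℕ} {J : Type} (e : J ≃ Fin c × Bool) (lam : ℕ → E c) (a D N : ℕ)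
    (r : Fin (2 * a)) (j : J) : ℝ[X] :=
  ∑ d ∈ Finset.range (D + 1), if (r : ℕ) / 2 + d * a < a + D then
    monomial d (rho a N ((r : ℕ) / 2) d * cov e (mu r • lam ((r : ℕ) / 2 + d * a)) j) else 0

/-- limit rows at the transition `k`, at the real parameter `t` -/
noncomputable def LR {c : ℕ} {J : Type} (e : J ≃ Fin c × Bool) (lam : ℕ → E c) (a k : ℕ)
    (t : ℝ) (r : Fin (2 * a)) (j : J) : ℝ :=
  cov e (mu r • lam (ix a k ((r : ℕ) / 2))) j +
    if ix a k ((r : ℕ) / 2) = k then t * cov e (mu r • lam (k + a)) j else 0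

/-- limit rows at the transition `k` as polynomials -/
noncomputable def LP {c : ℕ} {J : Type} (e : J ≃ Fin c × Bool) (lam : ℕ → E c) (a k : ℕ)
    (r : Fin (2 * a)) (j : J) : ℝ[X] :=
  C (cov e (mu r • lam (ix a k ((r : ℕ) / 2))) j) +
    if ix a k ((r : ℕ) / 2) = k then X * C (cov e (mu r • lam (k + a)) j) else 0

/-- the rows at infinity of the transition `k` -/
noncomputable def LI {c : ℕ} {J : Type} (e : J ≃ Fin c × Bool) (lam : ℕ → E c) (a k : ℕ)
    (r : Fin (2 * a)) (j : J) : ℝ :=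
  if ix a k ((r : ℕ) / 2) = k then cov e (mu r • lam (k + a)) j
    else cov e (mu r • lam (ix a k ((r : ℕ) / 2))) j

private theorem ix_mod {a k i : ℕ} (hi : i < a) : ix a k i % a = i := by
  unfold ix
  rw [Nat.add_mul_mod_self_right, Nat.mod_eq_of_lt hi]

theorem ix_mem {a k i : ℕ} (hi : i < a) : k ≤ ix a k i ∧ ix a k i < k + a := by
  have h1 := Nat.div_add_mod (k + a - 1 - i) a
  have h2 := Nat.mod_lt (k + a - 1 - i) (show 0 < a by omega)
  have h3 : ix a k i = i + a * ((k + a - 1 - i) / a) := by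
    unfold ix sq
    rw [Nat.mul_comm]
  rw [h3]
  omega

theorem ix_surj {a k m : ℕ} (h1 : k ≤ m) (h2 : m < k + a) : ∃ i < a, ix a k i = m := by
  have ha : 0 < a := by omega
  have hm := Nat.mod_lt m ha
  refine ⟨m % a, hm, ?_⟩
  have h3 := ix_mem (k := k) hm
  have h4 : ix a k (m % a) % a = m % a := ix_mod hm
  have h5 : ∀ x y : ℕ, k ≤ x → x ≤ y → y < k + a → x % a = y % a → x = y := by
    intro x y hx hxy hy h
    have h6 : a ∣ y - x := (Nat.modEq_iff_dvd' hxy).1 h
    have h7 : y - x < a := by omega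
    have h8 := Nat.eq_zero_of_dvd_of_lt h6 h7
    omega
  rcases Nat.le_total (ix a k (m % a)) m with h | h
  · exact h5 _ _ h3.1 h h2 h4
  · exact (h5 _ _ h1 h h3.2 h4.symm).symm

theorem ix_inj {a k i i' : ℕ} (hi : i < a) (hi' : i' < a) (h : ix a k i = ix a k i') :
    i = i' := by
  rw [← ix_mod (k := k) hi, ← ix_mod (k := k) hi', h]

private theorem sum_half (a : ℕ) (f : ℕ → ℕ) :
    ∑ r : Fin (2 * a), f ((r : ℕ) / 2) = 2 * ∑ i ∈ Finset.range a, f i := by
  rw [Fin.sum_univ_eq_sum_range (fun r => f (r / 2)) (2 * a)]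
  induction a with
  | zero => simp
  | succ n ih =>
    have h1 : 2 * (n + 1) = 2 * n + 1 + 1 := by ring
    have h2 : 2 * n / 2 = n := by omega
    have h3 : (2 * n + 1) / 2 = n := by omega
    rw [h1, Finset.sum_range_succ, Finset.sum_range_succ, ih, Finset.sum_range_succ, h2, h3]
    ring

private theorem sq_succ {a k i : ℕ} (hi : i < a) :
    sq a (k + 1) i = sq a k i + if i = k % a then 1 else 0 := by
  have ha : 0 < a := by omega
  unfold sq
  have h1 : k + 1 + a - 1 - i = (k + a - 1 - i) + 1 := by omega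
  rw [h1, Nat.succ_div]
  congr 1
  have h2 : k + a - 1 - i + 1 = k + a - i := by omega
  rw [h2]
  have h3 : a ∣ k + a - i ↔ i = k % a := by
    have h4 : a ∣ k + a - i ↔ i ≡ k + a [MOD a] := (Nat.modEq_iff_dvd' (by omega)).symm
    rw [h4]
    unfold Nat.ModEq
    rw [Nat.add_mod_right, Nat.mod_eq_of_lt hi]
  by_cases h : i = k % a
  · rw [if_pos h, if_pos (h3.2 h)]
  · rw [if_neg h, if_neg (fun h' => h (h3.1 h'))]

theorem sum_sq {a : ℕ} (ha : 1 ≤ a) (k : ℕ) : ∑ r : Fin (2 * a), sq a k ((r : ℕ) / 2) = 2 * k := by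
  rw [sum_half a (fun i => sq a k i)]
  congr 1
  induction k with
  | zero =>
    refine Finset.sum_eq_zero fun i hi => ?_
    unfold sq
    exact Nat.div_eq_of_lt (by have := Finset.mem_range.1 hi; omega)
  | succ k ih =>
    rw [Finset.sum_congr rfl fun i hi => sq_succ (k := k) (Finset.mem_range.1 hi),
      Finset.sum_add_distrib, ih, Finset.sum_ite_eq',
      if_pos (Finset.mem_range.2 (Nat.mod_lt _ (by omega)))]

theorem LP_eval {c : ℕ} {J : Type} (e : J ≃ Fin c × Bool) (lam : ℕ → E c) (a k : ℕ) (t : ℝ)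
    (r : Fin (2 * a)) (j : J) : (LP e lam a k r j).eval t = LR e lam a k t r j := by
  unfold LP LR
  split_ifs
  · simp only [eval_add, eval_C, eval_mul, eval_X]
  · simp only [eval_add, eval_C, eval_zero]

private theorem deg_aux1 {a D d i : ℕ} (ha : 1 ≤ a) (h : i + d * a < a + D) :
    d ≤ D / a + 1 := by
  have h1 := Nat.div_add_mod D a
  have h2 := Nat.mod_lt D (show 0 < a by omega)
  by_contra hcon
  have h3 : D / a + 2 ≤ d := by omega
  have h4 : (D / a + 2) * a ≤ d * a := Nat.mul_le_mul_right a h3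
  have h5 : (D / a + 2) * a = a * (D / a) + 2 * a := by ring
  omega

private theorem deg_aux2 {a D d i : ℕ} (ha : 1 ≤ a) (hi : i < a) (h : i + d * a < a + D)
    (h' : ¬ i < D % a) : d ≤ D / a + 0 := by
  have h1 := Nat.div_add_mod D a
  have h2 := Nat.mod_lt D (show 0 < a by omega)
  by_contra hcon
  have h3 : D / a + 1 ≤ d := by omega
  have h4 : (D / a + 1) * a ≤ d * a := Nat.mul_le_mul_right a h3
  have h5 : (D / a + 1) * a = a * (D / a) + a := by ring
  omega

theorem PL_natDegree {c : ℕ} {J : Type} (e : J ≃ Fin c × Bool) (lam : ℕ → E c) {a : ℕ}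
    (ha : 1 ≤ a) (D N : ℕ) (r : Fin (2 * a)) (j : J) :
    (PL e lam a D N r j).natDegree ≤ D / a + if (r : ℕ) / 2 < D % a then 1 else 0 := by
  unfold PL
  refine Polynomial.natDegree_sum_le_of_forall_le _ _ fun d _ => ?_
  split_ifs with h1 h2 h2
  · refine (Polynomial.natDegree_monomial_le _).trans ?_
    exact deg_aux1 ha h1
  · refine (Polynomial.natDegree_monomial_le _).trans ?_
    exact deg_aux2 ha (by have := r.2; omega) h1 h2
  · simp
  · simp

end Pool.Agent.H45.DQ
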