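import Pool.Agent.H45.DQ.Perp

/-!
# Module Pres: subspaces preserved by derivations

PROOF. All immediate from the rules of `Def.lean`. `Pres.perp`: for `u ∈ perp V`, `v ∈ V`:
`Re (dE D u · v) = - Re (u · dE D v) = 0` (`dot_re`). `Pres.of_perp`: `perp_perp`. `Pres.iS`: `dE_I`.
`pres_FF`: `Submodule.span_induction` (or the explicit form of the elements): a complex combination
`∑ z_m • lam m` has the derivative `∑ dC D z_m • lam m + ∑ z_m • dE D (lam m)` and the last sum is zero.
`pres_line`: for `D ∈ H`, `dE D u ∈ span {u}` (`Submodule.mem_span_singleton`), and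
`dE D (r • u) = D r • u + r • dE D u`. `Kil.of_norm`: `dE D u = r • u`, and the coordinate
`(u j).re = 1` (or `(u j).im = 1`) gives `0 = D 1 = r`.
-/

set_option autoImplicit false

open Module

namespace Pool.Agent.H45.DQ

theorem Pres.mono {c : ℕ} {H K : Submodule ℝ Der} {V : Submodule ℝ (E c)} (h : Pres H V)
    (hK : K ≤ H) : Pres K V := fun D hD v hv => h D (hK hD) v hv

theorem Kil.mono {c : ℕ} {H K : Submodule ℝ Der} {l : E c} (h : Kil H l) (hK : K ≤ H) :
    Kil K l := fun D hD => h D (hK hD)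

theorem pres_HV {c : ℕ} (H : Submodule ℝ Der) (V : Submodule ℝ (E c)) : Pres (HV H V) V :=
  fun _ hD => hD.2

theorem kil_HK {c : ℕ} (H : Submodule ℝ Der) (l : E c) : Kil (HK H l) l := fun _ hD => hD.2

theorem HV_eq {c : ℕ} {H : Submodule ℝ Der} {V : Submodule ℝ (E c)} (h : Pres H V) :
    HV H V = H := le_antisymm (HV_le H V) fun D hD => ⟨hD, h D hD⟩

theorem HK_eq {c : ℕ} {H : Submodule ℝ Der} {l : E c} (h : Kil H l) : HK H l = H :=
  le_antisymm (HK_le H l) fun D hD => ⟨hD, h D hD⟩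

theorem Pres.sup {c : ℕ} {H : Submodule ℝ Der} {V W : Submodule ℝ (E c)} (hV : Pres H V)
    (hW : Pres H W) : Pres H (V ⊔ W) := by
  intro D hD v hv
  obtain ⟨x, hx, y, hy, rfl⟩ := Submodule.mem_sup.1 hv
  rw [dE_add]
  exact Submodule.add_mem_sup (hV D hD x hx) (hW D hD y hy)

theorem Pres.inf {c : ℕ} {H : Submodule ℝ Der} {V W : Submodule ℝ (E c)} (hV : Pres H V)
    (hW : Pres H W) : Pres H (V ⊓ W) :=
  fun D hD v hv => ⟨hV D hD v hv.1, hW D hD v hv.2⟩

theorem Pres.perp {c : ℕ} {H : Submodule ℝ Der} {V : Submodule ℝ (E c)} (hV : Pres H V) :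
    Pres H (perp V) := by
  intro D hD u hu v hv
  rw [dot_re D u v (hu v hv), hu _ (hV D hD v hv), neg_zero]

theorem Pres.of_perp {c : ℕ} {H : Submodule ℝ Der} {V : Submodule ℝ (E c)}
    (hV : Pres H (DQ.perp V)) : Pres H V := by
  have h := hV.perp
  rwa [perp_perp] at h

theorem Pres.iS {c : ℕ} {H : Submodule ℝ Der} {V : Submodule ℝ (E c)} (hV : Pres H V) :
    Pres H (iS V) := by
  intro D hD v hv
  show Complex.I • dE D v ∈ V
  rw [← dE_I]
  exact hV D hD _ hv

theorem Kil.I {c : ℕ} {H : Submodule ℝ Der} {l : E c} (h : Kil H l) : Kil H (Complex.I • l) := by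
  intro D hD
  rw [dE_I, h D hD, smul_zero]

theorem pres_line {c : ℕ} {H : Submodule ℝ Der} {u : E c} :
    Pres H (Submodule.span ℝ {u}) ↔ ∀ D ∈ H, ∃ r : ℝ, dE D u = r • u := by
  constructor
  · intro h D hD
    obtain ⟨r, hr⟩ := Submodule.mem_span_singleton.1
      (h D hD u (Submodule.mem_span_singleton_self u))
    exact ⟨r, hr.symm⟩
  · intro h D hD v hv
    obtain ⟨r, rfl⟩ := Submodule.mem_span_singleton.1 hv
    obtain ⟨t, ht⟩ := h D hD
    rw [dE_rsmul, ht]
    exact Submodule.add_mem _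
      (Submodule.smul_mem _ _ (Submodule.mem_span_singleton_self u))
      (Submodule.smul_mem _ _ (Submodule.smul_mem _ _ (Submodule.mem_span_singleton_self u)))

theorem Kil.pres {c : ℕ} {H : Submodule ℝ Der} {u : E c} (h : Kil H u) :
    Pres H (Submodule.span ℝ {u}) :=
  pres_line.2 fun D hD => ⟨0, by rw [h D hD, zero_smul]⟩

/-- a normalised vector on a preserved line is killed -/
theorem Kil.of_norm {c : ℕ} {H : Submodule ℝ Der} {u : E c}
    (h : Pres H (Submodule.span ℝ {u})) {j : Fin c} (hj : (u j).re = 1 ∨ (u j).im = 1) :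
    Kil H u := by
  intro D hD
  obtain ⟨r, hr⟩ := pres_line.1 h D hD
  have h1 : dC D (u j) = r • u j := congrFun hr j
  have h0 : r = 0 := by
    rcases hj with hj | hj
    · have h2 := congrArg Complex.re h1
      rw [dC_re, Complex.smul_re, hj, smul_eq_mul, mul_one, Derivation.map_one_eq_zero] at h2
      exact h2.symm
    · have h2 := congrArg Complex.im h1
      rw [dC_im, Complex.smul_im, hj, smul_eq_mul, mul_one, Derivation.map_one_eq_zero] at h2
      exact h2.symm
  rw [hr, h0, zero_smul]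

theorem pres_FF {c : ℕ} {H : Submodule ℝ Der} {lam : ℕ → E c} {a k : ℕ}
    (h : ∀ m < k + a, Kil H (lam m)) (i : ℕ) : Pres H (FF lam a k i) := by
  intro D hD v hv
  have hv' : v ∈ Submodule.span ℂ (lam '' {m | k + a ≤ m + i ∧ m < k + a}) := hv
  show dE D v ∈ Submodule.span ℂ (lam '' {m | k + a ≤ m + i ∧ m < k + a})
  induction hv' using Submodule.span_induction with
  | mem x hx =>
    obtain ⟨m, hm, rfl⟩ := hx
    rw [h m hm.2 D hD]
    exact Submodule.zero_mem _
  | zero =>
    rw [dE_zero]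
    exact Submodule.zero_mem _
  | add x y hx hy hx' hy' =>
    rw [dE_add]
    exact Submodule.add_mem _ (hx' hx) (hy' hy)
  | smul z x hx hx' =>
    rw [dE_smul]
    exact Submodule.add_mem _ (Submodule.smul_mem _ _ hx) (Submodule.smul_mem _ _ (hx' hx))

end Pool.Agent.H45.DQ
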