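import Pool.Agent.H45.DQ.Def
import Pool.Agent.H45.DQ.Arr

/-!
# Realification

`toE e` identifies `J → ℝ` with `ℂ ^ c` by an equivalence `e : J ≃ Fin c × Bool`; `cov e u` is the real row of
the functional `w ↦ Re (u · w)`.
-/

set_option autoImplicit false

open Module Polynomial

namespace Pool.Agent.H45.DQ

/-- real vectors as complex vectors -/
noncomputable def toE {c : ℕ} {J : Type} (e : J ≃ Fin c × Bool) : (J → ℝ) ≃ₗ[ℝ] E c where
  toFun w i := ⟨w (e.symm (i, false)), w (e.symm (i, true))⟩
  map_add' w w' := by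
    funext i
    apply Complex.ext <;> simp
  map_smul' r w := by
    funext i
    apply Complex.ext <;> simp
  invFun v j := if (e j).2 then (v (e j).1).im else (v (e j).1).re
  left_inv w := by
    funext j
    obtain ⟨⟨i, β⟩, rfl⟩ := e.symm.surjective j
    cases β <;> simp
  right_inv v := by
    funext i
    apply Complex.ext <;> simp

/-- the real row of the functional `w ↦ Re (u · w)` -/
noncomputable def cov {c : ℕ} {J : Type} (e : J ≃ Fin c × Bool) (u : E c) (j : J) : ℝ :=
  if (e j).2 then -(u (e j).1).im else (u (e j).1).re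

theorem cov_dot {c : ℕ} {J : Type} [Fintype J] (e : J ≃ Fin c × Bool) (u : E c) (w : J → ℝ) :
    ∑ j, cov e u j * w j = (dotProduct u (toE e w)).re := by
  rw [← e.symm.sum_comp, Fintype.sum_prod_type]
  unfold dotProduct
  rw [Complex.re_sum]
  refine Finset.sum_congr rfl fun i _ => ?_
  simp [cov, toE]
  ring

theorem cov_add {c : ℕ} {J : Type} (e : J ≃ Fin c × Bool) (u v : E c) (j : J) :
    cov e (u + v) j = cov e u j + cov e v j := by
  unfold cov
  split_ifs <;> simp
  ring

theorem cov_rsmul {c : ℕ} {J : Type} (e : J ≃ Fin c × Bool) (t : ℝ) (u : E c) (j : J) :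
    cov e ((t : ℂ) • u) j = t * cov e u j := by
  unfold cov
  split_ifs <;> simp

end Pool.Agent.H45.DQ
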