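import Pool.Agent.H45.DQ.Run
import Pool.Agent.H45.DQ.Last
import Pool.Agent.H45.DQ.GenL

/-!
# Module Rot: multiplication of a chain by a complex number; the two counting theorems

`zS z V` = all `v` with `z • v ∈ V`, that is `z⁻¹ V`.

PROOF. `zS z` (`z ≠ 0`) is the preimage under the real linear automorphism `v ↦ z • v` of `E c`, so it
preserves dimensions, intersections, sums (`Submodule.comap`, `finrank` of `Submodule.map` by an
equivalence), and `zS z (span ℝ {x}) = span ℝ {z⁻¹ • x}`. A common zero `w ∈ V` of rows becomes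
`z⁻¹ • w ∈ zS z V` (`dotProduct_smul`), so `Bad` and `Sing` are invariant, hence `Tr` and `Chain`.
`no_chain`: `Chain.badm` at `k = 0` gives `u ∈ Vm 0`, `u ≠ 0`, killed by `lam m`, `m < a`; `z := u j` for
some `j` with `u j ≠ 0`; then `z⁻¹ • u ∈ zS z (Vm 0)` has the coordinate `1`: `Norm1` holds for the
rotated chain, and `run_all`, `run_last` apply. `hlin`: `Gen.lin` (module GenL), windows of length
`a < a + b`.
-/

set_option autoImplicit false

open Module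

namespace Pool.Agent.H45.DQ

/-- the subspace `z⁻¹ V` -/
noncomputable def zS {c : ℕ} (z : ℂ) (V : Submodule ℝ (E c)) : Submodule ℝ (E c) where
  carrier := {v | z • v ∈ V}
  add_mem' := by
    intro u u' h h'
    show z • (u + u') ∈ V
    rw [smul_add]
    exact V.add_mem h h'
  zero_mem' := by
    show z • (0 : E c) ∈ V
    rw [smul_zero]
    exact V.zero_mem
  smul_mem' := by
    intro r u h
    show z • (r • u) ∈ V
    rw [smul_comm]
    exact V.smul_mem r h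

/-- multiplication by `z⁻¹` as a real linear automorphism -/
private noncomputable def zEq (c : ℕ) {z : ℂ} (hz : z ≠ 0) : E c ≃ₗ[ℝ] E c :=
  (LinearEquiv.smulOfNeZero ℂ (E c) z⁻¹ (inv_ne_zero hz)).restrictScalars ℝ

private theorem zEq_apply {c : ℕ} {z : ℂ} (hz : z ≠ 0) (v : E c) : zEq c hz v = z⁻¹ • v := rfl

private theorem zS_map {c : ℕ} {z : ℂ} (hz : z ≠ 0) (V : Submodule ℝ (E c)) :
    zS z V = V.map (zEq c hz : E c →ₗ[ℝ] E c) := by
  ext v
  constructor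
  · intro hv
    refine ⟨z • v, hv, ?_⟩
    show z⁻¹ • (z • v) = v
    rw [smul_smul, inv_mul_cancel₀ hz, one_smul]
  · rintro ⟨w, hw, rfl⟩
    show z • (z⁻¹ • w) ∈ V
    rw [smul_smul, mul_inv_cancel₀ hz, one_smul]
    exact hw

theorem finrank_zS {c : ℕ} {z : ℂ} (hz : z ≠ 0) (V : Submodule ℝ (E c)) :
    finrank ℝ (zS z V) = finrank ℝ V := by
  rw [zS_map hz]
  exact LinearEquiv.finrank_map_eq (zEq c hz) V

private theorem zS_inf {c : ℕ} (z : ℂ) (V V' : Submodule ℝ (E c)) :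
    zS z (V ⊓ V') = zS z V ⊓ zS z V' := rfl

private theorem zS_sup {c : ℕ} {z : ℂ} (hz : z ≠ 0) (V V' : Submodule ℝ (E c)) :
    zS z (V ⊔ V') = zS z V ⊔ zS z V' := by
  rw [zS_map hz, zS_map hz, zS_map hz, Submodule.map_sup]

private theorem zS_span {c : ℕ} {z : ℂ} (hz : z ≠ 0) (x : E c) :
    zS z (Submodule.span ℝ {x}) = Submodule.span ℝ {z⁻¹ • x} := by
  rw [zS_map hz, Submodule.map_span, Set.image_singleton]
  rfl

theorem sing_zS {c : ℕ} {lam : ℕ → E c} {a k : ℕ} {t : ℝ} {z : ℂ} (hz : z ≠ 0)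
    {V : Submodule ℝ (E c)} : Sing lam a k t (zS z V) ↔ Sing lam a k t V := by
  constructor
  · rintro ⟨w, hw, h0, h1, h2⟩
    refine ⟨z • w, hw, smul_ne_zero hz h0, fun m hm hm' => ?_, ?_⟩
    · rw [dotProduct_smul, h1 m hm hm', smul_zero]
    · rw [dotProduct_smul, h2, smul_zero]
  · rintro ⟨w, hw, h0, h1, h2⟩
    refine ⟨z⁻¹ • w, ?_, smul_ne_zero (inv_ne_zero hz) h0, fun m hm hm' => ?_, ?_⟩
    · show z • (z⁻¹ • w) ∈ V
      rw [smul_smul, mul_inv_cancel₀ hz, one_smul]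
      exact hw
    · rw [dotProduct_smul, h1 m hm hm', smul_zero]
    · rw [dotProduct_smul, h2, smul_zero]

theorem bad_zS {c : ℕ} {lam : ℕ → E c} {a k : ℕ} {z : ℂ} (hz : z ≠ 0)
    {V : Submodule ℝ (E c)} : Bad lam a k (zS z V) ↔ Bad lam a k V := by
  constructor
  · rintro ⟨w, hw, h0, h1⟩
    refine ⟨z • w, hw, smul_ne_zero hz h0, fun m hm hm' => ?_⟩
    rw [dotProduct_smul, h1 m hm hm', smul_zero]
  · rintro ⟨w, hw, h0, h1⟩
    refine ⟨z⁻¹ • w, ?_, smul_ne_zero (inv_ne_zero hz) h0, fun m hm hm' => ?_⟩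
    · show z • (z⁻¹ • w) ∈ V
      rw [smul_smul, mul_inv_cancel₀ hz, one_smul]
      exact hw
    · rw [dotProduct_smul, h1 m hm hm', smul_zero]

theorem chain_zS {c : ℕ} {lam : ℕ → E c} {a D q : ℕ} {Vm Vp : ℕ → Submodule ℝ (E c)}
    {lo hi : ℕ → ℕ} (hC : Chain lam a D q Vm Vp lo hi) {z : ℂ} (hz : z ≠ 0) :
    Chain lam a D q (fun k => zS z (Vm k)) (fun k => zS z (Vp k)) lo hi where
  rkm := fun k hk => (finrank_zS hz _).trans (hC.rkm k hk)
  rkp := fun k hk => (finrank_zS hz _).trans (hC.rkp k hk)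
  le := hC.le
  le' := hC.le'
  top := hC.top
  badm := fun k hk => (bad_zS hz).2 (hC.badm k hk)
  badp := fun k hk => (bad_zS hz).2 (hC.badp k hk)
  bub := by
    intro k hk
    show 2 * a ≤ finrank ℝ (zS z (Vp k) ⊓ zS z (Vm (k + 1)) : Submodule ℝ (E c)) + _
    rw [← zS_inf, finrank_zS hz]
    exact hC.bub k hk
  tr := by
    intro k hk
    have h := hC.tr k hk
    refine ⟨?_, ?_, ?_⟩
    · show finrank ℝ (zS z (Vm k)) ≤
        finrank ℝ (zS z (Vm k) ⊓ zS z (Vp k) : Submodule ℝ (E c)) + _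
      rw [← zS_inf, finrank_zS hz, finrank_zS hz]
      exact h.dist
    · intro h0
      obtain ⟨h1, h2⟩ := h.zero h0
      refine ⟨?_, fun t => (sing_zS hz).2 (h2 t)⟩
      show zS z (Vp k) = zS z (Vm k)
      rw [h1]
    · intro h1 hne
      have hne' : Vm k ≠ Vp k := by
        intro h2
        apply hne
        show zS z (Vm k) = zS z (Vp k)
        rw [h2]
      obtain ⟨x, y, hx, hy, ht⟩ := h.one h1 hne'
      refine ⟨z⁻¹ • x, z⁻¹ • y, ?_, ?_, ?_⟩
      · show zS z (Vm k) = (zS z (Vm k) ⊓ zS z (Vp k)) ⊔ Submodule.span ℝ {z⁻¹ • x}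
        rw [← zS_inf, ← zS_span hz, ← zS_sup hz, ← hx]
      · show zS z (Vp k) = (zS z (Vm k) ⊓ zS z (Vp k)) ⊔ Submodule.span ℝ {z⁻¹ • y}
        rw [← zS_inf, ← zS_span hz, ← zS_sup hz, ← hy]
      · intro t
        show Sing lam a k t ((zS z (Vm k) ⊓ zS z (Vp k)) ⊔
          Submodule.span ℝ {z⁻¹ • x + t • z⁻¹ • y})
        have e : z⁻¹ • x + t • z⁻¹ • y = z⁻¹ • (x + t • y) := by
          rw [smul_add, smul_comm t]
        rw [e, ← zS_inf, ← zS_span hz, ← zS_sup hz]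
        exact (sing_zS hz).2 (ht t)

private theorem norm_of_bad {c a : ℕ} {lam : ℕ → E c} {V : Submodule ℝ (E c)}
    (h : Bad lam a 0 V) : ∃ z : ℂ, z ≠ 0 ∧ Norm1 lam a (zS z V) := by
  obtain ⟨w, hw, h0, h1⟩ := h
  obtain ⟨j, hj⟩ : ∃ j, w j ≠ 0 := by
    by_contra hcon
    push Not at hcon
    exact h0 (funext hcon)
  refine ⟨w j, hj, (w j)⁻¹ • w, ?_, ⟨j, ?_⟩, fun m hm => ?_⟩
  · show w j • ((w j)⁻¹ • w) ∈ V
    rw [smul_smul, mul_inv_cancel₀ hj, one_smul]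
    exact hw
  · rw [Pi.smul_apply, smul_eq_mul, inv_mul_cancel₀ hj]
  · rw [dotProduct_smul, h1 m (Nat.zero_le _) (by omega), smul_zero]

/-- **Counting theorem** for plants without bad compensators -/
theorem no_chain {a b D q : ℕ} (ha : 1 ≤ a) (hb : 1 ≤ b) {lam : ℕ → E (a + b)}
    {H₀ : Submodule ℝ Der} (hG : Gen lam (a + D) H₀)
    {Vm Vp : ℕ → Submodule ℝ (E (a + b))} {lo hi : ℕ → ℕ}
    (hC : Chain lam a D q Vm Vp lo hi) :
    2 * D + 2 ≤ 4 * a * b + q * (2 * (a + b) - 1) := by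
  obtain ⟨z, hz, hN⟩ := norm_of_bad (hC.badm 0 (Nat.zero_le _))
  exact run_all ha hb hG (fun k hk => hG.lin (by omega) (by omega)) (chain_zS hC hz) hN

/-- **Counting theorem** for the polynomial `s ^ (2 (D+1) + q)` -/
theorem no_chain_last {a b D q : ℕ} (ha : 1 ≤ a) (hb : 1 ≤ b) {lam : ℕ → E (a + b)}
    {H₀ : Submodule ℝ Der} (hG : Gen lam (a + (D + 1)) H₀)
    {Vm Vp : ℕ → Submodule ℝ (E (a + b))} {lo hi : ℕ → ℕ}
    (hC : Chain lam a D q Vm Vp lo hi)
    (hlast : lo D = q → (∀ t : ℝ, Sing lam a D t (Vm D)) ∨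
      ((∀ t : ℝ, t ≠ 0 → ¬ Sing lam a D t (Vm D)) ∧ ¬ Bad lam a (D + 1) (Vm D))) :
    2 * (D + 1) + 1 ≤ 4 * a * b + q * (2 * (a + b) - 1) := by
  obtain ⟨z, hz, hN⟩ := norm_of_bad (hC.badm 0 (Nat.zero_le _))
  refine run_last ha hb hG (fun k hk => hG.lin (by omega) (by omega)) (chain_zS hC hz) hN ?_
  intro h
  rcases hlast h with h1 | ⟨h1, h2⟩
  · exact Or.inl fun t => (sing_zS hz).2 (h1 t)
  · exact Or.inr ⟨fun t ht hs => h1 t ht ((sing_zS hz).1 hs), fun hb => h2 ((bad_zS hz).1 hb)⟩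

end Pool.Agent.H45.DQ
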