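import Pool.Agent.H45.DQ.Step
import Pool.Agent.H45.DQ.Bub
import Pool.Agent.H45.DQ.Init

/-!
# Module Run: the count along a chain

PROOF of `run`. Induction on `D' ≤ D` (statement for `D'` in place of `D`, with the hypotheses of the chain
up to `D`). `D' = 0`: `exists_Df` for `Vm 0` and `init`: the bound there is
`finrank H₀ + defect + 2 ≤ finrank H + 4ab + 2ca`, and `lo 0 ≥ 0`. Step: `transition` with
`V = Vm k`, `V' = Vp k`, `j = hi k - lo k`, state of `Vp k` at `k + 1` from `exists_Df` and `badp`; then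
`bubble` with `V' = Vm (k+1)`, `j = lo (k+1) - hi k`, state of `Vm (k+1)` from `badm`. The constants add
up: each transition costs `2c - 2` and each unit of degree costs `2c - 1`; the degrees add up to
`lo D' - lo 0 ≤ lo D'`.
PROOF of `run_all`: a member of `H` kills `lam m` for all `m < D + a`, so it is `0` by `Gen.inj`;
`finrank H = 0`, `Gen.dim`.
-/

set_option autoImplicit false

open Module

namespace Pool.Agent.H45.DQ

/-- the first kernel vector, normalised -/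
def Norm1 {c : ℕ} (lam : ℕ → E c) (a : ℕ) (V : Submodule ℝ (E c)) : Prop :=
  ∃ u ∈ V, (∃ j, u j = 1) ∧ ∀ m < a, dotProduct (lam m) u = 0

theorem run {a b D q : ℕ} (ha : 1 ≤ a) (hb : 1 ≤ b) {lam : ℕ → E (a + b)}
    {H₀ : Submodule ℝ Der} (hH : FiniteDimensional ℝ H₀)
    (hlin : ∀ k ≤ D, LinearIndependent ℂ (fun i : Fin a => lam (k + i)))
    {Vm Vp : ℕ → Submodule ℝ (E (a + b))} {lo hi : ℕ → ℕ}
    (hC : Chain lam a D q Vm Vp lo hi) (hN : Norm1 lam a (Vm 0)) :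
    ∃ H ≤ H₀, Ctx lam D H (Vm D) ∧ ∃ κ ρ, Df lam a D (Vm D) κ ρ ∧
      finrank ℝ H₀ + 2 * (a - κ) + (ρ - 1) + 2 + 2 * D ≤
        finrank ℝ H + 4 * a * b + 2 * (a + b) * a + 2 * (a + b) * D +
          lo D * (2 * (a + b) - 1) := by
  have key : ∀ D' ≤ D, ∃ H ≤ H₀, Ctx lam D' H (Vm D') ∧ ∃ κ ρ, Df lam a D' (Vm D') κ ρ ∧
      finrank ℝ H₀ + 2 * (a - κ) + (ρ - 1) + 2 + 2 * D' ≤
        finrank ℝ H + 4 * a * b + 2 * (a + b) * a + 2 * (a + b) * D' +
          lo D' * (2 * (a + b) - 1) := by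
    intro D'
    induction D' with
    | zero =>
      intro _
      obtain ⟨κ, ρ, hd⟩ := exists_Df (hlin 0 (Nat.zero_le _)) (hC.rkm 0 (Nat.zero_le _))
        (hC.badm 0 (Nat.zero_le _))
      obtain ⟨u, hu, ⟨j, hj⟩, hk⟩ := hN
      obtain ⟨H, hH1, hH2, hH3⟩ := init ha hb hH (hlin 0 (Nat.zero_le _))
        (hC.rkm 0 (Nat.zero_le _)) hd hu hj hk
      exact ⟨H, hH1, hH2, κ, ρ, hd, by omega⟩
    | succ D' ih =>
      intro hD
      obtain ⟨H, hH1, hH2, κ, ρ, hd, h0⟩ := ih (by omega)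
      have hlt : D' < D := hD
      obtain ⟨κ₁, ρ₁, hd₁⟩ := exists_Df (hlin (D' + 1) hD) (hC.rkp D' hlt) (hC.badp D' hlt)
      obtain ⟨κ₂, ρ₂, hd₂⟩ := exists_Df (hlin (D' + 1) hD) (hC.rkm (D' + 1) hD)
        (hC.badm (D' + 1) hD)
      obtain ⟨hc₁, h1⟩ := transition hH2 (hlin (D' + 1) hD) hd hd₁ (hC.rkp D' hlt)
        (hC.tr D' hlt)
      obtain ⟨hc₂, h2⟩ := bubble hc₁ hd₁ hd₂ (hC.rkm (D' + 1) hD) (hC.bub D' hlt)
      refine ⟨_, (HV_le _ _).trans ((HK_le _ _).trans ((HV_le _ _).trans hH1)), hc₂, κ₂, ρ₂,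
        hd₂, ?_⟩
      have e1 := hC.le D' hlt
      have e2 := hC.le' D' hlt
      have e3 : lo (D' + 1) = lo D' + (hi D' - lo D') + (lo (D' + 1) - hi D') := by omega
      have e4 : lo (D' + 1) * (2 * (a + b) - 1) = lo D' * (2 * (a + b) - 1) +
          (hi D' - lo D') * (2 * (a + b) - 1) +
            (lo (D' + 1) - hi D') * (2 * (a + b) - 1) := by
        conv_lhs => rw [e3]
        rw [Nat.add_mul, Nat.add_mul]
      have e5 : 2 * (a + b) * (D' + 1) = 2 * (a + b) * D' + 2 * (a + b) := Nat.mul_succ _ _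
      rw [e4, e5]
      omega
  exact key D le_rfl

theorem run_all {a b D q : ℕ} (ha : 1 ≤ a) (hb : 1 ≤ b) {lam : ℕ → E (a + b)}
    {H₀ : Submodule ℝ Der} (hG : Gen lam (a + D) H₀)
    (hlin : ∀ k ≤ D, LinearIndependent ℂ (fun i : Fin a => lam (k + i)))
    {Vm Vp : ℕ → Submodule ℝ (E (a + b))} {lo hi : ℕ → ℕ}
    (hC : Chain lam a D q Vm Vp lo hi) (hN : Norm1 lam a (Vm 0)) :
    2 * D + 2 ≤ 4 * a * b + q * (2 * (a + b) - 1) := by
  obtain ⟨H, hH1, hH2, κ, ρ, hd, h0⟩ := run ha hb hG.fin hlin hC hN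
  have hbot : H = ⊥ := by
    rw [eq_bot_iff]
    intro d hd'
    rw [Submodule.mem_bot]
    exact hG.inj d (hH1 hd') fun m hm => hH2.kil m (by omega) d hd'
  have h1 := hG.dim
  rw [hbot, finrank_bot, h1, Nat.mul_add] at h0
  have h2 := Nat.mul_le_mul_right (2 * (a + b) - 1) hC.top
  omega

end Pool.Agent.H45.DQ
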