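import Pool.Agent.H45.DQ.Ext
import Pool.Agent.H45.DQ.Rot
import Pool.Agent.H45.DQ.GenEx

/-!
# Module Special: the special plant of McMillan degree `n`

PROOF of `good_plant`: `exists_gen (a + b) (a + D)`; if for infinitely many `N` the plant `PL … N` had a bad
`x ≠ 0`, then `exists_chain` and `no_chain` give `2 D + 2 ≤ 4ab + q (2(a+b) - 1)`, contradiction; so some
`N` works (`Filter.not_frequently`, `Filter.Eventually.exists`); degrees: `PL_natDegree`.
`good_plant_last`: `D = D' + 1`, `exists_chain_last`, `no_chain_last`.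
PROOF of `special`. `n ≥ 4ab ≥ 4`. `n` even: `D = n / 2`, `R` from `good_plant_last`, `φ = X ^ (n + q)`.
`n` odd: `D = (n - 1) / 2`, `R` from `good_plant`; multiply the row `r₀ = 2 (D % a)` by `X`
(`pr_mul`): the pairing is `X * pr R x`; `φ = (X - 1) ^ (n + q)`. If `X * pr R x = C c * (X - 1)^(n+q)`,
evaluate at `0`: `c = 0`, so `pr R x = 0` and `x = 0`. Degrees: with `D = f a + ρ`, `ρ < a`: `n = 2 D` has
`n / (2a) = f`, `n % (2a) = 2ρ`; `n = 2D + 1` has `n % (2a) = 2ρ + 1`.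
-/

set_option autoImplicit false

open Module Polynomial Filter Topology

namespace Pool.Agent.H45.DQ


/-- the balanced row degrees of a plant with `p` rows and McMillan degree `n` -/
def kap (p n r : ℕ) : ℕ := n / p + if r < n % p then 1 else 0

theorem good_plant {a b D q : ℕ} (ha : 1 ≤ a) (hb : 1 ≤ b) (hD : 1 ≤ D)
    (h : 4 * a * b + q * (2 * (a + b) - 1) ≤ 2 * D + 1) {J : Type} [Fintype J] [DecidableEq J]
    (e : J ≃ Fin (a + b) × Bool) :
    ∃ R : Fin (2 * a) → J → ℝ[X],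
      (∀ r j, (R r j).natDegree ≤ D / a + if (r : ℕ) / 2 < D % a then 1 else 0) ∧
      ∀ x : (Fin (2 * a) → J) → ℝ[X], Dec x → (∀ i, (x i).natDegree ≤ q) → pr R x = 0 →
        x = 0 := by
  obtain ⟨lam, H, hG⟩ := exists_gen (a + b) (a + D)
  have h1 : ¬ ∃ᶠ N in atTop, ∃ x : (Fin (2 * a) → J) → ℝ[X], Dec x ∧ x ≠ 0 ∧
      (∀ i, (x i).natDegree ≤ q) ∧ pr (PL e lam a D N) x = 0 := by
    intro hbad
    obtain ⟨Vm, Vp, lo, hi, hC⟩ := exists_chain ha hD e lam hbad
    have h2 := no_chain ha hb hG hC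
    omega
  rw [not_frequently] at h1
  obtain ⟨N, hN⟩ := h1.exists
  refine ⟨PL e lam a D N, PL_natDegree e lam ha D N, fun x hx hq h0 => ?_⟩
  by_contra hne
  exact hN ⟨x, hx, hne, hq, h0⟩

theorem good_plant_last {a b D q : ℕ} (ha : 1 ≤ a) (hb : 1 ≤ b) (hD : 1 ≤ D)
    (h : 4 * a * b + q * (2 * (a + b) - 1) ≤ 2 * D) {J : Type} [Fintype J] [DecidableEq J]
    (e : J ≃ Fin (a + b) × Bool) :
    ∃ R : Fin (2 * a) → J → ℝ[X],
      (∀ r j, (R r j).natDegree ≤ D / a + if (r : ℕ) / 2 < D % a then 1 else 0) ∧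
      ∀ x : (Fin (2 * a) → J) → ℝ[X], Dec x → (∀ i, (x i).natDegree ≤ q) → ∀ r : ℝ,
        pr R x = C r * X ^ (2 * D + q) → x = 0 := by
  obtain ⟨D, rfl⟩ : ∃ D', D = D' + 1 := ⟨D - 1, by omega⟩
  obtain ⟨lam, H, hG⟩ := exists_gen (a + b) (a + (D + 1))
  have h1 : ¬ ∃ᶠ N in atTop, ∃ x : (Fin (2 * a) → J) → ℝ[X], Dec x ∧ x ≠ 0 ∧
      (∀ i, (x i).natDegree ≤ q) ∧
        ∃ r : ℝ, pr (PL e lam a (D + 1) N) x = C r * X ^ (2 * (D + 1) + q) := by
    intro hbad
    obtain ⟨Vm, Vp, lo, hi, hC, hlast⟩ := exists_chain_last ha e lam hbad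
    have h2 := no_chain_last ha hb hG hC hlast
    omega
  rw [not_frequently] at h1
  obtain ⟨N, hN⟩ := h1.exists
  refine ⟨PL e lam a (D + 1) N, PL_natDegree e lam ha (D + 1) N, fun x hx hq r hr => ?_⟩
  by_contra hne
  exact hN ⟨x, hx, hne, hq, r, hr⟩

theorem special {a b n q : ℕ} (ha : 1 ≤ a) (hb : 1 ≤ b)
    (h : 4 * a * b + q * (2 * (a + b) - 1) ≤ n) {J : Type} [Fintype J] [DecidableEq J]
    (e : J ≃ Fin (a + b) × Bool) :
    ∃ (φ : ℝ[X]) (R : Fin (2 * a) → J → ℝ[X]), φ.natDegree = n + q ∧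
      (∀ r j, (R r j).natDegree ≤ kap (2 * a) n r) ∧
      ∀ x : (Fin (2 * a) → J) → ℝ[X], Dec x → (∀ i, (x i).natDegree ≤ q) → ∀ r : ℝ,
        pr R x = C r * φ → x = 0 := by
  have hab : 1 ≤ a * b := Nat.mul_pos ha hb
  have hn4 : 4 ≤ n := by
    have h1 : 4 * a * b = 4 * (a * b) := by ring
    rw [h1] at h
    omega
  have hkap : ∀ D ε r : ℕ, ε ≤ 1 → kap (2 * a) (2 * D + ε) r =
      D / a + if r < 2 * (D % a) + ε then 1 else 0 := by
    intro D ε r hε
    have hd := Nat.div_add_mod D a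
    have hlt := Nat.mod_lt D ha
    have h1 : 2 * D + ε = (2 * (D % a) + ε) + 2 * a * (D / a) := by
      rw [mul_assoc]
      omega
    have h2 : (2 * D + ε) / (2 * a) = D / a := by
      rw [h1, Nat.add_mul_div_left _ _ (by omega), Nat.div_eq_of_lt (by omega), zero_add]
    have h3 : (2 * D + ε) % (2 * a) = 2 * (D % a) + ε := by
      rw [h1, Nat.add_mul_mod_self_left, Nat.mod_eq_of_lt (by omega)]
    unfold kap
    rw [h2, h3]
  rcases Nat.even_or_odd' n with ⟨D, rfl | rfl⟩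
  · obtain ⟨R, hR, hx⟩ := good_plant_last ha hb (show 1 ≤ D by omega) h e
    refine ⟨X ^ (2 * D + q), R, natDegree_X_pow _, fun r j => ?_, hx⟩
    have h1 := hkap D 0 r (by omega)
    rw [add_zero, add_zero] at h1
    rw [h1]
    refine (hR r j).trans (le_of_eq ?_)
    congr 1
    by_cases h2 : (r : ℕ) / 2 < D % a
    · rw [if_pos h2, if_pos (by omega)]
    · rw [if_neg h2, if_neg (by omega)]
  · obtain ⟨R, hR, hx⟩ := good_plant ha hb (show 1 ≤ D by omega) h e
    have hlt := Nat.mod_lt D ha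
    let r₀ : Fin (2 * a) := ⟨2 * (D % a), by omega⟩
    refine ⟨(X - C 1) ^ (2 * D + 1 + q), fun r j => (if r = r₀ then X else 1) * R r j, ?_, ?_, ?_⟩
    · rw [natDegree_pow, natDegree_X_sub_C, mul_one]
    · intro r j
      rw [hkap D 1 r (le_refl 1)]
      show ((if r = r₀ then X else 1) * R r j).natDegree ≤ _
      by_cases h1 : r = r₀
      · have h2 : (r : ℕ) = 2 * (D % a) := by
          rw [h1]
        have h3 := hR r j
        rw [if_neg (by omega)] at h3
        rw [if_pos h1, if_pos (by omega)]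
        refine natDegree_mul_le.trans ?_
        rw [natDegree_X]
        omega
      · have h2 : (r : ℕ) ≠ 2 * (D % a) := fun h3 => h1 (Fin.ext h3)
        rw [if_neg h1, one_mul]
        refine (hR r j).trans (Nat.add_le_add_left ?_ _)
        by_cases h3 : (r : ℕ) / 2 < D % a
        · rw [if_pos h3, if_pos (by omega)]
        · rw [if_neg h3]
          exact Nat.zero_le _
    · intro x hxD hxq r hr
      rw [pr_mul, Finset.prod_ite_eq' Finset.univ r₀ (fun _ => (X : ℝ[X])),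
        if_pos (Finset.mem_univ r₀)] at hr
      have h1 := congrArg (eval 0) hr
      rw [eval_mul, eval_X, zero_mul, eval_mul, eval_C, eval_pow, eval_sub, eval_X, eval_C,
        zero_sub] at h1
      have h2 : r = 0 :=
        (mul_eq_zero.1 h1.symm).resolve_right (pow_ne_zero _ (neg_ne_zero.2 one_ne_zero))
      rw [h2, C_0, zero_mul] at hr
      exact hx x hxD hxq ((mul_eq_zero.1 hr).resolve_left X_ne_zero)

end Pool.Agent.H45.DQ
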