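import Pool.Agent.H45.DQ.PenA
import Pool.Agent.H45.DQ.Cost

/-!
# Module T0: transition with constant subspace, state `κ = a`, `ρ = 1`

`l = lam (k+a)`, `Y = perp V ⊔ FF lam a k (κ'-1)`; `finrank Y ≤ 2b + 2κ' - 2` (`finrank_Y_le`), preserved by
`H`; `perp Y = V ⊓ perp (FF lam a k (κ'-1)) ⊇ U = V ⊓ perp (FF lam a k (a-1))`.

PROOF of `line_p0`: `U` is preserved by `H` and `lam k` is killed; the values `lam k · w`, `w ∈ U`, are real
multiples of `p0 = lam k · u0` (`lam k · u1 = 0`), and `dC D p0 = lam k · dE D u0` (`dC_dot`).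
PROOF of `phase`: `v • l ∈ Y` and `w ∈ perp Y` give `Re (v (l · w)) = 0`. If `l · w = x p0`, `x ≠ 0` real, then
`Re (v p0) = 0`, so `v = τ I / p0` with `τ` real, `τ ≠ 0`; `dC D v = (D τ / τ - r) v` where
`dC D p0 = r p0` (differentiate `v p0 = τ I`).
PROOF of `t0_two`: `I • u1 ∉ V` (otherwise `I • u1 ∈ V ⊓ perp (FF lam a k a) = ℝ u1`, `perp_cplx`,
`FF_cplx`). So `Y` is not closed under `I`: otherwise `perp Y` is (`perp_cplx`), and `u1 ∈ perp Y`.
`kill_cplx`: cost `≤ 2b + 2κ' - 3`.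
PROOF of `t0_one`: `pencil0`. First case `l · u1 = 0`: `kill_phase_inf` with
`Z = perp (span ℝ {u1, I • u1})`, preserved (the line `ℝ u1 = V ⊓ perp (FF lam a k a)` is preserved, and so is
`ℝ I u1 = iS (ℝ u1)`), `v • l ∈ Z` (`l · u1 = 0`), and `¬ Y ≤ Z` since otherwise
`I u1 ∈ perp Z ≤ perp Y ≤ V`. Second case: `phase` with `w = u1`, `kill_line`. Both: cost
`≤ finrank Y ≤ 2b + 2κ' - 2`.
-/

set_option autoImplicit false

open Module

namespace Pool.Agent.H45.DQ

theorem line_p0 {a b : ℕ} {lam : ℕ → E (a + b)} {k : ℕ} {H : Submodule ℝ Der}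
    {U : Submodule ℝ (E (a + b))} (hU : Pres H U) (hk : Kil H (lam k)) {u0 : E (a + b)}
    (hu0 : u0 ∈ U) (hr : ∀ w ∈ U, ∃ x : ℝ, dotProduct (lam k) w = x * dotProduct (lam k) u0) :
    ∀ D ∈ H, ∃ r : ℝ, dC D (dotProduct (lam k) u0) = r * dotProduct (lam k) u0 := by
  intro D hD
  rw [dC_dot, hk D hD, zero_dotProduct, zero_add]
  exact hr _ (hU D hD u0 hu0)

theorem phase {c : ℕ} {H : Submodule ℝ Der} {Y : Submodule ℝ (E c)} {l w : E c} {v p0 : ℂ}
    (hv : v ≠ 0) (hp0 : p0 ≠ 0) (hl : v • l ∈ Y) (hw : w ∈ perp Y) {x : ℝ} (hx : x ≠ 0)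
    (hx2 : dotProduct l w = x * p0) (hline : ∀ D ∈ H, ∃ r : ℝ, dC D p0 = r * p0) :
    ∀ D ∈ H, ∃ r : ℝ, dC D v = r * v := by
  have h1 : (v * p0).re = 0 := by
    have h2 : (dotProduct w (v • l)).re = 0 := hw _ hl
    rw [dotProduct_comm, smul_dotProduct, smul_eq_mul, hx2] at h2
    have h3 : v * (x * p0) = (x : ℂ) * (v * p0) := by ring
    rw [h3, Complex.re_ofReal_mul] at h2
    exact (mul_eq_zero.1 h2).resolve_left hx
  obtain ⟨τ, hτ⟩ : ∃ τ : ℝ, v * p0 = τ * Complex.I := by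
    refine ⟨(v * p0).im, ?_⟩
    apply Complex.ext
    · rw [h1]
      simp
    · simp
  have hτ0 : τ ≠ 0 := by
    rintro rfl
    rw [Complex.ofReal_zero, zero_mul, mul_eq_zero] at hτ
    rcases hτ with h | h
    · exact hv h
    · exact hp0 h
  intro D hD
  obtain ⟨r, hr⟩ := hline D hD
  refine ⟨D τ / τ - r, mul_right_cancel₀ hp0 ?_⟩
  have h2 := congrArg (dC D) hτ
  rw [dC_mul, dC_mul, dC_real, dC_I, mul_zero, add_zero, hr] at h2
  have hτc : (τ : ℂ) ≠ 0 := by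
    rw [Ne, Complex.ofReal_eq_zero]
    exact hτ0
  have h3 : ((D τ : ℝ) : ℂ) * Complex.I = ((D τ : ℝ) : ℂ) / τ * (v * p0) := by
    rw [hτ]
    field_simp
  rw [h3] at h2
  push_cast
  linear_combination h2

private theorem t0_perpY {c : ℕ} (V F : Submodule ℝ (E c)) : perp (perp V ⊔ F) = V ⊓ perp F := by
  rw [perp_sup, perp_perp]

private theorem t0_I {a b : ℕ} {lam : ℕ → E (a + b)} {k : ℕ} {V : Submodule ℝ (E (a + b))}
    {u1 : E (a + b)} (h0 : u1 ≠ 0) (hL : V ⊓ perp (FF lam a k a) = Submodule.span ℝ {u1}) :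
    Complex.I • u1 ∉ V := by
  intro h1
  have h2 : u1 ∈ V ⊓ perp (FF lam a k a) := by
    rw [hL]
    exact Submodule.mem_span_singleton_self u1
  have h3 : Complex.I • u1 ∈ V ⊓ perp (FF lam a k a) :=
    ⟨h1, perp_cplx (FF_cplx lam a k a) u1 h2.2⟩
  rw [hL, Submodule.mem_span_singleton] at h3
  obtain ⟨r, hr⟩ := h3
  apply h0
  funext j
  have h4 := congrFun hr j
  simp only [Pi.smul_apply, Complex.real_smul, smul_eq_mul] at h4
  have h5 : ((r : ℂ) - Complex.I) * u1 j = 0 := by linear_combination h4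
  rcases mul_eq_zero.1 h5 with h6 | h6
  · exfalso
    have h7 := congrArg Complex.im h6
    simp at h7
  · exact h6

private theorem t0_u1 {a b : ℕ} {lam : ℕ → E (a + b)} {k κ' : ℕ} {V : Submodule ℝ (E (a + b))}
    {u1 : E (a + b)} (hκa : κ' ≤ a)
    (hL : V ⊓ perp (FF lam a k a) = Submodule.span ℝ {u1}) :
    u1 ∈ perp (perp V ⊔ FF lam a k (κ' - 1)) := by
  have h2 : u1 ∈ V ⊓ perp (FF lam a k a) := by
    rw [hL]
    exact Submodule.mem_span_singleton_self u1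
  rw [t0_perpY]
  exact ⟨h2.1, perp_anti (FF_mono lam a k (by omega)) h2.2⟩

theorem t0_two {a b : ℕ} {lam : ℕ → E (a + b)} {k : ℕ} {H : Submodule ℝ Der}
    {V : Submodule ℝ (E (a + b))} (h : Ctx lam k H V) (hd : Df lam a k V a 1) {κ' : ℕ}
    (hκ : 1 ≤ κ') (hκa : κ' ≤ a) (hl : lam (k + a) ∈ perp V ⊔ FF lam a k (κ' - 1))
    (hl' : Complex.I • lam (k + a) ∈ perp V ⊔ FF lam a k (κ' - 1)) :
    finrank ℝ H + 2 * (a - κ') + 3 ≤ finrank ℝ (HK H (lam (k + a))) + 2 * (a + b) := by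
  obtain ⟨u0, u1, h10, hL, -, -, -⟩ := plane h hd
  have hY : Pres H (perp V ⊔ FF lam a k (κ' - 1)) := h.pres.perp.sup (pres_FF h.kil _)
  have hYI : ∃ y ∈ perp V ⊔ FF lam a k (κ' - 1), Complex.I • y ∉ perp V ⊔ FF lam a k (κ' - 1) := by
    by_contra hcon
    push Not at hcon
    have h1 := perp_cplx hcon u1 (t0_u1 hκa hL)
    rw [t0_perpY] at h1
    exact t0_I h10 hL h1.1
  have h1 := kill_cplx h.fin hY hYI hl hl'
  have h2 := finrank_Y_le lam k (κ' - 1) h.rk
  omega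

theorem t0_one {a b : ℕ} {lam : ℕ → E (a + b)} {k : ℕ} {H : Submodule ℝ Der}
    {V : Submodule ℝ (E (a + b))} (h : Ctx lam k H V) (hd : Df lam a k V a 1)
    (hs : ∀ t : ℝ, Sing lam a k t V) {κ' : ℕ} (hκ : 1 ≤ κ') (hκa : κ' ≤ a) {v : ℂ}
    (hv : v ≠ 0) (hl : v • lam (k + a) ∈ perp V ⊔ FF lam a k (κ' - 1)) :
    finrank ℝ H + 2 * (a - κ') + 2 ≤ finrank ℝ (HK H (lam (k + a))) + 2 * (a + b) := by
  obtain ⟨u0, u1, h10, hL, hU, h11, h00, hcase⟩ := pencil0 h hd hs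
  have hY : Pres H (perp V ⊔ FF lam a k (κ' - 1)) := h.pres.perp.sup (pres_FF h.kil _)
  have h2 := finrank_Y_le lam k (κ' - 1) h.rk
  rcases hcase with hg | ⟨⟨x, hx0, hx⟩, -⟩
  · have hS : Pres H (Submodule.span ℝ {u1}) := by
      rw [← hL]
      exact h.pres.inf (pres_FF h.kil a).perp
    have hZ : Pres H (perp (Submodule.span ℝ {u1} ⊔ iS (Submodule.span ℝ {u1}))) :=
      (hS.sup hS.iS).perp
    have hker : ∀ w ∈ Submodule.span ℝ {u1}, dotProduct (lam (k + a)) w = 0 := by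
      intro w hw
      obtain ⟨r, rfl⟩ := Submodule.mem_span_singleton.1 hw
      rw [dotProduct_smul, hg, smul_zero]
    have hlZ : v • lam (k + a) ∈ perp (Submodule.span ℝ {u1} ⊔ iS (Submodule.span ℝ {u1})) := by
      rw [perp_sup]
      refine ⟨fun w hw => ?_, fun w hw => ?_⟩
      · rw [smul_dotProduct, hker w hw, smul_zero, Complex.zero_re]
      · have h3 := hker _ hw
        rw [dotProduct_smul, smul_eq_mul, mul_eq_zero] at h3
        rw [smul_dotProduct, h3.resolve_left Complex.I_ne_zero, smul_zero, Complex.zero_re]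
    have hYZ : ¬ perp V ⊔ FF lam a k (κ' - 1) ≤
        perp (Submodule.span ℝ {u1} ⊔ iS (Submodule.span ℝ {u1})) := by
      intro hle
      have h3 := perp_anti hle
      rw [perp_perp, t0_perpY] at h3
      have h4 : -(Complex.I • u1) ∈ V := by
        refine (h3 (Submodule.mem_sup_right ?_)).1
        show Complex.I • -(Complex.I • u1) ∈ Submodule.span ℝ {u1}
        rw [smul_neg, smul_smul, Complex.I_mul_I, neg_one_smul, neg_neg]
        exact Submodule.mem_span_singleton_self u1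
      exact t0_I h10 hL ((Submodule.neg_mem_iff V).1 h4)
    have h3 := kill_phase_inf h.fin hY hZ hYZ hv hl hlZ
    omega
  · have hu0 : u0 ∈ V ⊓ perp (FF lam a k (a - 1)) := by
      rw [hU]
      exact Submodule.subset_span (by simp)
    have hline := line_p0 (h.pres.inf (pres_FF h.kil (a - 1)).perp)
      (h.kil k (by have := h.posa; omega)) hu0 (fun w hw => by
        rw [hU] at hw
        obtain ⟨s, r, rfl⟩ := Submodule.mem_span_pair.1 hw
        refine ⟨s, ?_⟩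
        rw [dotProduct_add, dotProduct_smul, dotProduct_smul, h11, smul_zero, add_zero,
          Complex.real_smul])
    have hvl := phase hv h00 hl (t0_u1 hκa hL) hx0 hx hline
    have h3 := kill_line h.fin hY hv hvl hl
    omega

end Pool.Agent.H45.DQ
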