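import Pool.Agent.H45.DQ.Sub

/-!
# Module Sub2: the cost of preserving a subspace

PROOF. All four from `cost_subspace` with a suitable basis `ξ` of `perp V'` and spaces `R i`.
`ann`: the dimension of the annihilator (`Submodule.dualAnnihilator` or a kernel of the restriction) of a
subspace `U ≤ V'` in `Dual ℝ V'` is `finrank V' - finrank U`.
`cost_hyper`: `A ≤ V` with `A` of codimension one and `V` preserved, `U ≤ A` preserved. `perp A` is
`perp V + ℝ η` for any `η ∈ perp A` not in `perp V`. Take `ξ` = a basis of `perp V` followed by `η`. For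
`ξ i ∈ perp V` and `w ∈ A`: `Re (dE D (ξ i) · w) = - Re (ξ i · dE D w) = 0` since `dE D w ∈ V`: `R i = ⊥`. For
`η`: the functional `rs A (dE D η)` vanishes on `U` (same computation, `dE D w ∈ U ≤ A` for `w ∈ U`), so
`R = ` the functionals on `A` which vanish on `U`, dimension `finrank A - finrank U`.
`cost_super`: `A ≤ V'` of codimension one, `A` preserved; any basis `ξ` of `perp V'` (`2 c - finrank V'`
vectors); `rs V' (dE D (ξ i))` vanishes on `A` (for `w ∈ A`: `dE D w ∈ A ≤ V'`), `R i` = the functionals on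
`V'` which vanish on `A`, of dimension one.
-/

set_option autoImplicit false

open Module

namespace Pool.Agent.H45.DQ

/-- `cost_subspace` for a family indexed by a finite type -/
theorem cost_fam {c : ℕ} {ι : Type} [Fintype ι] {H : Submodule ℝ Der}
    (hH : FiniteDimensional ℝ H) (V' : Submodule ℝ (E c)) (ξ : ι → E c) (hξ : ∀ i, ξ i ∈ perp V')
    (hspan : perp V' ≤ Submodule.span ℝ (Set.range ξ)) (R : ι → Submodule ℝ (Dual ℝ V'))
    (hR : ∀ D ∈ H, ∀ i, rs V' (dE D (ξ i)) ∈ R i) :
    finrank ℝ H ≤ finrank ℝ (HV H V') + ∑ i, finrank ℝ (R i) := by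
  let e := Fintype.equivFin ι
  have h1 : Set.range (fun i => ξ (e.symm i)) = Set.range ξ := by
    rw [show (fun i => ξ (e.symm i)) = ξ ∘ e.symm from rfl, e.symm.surjective.range_comp]
  have h := cost_subspace hH V' (fun i => ξ (e.symm i)) (fun i => hξ _) (by rwa [h1])
    (fun i => R (e.symm i)) (fun D hD i => hR D hD _)
  rwa [Equiv.sum_comp e.symm fun i => finrank ℝ (R i)] at h

theorem span_fin {c : ℕ} (W : Submodule ℝ (E c)) :
    Submodule.span ℝ (Set.range fun i => ((finBasis ℝ W i : W) : E c)) = W := by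
  have h1 : (Set.range fun i => ((finBasis ℝ W i : W) : E c)) =
      W.subtype '' Set.range (finBasis ℝ W) := by
    rw [← Set.range_comp]
    rfl
  rw [h1, Submodule.span_image, (finBasis ℝ W).span_eq, Submodule.map_subtype_top]

/-- the functionals on `V'` which vanish on the subspace `U` -/
noncomputable def ann {c : ℕ} (V' U : Submodule ℝ (E c)) : Submodule ℝ (Dual ℝ V') :=
  Submodule.dualAnnihilator (U.comap V'.subtype)

theorem mem_ann {c : ℕ} {V' U : Submodule ℝ (E c)} {f : Dual ℝ V'} :
    f ∈ ann V' U ↔ ∀ w : V', (w : E c) ∈ U → f w = 0 := by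
  unfold ann
  rw [Submodule.mem_dualAnnihilator]
  rfl

theorem finrank_ann {c : ℕ} {V' U : Submodule ℝ (E c)} (h : U ≤ V') :
    finrank ℝ (ann V' U) + finrank ℝ U = finrank ℝ V' := by
  have h1 := Subspace.finrank_add_finrank_dualAnnihilator_eq (U.comap V'.subtype)
  have h2 := (Submodule.comapSubtypeEquivOfLe h).finrank_eq
  unfold ann
  omega

theorem finrank_perp_succ {c : ℕ} {A V : Submodule ℝ (E c)} (hAV : A ≤ V)
    (hr : finrank ℝ V = finrank ℝ A + 1) :
    ∃ η ∈ perp A, η ∉ perp V ∧ perp A = perp V ⊔ Submodule.span ℝ {η} := by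
  have h1 := finrank_perp A
  have h2 := finrank_perp V
  have h3 : perp V < perp A := by
    refine lt_of_le_of_ne (perp_anti hAV) fun h => ?_
    rw [h] at h2
    omega
  obtain ⟨η, hη, hη'⟩ := SetLike.exists_of_lt h3
  refine ⟨η, hη, hη', (Submodule.eq_of_le_of_finrank_le ?_ ?_).symm⟩
  · exact sup_le h3.le ((Submodule.span_singleton_le_iff_mem _ _).2 hη)
  · have h4 : perp V < perp V ⊔ Submodule.span ℝ {η} := by
      refine lt_of_le_of_ne le_sup_left fun h => hη' ?_
      rw [h]
      exact Submodule.mem_sup_right (Submodule.mem_span_singleton_self _)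
    have h5 := Submodule.finrank_lt_finrank_of_lt h4
    omega

/-- the functional given by the derivative of a vector orthogonal to a preserved subspace -/
theorem rs_mem_ann {c : ℕ} {V' U : Submodule ℝ (E c)} {η : E c} {D : Der}
    (hU : ∀ w ∈ V', w ∈ U → dE D w ∈ V' ⊓ U) (hη : η ∈ perp (V' ⊓ U)) :
    rs V' (dE D η) ∈ ann V' U := by
  rw [mem_ann]
  intro w hw
  rw [rs_apply, dot_re D η w (hη w ⟨w.2, hw⟩), hη _ (hU w w.2 hw), neg_zero]

theorem cost_hyper {c : ℕ} {H : Submodule ℝ Der} (hH : FiniteDimensional ℝ H)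
    {A V U : Submodule ℝ (E c)} (hAV : A ≤ V) (hr : finrank ℝ V = finrank ℝ A + 1)
    (hV : Pres H V) (hUA : U ≤ A) (hU : Pres H U) :
    finrank ℝ H + finrank ℝ U ≤ finrank ℝ (HV H A) + finrank ℝ A := by
  obtain ⟨η, hη, hη', hsp⟩ := finrank_perp_succ hAV hr
  have h := cost_fam hH A
    (Sum.elim (fun i => ((finBasis ℝ (perp V) i : perp V) : E c)) (fun _ : Unit => η))
    (by
      rintro (i | _)
      · exact perp_anti hAV (finBasis ℝ (perp V) i).2
      · exact hη)
    (by
      rw [Set.Sum.elim_range, Submodule.span_union, span_fin, Set.range_const, ← hsp])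
    (Sum.elim (fun _ => ⊥) (fun _ => ann A U))
    (by
      rintro D hD (i | _)
      · show rs A (dE D _) ∈ (⊥ : Submodule ℝ (Dual ℝ A))
        rw [Submodule.mem_bot]
        apply LinearMap.ext
        intro w
        have h1 := (finBasis ℝ (perp V) i).2
        show (dotProduct (dE D ((finBasis ℝ (perp V) i : perp V) : E c)) (w : E c)).re = 0
        rw [dot_re D _ _ (h1 w (hAV w.2)), h1 _ (hV D hD w (hAV w.2)), neg_zero]
      · show rs A (dE D η) ∈ ann A U
        apply rs_mem_ann
        · intro w _ hw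
          exact ⟨hUA (hU D hD w hw), hU D hD w hw⟩
        · rw [inf_eq_right.2 hUA]
          exact perp_anti hUA hη)
  rw [Fintype.sum_sum_type] at h
  have h2 := finrank_ann hUA
  have e1 : (∑ i : Fin (finrank ℝ (perp V)), finrank ℝ (Sum.elim
      (fun _ : Fin (finrank ℝ (perp V)) => (⊥ : Submodule ℝ (Dual ℝ A)))
      (fun _ : Unit => ann A U) (Sum.inl i) : Submodule ℝ (Dual ℝ A))) = 0 :=
    Finset.sum_eq_zero fun i _ => finrank_bot ℝ (Dual ℝ A)
  have e2 : (∑ i : Unit, finrank ℝ (Sum.elim
      (fun _ : Fin (finrank ℝ (perp V)) => (⊥ : Submodule ℝ (Dual ℝ A)))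
      (fun _ : Unit => ann A U) (Sum.inr i) : Submodule ℝ (Dual ℝ A))) =
      finrank ℝ (ann A U) := by
    rw [Fintype.sum_unique]
    rfl
  rw [e1, e2] at h
  omega

theorem cost_super {c : ℕ} {H : Submodule ℝ Der} (hH : FiniteDimensional ℝ H)
    {A V' : Submodule ℝ (E c)} (hAV : A ≤ V') (hr : finrank ℝ V' = finrank ℝ A + 1)
    (hA : Pres H A) :
    finrank ℝ H + finrank ℝ V' ≤ finrank ℝ (HV H V') + 2 * c := by
  have h := cost_fam hH V' (fun i => ((finBasis ℝ (perp V') i : perp V') : E c))
    (fun i => (finBasis ℝ (perp V') i).2) (by rw [span_fin]) (fun _ => ann V' A)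
    (by
      intro D hD i
      apply rs_mem_ann
      · intro w _ hw
        exact ⟨hAV (hA D hD w hw), hA D hD w hw⟩
      · rw [inf_eq_right.2 hAV]
        exact perp_anti hAV (finBasis ℝ (perp V') i).2)
  have h2 := finrank_ann hAV
  have h3 : finrank ℝ (ann V' A) = 1 := by omega
  rw [Finset.sum_const, Finset.card_univ, Fintype.card_fin, h3, smul_eq_mul, mul_one] at h
  have h4 := finrank_perp V'
  omega

end Pool.Agent.H45.DQ
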