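import Pool.Agent.H45.DQ.PenB
import Pool.Agent.H45.DQ.Sub2
import Pool.Agent.H45.DQ.T0

/-!
# Module T1a: transition of width one, kernel vector in the intersection; two-dimensional case

`A = V ⊓ V'`, `finrank A = 2a - 1`, `l = lam (k+a)`, `Y = perp V' ⊔ FF lam a k (κ'-1)`,
`finrank Y ≤ 2b + 2κ' - 2`.

PROOF of `t1_a` (`u1 ∈ A`): `cost_hyper` with `U = span {u1} = V ⊓ perp (FF lam a k a)` (preserved): the cost
of `A` is `≤ 2a - 2`; `cost_super`: the cost of `V'` is `≤ 2b` (`H₁ = HV (HV H A) V' ≤ HV H V'`; the final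
space `HK H₁ l ≤ HK (HV H V') l`, `Submodule.finrank_mono`); `kill_phase` with `Y`: `≤ 2b + 2κ' - 1`.
Sum `2a - 2 + 2b + 2b + 2κ' - 1 = 4(a+b) - 3 - 2(a-κ')`.
PROOF of `t1_two` (`l ∈ Y`, `I • l ∈ Y`).
(i) `Y` not closed under `I`: `cost_hyper` (`U = ⊥`) `2a - 1`, `cost_super` `2b`, `kill_cplx`
`2b + 2κ' - 3`: sum `4(a+b) - 4 - 2(a-κ')`.
(ii) `Y` closed under `I`: `Z' = perp Y = V' ⊓ perp (FF lam a k (κ'-1))` is closed under `I` (`perp_cplx`),
`finrank Z' ≥ 2a - 2κ' + 2 ≥ 2` (`le_inter`). `Z' ≤ A` is impossible: then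
`Z' ≤ V ⊓ perp (FF lam a k (κ'-1))`, which has dimension exactly `2a - 2κ' + 2` (`inter_le`,
`κ' - 1 < a`), so they are equal and contain the vector `u1 ≠ 0` of `V ⊓ perp (FF lam a k a) = ℝ u1`
(`plane`); then `I • u1 ∈ V`, and `I • u1 ∈ perp (FF lam a k a)`, so `I • u1 ∈ ℝ u1`, absurd. So
`V' = A ⊔ Z'` and `B = A ⊓ Z' = A ⊓ perp (FF lam a k (κ'-1))` has codimension one in `Z'`; `B` is not
closed under `I` (`even_cplx` for `B` and `Z'`), `B ⊔ iS B ≤ Z'` is bigger than `B`, so `= Z'`. Hence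
`V' = A ⊔ iS (A ⊓ perp (FF lam a k (κ'-1)))` is preserved by everything which preserves `A` and the rows:
cost of `V'` only `2a - 1`. `kill_mem`: `≤ 2b + 2κ' - 2`. Sum
`2a - 1 + 2b + 2κ' - 2 ≤ 4(a+b) - 4 - 2(a-κ')` because `2b ≥ 1`... (`2a + 2b + 2κ' - 3 ≤ 2a + 4b + 2κ' - 4`).
-/

set_option autoImplicit false

open Module

namespace Pool.Agent.H45.DQ

private theorem ta_bot {c : ℕ} (H : Submodule ℝ Der) : Pres H (⊥ : Submodule ℝ (E c)) := by
  intro D _ v hv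
  rw [Submodule.mem_bot] at hv
  rw [hv, dE_zero]
  exact Submodule.zero_mem _

private theorem ta_HK {c : ℕ} {H H' : Submodule ℝ Der} (h : H ≤ H') (l : E c) :
    HK H l ≤ HK H' l := fun _ hD => ⟨h hD.1, hD.2⟩

private theorem ta_HV {c : ℕ} {H H' : Submodule ℝ Der} (h : H ≤ H') (V : Submodule ℝ (E c)) :
    HV H V ≤ HV H' V := fun _ hD => ⟨h hD.1, hD.2⟩

private theorem ta_fin {H H' : Submodule ℝ Der} (h : H ≤ H') (hf : FiniteDimensional ℝ H') :
    FiniteDimensional ℝ H := Submodule.finiteDimensional_of_le h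

private theorem ta_I {a b : ℕ} {lam : ℕ → E (a + b)} {k : ℕ} {V : Submodule ℝ (E (a + b))}
    {u1 : E (a + b)} (h0 : u1 ≠ 0) (hL : V ⊓ perp (FF lam a k a) = Submodule.span ℝ {u1}) :
    Complex.I • u1 ∉ V := by
  intro h1
  have h2 : u1 ∈ V ⊓ perp (FF lam a k a) := by
    rw [hL]
    exact Submodule.mem_span_singleton_self u1
  have h3 : Complex.I • u1 ∈ V ⊓ perp (FF lam a k a) :=
    ⟨h1, perp_cplx (FF_cplx lam a k a) u1 h2.2⟩
  rw [hL, Submodule.mem_span_singleton] at h3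
  obtain ⟨r, hr⟩ := h3
  apply h0
  funext j
  have h4 := congrFun hr j
  simp only [Pi.smul_apply, Complex.real_smul, smul_eq_mul] at h4
  have h5 : ((r : ℂ) - Complex.I) * u1 j = 0 := by linear_combination h4
  rcases mul_eq_zero.1 h5 with h6 | h6
  · exfalso
    have h7 := congrArg Complex.im h6
    simp at h7
  · exact h6

theorem t1_a {a b : ℕ} {lam : ℕ → E (a + b)} {k : ℕ} {H : Submodule ℝ Der}
    {V V' : Submodule ℝ (E (a + b))} (h : Ctx lam k H V) (hV' : finrank ℝ V' = 2 * a)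
    (hA : finrank ℝ (V ⊓ V' : Submodule ℝ (E (a + b))) + 1 = 2 * a) {u1 : E (a + b)}
    (hu1 : u1 ≠ 0) (hu1' : u1 ∈ V') (hline : V ⊓ perp (FF lam a k a) = Submodule.span ℝ {u1})
    {κ' : ℕ} (hκ : 1 ≤ κ') (hκa : κ' ≤ a) {v : ℂ} (hv : v ≠ 0)
    (hl : v • lam (k + a) ∈ perp V' ⊔ FF lam a k (κ' - 1)) :
    finrank ℝ H + 2 * (a - κ') + 3 ≤
      finrank ℝ (HK (HV H V') (lam (k + a))) + 4 * (a + b) := by
  have hfin := h.fin
  have hU : Pres H (Submodule.span ℝ {u1}) := by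
    rw [← hline]
    exact h.pres.inf (pres_FF h.kil a).perp
  have hu1m : u1 ∈ V ⊓ perp (FF lam a k a) := by
    rw [hline]
    exact Submodule.mem_span_singleton_self u1
  have hUA : Submodule.span ℝ {u1} ≤ V ⊓ V' := by
    rw [Submodule.span_singleton_le_iff_mem]
    exact ⟨hu1m.1, hu1'⟩
  have c1 := cost_hyper hfin (inf_le_left (a := V) (b := V')) (by rw [h.rk]; omega) h.pres hUA hU
  rw [finrank_span_singleton hu1] at c1
  have f1 : FiniteDimensional ℝ (HV H (V ⊓ V')) := ta_fin (HV_le _ _) hfin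
  have c2 := cost_super f1 (inf_le_right (a := V) (b := V')) (by rw [hV']; omega) (pres_HV H _)
  have f2 : FiniteDimensional ℝ (HV (HV H (V ⊓ V')) V') := ta_fin (HV_le _ _) f1
  have f3 : FiniteDimensional ℝ (HV H V') := ta_fin (HV_le _ _) hfin
  have f4 : FiniteDimensional ℝ (HK (HV H V') (lam (k + a))) := ta_fin (HK_le _ _) f3
  have hle : HV (HV H (V ⊓ V')) V' ≤ H := (HV_le _ _).trans (HV_le _ _)
  have hY : Pres (HV (HV H (V ⊓ V')) V') (perp V' ⊔ FF lam a k (κ' - 1)) :=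
    (pres_HV _ _).perp.sup (pres_FF (fun m hm => (h.kil m hm).mono hle) _)
  have c3 := kill_phase f2 hY hv hl
  have c4 := finrank_Y_le lam k (κ' - 1) hV'
  have c5 := Submodule.finrank_mono (R := ℝ)
    (ta_HK (ta_HV (HV_le H (V ⊓ V')) V') (lam (k + a)))
  omega

theorem t1_two {a b : ℕ} {lam : ℕ → E (a + b)} {k : ℕ} {H : Submodule ℝ Der}
    {V V' : Submodule ℝ (E (a + b))} (h : Ctx lam k H V) (hd : Df lam a k V a 1)
    (hV' : finrank ℝ V' = 2 * a)
    (hA : finrank ℝ (V ⊓ V' : Submodule ℝ (E (a + b))) + 1 = 2 * a)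
    {κ' : ℕ} (hκ : 1 ≤ κ') (hκa : κ' ≤ a)
    (hl : lam (k + a) ∈ perp V' ⊔ FF lam a k (κ' - 1))
    (hl' : Complex.I • lam (k + a) ∈ perp V' ⊔ FF lam a k (κ' - 1)) :
    finrank ℝ H + 2 * (a - κ') + 4 ≤
      finrank ℝ (HK (HV H V') (lam (k + a))) + 4 * (a + b) := by
  have hfin := h.fin
  have c1 := cost_hyper hfin (inf_le_left (a := V) (b := V')) (by rw [h.rk]; omega) h.pres
    (bot_le : (⊥ : Submodule ℝ (E (a + b))) ≤ V ⊓ V') (ta_bot H)
  rw [finrank_bot, add_zero] at c1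
  have f1 : FiniteDimensional ℝ (HV H (V ⊓ V')) := ta_fin (HV_le _ _) hfin
  have f3 : FiniteDimensional ℝ (HV H V') := ta_fin (HV_le _ _) hfin
  have f4 : FiniteDimensional ℝ (HK (HV H V') (lam (k + a))) := ta_fin (HK_le _ _) f3
  have c4 := finrank_Y_le lam k (κ' - 1) hV'
  by_cases hcl : ∃ y ∈ perp V' ⊔ FF lam a k (κ' - 1),
      Complex.I • y ∉ perp V' ⊔ FF lam a k (κ' - 1)
  · have c2 := cost_super f1 (inf_le_right (a := V) (b := V')) (by rw [hV']; omega) (pres_HV H _)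
    have f2 : FiniteDimensional ℝ (HV (HV H (V ⊓ V')) V') := ta_fin (HV_le _ _) f1
    have hle : HV (HV H (V ⊓ V')) V' ≤ H := (HV_le _ _).trans (HV_le _ _)
    have hY : Pres (HV (HV H (V ⊓ V')) V') (perp V' ⊔ FF lam a k (κ' - 1)) :=
      (pres_HV _ _).perp.sup (pres_FF (fun m hm => (h.kil m hm).mono hle) _)
    have c3 := kill_cplx f2 hY hcl hl hl'
    have c5 := Submodule.finrank_mono (R := ℝ)
      (ta_HK (ta_HV (HV_le H (V ⊓ V')) V') (lam (k + a)))
    omega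
  push Not at hcl
  -- the closed case
  obtain ⟨A, hAe⟩ : ∃ A, A = V ⊓ V' := ⟨_, rfl⟩
  obtain ⟨F, hF⟩ : ∃ F, F = FF lam a k (κ' - 1) := ⟨_, rfl⟩
  obtain ⟨Z, hZ⟩ : ∃ Z, Z = V' ⊓ perp F := ⟨_, rfl⟩
  have hrk := h.rk
  have hb := h.posb
  have hZI : ∀ u ∈ Z, Complex.I • u ∈ Z := by
    have h1 := perp_cplx hcl
    rw [perp_sup, perp_perp, ← hF, ← hZ] at h1
    exact h1
  have hrZ : 2 * a ≤ finrank ℝ Z + 2 * (κ' - 1) := by
    rw [hZ, hF]
    exact le_inter lam k (κ' - 1) hV'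
  have hrA : finrank ℝ A + 1 = 2 * a := by
    rw [hAe]
    exact hA
  have hAV : A ≤ V := hAe ▸ inf_le_left
  have hAV' : A ≤ V' := hAe ▸ inf_le_right
  have hZV' : Z ≤ V' := hZ ▸ inf_le_left
  have hZA : ¬ Z ≤ A := by
    intro hle
    have h1 : Z ≤ V ⊓ perp F := le_inf (hle.trans hAV) (hZ ▸ inf_le_right)
    have h2 := inter_le h.lin hrk hd (i := κ' - 1) (by omega)
    rw [← hF] at h2
    have h3 : Z = V ⊓ perp F := Submodule.eq_of_le_of_finrank_le h1 (by omega)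
    obtain ⟨-, u1, h10, hL, -, -, -⟩ := plane h hd
    have hu1m : u1 ∈ V ⊓ perp (FF lam a k a) := by
      rw [hL]
      exact Submodule.mem_span_singleton_self u1
    have h4 : u1 ∈ Z := by
      rw [h3, hF]
      exact ⟨hu1m.1, perp_anti (FF_mono lam a k (by omega)) hu1m.2⟩
    have h5 := hZI u1 h4
    rw [h3] at h5
    exact ta_I h10 hL h5.1
  have hsup : A ⊔ Z = V' := by
    have h1 : A ⊔ Z ≤ V' := sup_le hAV' hZV'
    have h2 : A < A ⊔ Z := by
      refine lt_of_le_of_ne le_sup_left fun he => hZA ?_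
      rw [he]
      exact le_sup_right
    have h3 := Submodule.finrank_lt_finrank_of_lt h2
    exact Submodule.eq_of_le_of_finrank_le h1 (by omega)
  have hdim := Submodule.finrank_sup_add_finrank_inf_eq A Z
  rw [hsup, hV'] at hdim
  obtain ⟨B, hB⟩ : ∃ B, B = A ⊓ Z := ⟨_, rfl⟩
  have hBZ : B ≤ Z := hB ▸ inf_le_right
  have hrB : finrank ℝ B + 1 = finrank ℝ Z := by
    rw [hB]
    omega
  have hBI : ∃ w ∈ B, Complex.I • w ∉ B := by
    by_contra hcon
    push Not at hcon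
    obtain ⟨m, hm⟩ := even_cplx hcon
    obtain ⟨m', hm'⟩ := even_cplx hZI
    omega
  have hiSB : iS B ≤ Z := by
    intro w hw
    have h1 := hZI _ (hBZ hw)
    rw [smul_smul, Complex.I_mul_I, neg_one_smul] at h1
    exact (Submodule.neg_mem_iff Z).1 h1
  have hBB : B ⊔ iS B = Z := by
    obtain ⟨w, hw, hw'⟩ := hBI
    have h1 : B < B ⊔ iS B := by
      refine lt_of_le_of_ne le_sup_left fun he => hw' ?_
      rw [he]
      refine Submodule.mem_sup_right ?_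
      show Complex.I • (Complex.I • w) ∈ B
      rw [smul_smul, Complex.I_mul_I, neg_one_smul]
      exact (Submodule.neg_mem_iff B).2 hw
    have h3 := Submodule.finrank_lt_finrank_of_lt h1
    exact Submodule.eq_of_le_of_finrank_le (sup_le hBZ hiSB) (by omega)
  have hBF : B = A ⊓ perp F := by
    rw [hB, hZ, ← inf_assoc, inf_eq_left.2 hAV']
  have hV'eq : V' = A ⊔ iS (A ⊓ perp F) := by
    rw [← hBF, ← hsup, ← hBB, ← sup_assoc, sup_eq_left.2 (hB ▸ inf_le_left : B ≤ A)]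
  rw [← hAe] at c1 f1
  have hpA : Pres (HV H A) A := pres_HV H A
  have hpF : Pres (HV H A) F := by
    rw [hF]
    exact pres_FF (fun m hm => (h.kil m hm).mono (HV_le H A)) _
  have hpV' : Pres (HV H A) V' := by
    rw [hV'eq]
    exact hpA.sup (hpA.inf hpF.perp).iS
  have hle : HV H A ≤ HV H V' := fun D hD => ⟨hD.1, fun w hw => hpV' D hD w hw⟩
  have hY : Pres (HV H A) (perp V' ⊔ FF lam a k (κ' - 1)) := by
    rw [← hF]
    exact hpV'.perp.sup hpF
  have c3 := kill_mem f1 hY hl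
  have c5 := Submodule.finrank_mono (R := ℝ) (ta_HK hle (lam (k + a)))
  omega

end Pool.Agent.H45.DQ
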