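import Pool.Agent.H45.DQ.PenB
import Pool.Agent.H45.DQ.Sub2
import Pool.Agent.H45.DQ.T0

/-!
# Module T1b: transition of width one, common image

`A = V ⊓ V'`, `l = lam (k+a)`, `Y = perp V' ⊔ FF lam a k (κ'-1)`, `finrank Y ≤ 2b + 2κ' - 2`,
`perp Y = V' ⊓ perp (FF lam a k (κ'-1)) ⊇ V' ⊓ perp (FF lam a k (a-1)) = span {u0, y} =: U'`.

PROOF. `l · u0 = r p0`, `l · y = s p0` with real `r, s`, `p0 = lam k · u0`.
Case 1: `r ≠ 0` or `s ≠ 0`. `cost_hyper` (`U = ⊥`): `2a - 1` for `A`; `cost_super`: `2b` for `V'`. Let `H₁`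
be the space obtained (`HV (HV H A) V'`). The line `ℝ u0 = A ⊓ perp (FF lam a k (a-1))` is preserved by
`H₁`, so `dC D p0` is a real multiple of `p0` (`line_p0` with `U = ℝ u0`). `phase` with `w = u0` or
`w = y` (both in `perp Y`) and `kill_line`: cost `≤ finrank Y`. Sum `2a - 1 + 2b + 2b + 2κ' - 2`.
Case 2: `r = s = 0`: `l · w = 0` for all `w ∈ U'`.
 (a) `U'` closed under `I`. Then `I • u0 ∈ U'`, `I • u0 ∉ A` (otherwise it would be in `A ⊓ perp FF = ℝ u0`), so
 `V' = A ⊔ span {I • u0} = A ⊔ iS (A ⊓ perp (FF lam a k (a-1)))` is preserved by `HV H A`: cost `2a - 1`;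
 `kill_phase`: `≤ 2b + 2κ' - 1`. Sum `2a - 1 + 2b + 2κ' - 1 ≤ 4(a+b) - 3 - 2(a-κ')` as `b ≥ 1`.
 (b) `U'` not closed under `I`. After the costs `2a - 1`, `2b`: `Z = perp (U' ⊔ iS U')` is preserved by
 `H₁`, `v • l ∈ Z` (`l · w = 0` for `w ∈ U'`), and `¬ Y ≤ Z`: otherwise
 `iS U' ≤ perp Z ≤ perp Y ≤ V'` and `iS U' ≤ perp (FF lam a k (a-1))` (complex), so `iS U' ≤ U'`, i.e. `U'` is
 closed under `I` (apply `-I`). `kill_phase_inf`: cost `≤ finrank Y`.
-/

set_option autoImplicit false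

open Module

namespace Pool.Agent.H45.DQ

private theorem tb_bot {c : ℕ} (H : Submodule ℝ Der) : Pres H (⊥ : Submodule ℝ (E c)) := by
  intro D _ v hv
  rw [Submodule.mem_bot] at hv
  rw [hv, dE_zero]
  exact Submodule.zero_mem _

private theorem tb_HK {c : ℕ} {H H' : Submodule ℝ Der} (h : H ≤ H') (l : E c) :
    HK H l ≤ HK H' l := fun _ hD => ⟨h hD.1, hD.2⟩

private theorem tb_HV {c : ℕ} {H H' : Submodule ℝ Der} (h : H ≤ H') (V : Submodule ℝ (E c)) :
    HV H V ≤ HV H' V := fun _ hD => ⟨h hD.1, hD.2⟩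

private theorem tb_fin {H H' : Submodule ℝ Der} (h : H ≤ H') (hf : FiniteDimensional ℝ H') :
    FiniteDimensional ℝ H := Submodule.finiteDimensional_of_le h

/-- `I • u` is not on the real line of `u ≠ 0` -/
private theorem tb_I {c : ℕ} {u : E c} (h0 : u ≠ 0) : Complex.I • u ∉ Submodule.span ℝ {u} := by
  intro h3
  rw [Submodule.mem_span_singleton] at h3
  obtain ⟨r, hr⟩ := h3
  apply h0
  funext j
  have h4 := congrFun hr j
  simp only [Pi.smul_apply, Complex.real_smul, smul_eq_mul] at h4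
  have h5 : ((r : ℂ) - Complex.I) * u j = 0 := by linear_combination h4
  rcases mul_eq_zero.1 h5 with h6 | h6
  · exfalso
    have h7 := congrArg Complex.im h6
    simp at h7
  · exact h6

theorem t1_b {a b : ℕ} {lam : ℕ → E (a + b)} {k : ℕ} {H : Submodule ℝ Der}
    {V V' : Submodule ℝ (E (a + b))} (h : Ctx lam k H V) (hV' : finrank ℝ V' = 2 * a)
    {u0 u1 y : E (a + b)} (hL : Lin lam k V V' u0 u1 y)
    (h1 : ∃ r : ℝ, dotProduct (lam (k + a)) u0 = r * dotProduct (lam k) u0)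
    (h2 : ∃ r : ℝ, dotProduct (lam (k + a)) y = r * dotProduct (lam k) u0)
    {κ' : ℕ} (hκ : 1 ≤ κ') (hκa : κ' ≤ a) {v : ℂ} (hv : v ≠ 0)
    (hl : v • lam (k + a) ∈ perp V' ⊔ FF lam a k (κ' - 1)) :
    finrank ℝ H + 2 * (a - κ') + 3 ≤
      finrank ℝ (HK (HV H V') (lam (k + a))) + 4 * (a + b) := by
  have hfin := h.fin
  have hA := hL.rkA
  have hb := h.posb
  have hrk := h.rk
  have c1 := cost_hyper hfin (inf_le_left (a := V) (b := V')) (by rw [hrk]; omega) h.pres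
    (bot_le : (⊥ : Submodule ℝ (E (a + b))) ≤ V ⊓ V') (tb_bot H)
  rw [finrank_bot, add_zero] at c1
  have f1 : FiniteDimensional ℝ (HV H (V ⊓ V')) := tb_fin (HV_le _ _) hfin
  have c2 := cost_super f1 (inf_le_right (a := V) (b := V')) (by rw [hV']; omega) (pres_HV H _)
  have f2 : FiniteDimensional ℝ (HV (HV H (V ⊓ V')) V') := tb_fin (HV_le _ _) f1
  have f3 : FiniteDimensional ℝ (HV H V') := tb_fin (HV_le _ _) hfin
  have f4 : FiniteDimensional ℝ (HK (HV H V') (lam (k + a))) := tb_fin (HK_le _ _) f3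
  have c4 := finrank_Y_le lam k (κ' - 1) hV'
  have c5 := Submodule.finrank_mono (R := ℝ)
    (tb_HK (tb_HV (HV_le H (V ⊓ V')) V') (lam (k + a)))
  have hle : HV (HV H (V ⊓ V')) V' ≤ H := (HV_le _ _).trans (HV_le _ _)
  have hrows : ∀ m < k + a, Kil (HV (HV H (V ⊓ V')) V') (lam m) :=
    fun m hm => (h.kil m hm).mono hle
  have hY : Pres (HV (HV H (V ⊓ V')) V') (perp V' ⊔ FF lam a k (κ' - 1)) :=
    (pres_HV _ _).perp.sup (pres_FF hrows _)
  have hpA : Pres (HV (HV H (V ⊓ V')) V') (V ⊓ V') := (pres_HV H (V ⊓ V')).mono (HV_le _ _)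
  have hu0A : u0 ∈ V ⊓ V' ⊓ perp (FF lam a k (a - 1)) := by
    rw [hL.line0]
    exact Submodule.mem_span_singleton_self u0
  have hu00 : u0 ≠ 0 := by
    rintro rfl
    exact hL.p0 (dotProduct_zero _)
  have hU'u0 : u0 ∈ V' ⊓ perp (FF lam a k (a - 1)) := by
    rw [hL.plane]
    exact Submodule.subset_span (by simp)
  have hU'y : y ∈ V' ⊓ perp (FF lam a k (a - 1)) := by
    rw [hL.plane]
    exact Submodule.subset_span (by simp)
  have hperpY : ∀ w ∈ V' ⊓ perp (FF lam a k (a - 1)), w ∈ perp (perp V' ⊔ FF lam a k (κ' - 1)) := by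
    intro w hw
    rw [perp_sup, perp_perp]
    exact ⟨hw.1, perp_anti (FF_mono lam a k (by omega)) hw.2⟩
  obtain ⟨r, hr⟩ := h1
  obtain ⟨s, hs⟩ := h2
  -- case 1
  have case1 : ∀ (w : E (a + b)) (x : ℝ), w ∈ V' ⊓ perp (FF lam a k (a - 1)) → x ≠ 0 →
      dotProduct (lam (k + a)) w = x * dotProduct (lam k) u0 →
      finrank ℝ H + 2 * (a - κ') + 3 ≤
        finrank ℝ (HK (HV H V') (lam (k + a))) + 4 * (a + b) := by
    intro w x hw hx hx2
    have hline0 : Pres (HV (HV H (V ⊓ V')) V') (Submodule.span ℝ {u0}) := by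
      rw [← hL.line0]
      exact hpA.inf (pres_FF hrows _).perp
    have hline := line_p0 hline0 (hrows k (by have := h.posa; omega))
      (Submodule.mem_span_singleton_self u0) (fun w' hw' => by
        obtain ⟨t, rfl⟩ := Submodule.mem_span_singleton.1 hw'
        exact ⟨t, by rw [dotProduct_smul, Complex.real_smul]⟩)
    have hvl := phase hv hL.p0 hl (hperpY w hw) hx hx2 hline
    have c3 := kill_line f2 hY hv hvl hl
    omega
  by_cases hr0 : r ≠ 0
  · exact case1 u0 r hU'u0 hr0 hr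
  by_cases hs0 : s ≠ 0
  · exact case1 y s hU'y hs0 hs
  push Not at hr0 hs0
  have hlU' : ∀ w ∈ V' ⊓ perp (FF lam a k (a - 1)), dotProduct (lam (k + a)) w = 0 := by
    intro w hw
    rw [hL.plane] at hw
    obtain ⟨x, z, rfl⟩ := Submodule.mem_span_pair.1 hw
    rw [dotProduct_add, dotProduct_smul, dotProduct_smul, hr, hs, hr0, hs0]
    simp
  by_cases hcl : ∀ w ∈ V' ⊓ perp (FF lam a k (a - 1)),
      Complex.I • w ∈ V' ⊓ perp (FF lam a k (a - 1))
  · -- closed
    have hIu0 := hcl u0 hU'u0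
    have hIA : -(Complex.I • u0) ∉ V ⊓ V' := by
      intro h3
      have h4 : Complex.I • u0 ∈ V ⊓ V' ⊓ perp (FF lam a k (a - 1)) :=
        ⟨(Submodule.neg_mem_iff _).1 h3, hIu0.2⟩
      rw [hL.line0] at h4
      exact tb_I hu00 h4
    have hV'eq : (V ⊓ V') ⊔ iS (V ⊓ V' ⊓ perp (FF lam a k (a - 1))) = V' := by
      have h3 : (V ⊓ V') ⊔ iS (V ⊓ V' ⊓ perp (FF lam a k (a - 1))) ≤ V' := by
        refine sup_le inf_le_right fun w hw => ?_
        have h4 : Complex.I • w ∈ V' ⊓ perp (FF lam a k (a - 1)) := ⟨hw.1.2, hw.2⟩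
        have h5 := (hcl _ h4).1
        rw [smul_smul, Complex.I_mul_I, neg_one_smul] at h5
        exact (Submodule.neg_mem_iff V').1 h5
      have h4 : V ⊓ V' < (V ⊓ V') ⊔ iS (V ⊓ V' ⊓ perp (FF lam a k (a - 1))) := by
        refine lt_of_le_of_ne le_sup_left fun he => hIA ?_
        rw [he]
        refine Submodule.mem_sup_right ?_
        show Complex.I • -(Complex.I • u0) ∈ V ⊓ V' ⊓ perp (FF lam a k (a - 1))
        rw [smul_neg, smul_smul, Complex.I_mul_I, neg_one_smul, neg_neg]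
        exact hu0A
      have h5 := Submodule.finrank_lt_finrank_of_lt h4
      exact Submodule.eq_of_le_of_finrank_le h3 (by omega)
    have hp1 : Pres (HV H (V ⊓ V')) (V ⊓ V') := pres_HV H _
    have hrows1 : ∀ m < k + a, Kil (HV H (V ⊓ V')) (lam m) :=
      fun m hm => (h.kil m hm).mono (HV_le _ _)
    have hpV' : Pres (HV H (V ⊓ V')) V' := by
      have h3 := hp1.sup (hp1.inf (pres_FF hrows1 (a - 1)).perp).iS
      rw [hV'eq] at h3
      exact h3
    have hle1 : HV H (V ⊓ V') ≤ HV H V' := fun D hD => ⟨hD.1, fun w hw => hpV' D hD w hw⟩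
    have hY1 : Pres (HV H (V ⊓ V')) (perp V' ⊔ FF lam a k (κ' - 1)) :=
      hpV'.perp.sup (pres_FF hrows1 _)
    have c3 := kill_phase f1 hY1 hv hl
    have c6 := Submodule.finrank_mono (R := ℝ) (tb_HK hle1 (lam (k + a)))
    omega
  · -- not closed
    push Not at hcl
    obtain ⟨w0, hw0, hw0'⟩ := hcl
    have hpU' : Pres (HV (HV H (V ⊓ V')) V') (V' ⊓ perp (FF lam a k (a - 1))) :=
      (pres_HV _ _).inf (pres_FF hrows _).perp
    have hZ : Pres (HV (HV H (V ⊓ V')) V') (perp ((V' ⊓ perp (FF lam a k (a - 1))) ⊔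
        iS (V' ⊓ perp (FF lam a k (a - 1))))) := (hpU'.sup hpU'.iS).perp
    have hlZ : v • lam (k + a) ∈ perp ((V' ⊓ perp (FF lam a k (a - 1))) ⊔
        iS (V' ⊓ perp (FF lam a k (a - 1)))) := by
      rw [perp_sup]
      refine ⟨fun w hw => ?_, fun w hw => ?_⟩
      · rw [smul_dotProduct, hlU' w hw, smul_zero, Complex.zero_re]
      · have h3 := hlU' _ hw
        rw [dotProduct_smul, smul_eq_mul, mul_eq_zero] at h3
        rw [smul_dotProduct, h3.resolve_left Complex.I_ne_zero, smul_zero, Complex.zero_re]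
    have hYZ : ¬ perp V' ⊔ FF lam a k (κ' - 1) ≤
        perp ((V' ⊓ perp (FF lam a k (a - 1))) ⊔ iS (V' ⊓ perp (FF lam a k (a - 1)))) := by
      intro hle2
      have h3 := perp_anti hle2
      rw [perp_perp, perp_sup, perp_perp] at h3
      apply hw0'
      refine ⟨(h3 (Submodule.mem_sup_right ?_)).1, perp_cplx (FF_cplx _ _ _ _) w0 hw0.2⟩
      show Complex.I • (Complex.I • w0) ∈ V' ⊓ perp (FF lam a k (a - 1))
      rw [smul_smul, Complex.I_mul_I, neg_one_smul]
      exact (Submodule.neg_mem_iff _).2 hw0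
    have c3 := kill_phase_inf f2 hY hZ hYZ hv hl hlZ
    omega

end Pool.Agent.H45.DQ
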