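import Pool.Agent.H45.DQ.T1c

/-!
# Module T1d: transition of width one, common kernel: end of the count

The proof is in the header of `T1c.lean`; `kill_SS` is proved there.

PROOF of `finrank_SS` (case (i), `lam k · y ≠ 0`): see (i) there: with `Q` the kernel of
`ℝ × ℂ → E / U'`, `finrank SS = finrank U' + 3 - finrank Q` (`SS` is the image of `U' × (ℝ × ℂ)`), `finrank Q ≤ 1`,
and if `Q ≠ ⊥` there is `(α, z) ∈ Q` with `z * (lam k · y) ≠ 0`. Statement: either
`finrank SS ≥ finrank U' + 3`, or `finrank SS ≥ finrank U' + 2` and such `(α, z)` exists.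
PROOF of `t1_c`: sum of the costs as in the header of `T1c.lean`.
-/

set_option autoImplicit false

open Module

namespace Pool.Agent.H45.DQ

private theorem td_bot {c : ℕ} (H : Submodule ℝ Der) : Pres H (⊥ : Submodule ℝ (E c)) := by
  intro D _ v hv
  rw [Submodule.mem_bot] at hv
  rw [hv, dE_zero]
  exact Submodule.zero_mem _

private theorem td_fin {H H' : Submodule ℝ Der} (h : H ≤ H') (hf : FiniteDimensional ℝ H') :
    FiniteDimensional ℝ H := Submodule.finiteDimensional_of_le h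

private theorem td_span {c : ℕ} {r : ℝ} (hr : r ≠ 0) (u : E c) :
    Submodule.span ℝ {r • u} = Submodule.span ℝ {u} := by
  apply le_antisymm
  · rw [Submodule.span_singleton_le_iff_mem]
    exact Submodule.smul_mem _ _ (Submodule.mem_span_singleton_self u)
  · rw [Submodule.span_singleton_le_iff_mem]
    have h := Submodule.smul_mem _ r⁻¹ (Submodule.mem_span_singleton_self (R := ℝ) (r • u))
    rwa [smul_smul, inv_mul_cancel₀ hr, one_smul] at h

theorem Lin.scale {a b : ℕ} {lam : ℕ → E (a + b)} {k : ℕ} {V V' : Submodule ℝ (E (a + b))}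
    {u0 u1 y : E (a + b)} (hL : Lin lam k V V' u0 u1 y) {r : ℝ} (hr : r ≠ 0) :
    Lin lam k V V' u0 (r • u1) (r • y) := by
  have hback : ∀ (W : Submodule ℝ (E (a + b))) (w : E (a + b)), r • w ∈ W → w ∈ W := by
    intro W w h
    have h1 := W.smul_mem r⁻¹ h
    rwa [smul_smul, inv_mul_cancel₀ hr, one_smul] at h1
  refine ⟨V.smul_mem r hL.u1V, fun h => hL.u1V' (hback _ _ h), ?_, hL.line0, hL.p0,
    V'.smul_mem r hL.yV', fun h => hL.yV (hback _ _ h), ?_, ?_, hL.rkA⟩
  · rw [td_span hr]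
    exact hL.line1
  · rw [td_span hr]
    exact hL.sup
  · rw [hL.plane]
    have e1 : ∀ w : E (a + b), Submodule.span ℝ {u0, w} =
        Submodule.span ℝ {u0} ⊔ Submodule.span ℝ {w} := fun w => by
      rw [Submodule.span_insert]
    rw [e1, e1, td_span hr]

theorem finrank_SS {a b : ℕ} {lam : ℕ → E (a + b)} {k κ' : ℕ}
    {V V' : Submodule ℝ (E (a + b))} {u0 u1 y : E (a + b)} (hκa : κ' ≤ a)
    (hL : Lin lam k V V' u0 u1 y) (hly : dotProduct (lam (k + a)) y = 0)
    (hlu : dotProduct (lam (k + a)) u1 = -dotProduct (lam k) y)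
    (hlu0 : ¬ ∃ r : ℝ, dotProduct (lam (k + a)) u0 = r * dotProduct (lam k) u0)
    (hky : dotProduct (lam k) y ≠ 0) {v : ℂ} (hv : v ≠ 0)
    (hl : v • lam (k + a) ∈ perp V' ⊔ FF lam a k (κ' - 1)) :
    finrank ℝ (V' ⊓ perp (FF lam a k (κ' - 1)) : Submodule ℝ (E (a + b))) + 3 ≤
        finrank ℝ (SS (V' ⊓ perp (FF lam a k (κ' - 1))) y u1) ∨
      (finrank ℝ (V' ⊓ perp (FF lam a k (κ' - 1)) : Submodule ℝ (E (a + b))) + 2 ≤
          finrank ℝ (SS (V' ⊓ perp (FF lam a k (κ' - 1))) y u1) ∧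
        ∃ (α : ℝ) (z : ℂ), α • Complex.I • y + z • u1 ∈ V' ⊓ perp (FF lam a k (κ' - 1)) ∧
          z * dotProduct (lam k) y ≠ 0) := by
  obtain ⟨l, hlam⟩ : ∃ l, l = lam (k + a) := ⟨_, rfl⟩
  rw [← hlam] at hly hlu hl hlu0
  obtain ⟨U, hU⟩ : ∃ U, U = V' ⊓ perp (FF lam a k (κ' - 1)) := ⟨_, rfl⟩
  rw [← hU]
  have hUY : U ≤ perp (perp V' ⊔ FF lam a k (κ' - 1)) := by
    rw [perp_sup, perp_perp, hU]
  have hyK : y ∈ V' ⊓ perp (FF lam a k (a - 1)) := by
    rw [hL.plane]
    exact Submodule.subset_span (by simp)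
  -- the map
  obtain ⟨g, hg⟩ : ∃ g : (ℝ × ℂ) →ₗ[ℝ] E (a + b), ∀ x, g x = x.1 • Complex.I • y + x.2 • u1 := by
    refine ⟨{ toFun := fun x => x.1 • Complex.I • y + x.2 • u1, map_add' := ?_,
              map_smul' := ?_ }, fun _ => rfl⟩
    · intro x x'
      rw [Prod.fst_add, Prod.snd_add, add_smul, add_smul]
      abel
    · intro r x
      rw [Prod.smul_fst, Prod.smul_snd, RingHom.id_apply, smul_add, smul_eq_mul, mul_smul,
        smul_assoc]
  obtain ⟨G, hG⟩ : ∃ G : (U × (ℝ × ℂ)) →ₗ[ℝ] E (a + b), G = U.subtype.coprod g := ⟨_, rfl⟩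
  have hGa : ∀ x, G x = (x.1 : E (a + b)) + (x.2.1 • Complex.I • y + x.2.2 • u1) := by
    intro x
    rw [hG, LinearMap.coprod_apply, hg]
    rfl
  have hrange : LinearMap.range G ≤ SS U y u1 := by
    rintro _ ⟨x, rfl⟩
    rw [hGa]
    unfold SS
    refine Submodule.add_mem _ (Submodule.mem_sup_left x.1.2) (Submodule.mem_sup_right ?_)
    have e : x.2.2 • u1 = x.2.2.re • u1 + x.2.2.im • Complex.I • u1 := by
      funext j
      simp only [Pi.add_apply, Pi.smul_apply, smul_eq_mul, Complex.real_smul]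
      have := Complex.re_add_im x.2.2
      linear_combination -(u1 j) * this
    rw [e]
    refine Submodule.add_mem _ (Submodule.smul_mem _ _ (Submodule.subset_span (by simp)))
      (Submodule.add_mem _ (Submodule.smul_mem _ _ (Submodule.subset_span (by simp)))
        (Submodule.smul_mem _ _ (Submodule.subset_span (by simp))))
  have hrk := LinearMap.finrank_range_add_finrank_ker G
  have hprod : finrank ℝ (U × (ℝ × ℂ)) = finrank ℝ U + 3 := by
    rw [Module.finrank_prod, Module.finrank_prod, finrank_self, Complex.finrank_real_complex]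
  have hmono := Submodule.finrank_mono (R := ℝ) hrange
  -- members of the kernel
  have hker : ∀ x ∈ LinearMap.ker G, x.2.1 • Complex.I • y + x.2.2 • u1 ∈ U := by
    intro x hx
    rw [LinearMap.mem_ker, hGa] at hx
    have h1 : x.2.1 • Complex.I • y + x.2.2 • u1 = -(x.1 : E (a + b)) :=
      eq_neg_of_add_eq_zero_right hx
    rw [h1]
    exact U.neg_mem x.1.2
  have hre : ∀ (α : ℝ) (z : ℂ), α • Complex.I • y + z • u1 ∈ U →
      (v * z * dotProduct (lam k) y).re = 0 := by
    intro α z hw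
    have h1 : (dotProduct (α • Complex.I • y + z • u1) (v • l)).re = 0 := hUY hw _ hl
    rw [dotProduct_comm, smul_dotProduct, dotProduct_add, dotProduct_smul, dotProduct_smul,
      dotProduct_smul, hly, hlu, smul_zero, smul_zero, zero_add, smul_eq_mul, smul_eq_mul] at h1
    have h2 : v * (z * -dotProduct (lam k) y) = -(v * z * dotProduct (lam k) y) := by ring
    rw [h2, Complex.neg_re, neg_eq_zero] at h1
    exact h1
  have hz0 : ∀ α : ℝ, α • Complex.I • y ∈ U → α = 0 := by
    intro α hα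
    by_contra h0
    have h1 : Complex.I • y ∈ V' := by
      have h2 := U.smul_mem α⁻¹ hα
      rw [smul_smul, inv_mul_cancel₀ h0, one_smul, hU] at h2
      exact h2.1
    have h2 : Complex.I • y ∈ V' ⊓ perp (FF lam a k (a - 1)) :=
      ⟨h1, perp_cplx (FF_cplx _ _ _ _) y hyK.2⟩
    rw [hL.plane] at h2
    obtain ⟨β, γ, h3⟩ := Submodule.mem_span_pair.1 h2
    have h4 := congrArg (dotProduct l) h3
    rw [dotProduct_add, dotProduct_smul, dotProduct_smul, dotProduct_smul, hly, smul_zero,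
      smul_zero, add_zero, smul_eq_zero] at h4
    rcases h4 with h4 | h4
    · rw [h4, zero_smul, zero_add] at h3
      apply hL.yV
      have h5 : y = 0 := by
        funext j
        have h6 := congrFun h3 j
        simp only [Pi.smul_apply, Complex.real_smul, smul_eq_mul] at h6
        have h7 : ((γ : ℂ) - Complex.I) * y j = 0 := by linear_combination h6
        rcases mul_eq_zero.1 h7 with h8 | h8
        · exfalso
          have h9 := congrArg Complex.im h8
          simp at h9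
        · exact h8
      rw [h5]
      exact V.zero_mem
    · exact hlu0 ⟨0, by rw [h4]; simp⟩
  -- the kernel is at most a line
  obtain ⟨Ψ, hΨ⟩ : ∃ Ψ : (U × (ℝ × ℂ)) →ₗ[ℝ] ℝ, ∀ x,
      Ψ x = (v * x.2.2 * dotProduct (lam k) y).im := by
    refine ⟨{ toFun := fun x => (v * x.2.2 * dotProduct (lam k) y).im, map_add' := ?_,
              map_smul' := ?_ }, fun _ => rfl⟩
    · intro x x'
      rw [Prod.snd_add, Prod.snd_add, mul_add, add_mul, Complex.add_im]
    · intro r x
      rw [Prod.smul_snd, Prod.smul_snd, Complex.real_smul, RingHom.id_apply, smul_eq_mul,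
        ← Complex.im_ofReal_mul]
      congr 1
      ring
  have hinj : Function.Injective (Ψ.comp (LinearMap.ker G).subtype) := by
    refine (injective_iff_map_eq_zero _).2 fun x hx => ?_
    have h1 := hker _ x.2
    have h2 := hre _ _ h1
    have h3 : (v * (x : U × (ℝ × ℂ)).2.2 * dotProduct (lam k) y).im = 0 := by
      rw [← hΨ]
      exact hx
    have h4 : v * (x : U × (ℝ × ℂ)).2.2 * dotProduct (lam k) y = 0 := Complex.ext h2 h3
    have h5 : (x : U × (ℝ × ℂ)).2.2 = 0 := by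
      rcases mul_eq_zero.1 h4 with h6 | h6
      · exact (mul_eq_zero.1 h6).resolve_left hv
      · exact absurd h6 hky
    rw [h5, zero_smul, add_zero] at h1
    have h6 := hz0 _ h1
    have h7 := x.2
    rw [LinearMap.mem_ker, hGa, h5, h6, zero_smul, zero_smul, add_zero, add_zero] at h7
    apply Subtype.ext
    apply Prod.ext
    · exact Subtype.ext h7
    · exact Prod.ext h6 h5
  have hker1 : finrank ℝ (LinearMap.ker G) ≤ 1 := by
    have := LinearMap.finrank_le_finrank_of_injective hinj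
    rwa [finrank_self] at this
  by_cases hK : LinearMap.ker G = ⊥
  · left
    rw [hK, finrank_bot] at hrk
    omega
  · right
    refine ⟨by omega, ?_⟩
    obtain ⟨x, hx, hx0⟩ := Submodule.exists_mem_ne_zero_of_ne_bot hK
    refine ⟨x.2.1, x.2.2, hker x hx, fun h1 => hx0 ?_⟩
    have h5 : x.2.2 = 0 := (mul_eq_zero.1 h1).resolve_right hky
    have h2 := hker x hx
    rw [h5, zero_smul, add_zero] at h2
    have h6 := hz0 _ h2
    rw [LinearMap.mem_ker, hGa, h5, h6, zero_smul, zero_smul, add_zero, add_zero] at hx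
    apply Prod.ext
    · exact Subtype.ext hx
    · exact Prod.ext h6 h5

private theorem t1_cn {a b : ℕ} {lam : ℕ → E (a + b)} {k : ℕ} {H : Submodule ℝ Der}
    {V V' : Submodule ℝ (E (a + b))} (h : Ctx lam k H V) (hV' : finrank ℝ V' = 2 * a)
    {u0 u1 y : E (a + b)} (hL : Lin lam k V V' u0 u1 y)
    (hly : dotProduct (lam (k + a)) y = 0)
    (hlu : dotProduct (lam (k + a)) u1 = -dotProduct (lam k) y)
    (hlu0 : ¬ ∃ r : ℝ, dotProduct (lam (k + a)) u0 = r * dotProduct (lam k) u0)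
    {κ' : ℕ} (hκ : 1 ≤ κ') (hκa : κ' ≤ a) {v : ℂ} (hv : v ≠ 0)
    (hl : v • lam (k + a) ∈ perp V' ⊔ FF lam a k (κ' - 1)) {j : Fin (a + b)}
    (hj : (u1 j).re = 1 ∨ (u1 j).im = 1) :
    finrank ℝ H + 2 * (a - κ') + 3 ≤
      finrank ℝ (HK (HV H V') (lam (k + a))) + 4 * (a + b) := by
  have hfin := h.fin
  have hA := hL.rkA
  have ha := h.posa
  have hrk := h.rk
  have c1 := cost_hyper hfin (inf_le_left (a := V) (b := V')) (by rw [hrk]; omega) h.pres
    (bot_le : (⊥ : Submodule ℝ (E (a + b))) ≤ V ⊓ V') (td_bot H)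
  rw [finrank_bot, add_zero] at c1
  have f1 : FiniteDimensional ℝ (HV H (V ⊓ V')) := td_fin (HV_le _ _) hfin
  obtain ⟨H₁, hH₁⟩ : ∃ H₁, H₁ = HK (HV H (V ⊓ V')) y := ⟨_, rfl⟩
  have hle1 : H₁ ≤ HV H (V ⊓ V') := hH₁ ▸ HK_le _ _
  have hle2 : H₁ ≤ H := hle1.trans (HV_le _ _)
  have f2 : FiniteDimensional ℝ H₁ := td_fin hle1 f1
  have hky : Kil H₁ y := hH₁ ▸ kil_HK _ _
  have hpA : Pres H₁ (V ⊓ V') := (pres_HV H (V ⊓ V')).mono hle1
  have hpV' : Pres H₁ V' := by
    rw [hL.sup]
    exact hpA.sup hky.pres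
  have hrows1 : ∀ m < k + a, Kil (HV H (V ⊓ V')) (lam m) :=
    fun m hm => (h.kil m hm).mono (HV_le _ _)
  have hrows : ∀ m < k + a, Kil H₁ (lam m) := fun m hm => (h.kil m hm).mono hle2
  have hku : Kil H₁ u1 := by
    refine Kil.of_norm ?_ hj
    rw [← hL.line1]
    exact (h.pres.mono hle2).inf (pres_FF hrows a).perp
  have f3 : FiniteDimensional ℝ (HV H V') := td_fin (HV_le _ _) hfin
  have f4 : FiniteDimensional ℝ (HK (HV H V') (lam (k + a))) := td_fin (HK_le _ _) f3
  have hle3 : H₁ ≤ HV H V' := fun D hD => ⟨hle2 hD, fun w hw => hpV' D hD w hw⟩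
  have c5 := Submodule.finrank_mono (R := ℝ)
    (show HK H₁ (lam (k + a)) ≤ HK (HV H V') (lam (k + a)) from fun _ hD => ⟨hle3 hD.1, hD.2⟩)
  have c6 := le_inter lam k (κ' - 1) hV'
  obtain ⟨s1, s2⟩ := kill_SS (κ' := κ') f2 hpV' hrows ha hky hku hly hlu hv hl
  have hyK : y ∈ V' ⊓ perp (FF lam a k (a - 1)) := by
    rw [hL.plane]
    exact Submodule.subset_span (by simp)
  by_cases hk0 : dotProduct (lam k) y = 0
  · -- case (ii)
    have hyK' : y ∈ perp (FF lam a k a) := by
      rw [mem_perp_FF]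
      intro m h7 h8
      rcases Nat.lt_or_ge k m with h9 | h9
      · exact mem_perp_FF.1 hyK.2 m (by omega) h8
      · have h10 : m = k := by omega
        rw [h10]
        exact hk0
    have c2 := kill_mem f1 (pres_FF hrows1 a).perp hyK'
    rw [← hH₁] at c2
    have c3 := finrank_perp (FF lam a k a)
    have c4 := finrank_FF h.lin (le_refl a)
    have c7 : finrank ℝ (V' ⊓ perp (FF lam a k (κ' - 1)) : Submodule ℝ (E (a + b))) <
        finrank ℝ (SS (V' ⊓ perp (FF lam a k (κ' - 1))) y u1) := by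
      refine Submodule.finrank_lt_finrank_of_lt ?_
      unfold SS
      refine lt_of_le_of_ne le_sup_left fun he => hL.u1V' ?_
      have h7 : u1 ∈ V' ⊓ perp (FF lam a k (κ' - 1)) := by
        rw [he]
        exact Submodule.mem_sup_right (Submodule.subset_span (by simp))
      exact h7.1
    omega
  · -- case (i)
    have c2 := kill_mem f1 (pres_FF hrows1 (a - 1)).perp hyK.2
    rw [← hH₁] at c2
    have c3 := finrank_perp (FF lam a k (a - 1))
    have c4 := finrank_FF h.lin (show a - 1 ≤ a by omega)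
    rcases finrank_SS hκa hL hly hlu hlu0 hk0 hv hl with h5 | ⟨h5, h6⟩
    · omega
    · have s3 := s2 h6
      omega

theorem t1_c {a b : ℕ} {lam : ℕ → E (a + b)} {k : ℕ} {H : Submodule ℝ Der}
    {V V' : Submodule ℝ (E (a + b))} (h : Ctx lam k H V) (hV' : finrank ℝ V' = 2 * a)
    {u0 u1 y : E (a + b)} (hL : Lin lam k V V' u0 u1 y)
    (hly : dotProduct (lam (k + a)) y = 0)
    (hlu : dotProduct (lam (k + a)) u1 = -dotProduct (lam k) y)
    (hlu0 : ¬ ∃ r : ℝ, dotProduct (lam (k + a)) u0 = r * dotProduct (lam k) u0)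
    {κ' : ℕ} (hκ : 1 ≤ κ') (hκa : κ' ≤ a) {v : ℂ} (hv : v ≠ 0)
    (hl : v • lam (k + a) ∈ perp V' ⊔ FF lam a k (κ' - 1)) :
    finrank ℝ H + 2 * (a - κ') + 3 ≤
      finrank ℝ (HK (HV H V') (lam (k + a))) + 4 * (a + b) := by
  have hu1 : u1 ≠ 0 := by
    rintro rfl
    exact hL.u1V' V'.zero_mem
  obtain ⟨j, hj⟩ : ∃ j, u1 j ≠ 0 := by
    by_contra hcon
    push Not at hcon
    exact hu1 (funext hcon)
  have key : ∀ r : ℝ, r ≠ 0 → (((r • u1) j).re = 1 ∨ ((r • u1) j).im = 1) →
      finrank ℝ H + 2 * (a - κ') + 3 ≤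
        finrank ℝ (HK (HV H V') (lam (k + a))) + 4 * (a + b) := by
    intro r hr hj1
    refine t1_cn h hV' (hL.scale hr) ?_ ?_ hlu0 hκ hκa hv hl hj1
    · rw [dotProduct_smul, hly, smul_zero]
    · rw [dotProduct_smul, dotProduct_smul, hlu, smul_neg]
  by_cases hre : (u1 j).re = 0
  · have him : (u1 j).im ≠ 0 := fun h0 => hj (Complex.ext hre h0)
    refine key _ (inv_ne_zero him) (Or.inr ?_)
    rw [Pi.smul_apply, Complex.real_smul, Complex.im_ofReal_mul, inv_mul_cancel₀ him]
  · refine key _ (inv_ne_zero hre) (Or.inl ?_)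
    rw [Pi.smul_apply, Complex.real_smul, Complex.re_ofReal_mul, inv_mul_cancel₀ hre]

end Pool.Agent.H45.DQ
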