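import Pool.Agent.H45.DQ.TrA
import Pool.Agent.H45.DQ.T0
import Pool.Agent.H45.DQ.T1a
import Pool.Agent.H45.DQ.T1b
import Pool.Agent.H45.DQ.T1d

/-!
# Module Step: the cost of a transition

PROOF. `H₁ = HV H V'`, `H₂ = HK H₁ (lam (k+a))`. The first claim is clear (`pres_HV`, `kil_HK`,
`Kil.mono`). Let `j' = 2a - finrank (V ⊓ V')`; `j' ≤ j` (`Tr.dist`), `c = a + b`, `δ = 2(a-κ) + (ρ-1)`,
`δ' = 2(a-κ') + (ρ'-1)`. `N' = perp V' ⊓ FF lam a (k+1) κ'`.
1. If some `ξ ∈ N'` is in `FF lam a k (κ'-1)` and not in `perp V`: `trans_B1`.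
2. Otherwise, if `N' ≤ FF lam a k (κ'-1)`: then `N' ≤ perp V ⊓ FF lam a k (κ'-1)`: `trans_A`.
   In both cases `2 c j' - j' ^ 2 ≤ j (2c-1)`.
3. Otherwise `exists_row` gives `v ≠ 0` with `v • lam (k+a) ∈ perp V' ⊔ FF lam a k (κ'-1)`.
   3a. If `2 c j' + ρ' ≤ δ + j (2c-1) + j' ^ 2`: `trans_B2`. This is the case if `j' < j`
       (`(j'+1)(2c-1) + j'^2 - 2cj' = 2c - 1 + j'^2 - j' ≥ 3`), or `j' = j ≥ 2`, or (`j = j' ≤ 1`) `ρ' ≤ δ`.
   3b. Let `j = j' ≤ 1` and `δ < ρ'`. If `δ = 1` (so `κ = a`, `ρ = 2`, `ρ' = 2`) or `δ = 0` (`κ = a`,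
       `ρ = 1`): `perp V ⊓ FF lam a k (κ'-1) = ⊥` (`Df.lt_bot`, `κ' - 1 < a`), so by 1. also
       `N' ⊓ FF lam a k (κ'-1) = ⊥`.
       `δ = 1`: `exists_row_two`, `trans_B2c`.
       `δ = 0`, `ρ' = 2`: `exists_row_two`; `j = 0`: `V' = V` (`Tr.zero`), `HV_eq`, `t0_two`;
       `j = 1`: `t1_two`.
       `δ = 0`, `ρ' = 1`: `j = 0`: `t0_one`; `j = 1`: `V ≠ V'` (`j' = 1`), `Tr.one`, `pencil1`, and
       `t1_a`, `t1_b`, `t1_c`.
All inequalities: `omega`/`nlinarith` after splitting `j' ≤ j`.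
-/

set_option autoImplicit false

open Module

namespace Pool.Agent.H45.DQ

private theorem ar1 {c j j' : ℕ} (h : j' ≤ j) : 2 * c * j' ≤ j * (2 * c - 1) + j' * j' := by
  rcases Nat.eq_zero_or_pos c with hc | hc
  · subst hc
    simp
  · obtain ⟨d, hd⟩ : ∃ d, 2 * c = d + 1 := ⟨2 * c - 1, by omega⟩
    rw [hd, Nat.add_sub_cancel]
    have h1 : j' ≤ j' * j' := Nat.le_mul_self j'
    have h2 : d * j' ≤ j * d := by
      rw [mul_comm]
      exact Nat.mul_le_mul_right d h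
    nlinarith

private theorem ar2 {c j j' : ℕ} (hc : 2 ≤ c) (h : j' < j) :
    2 * c * j' + 2 ≤ j * (2 * c - 1) + j' * j' := by
  obtain ⟨d, hd⟩ : ∃ d, 2 * c = d + 1 := ⟨2 * c - 1, by omega⟩
  have hd3 : 3 ≤ d := by omega
  rw [hd, Nat.add_sub_cancel]
  have h1 : j' ≤ j' * j' := Nat.le_mul_self j'
  have h2 : (j' + 1) * d ≤ j * d := Nat.mul_le_mul_right d h
  nlinarith

private theorem ar3 {c j : ℕ} (hc : 1 ≤ c) (h : 2 ≤ j) :
    2 * c * j + 2 ≤ j * (2 * c - 1) + j * j := by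
  obtain ⟨d, hd⟩ : ∃ d, 2 * c = d + 1 := ⟨2 * c - 1, by omega⟩
  rw [hd, Nat.add_sub_cancel]
  have h1 : 2 * j ≤ j * j := Nat.mul_le_mul_right j h
  nlinarith

theorem transition {a b j : ℕ} {lam : ℕ → E (a + b)} {k : ℕ} {H : Submodule ℝ Der}
    {V V' : Submodule ℝ (E (a + b))} (h : Ctx lam k H V)
    (hlin' : LinearIndependent ℂ (fun i : Fin a => lam (k + 1 + i))) {κ ρ κ' ρ' : ℕ}
    (hd : Df lam a k V κ ρ) (hd' : Df lam a (k + 1) V' κ' ρ') (hV' : finrank ℝ V' = 2 * a)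
    (ht : Tr lam a k j V V') :
    Ctx lam (k + 1) (HK (HV H V') (lam (k + a))) V' ∧
      finrank ℝ H + 2 * (a - κ') + (ρ' - 1) + 2 ≤
        finrank ℝ (HK (HV H V') (lam (k + a))) + 2 * (a - κ) + (ρ - 1) + 2 * (a + b) +
          j * (2 * (a + b) - 1) := by
  constructor
  · have hle : HK (HV H V') (lam (k + a)) ≤ H := (HK_le _ _).trans (HV_le _ _)
    have hfin := h.fin
    refine ⟨Submodule.finiteDimensional_of_le hle, h.posa, h.posb, hlin', hV',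
      (pres_HV H V').mono (HK_le _ _), fun m hm => ?_⟩
    rcases Nat.lt_or_ge m (k + a) with h1 | h1
    · exact (h.kil m h1).mono hle
    · have h2 : m = k + a := by omega
      rw [h2]
      exact kil_HK _ _
  have hca := h.posa
  have hcb := h.posb
  have hfr : finrank ℝ (V ⊓ V' : Submodule ℝ (E (a + b))) ≤ 2 * a := by
    rw [← h.rk]
    exact Submodule.finrank_mono inf_le_left
  obtain ⟨j', hj⟩ : ∃ j', finrank ℝ (V ⊓ V' : Submodule ℝ (E (a + b))) + j' = 2 * a :=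
    ⟨2 * a - finrank ℝ (V ⊓ V' : Submodule ℝ (E (a + b))), by omega⟩
  have hjj : j' ≤ j := by
    have h1 := ht.dist
    rw [h.rk] at h1
    omega
  have hκ1 := hd'.one_le
  have hκa := hd'.le
  have hρ1 := hd'.pos
  have hρ2 := hd'.two
  have hκ1' := hd.one_le
  have hκa' := hd.le
  have hρ1' := hd.pos
  have hρ2' := hd.two
  have har := ar1 (c := a + b) hjj
  by_cases hB1 : ∃ ξ ∈ perp V' ⊓ FF lam a (k + 1) κ', ξ ∈ FF lam a k (κ' - 1) ∧ ξ ∉ perp V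
  · obtain ⟨ξ, h1, h2, h3⟩ := hB1
    have h4 := trans_B1 h hd' hV' hj h1.1 h2 h3
    omega
  have hB1' : ∀ ξ ∈ perp V' ⊓ FF lam a (k + 1) κ', ξ ∈ FF lam a k (κ' - 1) → ξ ∈ perp V := by
    intro ξ h1 h2
    by_contra h3
    exact hB1 ⟨ξ, h1, h2, h3⟩
  by_cases hA : perp V' ⊓ FF lam a (k + 1) κ' ≤ FF lam a k (κ' - 1)
  · have h4 := trans_A h hd hd' hV' hj (fun ξ h1 => ⟨hB1' ξ h1 (hA h1), hA h1⟩)
    omega
  obtain ⟨ξ, hξ1, hξ2⟩ := Set.not_subset.1 hA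
  obtain ⟨v, hv, hl⟩ := exists_row hκ1 hξ1.1 hξ1.2 hξ2
  have hB2 := trans_B2 h hκ1 hκa hV' hj hv hl
  rcases Nat.lt_or_ge j' j with hlt | hge
  · have h5 := ar2 (c := a + b) (by omega) hlt
    omega
  have hjeq : j' = j := le_antisymm hjj hge
  subst hjeq
  rcases Nat.lt_or_ge 1 j' with h2 | h2
  · have h5 := ar3 (c := a + b) (by omega) h2
    omega
  by_cases hδ : ρ' ≤ 2 * (a - κ) + (ρ - 1)
  · omega
  have hκκ : κ = a := by omega
  subst hκκ
  have hbot : perp V ⊓ FF lam κ k (κ' - 1) = ⊥ := hd.lt_bot (by omega)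
  have hN : perp V' ⊓ FF lam κ (k + 1) κ' ⊓ FF lam κ k (κ' - 1) = ⊥ := by
    rw [eq_bot_iff]
    intro ξ h1
    rw [← hbot]
    exact ⟨hB1' ξ h1.1 h1.2, h1.2⟩
  have hj01 : j' = 0 ∨ j' = 1 := by omega
  have hρρ : ρ' = 1 ∨ ρ' = 2 := by omega
  have hρ : ρ = 1 ∨ ρ = 2 := by omega
  rcases hρ with hρ | hρ
  · subst hρ
    rcases hρρ with hρρ | hρρ
    · subst hρρ
      rcases hj01 with hj0 | hj0
      · subst hj0
        obtain ⟨h3, h4⟩ := ht.zero rfl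
        subst h3
        rw [HV_eq h.pres]
        have h5 := t0_one h hd h4 hκ1 hκa hv hl
        omega
      · subst hj0
        have hne : V ≠ V' := by
          intro h3
          rw [← h3, inf_idem, h.rk] at hj
          omega
        obtain ⟨x, y, hx, hy, hs⟩ := ht.one rfl hne
        have hfin3 : finrank ℝ H + 2 * (κ - κ') + 3 ≤
            finrank ℝ (HK (HV H V') (lam (k + κ))) + 4 * (κ + b) := by
          rcases pencil1 h hd hV' hne hx hy hs with ⟨u1, h5, h6, h7⟩ | ⟨u0, u1, y1, h5, h6, h7⟩ |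
            ⟨u0, u1, y1, h5, h6, h7, h8⟩
          · exact t1_a h hV' hj h5 h6 h7 hκ1 hκa hv hl
          · exact t1_b h hV' h5 h6 h7 hκ1 hκa hv hl
          · exact t1_c h hV' h5 h6 h7 h8 hκ1 hκa hv hl
        omega
    · subst hρρ
      obtain ⟨hl1, hl2⟩ := exists_row_two hd' hN
      rcases hj01 with hj0 | hj0
      · subst hj0
        obtain ⟨h3, h4⟩ := ht.zero rfl
        subst h3
        rw [HV_eq h.pres]
        have h5 := t0_two h hd hκ1 hκa hl1 hl2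
        omega
      · subst hj0
        have h5 := t1_two h hd hV' hj hκ1 hκa hl1 hl2
        omega
  · subst hρ
    have hρ'2 : ρ' = 2 := by omega
    subst hρ'2
    obtain ⟨hl1, hl2⟩ := exists_row_two hd' hN
    have h5 := trans_B2c h hκ1 hκa hV' hj hl1
    rcases hj01 with hj0 | hj0
    · subst hj0
      omega
    · subst hj0
      omega

end Pool.Agent.H45.DQ
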