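import Pool.Agent.H45.DQ.Cost

/-!
# Module Sub: the cost of preserving a subspace (general form)

`rs V' η` is the real functional `v ↦ Re (η · v)` on `V'`.

PROOF. `ker_rs`: definition of `perp`. `cost_subspace`: apply `cost_of_map` to
`φ : H → (Fin n → Dual ℝ V')`, `φ D i = rs V' (dE D (ξ i))` (linear in `D`: `dEL`), `R = Submodule.pi
Set.univ R` (its dimension is `∑ i, finrank (R i)`: e.g. `LinearEquiv` with `∀ i, R i`,
`Module.finrank_pi_fintype`). If `φ D = 0`, `D ∈ H`, then `D` preserves `V'`: for `w ∈ V'` and every `i`,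
`Re (ξ i · dE D w) = - Re (dE D (ξ i) · w) = 0` (`dot_re` with `Re (ξ i · w) = 0`), so
`dE D w ∈ perp (perp V') = V'`, because `perp V'` is spanned by the `ξ i` (a vector orthogonal to all
`ξ i` is orthogonal to their span; the form is symmetric, `dotProduct_comm`).
-/

set_option autoImplicit false

open Module

namespace Pool.Agent.H45.DQ

/-- the functional `v ↦ Re (η · v)` on `V'` -/
noncomputable def rs {c : ℕ} (V' : Submodule ℝ (E c)) : E c →ₗ[ℝ] Dual ℝ V' where
  toFun η :=
    { toFun := fun v => (dotProduct η (v : E c)).re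
      map_add' := by
        intro v v'
        rw [Submodule.coe_add, dotProduct_add, Complex.add_re]
      map_smul' := by
        intro r v
        rw [Submodule.coe_smul, dotProduct_smul, Complex.smul_re, RingHom.id_apply] }
  map_add' η η' := by
    apply LinearMap.ext
    intro v
    show (dotProduct (η + η') (v : E c)).re = _
    rw [add_dotProduct, Complex.add_re]
    rfl
  map_smul' r η := by
    apply LinearMap.ext
    intro v
    show (dotProduct (r • η) (v : E c)).re = _
    rw [smul_dotProduct, Complex.smul_re]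
    rfl

theorem rs_apply {c : ℕ} (V' : Submodule ℝ (E c)) (η : E c) (v : V') :
    rs V' η v = (dotProduct η (v : E c)).re := rfl

theorem ker_rs {c : ℕ} (V' : Submodule ℝ (E c)) : LinearMap.ker (rs V') = perp V' := by
  ext η
  rw [LinearMap.mem_ker]
  constructor
  · intro h v hv
    exact LinearMap.congr_fun h ⟨v, hv⟩
  · intro h
    apply LinearMap.ext
    intro v
    exact h v v.2

theorem cost_subspace {c n : ℕ} {H : Submodule ℝ Der} (hH : FiniteDimensional ℝ H)
    (V' : Submodule ℝ (E c)) (ξ : Fin n → E c) (hξ : ∀ i, ξ i ∈ perp V')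
    (hspan : perp V' ≤ Submodule.span ℝ (Set.range ξ)) (R : Fin n → Submodule ℝ (Dual ℝ V'))
    (hR : ∀ D ∈ H, ∀ i, rs V' (dE D (ξ i)) ∈ R i) :
    finrank ℝ H ≤ finrank ℝ (HV H V') + ∑ i, finrank ℝ (R i) := by
  let φ : H →ₗ[ℝ] (Fin n → Dual ℝ V') :=
    LinearMap.pi fun i => (rs V').comp ((dEL (ξ i)).comp H.subtype)
  haveI hfree : ∀ i, Module.Free ℝ (R i) := fun i => Module.Free.of_divisionRing ℝ (R i)
  haveI hfin : ∀ i, Module.Finite ℝ (R i) := fun i => inferInstance
  have h1 : finrank ℝ (Submodule.pi Set.univ R) ≤ ∑ i, finrank ℝ (R i) := by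
    rw [← Module.finrank_pi_fintype]
    let ψ : (Submodule.pi Set.univ R : Submodule ℝ (Fin n → Dual ℝ V')) →ₗ[ℝ] (∀ i, R i) :=
      LinearMap.pi fun i => LinearMap.codRestrict (R i)
        ((LinearMap.proj i).comp (Submodule.subtype _)) (fun x => x.2 i (Set.mem_univ _))
    refine LinearMap.finrank_le_finrank_of_injective (f := ψ) ?_
    intro x y hxy
    apply Subtype.ext
    funext i
    exact congrArg Subtype.val (congrFun hxy i)
  refine (cost_of_map hH (HV_le H V') φ (Submodule.pi Set.univ R) inferInstance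
    (fun D i _ => hR D D.2 i) ?_).trans (Nat.add_le_add_left h1 _)
  intro D hD
  refine ⟨D.2, fun w hw => ?_⟩
  rw [← perp_perp V']
  intro η hη
  rw [dotProduct_comm]
  have key : ∀ i, (dotProduct (ξ i) (dE (D : Der) w)).re = 0 := by
    intro i
    have h2 := dot_re (D : Der) (ξ i) w (hξ i w hw)
    have h3 : (dotProduct (dE (D : Der) (ξ i)) w).re = 0 :=
      LinearMap.congr_fun (congrFun hD i) ⟨w, hw⟩
    rw [h3] at h2
    linarith
  have h3 : Submodule.span ℝ (Set.range ξ) ≤ perp (Submodule.span ℝ {dE (D : Der) w}) := by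
    rw [Submodule.span_le]
    rintro _ ⟨i, rfl⟩
    intro v hv
    obtain ⟨r, rfl⟩ := Submodule.mem_span_singleton.1 hv
    rw [dotProduct_smul, Complex.smul_re, key i, smul_zero]
  exact h3 (hspan hη) _ (Submodule.mem_span_singleton_self _)

end Pool.Agent.H45.DQ
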