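import Pool.Agent.H45.DQ.Sub2

/-!
# Module Sub3: the cost of moving a subspace by a given distance

`finrank V = finrank V' = 2 a`, `c = a + b`, `j = 2 a - finrank (V ⊓ V')`, `V` preserved.

PROOF. `perp V ⊓ perp V' = perp (V ⊔ V')` has dimension `2 b - j` (`finrank_perp`,
`Submodule.finrank_sup_add_finrank_inf_eq`), `perp V'` has dimension `2 b`. For `η ∈ perp V ⊓ perp V'` and
`D ∈ H` the functional `rs V' (dE D η)` vanishes on `V ⊓ V'` (`w ∈ V ⊓ V'`: `dE D w ∈ V`, so
`Re (dE D η · w) = - Re (η · dE D w) = 0`): it is in `ann V' (V ⊓ V')`, of dimension `j`.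
`cost_dist`: `ξ` = a basis of `perp V ⊓ perp V'` (`2 b - j` vectors, `R i = ann V' (V ⊓ V')`) followed by
`j` further vectors completing it to a basis of `perp V'` (`R i = ⊤`, dimension `2 a`). The sum is
`(2 b - j) j + j * 2 a = 2 (a + b) j - j ^ 2`.
`cost_dist_xi`: now `ξ₀ ∈ F ⊓ perp V'`, `ξ₀ ∉ perp V`, `F` preserved. So `ξ₀` is independent of
`perp V ⊓ perp V'`; complete to a basis of `perp V'` by `j - 1` vectors. `dE D ξ₀ ∈ F`, so
`rs V' (dE D ξ₀)` is in the image `R₀` of `F` under `rs V'`; the kernel of `rs V'` on `F` contains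
`ξ₀ ≠ 0`, so `finrank R₀ ≤ finrank F - 1`. The sum is `(2 b - j) j + (finrank F - 1) + (j - 1) * 2 a`.
(Completion to a basis: e.g. choose a complement of a subspace in `perp V'` (`Submodule.exists_isCompl`
or `exists_isCompl` inside `perp V'`), and bases `Module.finBasis` of the pieces; `cost_subspace` takes
any spanning family indexed by `Fin n`, use `Fin.append` or reindex.)
-/

set_option autoImplicit false

open Module

namespace Pool.Agent.H45.DQ

/-- a relative complement -/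
private theorem exists_compl {c : ℕ} {W P : Submodule ℝ (E c)} (h : W ≤ P) :
    ∃ C ≤ P, W ⊔ C = P ∧ finrank ℝ W + finrank ℝ C = finrank ℝ P := by
  obtain ⟨C₀, hC₀⟩ := Submodule.exists_isCompl W
  have h1 : W ⊔ C₀ ⊓ P = P := by
    rw [← sup_inf_assoc_of_le C₀ h, hC₀.sup_eq_top, top_inf_eq]
  refine ⟨C₀ ⊓ P, inf_le_right, h1, ?_⟩
  have h2 := Submodule.finrank_sup_add_finrank_inf_eq W (C₀ ⊓ P)
  have h3 : W ⊓ (C₀ ⊓ P) = ⊥ := by
    rw [← inf_assoc, hC₀.inf_eq_bot, bot_inf_eq]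
  rw [h1, h3, finrank_bot] at h2
  omega

private theorem dims {a b j : ℕ} {V V' : Submodule ℝ (E (a + b))} (hr : finrank ℝ V = 2 * a)
    (hr' : finrank ℝ V' = 2 * a) (hj : finrank ℝ (V ⊓ V' : Submodule ℝ (E (a + b))) + j = 2 * a) :
    finrank ℝ (perp V ⊓ perp V' : Submodule ℝ (E (a + b))) + j = 2 * b ∧
      finrank ℝ (perp V') = 2 * b ∧ finrank ℝ (ann V' (V ⊓ V')) = j := by
  have h1 := finrank_perp V'
  have h2 := finrank_perp (V ⊔ V')
  rw [perp_sup] at h2
  have h3 := Submodule.finrank_sup_add_finrank_inf_eq V V'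
  have h4 := finrank_ann (V' := V') (U := V ⊓ V') inf_le_right
  omega

private theorem low_mem {a b : ℕ} {H : Submodule ℝ Der} {V V' : Submodule ℝ (E (a + b))}
    (hV : Pres H V) {η : E (a + b)} (h1 : η ∈ perp V) (h2 : η ∈ perp V') {D : Der} (hD : D ∈ H) :
    rs V' (dE D η) ∈ ann V' (V ⊓ V') := by
  rw [mem_ann]
  intro w hw
  rw [rs_apply, dot_re D η w (h2 w w.2), h1 _ (hV D hD w hw.1), neg_zero]

theorem cost_dist {a b j : ℕ} {H : Submodule ℝ Der} (hH : FiniteDimensional ℝ H)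
    {V V' : Submodule ℝ (E (a + b))} (hV : Pres H V) (hr : finrank ℝ V = 2 * a)
    (hr' : finrank ℝ V' = 2 * a) (hj : finrank ℝ (V ⊓ V' : Submodule ℝ (E (a + b))) + j = 2 * a) :
    finrank ℝ H + j * j ≤ finrank ℝ (HV H V') + 2 * (a + b) * j := by
  obtain ⟨d1, d2, d3⟩ := dims hr hr' hj
  obtain ⟨C, hC, hC1, hC2⟩ := exists_compl
    (inf_le_right : perp V ⊓ perp V' ≤ perp V')
  set W := perp V ⊓ perp V' with hW
  have h := cost_fam hH V'
    (Sum.elim (fun i => ((finBasis ℝ W i : W) : E (a + b)))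
      (fun i => ((finBasis ℝ C i : C) : E (a + b))))
    (by
      rintro (i | i)
      · exact (finBasis ℝ W i).2.2
      · exact hC (finBasis ℝ C i).2)
    (by
      rw [Set.Sum.elim_range, Submodule.span_union, span_fin, span_fin, hC1])
    (Sum.elim (fun _ => ann V' (V ⊓ V')) (fun _ => ⊤))
    (by
      rintro D hD (i | i)
      · exact low_mem hV (finBasis ℝ W i).2.1 (finBasis ℝ W i).2.2 hD
      · exact Submodule.mem_top)
  rw [Fintype.sum_sum_type] at h
  have e1 : (∑ i : Fin (finrank ℝ W), finrank ℝ (Sum.elim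
      (fun _ : Fin (finrank ℝ W) => ann V' (V ⊓ V'))
      (fun _ : Fin (finrank ℝ C) => (⊤ : Submodule ℝ (Dual ℝ V'))) (Sum.inl i) :
        Submodule ℝ (Dual ℝ V'))) = finrank ℝ W * j := by
    refine (Finset.sum_congr rfl fun i _ => d3).trans ?_
    rw [Finset.sum_const, Finset.card_univ, Fintype.card_fin, smul_eq_mul]
  have e2 : (∑ i : Fin (finrank ℝ C), finrank ℝ (Sum.elim
      (fun _ : Fin (finrank ℝ W) => ann V' (V ⊓ V'))
      (fun _ : Fin (finrank ℝ C) => (⊤ : Submodule ℝ (Dual ℝ V'))) (Sum.inr i) :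
        Submodule ℝ (Dual ℝ V'))) = finrank ℝ C * (2 * a) := by
    have e3 : finrank ℝ (⊤ : Submodule ℝ (Dual ℝ V')) = 2 * a := by
      rw [finrank_top, Subspace.dual_finrank_eq, hr']
    refine (Finset.sum_congr rfl fun i _ => e3).trans ?_
    rw [Finset.sum_const, Finset.card_univ, Fintype.card_fin, smul_eq_mul]
  rw [e1, e2] at h
  have e4 : finrank ℝ C = j := by omega
  rw [e4] at h
  have e5 : 2 * (a + b) * j = (finrank ℝ W + j) * j + 2 * a * j := by
    rw [d1]
    ring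
  rw [e5]
  nlinarith [h]

theorem cost_dist_xi {a b j : ℕ} {H : Submodule ℝ Der} (hH : FiniteDimensional ℝ H)
    {V V' F : Submodule ℝ (E (a + b))} (hV : Pres H V) (hr : finrank ℝ V = 2 * a)
    (hr' : finrank ℝ V' = 2 * a) (hj : finrank ℝ (V ⊓ V' : Submodule ℝ (E (a + b))) + j = 2 * a)
    (hF : Pres H F) {ξ : E (a + b)} (h1 : ξ ∈ F) (h2 : ξ ∈ perp V') (h3 : ξ ∉ perp V) :
    finrank ℝ H + j * j + 2 * a + 1 ≤ finrank ℝ (HV H V') + 2 * (a + b) * j + finrank ℝ F := by
  obtain ⟨d1, d2, d3⟩ := dims hr hr' hj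
  set W := perp V ⊓ perp V' with hW
  have hξ0 : ξ ≠ 0 := fun h => h3 (by rw [h]; exact Submodule.zero_mem _)
  have hWξ : W ⊔ Submodule.span ℝ {ξ} ≤ perp V' :=
    sup_le inf_le_right ((Submodule.span_singleton_le_iff_mem _ _).2 h2)
  have hdim : finrank ℝ (W ⊔ Submodule.span ℝ {ξ} : Submodule ℝ (E (a + b))) =
      finrank ℝ W + 1 := by
    have e1 := Submodule.finrank_sup_add_finrank_inf_eq W (Submodule.span ℝ {ξ})
    have e2 : W ⊓ Submodule.span ℝ {ξ} = ⊥ := by
      rw [eq_bot_iff]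
      rintro v ⟨hv, hv'⟩
      obtain ⟨r, rfl⟩ := Submodule.mem_span_singleton.1 hv'
      by_cases hr0 : r = 0
      · rw [hr0, zero_smul]
        exact Submodule.zero_mem _
      · refine absurd ?_ h3
        have e3 := (perp V).smul_mem r⁻¹ hv.1
        rwa [smul_smul, inv_mul_cancel₀ hr0, one_smul] at e3
    rw [e2, finrank_bot, finrank_span_singleton hξ0] at e1
    omega
  obtain ⟨C, hC, hC1, hC2⟩ := exists_compl hWξ
  -- the image of F
  let R₀ : Submodule ℝ (Dual ℝ V') := F.map (rs V')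
  have hR₀ : finrank ℝ R₀ + 1 ≤ finrank ℝ F := by
    have e1 := LinearMap.finrank_range_add_finrank_ker ((rs V').domRestrict F)
    rw [LinearMap.range_domRestrict] at e1
    have e2 : 1 ≤ finrank ℝ (LinearMap.ker ((rs V').domRestrict F)) := by
      have e3 : (⟨ξ, h1⟩ : F) ∈ LinearMap.ker ((rs V').domRestrict F) := by
        rw [LinearMap.mem_ker]
        have e4 : ξ ∈ LinearMap.ker (rs V') := by
          rw [ker_rs]
          exact h2
        exact e4
      have e5 : LinearMap.ker ((rs V').domRestrict F) ≠ ⊥ := by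
        intro h
        rw [h, Submodule.mem_bot] at e3
        exact hξ0 (congrArg Subtype.val e3)
      exact Submodule.one_le_finrank_iff.2 e5
    show finrank ℝ (F.map (rs V')) + 1 ≤ finrank ℝ F
    omega
  have h := cost_fam hH V'
    (Sum.elim (fun i => ((finBasis ℝ W i : W) : E (a + b)))
      (Sum.elim (fun _ : Unit => ξ) (fun i => ((finBasis ℝ C i : C) : E (a + b)))))
    (by
      rintro (i | _ | i)
      · exact (finBasis ℝ W i).2.2
      · exact h2
      · exact hC (finBasis ℝ C i).2)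
    (by
      rw [Set.Sum.elim_range, Set.Sum.elim_range, Submodule.span_union, Submodule.span_union,
        span_fin, span_fin, Set.range_const, ← sup_assoc, hC1])
    (Sum.elim (fun _ => ann V' (V ⊓ V')) (Sum.elim (fun _ => R₀) (fun _ => ⊤)))
    (by
      rintro D hD (i | _ | i)
      · exact low_mem hV (finBasis ℝ W i).2.1 (finBasis ℝ W i).2.2 hD
      · exact Submodule.mem_map_of_mem (hF D hD ξ h1)
      · exact Submodule.mem_top)
  rw [Fintype.sum_sum_type, Fintype.sum_sum_type] at h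
  have e1 : (∑ i : Fin (finrank ℝ W), finrank ℝ (Sum.elim
      (fun _ : Fin (finrank ℝ W) => ann V' (V ⊓ V'))
      (Sum.elim (fun _ : Unit => R₀)
      (fun _ : Fin (finrank ℝ C) => (⊤ : Submodule ℝ (Dual ℝ V')))) (Sum.inl i) :
        Submodule ℝ (Dual ℝ V'))) = finrank ℝ W * j := by
    refine (Finset.sum_congr rfl fun i _ => d3).trans ?_
    rw [Finset.sum_const, Finset.card_univ, Fintype.card_fin, smul_eq_mul]
  have e0 : (∑ i : Unit, finrank ℝ (Sum.elim
      (fun _ : Fin (finrank ℝ W) => ann V' (V ⊓ V'))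
      (Sum.elim (fun _ : Unit => R₀)
      (fun _ : Fin (finrank ℝ C) => (⊤ : Submodule ℝ (Dual ℝ V')))) (Sum.inr (Sum.inl i)) :
        Submodule ℝ (Dual ℝ V'))) = finrank ℝ R₀ := by
    rw [Fintype.sum_unique]
    rfl
  have e2 : (∑ i : Fin (finrank ℝ C), finrank ℝ (Sum.elim
      (fun _ : Fin (finrank ℝ W) => ann V' (V ⊓ V'))
      (Sum.elim (fun _ : Unit => R₀)
      (fun _ : Fin (finrank ℝ C) => (⊤ : Submodule ℝ (Dual ℝ V')))) (Sum.inr (Sum.inr i)) :
        Submodule ℝ (Dual ℝ V'))) = finrank ℝ C * (2 * a) := by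
    have e3 : finrank ℝ (⊤ : Submodule ℝ (Dual ℝ V')) = 2 * a := by
      rw [finrank_top, Subspace.dual_finrank_eq, hr']
    refine (Finset.sum_congr rfl fun i _ => e3).trans ?_
    rw [Finset.sum_const, Finset.card_univ, Fintype.card_fin, smul_eq_mul]
  rw [e1, e0, e2] at h
  have e4 : finrank ℝ C + 1 = j := by omega
  have e5 : 2 * (a + b) * j = (finrank ℝ W + j) * j + (finrank ℝ C + 1) * (2 * a) := by
    rw [d1, e4]
    ring
  rw [e5]
  nlinarith [h]

end Pool.Agent.H45.DQ
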