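import Pool.Agent.H45.DQ.PenB
import Pool.Agent.H45.DQ.Sub2
import Pool.Agent.H45.DQ.T0

/-!
# Module T1c: transition of width one, common kernel

`A = V ⊓ V'`, `l = lam (k+a)`, `F = FF lam a k (κ'-1)`, `Y = perp V' ⊔ F`,
`U' = perp Y = V' ⊓ perp F`, `finrank U' ≥ 2a - 2κ' + 2` (`le_inter`), `K = perp (FF lam a k (a-1))`,
`l · y = 0`, `l · u1 = - lam k · y`, `l · u0` is not a real multiple of `lam k · u0`.

PROOF. Multiply `u1` and `y` by the same real number: a real or imaginary part of a coordinate of `u1` is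
`1` (`Lin` and the relations are preserved: `Lin.scale`). `H₁ = HK (HV H A) y`: cost `2a - 1`
(`cost_hyper`, `U = ⊥`) plus the cost of `y`: `kill_mem` with `y ∈ K` (`finrank K = 2b + 2`,
`finrank_FF` with `h.lin` and `finrank_perp`), and if `lam k · y = 0`: `y ∈ perp (FF lam a k a)`, of
dimension `2b`. `H₁` preserves `V' = A ⊔ span {y}`, so `U'`, and kills `u1` (`Kil.of_norm`, the line
`span {u1} = V ⊓ perp (FF lam a k a)` is preserved).
For `D ∈ H₁`: `dotProduct (dE D l) y = 0`, `dotProduct (dE D l) u1 = 0` (`dot_zero`; for `u1`: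
`dC D (l · u1) = - dC D (lam k · y) = 0` by `dC_dot`, since `lam k`, `y`, `u1` are killed).
For `w ∈ U'`: `Re (v (l · w)) = 0` (`v • l ∈ Y`), also for `dE D w ∈ U'`; differentiate
(`dot_re` for `v • l` and `w`): `Re (dC D v (l · w)) + Re (v (dE D l · w)) = 0`. With
`dC D v = ζ v`, `ζ = dC D v / v`: `Re (ζ v (l · w)) = - Im ζ * Im (v (l · w))`. (*)
`H₂` = the `D ∈ H₁` with `Im (dC D v / v) = 0`: cost `≤ 1` (`cost_of_map` to `ℝ`), cost `0` if this holds on `H₁`.
On `H₂`: `v • dE D l ∈ perp S`, `S = U' ⊔ span ℝ {I • y, u1, I • u1}`; so killing `l` costs at most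
`2c - finrank S` (`cost_of_map` with `φ D = v • dE D l`, `R = perp S`).
(i) `lam k · y ≠ 0`. Cost so far `2a - 1 + 2b + 2 = 2c + 1`. The real linear map
`ℝ × ℂ → E / U'`, `(α, z) ↦ α I y + z u1` has kernel `Q`. If `(α, z) ∈ Q` and `z = 0`, `α ≠ 0`: `I y ∈ U' ≤ V'`,
`I y ∈ K`, so `I y ∈ V' ⊓ K = span {u0, y}`, `I y = β u0 + γ y`, `β ≠ 0` (else `y = 0`), and `l · y = 0` gives
`l · u0 = 0`, a real multiple of `lam k · u0`: contradiction. For `(α, z) ∈ Q`, `w = α I y + z u1 ∈ U'`: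
`Re (v (l · w)) = 0` and `l · w = - z (lam k · y)`. So `Q` injects into `{z | Re (z v (lam k · y)) = 0}`, a line:
`finrank Q ≤ 1`, `finrank S = finrank U' + 3 - finrank Q`. If `Q ≠ 0`, take `(α, z) ∈ Q`, `z ≠ 0`, in (*):
`dE D l · w = 0`, so `Im ζ * Im (v (l · w)) = 0` and `v (l · w) ≠ 0` has real part `0`: `Im ζ = 0` on all of
`H₁`: no cost for `H₂`. So in both cases cost `(H₁ → H₂) + (2c - finrank S) ≤ 1 + 2c - (2a - 2κ' + 2) - 3`.
Total `2c + 1 + 2c - 4 - 2(a-κ') = 4c - 3 - 2(a-κ')`.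
(ii) `lam k · y = 0`. Cost so far `2a - 1 + 2b = 2c - 1`; `S ⊇ U' ⊔ span {u1}`, `u1 ∉ U'` (`u1 ∉ V'`):
`finrank S ≥ 2a - 2κ' + 3`. Total `2c - 1 + 1 + 2c - 3 - 2(a-κ') = 4c - 3 - 2(a-κ')`.
At the end: the members of `H₂` which kill `l` are in `HK (HV H V') l`.
-/

set_option autoImplicit false

open Module

namespace Pool.Agent.H45.DQ

/-- `U' ⊔ span {I y, u1, I u1}` -/
noncomputable def SS {c : ℕ} (U : Submodule ℝ (E c)) (y u1 : E c) : Submodule ℝ (E c) :=
  U ⊔ Submodule.span ℝ {Complex.I • y, u1, Complex.I • u1}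

private theorem tc_fin {H H' : Submodule ℝ Der} (h : H ≤ H') (hf : FiniteDimensional ℝ H') :
    FiniteDimensional ℝ H := Submodule.finiteDimensional_of_le h

/-- the phase velocity of `v` -/
private noncomputable def psi (v : ℂ) : Der →ₗ[ℝ] ℝ where
  toFun D := (dC D v / v).im
  map_add' D D' := by
    rw [← dCL_apply, map_add, add_div, Complex.add_im]
    rfl
  map_smul' r D := by
    rw [← dCL_apply, map_smul, Complex.real_smul, mul_div_assoc, Complex.im_ofReal_mul]
    rfl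

private theorem psi_apply (v : ℂ) (D : Der) : psi v D = (dC D v / v).im := rfl

private theorem tc_star {c : ℕ} {H₁ : Submodule ℝ Der} {U Y : Submodule ℝ (E c)}
    (hU : Pres H₁ U) (hUY : U ≤ perp Y) {l : E c} {v : ℂ} (hv : v ≠ 0) (hl : v • l ∈ Y)
    {D : Der} (hD : D ∈ H₁) {w : E c} (hw : w ∈ U) :
    (v * dotProduct l w).re = 0 ∧
      (v * dotProduct (dE D l) w).re = psi v D * (v * dotProduct l w).im := by
  have hre : ∀ w ∈ U, (dotProduct (v • l) w).re = 0 := by
    intro w hw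
    have h1 : (dotProduct w (v • l)).re = 0 := hUY hw _ hl
    rwa [dotProduct_comm] at h1
  have h1 := hre w hw
  have h2 := dot_re D (v • l) w h1
  rw [hre _ (hU D hD w hw), neg_zero, dE_smul, add_dotProduct, smul_dotProduct, smul_dotProduct,
    smul_eq_mul, smul_eq_mul, Complex.add_re] at h2
  rw [smul_dotProduct, smul_eq_mul] at h1
  refine ⟨h1, ?_⟩
  obtain ⟨ζ, hζ⟩ : ∃ ζ, ζ = dC D v / v := ⟨_, rfl⟩
  have h3 : dC D v = ζ * v := by
    rw [hζ, div_mul_cancel₀ _ hv]
  rw [psi_apply, ← hζ]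
  rw [h3, mul_assoc, Complex.mul_re, h1] at h2
  linarith

/-- the last two steps of the count, given that `H₁` preserves `V'` and kills `y` and `u1` -/
theorem kill_SS {a b : ℕ} {lam : ℕ → E (a + b)} {k κ' : ℕ} {H₁ : Submodule ℝ Der}
    (hfin : FiniteDimensional ℝ H₁) {V' : Submodule ℝ (E (a + b))} (hV' : Pres H₁ V')
    (hrows : ∀ m < k + a, Kil H₁ (lam m)) (ha : 1 ≤ a) {y u1 : E (a + b)} (hy : Kil H₁ y)
    (hu1 : Kil H₁ u1) (hly : dotProduct (lam (k + a)) y = 0)
    (hlu : dotProduct (lam (k + a)) u1 = -dotProduct (lam k) y) {v : ℂ} (hv : v ≠ 0)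
    (hl : v • lam (k + a) ∈ perp V' ⊔ FF lam a k (κ' - 1)) :
    finrank ℝ H₁ + finrank ℝ (SS (V' ⊓ perp (FF lam a k (κ' - 1))) y u1) ≤
        finrank ℝ (HK H₁ (lam (k + a))) + 2 * (a + b) + 1 ∧
      ((∃ (α : ℝ) (z : ℂ), α • Complex.I • y + z • u1 ∈ V' ⊓ perp (FF lam a k (κ' - 1)) ∧
          z * dotProduct (lam k) y ≠ 0) →
        finrank ℝ H₁ + finrank ℝ (SS (V' ⊓ perp (FF lam a k (κ' - 1))) y u1) ≤
          finrank ℝ (HK H₁ (lam (k + a))) + 2 * (a + b)) := by
  obtain ⟨l, hlam⟩ : ∃ l, l = lam (k + a) := ⟨_, rfl⟩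
  rw [← hlam] at hly hlu hl ⊢
  have hpU : Pres H₁ (V' ⊓ perp (FF lam a k (κ' - 1))) := hV'.inf (pres_FF hrows _).perp
  have hUY : V' ⊓ perp (FF lam a k (κ' - 1)) ≤ perp (perp V' ⊔ FF lam a k (κ' - 1)) := by
    rw [perp_sup, perp_perp]
  have star := fun (D : Der) (hD : D ∈ H₁) (w : E (a + b))
    (hw : w ∈ V' ⊓ perp (FF lam a k (κ' - 1))) => tc_star hpU hUY hv hl hD hw
  have hDy : ∀ D ∈ H₁, dotProduct (dE D l) y = 0 := by
    intro D hD
    rw [dot_zero D l y hly, hy D hD, dotProduct_zero, neg_zero]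
  have hDu : ∀ D ∈ H₁, dotProduct (dE D l) u1 = 0 := by
    intro D hD
    have h1 := dC_dot D l u1
    have h2 := dC_dot D (lam k) y
    rw [hrows k (by omega) D hD, hy D hD, zero_dotProduct, dotProduct_zero, add_zero] at h2
    rw [hlu, dC_neg, h2, hu1 D hD, dotProduct_zero, add_zero, neg_zero] at h1
    exact h1.symm
  obtain ⟨H₂, hH₂⟩ : ∃ H₂ : Submodule ℝ Der, H₂ = H₁ ⊓ LinearMap.ker (psi v) := ⟨_, rfl⟩
  have hle : H₂ ≤ H₁ := hH₂ ▸ inf_le_left
  have f2 : FiniteDimensional ℝ H₂ := tc_fin hle hfin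
  have f3 : FiniteDimensional ℝ (HK H₁ l) := tc_fin (HK_le _ _) hfin
  -- the first step
  have c1 : finrank ℝ H₁ ≤ finrank ℝ H₂ + 1 := by
    have h1 := cost_of_map hfin hle ((psi v).comp H₁.subtype) ⊤ inferInstance
      (fun _ => Submodule.mem_top) (fun D hD => by
        rw [hH₂]
        exact ⟨D.2, hD⟩)
    rwa [finrank_top, finrank_self] at h1
  -- the second step
  have c2 : finrank ℝ H₂ + finrank ℝ (SS (V' ⊓ perp (FF lam a k (κ' - 1))) y u1) ≤
      finrank ℝ (HK H₁ l) + 2 * (a + b) := by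
    have hKle : HK H₂ l ≤ H₂ := HK_le _ _
    obtain ⟨φ, hφ⟩ : ∃ φ : H₂ →ₗ[ℝ] E (a + b), ∀ D : H₂, φ D = v • dE (D : Der) l := by
      refine ⟨{ toFun := fun D => v • dE (D : Der) l, map_add' := ?_, map_smul' := ?_ },
        fun _ => rfl⟩
      · intro D D'
        rw [Submodule.coe_add, ← dEL_apply, map_add, smul_add]
        rfl
      · intro r D
        rw [Submodule.coe_smul, ← dEL_apply, map_smul, smul_comm]
        rfl
    have h1 := cost_of_map f2 hKle φ
      (perp (SS (V' ⊓ perp (FF lam a k (κ' - 1))) y u1)) inferInstance (fun D => by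
        rw [hφ]
        have hD1 : (D : Der) ∈ H₁ := hle D.2
        have hD2 : psi v (D : Der) = 0 := (hH₂.le D.2).2
        unfold SS
        rw [perp_sup]
        refine ⟨fun w hw => ?_, fun w hw => ?_⟩
        · rw [smul_dotProduct, smul_eq_mul, (star _ hD1 w hw).2, hD2, zero_mul]
        · have h4 : dotProduct (dE (D : Der) l) w = 0 := by
            induction hw using Submodule.span_induction with
            | mem x hx =>
              rcases hx with rfl | rfl | hx
              · rw [dotProduct_smul, hDy _ hD1, smul_zero]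
              · exact hDu _ hD1
              · rw [Set.mem_singleton_iff.1 hx, dotProduct_smul, hDu _ hD1, smul_zero]
            | zero => exact dotProduct_zero _
            | add x z _ _ h5 h6 => rw [dotProduct_add, h5, h6, add_zero]
            | smul r x _ h5 => rw [dotProduct_smul, h5, smul_zero]
          rw [smul_dotProduct, h4, smul_zero, Complex.zero_re]) (fun D hD => by
        rw [hφ, smul_eq_zero] at hD
        exact ⟨D.2, hD.resolve_left hv⟩)
    have h2 := finrank_perp (SS (V' ⊓ perp (FF lam a k (κ' - 1))) y u1)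
    have h3 := Submodule.finrank_mono (R := ℝ)
      (show HK H₂ l ≤ HK H₁ l from fun _ hD => ⟨hle hD.1, hD.2⟩)
    omega
  refine ⟨by omega, ?_⟩
  rintro ⟨α, z, hw, hz⟩
  have hH12 : H₁ ≤ H₂ := by
    intro D hD
    rw [hH₂]
    refine ⟨hD, ?_⟩
    obtain ⟨s1, s2⟩ := star D hD _ hw
    have e1 : dotProduct (dE D l) (α • Complex.I • y + z • u1) = 0 := by
      rw [dotProduct_add, dotProduct_smul, dotProduct_smul, dotProduct_smul, hDy D hD, hDu D hD]
      simp
    have e2 : dotProduct l (α • Complex.I • y + z • u1) = -(z * dotProduct (lam k) y) := by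
      rw [dotProduct_add, dotProduct_smul, dotProduct_smul, dotProduct_smul, hly, hlu]
      simp
    rw [e1, mul_zero, Complex.zero_re] at s2
    have e3 : v * dotProduct l (α • Complex.I • y + z • u1) ≠ 0 := by
      rw [e2]
      exact mul_ne_zero hv (neg_ne_zero.2 hz)
    have e4 : (v * dotProduct l (α • Complex.I • y + z • u1)).im ≠ 0 := by
      intro h5
      exact e3 (Complex.ext s1 h5)
    exact (mul_eq_zero.1 s2.symm).resolve_right e4
  have c3 := Submodule.finrank_mono (R := ℝ) hH12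
  omega

end Pool.Agent.H45.DQ
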