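import Pool.Agent.H45.DQ.Sub3
import Pool.Agent.H45.DQ.St

/-!
# Module TrA: transitions, crude counts

The row `lam k` is replaced by `l = lam (k+a)`; `V` is replaced by `V'`; `H₁ = HV H V'`,
`H₂ = HK H₁ l`; `j' = 2a - finrank (V ⊓ V')`; `N' = perp V' ⊓ FF lam a (k+1) κ'`, `c = a + b`.

PROOF of `trans_A` (all of `N'` comes from `perp V ⊓ FF lam a k (κ'-1)`): this space is not `⊥`, so
`κ ≤ κ' - 1` (`Df.min`). If `κ = κ' - 1` then `ρ ≥ ρ'` (`finrank_mono`). So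
`2(a-κ) + (ρ-1) ≥ 2(a-κ') + (ρ'-1) + 2`: if `κ ≤ κ' - 2` because `ρ' - 1 ≤ 1`. Cost: `cost_dist` and
`kill_free`: `2cj' - j'^2 + 2c`.
PROOF of `trans_B1` (`ξ ∈ perp V' ⊓ FF lam a k (κ'-1)`, not in `perp V`): `κ' ≥ 2` (`FF_zero`).
`cost_dist_xi` with `F = FF lam a k (κ'-1)`, dimension at most `2κ' - 2`: cost of `V'` at most
`2cj' - j'^2 - 2a + 2κ' - 3`, and `kill_free`: `2c`. With `ρ' ≤ 2` the sum with the new defect is at most
`2cj' - j'^2 + 2c - 2`.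
PROOF of `trans_B2` (`v • l ∈ perp V' ⊔ FF lam a k (κ'-1)`, `v ≠ 0`): `cost_dist`: `2cj' - j'^2`; then
`kill_phase` for `H₁` with `Y = perp V' ⊔ FF lam a k (κ'-1)` (preserved by `H₁`, `pres_HV`, `Pres.perp`,
`pres_FF`), `finrank Y ≤ 2b + 2κ' - 2` (`finrank_Y_le`): cost `≤ 2b + 2κ' - 1 = 2c - 1 - 2(a-κ')`.
PROOF of `trans_B2c` (`l ∈ Y` and `I • l ∈ Y`): `kill_mem` instead of `kill_phase`.
`exists_row`: if `ξ ∈ perp V' ⊓ FF lam a (k+1) κ'` is not in `FF lam a k (κ'-1)`, then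
`FF_succ_mem` (with `κ' = (κ'-1)+1`) gives `ξ = v • l + f`, `v ≠ 0`, so `v • l = ξ - f ∈ Y`.
`exists_row_two`: `cplx_of_two` with `N = N'`, `F = FF lam a k (κ'-1)`.
-/

set_option autoImplicit false

open Module

namespace Pool.Agent.H45.DQ

theorem exists_row {a b : ℕ} {lam : ℕ → E (a + b)} {k κ' : ℕ} {V' : Submodule ℝ (E (a + b))}
    (hκ : 1 ≤ κ') {ξ : E (a + b)} (h1 : ξ ∈ perp V') (h2 : ξ ∈ FF lam a (k + 1) κ')
    (h3 : ξ ∉ FF lam a k (κ' - 1)) :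
    ∃ v : ℂ, v ≠ 0 ∧ v • lam (k + a) ∈ perp V' ⊔ FF lam a k (κ' - 1) := by
  obtain ⟨i, rfl⟩ : ∃ i, κ' = i + 1 := ⟨κ' - 1, by omega⟩
  rw [Nat.add_sub_cancel] at h3 ⊢
  obtain ⟨v, f, hf, rfl⟩ := FF_succ_mem h2
  refine ⟨v, ?_, ?_⟩
  · rintro rfl
    rw [zero_smul, zero_add] at h3
    exact h3 hf
  · have h4 : v • lam (k + a) = (v • lam (k + a) + f) - f := by abel
    rw [h4]
    exact sub_mem (Submodule.mem_sup_left h1) (Submodule.mem_sup_right hf)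

theorem exists_row_two {a b : ℕ} {lam : ℕ → E (a + b)} {k κ' : ℕ}
    {V' : Submodule ℝ (E (a + b))} (hd' : Df lam a (k + 1) V' κ' 2)
    (hN : perp V' ⊓ FF lam a (k + 1) κ' ⊓ FF lam a k (κ' - 1) = ⊥) :
    lam (k + a) ∈ perp V' ⊔ FF lam a k (κ' - 1) ∧
      Complex.I • lam (k + a) ∈ perp V' ⊔ FF lam a k (κ' - 1) := by
  have hκ := hd'.one_le
  obtain ⟨i, rfl⟩ : ∃ i, κ' = i + 1 := ⟨κ' - 1, by omega⟩
  rw [Nat.add_sub_cancel] at hN ⊢
  have h1 := cplx_of_two (l := lam (k + a)) hd'.rank hN fun u hu => by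
    obtain ⟨v, f, hf, h2⟩ := FF_succ_mem hu.2
    exact ⟨v, f, hf, h2⟩
  have h2 : perp V' ⊓ FF lam a (k + 1) (i + 1) ⊔ FF lam a k i ≤ perp V' ⊔ FF lam a k i :=
    sup_le_sup_right inf_le_left _
  exact ⟨h2 h1.1, h2 h1.2⟩

private theorem fin_HV {c : ℕ} {H : Submodule ℝ Der} (hH : FiniteDimensional ℝ H)
    (V : Submodule ℝ (E c)) : FiniteDimensional ℝ (HV H V) :=
  Submodule.finiteDimensional_of_le (HV_le H V)

theorem trans_A {a b j' : ℕ} {lam : ℕ → E (a + b)} {k : ℕ} {H : Submodule ℝ Der}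
    {V V' : Submodule ℝ (E (a + b))} (h : Ctx lam k H V) {κ ρ κ' ρ' : ℕ}
    (hd : Df lam a k V κ ρ) (hd' : Df lam a (k + 1) V' κ' ρ') (hV' : finrank ℝ V' = 2 * a)
    (hj : finrank ℝ (V ⊓ V' : Submodule ℝ (E (a + b))) + j' = 2 * a)
    (hA : perp V' ⊓ FF lam a (k + 1) κ' ≤ perp V ⊓ FF lam a k (κ' - 1)) :
    finrank ℝ H + 2 * (a - κ') + (ρ' - 1) + 2 + j' * j' ≤
      finrank ℝ (HK (HV H V') (lam (k + a))) + 2 * (a - κ) + (ρ - 1) + 2 * (a + b) +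
        2 * (a + b) * j' := by
  have h1 := cost_dist h.fin h.pres h.rk hV' hj
  have h2 := kill_free (fin_HV h.fin V') (lam (k + a))
  have hne : perp V ⊓ FF lam a k (κ' - 1) ≠ ⊥ := by
    intro h3
    rw [h3, le_bot_iff] at hA
    have h4 := hd'.rank
    rw [hA, finrank_bot] at h4
    have h5 := hd'.pos
    omega
  have h3 := hd.min hne
  have h4 : 2 * (a - κ') + (ρ' - 1) + 2 ≤ 2 * (a - κ) + (ρ - 1) := by
    have e1 := hd.one_le
    have e2 := hd.le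
    have e3 := hd'.one_le
    have e4 := hd'.le
    have e5 := hd.pos
    have e6 := hd'.two
    by_cases h5 : κ = κ' - 1
    · rw [← h5] at hA
      have h6 := Submodule.finrank_mono hA
      rw [hd'.rank, hd.rank] at h6
      omega
    · omega
  generalize j' * j' = x at *
  generalize 2 * (a + b) * j' = y at *
  omega

theorem trans_B1 {a b j' : ℕ} {lam : ℕ → E (a + b)} {k : ℕ} {H : Submodule ℝ Der}
    {V V' : Submodule ℝ (E (a + b))} (h : Ctx lam k H V) {κ' ρ' : ℕ}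
    (hd' : Df lam a (k + 1) V' κ' ρ') (hV' : finrank ℝ V' = 2 * a)
    (hj : finrank ℝ (V ⊓ V' : Submodule ℝ (E (a + b))) + j' = 2 * a) {ξ : E (a + b)}
    (h1 : ξ ∈ perp V') (h2 : ξ ∈ FF lam a k (κ' - 1)) (h3 : ξ ∉ perp V) :
    finrank ℝ H + 2 * (a - κ') + (ρ' - 1) + 2 + j' * j' ≤
      finrank ℝ (HK (HV H V') (lam (k + a))) + 2 * (a + b) + 2 * (a + b) * j' := by
  have h4 := cost_dist_xi h.fin h.pres h.rk hV' hj (pres_FF h.kil (κ' - 1)) h2 h1 h3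
  have h5 := kill_free (fin_HV h.fin V') (lam (k + a))
  have h6 := finrank_FF_le lam a k (κ' - 1)
  have e3 := hd'.one_le
  have e4 := hd'.le
  have e6 := hd'.two
  generalize j' * j' = x at *
  generalize 2 * (a + b) * j' = y at *
  omega

private theorem pres_Y {a b : ℕ} {lam : ℕ → E (a + b)} {k : ℕ} {H : Submodule ℝ Der}
    {V V' : Submodule ℝ (E (a + b))} (h : Ctx lam k H V) (i : ℕ) :
    Pres (HV H V') (perp V' ⊔ FF lam a k i) :=
  (pres_HV H V').perp.sup (pres_FF (fun m hm => (h.kil m hm).mono (HV_le H V')) i)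

theorem trans_B2 {a b j' : ℕ} {lam : ℕ → E (a + b)} {k : ℕ} {H : Submodule ℝ Der}
    {V V' : Submodule ℝ (E (a + b))} (h : Ctx lam k H V) {κ' : ℕ} (hκ : 1 ≤ κ') (hκa : κ' ≤ a)
    (hV' : finrank ℝ V' = 2 * a)
    (hj : finrank ℝ (V ⊓ V' : Submodule ℝ (E (a + b))) + j' = 2 * a) {v : ℂ} (hv : v ≠ 0)
    (hl : v • lam (k + a) ∈ perp V' ⊔ FF lam a k (κ' - 1)) :
    finrank ℝ H + 2 * (a - κ') + 1 + j' * j' ≤
      finrank ℝ (HK (HV H V') (lam (k + a))) + 2 * (a + b) + 2 * (a + b) * j' := by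
  have h1 := cost_dist h.fin h.pres h.rk hV' hj
  have h2 := kill_phase (fin_HV h.fin V') (pres_Y h (κ' - 1)) hv hl
  have h3 := finrank_Y_le lam k (κ' - 1) hV'
  generalize j' * j' = x at *
  generalize 2 * (a + b) * j' = y at *
  omega

theorem trans_B2c {a b j' : ℕ} {lam : ℕ → E (a + b)} {k : ℕ} {H : Submodule ℝ Der}
    {V V' : Submodule ℝ (E (a + b))} (h : Ctx lam k H V) {κ' : ℕ} (hκ : 1 ≤ κ') (hκa : κ' ≤ a)
    (hV' : finrank ℝ V' = 2 * a)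
    (hj : finrank ℝ (V ⊓ V' : Submodule ℝ (E (a + b))) + j' = 2 * a)
    (hl : lam (k + a) ∈ perp V' ⊔ FF lam a k (κ' - 1)) :
    finrank ℝ H + 2 * (a - κ') + 2 + j' * j' ≤
      finrank ℝ (HK (HV H V') (lam (k + a))) + 2 * (a + b) + 2 * (a + b) * j' := by
  have h1 := cost_dist h.fin h.pres h.rk hV' hj
  have h2 := kill_mem (fin_HV h.fin V') (pres_Y h (κ' - 1)) hl
  have h3 := finrank_Y_le lam k (κ' - 1) hV'
  generalize j' * j' = x at *
  generalize 2 * (a + b) * j' = y at *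
  omega

end Pool.Agent.H45.DQ
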